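import Mathlib

section

/-!
Kempe changes and Kierstead paths in multigraphs given by an edge type `E` and a map
`ends : E → Sym2 V`.
-/

namespace Pool.Agent.Lib.MP_633d19_co

open Classical

/-- Two walks that never turn back in a graph of maximum degree two, both ending in a
vertex of degree at most one, end in the same vertex. -/
theorem path_end_unique {V : Type*} (H : SimpleGraph V)
    (hdeg : ∀ x a b c, H.Adj x a → H.Adj x b → H.Adj x c → a = b ∨ b = c ∨ a = c)
    {v w : V} (hv : ∀ a b, H.Adj v a → H.Adj v b → a = b)
    (hw : ∀ a b, H.Adj w a → H.Adj w b → a = b) :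
    ∀ (n : ℕ) (x y : V), H.Adj y x → ∀ (p : H.Walk x v) (q : H.Walk x w),
      p.IsPath → q.IsPath → y ∉ p.support → y ∉ q.support → p.length ≤ n → v = w := by
  intro n
  induction n with
  | zero =>
    intro x y hyx p q hp hq hyp hyq hn
    have hp0 : p.length = 0 := by omega
    have hxv : x = v := SimpleGraph.Walk.eq_of_length_eq_zero hp0
    subst hxv
    cases q with
    | nil => rfl
    | cons h q' =>
      rename_i z
      exfalso
      have h1 : y = z := hv y z hyx.symm h
      apply hyq
      rw [h1]
      simp
  | succ n ih =>
    intro x y hyx p q hp hq hyp hyq hn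
    cases p with
    | nil =>
      cases q with
      | nil => rfl
      | cons h q' =>
        rename_i z
        exfalso
        have h1 : y = z := hv y z hyx.symm h
        apply hyq
        rw [h1]
        simp
    | cons h p' =>
      rename_i z
      cases q with
      | nil =>
        exfalso
        have h1 : y = z := hw y z hyx.symm h
        apply hyp
        rw [h1]
        simp
      | cons h' q' =>
        rename_i z'
        have hyz : y ≠ z := by
          intro h1
          apply hyp
          rw [h1]
          simp
        have hyz' : y ≠ z' := by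
          intro h1
          apply hyq
          rw [h1]
          simp
        have hzz : z = z' := by
          rcases hdeg x y z z' hyx.symm h h' with h1 | h1 | h1
          · exact absurd h1 hyz
          · exact h1
          · exact absurd h1 hyz'
        subst hzz
        have hp1 := (SimpleGraph.Walk.cons_isPath_iff h p').1 hp
        have hq1 := (SimpleGraph.Walk.cons_isPath_iff h' q').1 hq
        refine ih z x h p' q' hp1.1 hq1.1 hp1.2 hq1.2 ?_
        simp at hn
        omega

/-- In a graph of maximum degree two, three distinct vertices of degree at most one are not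
all in the same component. -/
theorem three_ends {V : Type*} (H : SimpleGraph V)
    (hdeg : ∀ x a b c, H.Adj x a → H.Adj x b → H.Adj x c → a = b ∨ b = c ∨ a = c)
    {u v w : V} (hu : ∀ a b, H.Adj u a → H.Adj u b → a = b)
    (hv : ∀ a b, H.Adj v a → H.Adj v b → a = b)
    (hw : ∀ a b, H.Adj w a → H.Adj w b → a = b)
    (huv : u ≠ v) (huw : u ≠ w) (hvw : v ≠ w) (h1 : H.Reachable u v) (h2 : H.Reachable u w) :
    False := by
  obtain ⟨p, hp⟩ := h1.exists_isPath
  obtain ⟨q, hq⟩ := h2.exists_isPath
  cases p with
  | nil => exact huv rfl
  | cons h p' =>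
    rename_i z
    cases q with
    | nil => exact huw rfl
    | cons h' q' =>
      rename_i z'
      have hzz : z = z' := hu z z' h h'
      subst hzz
      have hp1 := (SimpleGraph.Walk.cons_isPath_iff h p').1 hp
      have hq1 := (SimpleGraph.Walk.cons_isPath_iff h' q').1 hq
      exact hvw (path_end_unique H hdeg hv hw p'.length z u h p' q' hp1.1 hq1.1 hp1.2 hq1.2
        le_rfl)

section coloring

variable {V E C : Type*} (ends : E → Sym2 V)

/-- `c` is a proper edge colouring of the edges in `D`. -/
def ProperOn (D : Finset E) (c : E → C) : Prop :=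
  ∀ e ∈ D, ∀ e' ∈ D, e ≠ e' → ∀ v, v ∈ ends e → v ∈ ends e' → c e ≠ c e'

/-- The colour `γ` is missing at `v`. -/
def Missing (D : Finset E) (c : E → C) (v : V) (γ : C) : Prop :=
  ∀ e ∈ D, v ∈ ends e → c e ≠ γ

/-- Swap the colours `α`, `δ` on the edges meeting `K`. -/
noncomputable def swapc (c : E → C) (α δ : C) (K : V → Prop) : E → C :=
  fun e => if ∃ u ∈ ends e, K u then Equiv.swap α δ (c e) else c e

/-- `K` is closed under edges coloured `α` or `δ`. -/
def ClosedK (D : Finset E) (c : E → C) (α δ : C) (K : V → Prop) : Prop :=
  ∀ e ∈ D, (c e = α ∨ c e = δ) → ∀ u ∈ ends e, ∀ w ∈ ends e, K u → K w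

variable {ends}

theorem swapc_of_mem {c : E → C} {α δ : C} {K : V → Prop} {e : E} {v : V} (hv : v ∈ ends e)
    (hK : K v) : swapc ends c α δ K e = Equiv.swap α δ (c e) := by
  unfold swapc
  rw [if_pos ⟨v, hv, hK⟩]

theorem swapc_of_not {D : Finset E} {c : E → C} {α δ : C} {K : V → Prop}
    (hcl : ClosedK ends D c α δ K) {e : E} (he : e ∈ D) {v : V} (hv : v ∈ ends e)
    (hK : ¬ K v) : swapc ends c α δ K e = c e := by
  unfold swapc
  split_ifs with h
  · obtain ⟨u, hu, hKu⟩ := h
    apply Equiv.swap_apply_of_ne_of_ne
    · intro h1
      exact hK (hcl e he (Or.inl h1) u hu v hv hKu)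
    · intro h1
      exact hK (hcl e he (Or.inr h1) u hu v hv hKu)
  · rfl

theorem swapc_of_ne {c : E → C} {α δ : C} {K : V → Prop} {e : E}
    (h1 : c e ≠ α) (h2 : c e ≠ δ) : swapc ends c α δ K e = c e := by
  unfold swapc
  split_ifs with h
  · exact Equiv.swap_apply_of_ne_of_ne h1 h2
  · rfl

theorem properOn_swapc {D : Finset E} {c : E → C} {α δ : C} {K : V → Prop}
    (hc : ProperOn ends D c) (hcl : ClosedK ends D c α δ K) :
    ProperOn ends D (swapc ends c α δ K) := by
  intro e he e' he' hne v hv hv'
  by_cases hK : K v
  · rw [swapc_of_mem hv hK, swapc_of_mem hv' hK]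
    intro h
    exact hc e he e' he' hne v hv hv' ((Equiv.swap α δ).injective h)
  · rw [swapc_of_not hcl he hv hK, swapc_of_not hcl he' hv' hK]
    exact hc e he e' he' hne v hv hv'

theorem missing_swapc_not {D : Finset E} {c : E → C} {α δ : C} {K : V → Prop}
    (hcl : ClosedK ends D c α δ K) {v : V} (hK : ¬ K v) (γ : C) :
    Missing ends D (swapc ends c α δ K) v γ ↔ Missing ends D c v γ := by
  constructor
  · intro h e he hv
    have := h e he hv
    rwa [swapc_of_not hcl he hv hK] at this
  · intro h e he hv
    rw [swapc_of_not hcl he hv hK]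
    exact h e he hv

theorem missing_swapc_mem {D : Finset E} {c : E → C} {α δ : C} {K : V → Prop}
    {v : V} (hK : K v) (γ : C) :
    Missing ends D (swapc ends c α δ K) v (Equiv.swap α δ γ) ↔ Missing ends D c v γ := by
  constructor
  · intro h e he hv h1
    have := h e he hv
    rw [swapc_of_mem hv hK, h1] at this
    exact this rfl
  · intro h e he hv h1
    rw [swapc_of_mem hv hK] at h1
    exact h e he hv ((Equiv.swap α δ).injective h1)

/-- The graph of the edges coloured `α` or `δ`. -/
def abGraph (ends : E → Sym2 V) (D : Finset E) (c : E → C) (α δ : C) : SimpleGraph V where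
  Adj u w := u ≠ w ∧ ∃ e ∈ D, (c e = α ∨ c e = δ) ∧ ends e = s(u, w)
  symm := ⟨by
    rintro u w ⟨h, e, he, hc, hends⟩
    exact ⟨h.symm, e, he, hc, by rw [hends, Sym2.eq_swap]⟩⟩
  loopless := ⟨by
    rintro u ⟨h, _⟩
    exact h rfl⟩

theorem closedK_comp (ends : E → Sym2 V) (D : Finset E) (c : E → C) (α δ : C) (x : V) :
    ClosedK ends D c α δ (fun v => (abGraph ends D c α δ).Reachable x v) := by
  intro e he hc u hu w hw hK
  by_cases huw : u = w
  · rw [← huw]; exact hK
  · have h1 : ends e = s(u, w) := (Sym2.mem_and_mem_iff huw).1 ⟨hu, hw⟩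
    exact SimpleGraph.Reachable.trans hK (SimpleGraph.Adj.reachable ⟨huw, e, he, hc, h1⟩)

theorem abGraph_deg {D : Finset E} {c : E → C} {α δ : C} (hc : ProperOn ends D c) :
    ∀ x a b d, (abGraph ends D c α δ).Adj x a → (abGraph ends D c α δ).Adj x b →
      (abGraph ends D c α δ).Adj x d → a = b ∨ b = d ∨ a = d := by
  have key : ∀ x a b (e e' : E), e ∈ D → e' ∈ D → c e = c e' → ends e = s(x, a) →
      ends e' = s(x, b) → a = b := by
    intro x a b e e' he he' hcc h1 h2
    by_cases hee : e = e'
    · subst hee
      rw [h1] at h2
      exact Sym2.congr_right.1 h2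
    · exfalso
      exact hc e he e' he' hee x (by rw [h1]; exact Sym2.mem_mk_left x a)
        (by rw [h2]; exact Sym2.mem_mk_left x b) hcc
  rintro x a b d ⟨_, e1, he1, hc1, h1⟩ ⟨_, e2, he2, hc2, h2⟩ ⟨_, e3, he3, hc3, h3⟩
  rcases hc1 with hc1 | hc1 <;> rcases hc2 with hc2 | hc2 <;> rcases hc3 with hc3 | hc3
  · exact Or.inl (key x a b e1 e2 he1 he2 (by rw [hc1, hc2]) h1 h2)
  · exact Or.inl (key x a b e1 e2 he1 he2 (by rw [hc1, hc2]) h1 h2)
  · exact Or.inr (Or.inr (key x a d e1 e3 he1 he3 (by rw [hc1, hc3]) h1 h3))
  · exact Or.inr (Or.inl (key x b d e2 e3 he2 he3 (by rw [hc2, hc3]) h2 h3))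
  · exact Or.inr (Or.inl (key x b d e2 e3 he2 he3 (by rw [hc2, hc3]) h2 h3))
  · exact Or.inr (Or.inr (key x a d e1 e3 he1 he3 (by rw [hc1, hc3]) h1 h3))
  · exact Or.inl (key x a b e1 e2 he1 he2 (by rw [hc1, hc2]) h1 h2)
  · exact Or.inl (key x a b e1 e2 he1 he2 (by rw [hc1, hc2]) h1 h2)

theorem abGraph_end {D : Finset E} {c : E → C} {α δ : C} (hc : ProperOn ends D c) {v : V}
    (hm : Missing ends D c v α ∨ Missing ends D c v δ) :
    ∀ a b, (abGraph ends D c α δ).Adj v a → (abGraph ends D c α δ).Adj v b → a = b := by
  have key : ∀ x a b (e e' : E), e ∈ D → e' ∈ D → c e = c e' → ends e = s(x, a) →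
      ends e' = s(x, b) → a = b := by
    intro x a b e e' he he' hcc h1 h2
    by_cases hee : e = e'
    · subst hee
      rw [h1] at h2
      exact Sym2.congr_right.1 h2
    · exfalso
      exact hc e he e' he' hee x (by rw [h1]; exact Sym2.mem_mk_left x a)
        (by rw [h2]; exact Sym2.mem_mk_left x b) hcc
  rintro a b ⟨_, e1, he1, hc1, h1⟩ ⟨_, e2, he2, hc2, h2⟩
  have m1 : v ∈ ends e1 := by rw [h1]; exact Sym2.mem_mk_left v a
  have m2 : v ∈ ends e2 := by rw [h2]; exact Sym2.mem_mk_left v b
  apply key v a b e1 e2 he1 he2 _ h1 h2
  rcases hm with hm | hm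
  · have k1 := hm e1 he1 m1
    have k2 := hm e2 he2 m2
    rcases hc1 with hc1 | hc1
    · exact absurd hc1 k1
    · rcases hc2 with hc2 | hc2
      · exact absurd hc2 k2
      · rw [hc1, hc2]
  · have k1 := hm e1 he1 m1
    have k2 := hm e2 he2 m2
    rcases hc1 with hc1 | hc1
    · rcases hc2 with hc2 | hc2
      · rw [hc1, hc2]
      · exact absurd hc2 k2
    · exact absurd hc1 k1

/-- Kempe's lemma: if `u`, `v`, `w` are distinct and each misses `α` or `δ`, they are not all
in the same `(α,δ)`-component. -/
theorem kempe_three {D : Finset E} {c : E → C} {α δ : C} (hc : ProperOn ends D c)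
    {u v w : V} (huv : u ≠ v) (huw : u ≠ w) (hvw : v ≠ w)
    (hu : Missing ends D c u α ∨ Missing ends D c u δ)
    (hv : Missing ends D c v α ∨ Missing ends D c v δ)
    (hw : Missing ends D c w α ∨ Missing ends D c w δ)
    (h1 : (abGraph ends D c α δ).Reachable u v) (h2 : (abGraph ends D c α δ).Reachable u w) :
    False :=
  three_ends _ (abGraph_deg hc) (abGraph_end hc hu) (abGraph_end hc hv) (abGraph_end hc hw)
    huv huw hvw h1 h2

/-- A Kierstead path `y 0, …, y p` with edges `ed 2, …, ed p` and uncoloured edge `e0`. -/
structure KPath (ends : E → Sym2 V) (D : Finset E) (e0 : E) (c : E → C) (y : ℕ → V)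
    (ed : ℕ → E) (p : ℕ) : Prop where
  inj : ∀ i j, i ≤ p → j ≤ p → y i = y j → i = j
  start : ends e0 = s(y 0, y 1)
  mem : ∀ i, 2 ≤ i → i ≤ p → ed i ∈ D
  ends_eq : ∀ i, 2 ≤ i → i ≤ p → ends (ed i) = s(y (i - 1), y i)
  miss : ∀ i, 2 ≤ i → i ≤ p → ∃ j, j + 1 < i ∧ Missing ends D c (y j) (c (ed i))

theorem KPath.mono {D : Finset E} {e0 : E} {c : E → C} {y : ℕ → V} {ed : ℕ → E} {p q : ℕ}
    (h : KPath ends D e0 c y ed p) (hq : q ≤ p) : KPath ends D e0 c y ed q where
  inj := fun i j hi hj => h.inj i j (hi.trans hq) (hj.trans hq)
  start := h.start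
  mem := fun i h2 hi => h.mem i h2 (hi.trans hq)
  ends_eq := fun i h2 hi => h.ends_eq i h2 (hi.trans hq)
  miss := fun i h2 hi => h.miss i h2 (hi.trans hq)

/-- Kierstead's theorem: the vertices of a Kierstead path have disjoint sets of missing
colours. -/
theorem kierstead {F : Finset E} {e0 : E} (he0 : e0 ∈ F)
    (hF : ¬ ∃ c : E → C, ProperOn ends F c)
    (hmiss : ∀ c : E → C, ProperOn ends (F.erase e0) c → ∀ v, ∃ γ, Missing ends (F.erase e0) c v γ)
    (y : ℕ → V) (ed : ℕ → E) :
    ∀ p, 1 ≤ p → ∀ c : E → C, ProperOn ends (F.erase e0) c →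
      KPath ends (F.erase e0) e0 c y ed p →
      ∀ i, i < p → ∀ γ, ¬ (Missing ends (F.erase e0) c (y i) γ ∧
        Missing ends (F.erase e0) c (y p) γ) := by
  intro p
  induction p using Nat.strong_induction_on with
  | _ p IH =>
  intro hp
  rcases Nat.lt_or_ge p 2 with hp2 | hp2
  · -- base case
    have hp1 : p = 1 := by omega
    subst hp1
    intro c hc hk i hi γ ⟨h1, h2⟩
    have hi0 : i = 0 := by omega
    subst hi0
    apply hF
    refine ⟨Function.update c e0 γ, ?_⟩
    intro e he e' he' hne v hv hv'
    have hv01 : ∀ x, x ∈ ends e0 → x = y 0 ∨ x = y 1 := by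
      intro x hx
      rw [hk.start] at hx
      exact Sym2.mem_iff.1 hx
    by_cases h3 : e = e0
    · subst h3
      have h4 : e' ≠ e := fun h => hne h.symm
      rw [Function.update_self, Function.update_of_ne h4]
      have h5 : e' ∈ F.erase e := Finset.mem_erase.2 ⟨h4, he'⟩
      rcases hv01 v hv with h6 | h6
      · subst h6
        exact fun h => h1 e' h5 hv' h.symm
      · subst h6
        exact fun h => h2 e' h5 hv' h.symm
    · rw [Function.update_of_ne h3]
      have h5 : e ∈ F.erase e0 := Finset.mem_erase.2 ⟨h3, he⟩
      by_cases h4 : e' = e0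
      · subst h4
        rw [Function.update_self]
        rcases hv01 v hv' with h6 | h6
        · subst h6
          exact h1 e h5 hv
        · subst h6
          exact h2 e h5 hv
      · rw [Function.update_of_ne h4]
        exact hc e h5 e' (Finset.mem_erase.2 ⟨h4, he'⟩) hne v hv hv'
  · -- inductive step; reverse induction on `i`
    have main : ∀ m i, i + 1 + m = p → ∀ c : E → C, ProperOn ends (F.erase e0) c →
        KPath ends (F.erase e0) e0 c y ed p → ∀ γ, ¬ (Missing ends (F.erase e0) c (y i) γ ∧
        Missing ends (F.erase e0) c (y p) γ) := by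
      intro m
      induction m with
      | zero =>
        intro i hi c hc hk γ ⟨h1, h2⟩
        have hip : i = p - 1 := by omega
        subst hip
        obtain ⟨j, hj, hjm⟩ := hk.miss p hp2 le_rfl
        have hpe := hk.ends_eq p hp2 le_rfl
        have hpD := hk.mem p hp2 le_rfl
        have hβγ : γ ≠ c (ed p) := by
          intro h
          exact h2 (ed p) hpD (by rw [hpe]; exact Sym2.mem_mk_right _ _) h.symm
        set c' : E → C := Function.update c (ed p) γ with hc'
        have hmem : ∀ x, x ∈ ends (ed p) → x = y (p - 1) ∨ x = y p := by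
          intro x hx
          rw [hpe] at hx
          exact Sym2.mem_iff.1 hx
        have hproper : ProperOn ends (F.erase e0) c' := by
          intro e he e' he' hne v hv hv'
          by_cases h3 : e = ed p
          · subst h3
            have h4 : e' ≠ ed p := fun h => hne h.symm
            rw [hc', Function.update_self, Function.update_of_ne h4]
            rcases hmem v hv with h6 | h6
            · subst h6
              exact fun h => h1 e' he' hv' h.symm
            · subst h6
              exact fun h => h2 e' he' hv' h.symm
          · rw [hc', Function.update_of_ne h3]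
            by_cases h4 : e' = ed p
            · subst h4
              rw [Function.update_self]
              rcases hmem v hv' with h6 | h6
              · subst h6
                exact h1 e he hv
              · subst h6
                exact h2 e he hv
            · rw [Function.update_of_ne h4]
              exact hc e he e' he' hne v hv hv'
        -- missing colours at other vertices are unchanged
        have hmiss' : ∀ x, x ≠ y (p - 1) → x ≠ y p → ∀ η, Missing ends (F.erase e0) c x η →
            Missing ends (F.erase e0) c' x η := by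
          intro x hx1 hx2 η h e he hv
          have h3 : e ≠ ed p := by
            intro h3
            subst h3
            rcases hmem x hv with h4 | h4
            · exact hx1 h4
            · exact hx2 h4
          rw [hc', Function.update_of_ne h3]
          exact h e he hv
        have hne1 : ∀ t, t < p - 1 → y t ≠ y (p - 1) := by
          intro t ht h
          have := hk.inj t (p - 1) (by omega) (by omega) h
          omega
        have hne2 : ∀ t, t < p → y t ≠ y p := by
          intro t ht h
          have := hk.inj t p (by omega) le_rfl h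
          omega
        have hk' : KPath ends (F.erase e0) e0 c' y ed (p - 1) := by
          refine ⟨fun a b ha hb => hk.inj a b (by omega) (by omega), hk.start,
            fun a h2a ha => hk.mem a h2a (by omega), fun a h2a ha => hk.ends_eq a h2a (by omega),
            ?_⟩
          intro a h2a ha
          obtain ⟨b, hb, hbm⟩ := hk.miss a h2a (by omega)
          refine ⟨b, hb, ?_⟩
          have h3 : ed a ≠ ed p := by
            intro h3
            have h4 := hk.ends_eq a h2a (by omega)
            rw [h3, hpe] at h4
            have h5 : y p ∈ s(y (a - 1), y a) := by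
              rw [← h4]; exact Sym2.mem_mk_right _ _
            rcases Sym2.mem_iff.1 h5 with h6 | h6
            · exact hne2 (a - 1) (by omega) h6.symm
            · exact hne2 a (by omega) h6.symm
          rw [hc', Function.update_of_ne h3]
          exact hmiss' (y b) (hne1 b (by omega)) (hne2 b (by omega)) _ hbm
        refine IH (p - 1) (by omega) (by omega) c' hproper hk' j (by omega) (c (ed p)) ⟨?_, ?_⟩
        · exact hmiss' (y j) (hne1 j (by omega)) (hne2 j (by omega)) _ hjm
        · intro e he hv
          by_cases h3 : e = ed p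
          · subst h3
            rw [hc', Function.update_self]
            exact hβγ
          · rw [hc', Function.update_of_ne h3]
            exact hc e he (ed p) hpD h3 (y (p - 1)) hv
              (by rw [hpe]; exact Sym2.mem_mk_left _ _)
      | succ m ihm =>
        intro i hi c hc hk α ⟨hα1, hα2⟩
        -- facts about elementary initial segments
        have elem : ∀ a b, a < b → b < p → ∀ η, ¬ (Missing ends (F.erase e0) c (y a) η ∧
            Missing ends (F.erase e0) c (y b) η) := by
          intro a b hab hb η
          exact IH b hb (by omega) c hc (hk.mono (by omega)) a hab η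
        have elem' : ∀ a b, a < p → b < p → ∀ η, Missing ends (F.erase e0) c (y a) η →
            Missing ends (F.erase e0) c (y b) η → a = b := by
          intro a b ha hb η h1 h2
          rcases Nat.lt_trichotomy a b with h | h | h
          · exact absurd ⟨h1, h2⟩ (elem a b h hb η)
          · exact h
          · exact absurd ⟨h2, h1⟩ (elem b a h ha η)
        obtain ⟨δ, hδ⟩ := hmiss c hc (y (i + 1))
        have hαδ : α ≠ δ := by
          intro h
          subst h
          exact elem i (i + 1) (by omega) (by omega) α ⟨hα1, hδ⟩
        have yne : ∀ a b, a ≤ p → b ≤ p → a ≠ b → y a ≠ y b := by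
          intro a b ha hb hab h
          exact hab (hk.inj a b ha hb h)
        -- `y i` lies in the component of `y (i+1)`
        have hreach : (abGraph ends (F.erase e0) c α δ).Reachable (y (i + 1)) (y i) := by
          by_contra hcon
          set K : V → Prop := fun v => (abGraph ends (F.erase e0) c α δ).Reachable (y (i + 1)) v
            with hKdef
          have hcl : ClosedK ends (F.erase e0) c α δ K := closedK_comp ends _ c α δ (y (i + 1))
          have hK1 : K (y (i + 1)) := SimpleGraph.Reachable.refl _
          have hk' : KPath ends (F.erase e0) e0 (swapc ends c α δ K) y ed (i + 1) := by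
            refine ⟨fun a b ha hb => hk.inj a b (by omega) (by omega), hk.start,
              fun a h2a ha => hk.mem a h2a (by omega),
              fun a h2a ha => hk.ends_eq a h2a (by omega), ?_⟩
            intro a h2a ha
            obtain ⟨b, hb, hbm⟩ := hk.miss a h2a (by omega)
            have h3 : c (ed a) ≠ α := by
              intro h
              rw [h] at hbm
              have := elem' b i (by omega) (by omega) α hbm hα1
              omega
            have h4 : c (ed a) ≠ δ := by
              intro h
              rw [h] at hbm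
              have := elem' b (i + 1) (by omega) (by omega) δ hbm hδ
              omega
            refine ⟨b, hb, ?_⟩
            rw [swapc_of_ne h3 h4]
            by_cases hKb : K (y b)
            · have h5 := (missing_swapc_mem (D := F.erase e0) (c := c) (α := α) (δ := δ)
                (K := K) hKb (c (ed a))).2 hbm
              rwa [Equiv.swap_apply_of_ne_of_ne h3 h4] at h5
            · exact (missing_swapc_not hcl hKb _).2 hbm
          refine IH (i + 1) (by omega) (by omega) _ (properOn_swapc hc hcl) hk' i (by omega) α
            ⟨?_, ?_⟩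
          · exact (missing_swapc_not hcl hcon _).2 hα1
          · have h5 := (missing_swapc_mem (D := F.erase e0) (c := c) (α := α) (δ := δ)
                (K := K) hK1 δ).2 hδ
            rwa [Equiv.swap_apply_right] at h5
        -- component of `y p`
        set K : V → Prop := fun v => (abGraph ends (F.erase e0) c α δ).Reachable (y p) v
          with hKdef
        have hcl : ClosedK ends (F.erase e0) c α δ K := closedK_comp ends _ c α δ (y p)
        have hKp : K (y p) := SimpleGraph.Reachable.refl _
        have hKi1 : ¬ K (y (i + 1)) := by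
          intro h
          exact kempe_three hc (yne (i + 1) i (by omega) (by omega) (by omega))
            (yne (i + 1) p (by omega) (by omega) (by omega))
            (yne i p (by omega) (by omega) (by omega)) (Or.inr hδ) (Or.inl hα1) (Or.inl hα2)
            hreach h.symm
        have hKi : ¬ K (y i) := by
          intro h
          exact hKi1 (SimpleGraph.Reachable.trans h hreach.symm)
        have hk' : KPath ends (F.erase e0) e0 (swapc ends c α δ K) y ed p := by
          refine ⟨hk.inj, hk.start, hk.mem, hk.ends_eq, ?_⟩
          intro a h2a ha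
          obtain ⟨b, hb, hbm⟩ := hk.miss a h2a ha
          have haD := hk.mem a h2a ha
          have hae := hk.ends_eq a h2a ha
          have hmem1 : y (a - 1) ∈ ends (ed a) := by rw [hae]; exact Sym2.mem_mk_left _ _
          by_cases h3 : c (ed a) = α
          · -- then `b = i`
            rw [h3] at hbm
            have hbi : b = i := elem' b i (by omega) (by omega) α hbm hα1
            subst hbi
            by_cases hKa : K (y (a - 1))
            · -- swapped to `δ`
              have h5 : b + 1 ≠ a - 1 := by
                intro h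
                rw [← h] at hKa
                exact hKi1 hKa
              refine ⟨b + 1, by omega, ?_⟩
              rw [swapc_of_mem hmem1 hKa, h3, Equiv.swap_apply_left]
              exact (missing_swapc_not hcl hKi1 _).2 hδ
            · refine ⟨b, hb, ?_⟩
              rw [swapc_of_not hcl haD hmem1 hKa, h3]
              exact (missing_swapc_not hcl hKi _).2 hα1
          · by_cases h4 : c (ed a) = δ
            · rw [h4] at hbm
              have hbi : b = i + 1 := elem' b (i + 1) (by omega) (by omega) δ hbm hδ
              subst hbi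
              by_cases hKa : K (y (a - 1))
              · refine ⟨i, by omega, ?_⟩
                rw [swapc_of_mem hmem1 hKa, h4, Equiv.swap_apply_right]
                exact (missing_swapc_not hcl hKi _).2 hα1
              · refine ⟨i + 1, hb, ?_⟩
                rw [swapc_of_not hcl haD hmem1 hKa, h4]
                exact (missing_swapc_not hcl hKi1 _).2 hδ
            · refine ⟨b, hb, ?_⟩
              rw [swapc_of_ne h3 h4]
              by_cases hKb : K (y b)
              · have h5 := (missing_swapc_mem (D := F.erase e0) (c := c) (α := α) (δ := δ)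
                  (K := K) hKb (c (ed a))).2 hbm
                rwa [Equiv.swap_apply_of_ne_of_ne h3 h4] at h5
              · exact (missing_swapc_not hcl hKb _).2 hbm
        refine ihm (i + 1) (by omega) _ (properOn_swapc hc hcl) hk' δ ⟨?_, ?_⟩
        · exact (missing_swapc_not hcl hKi1 _).2 hδ
        · have h5 := (missing_swapc_mem (D := F.erase e0) (c := c) (α := α) (δ := δ)
            (K := K) hKp α).2 hα2
          rwa [Equiv.swap_apply_left] at h5
    intro c hc hk i hi γ
    exact main (p - i - 1) i (by omega) c hc hk γ

end coloring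

end Pool.Agent.Lib.MP_633d19_co
end

section

/-!
Consequences of Kierstead's theorem: Goldberg's bound in terms of the odd girth, and the
bound `Δ + 1` for graphs whose multiplicity is at most half of the girth.
-/

namespace Pool.Agent.Lib.MP_633d19_co

open Classical

variable {V E : Type*} {ends : E → Sym2 V}

/-- Every cycle (of length at least three) has length at least `g`. -/
def GirthGE (ends : E → Sym2 V) (g : ℕ) : Prop :=
  ∀ ℓ, 3 ≤ ℓ → ∀ y : ℕ → V, (∀ i < ℓ, ∀ j < ℓ, y i = y j → i = j) →
    (∀ i < ℓ, ∃ e, ends e = s(y i, y ((i + 1) % ℓ))) → g ≤ ℓ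

/-- number of edges of `D` at `v` -/
noncomputable def degOn (ends : E → Sym2 V) (D : Finset E) (v : V) : ℕ :=
  (D.filter (fun e => v ∈ ends e)).card

/-- the finset of missing colours -/
noncomputable def Mis (ends : E → Sym2 V) (D : Finset E) {k : ℕ} (c : E → Fin k) (v : V) :
    Finset (Fin k) :=
  Finset.univ.filter (fun γ => Missing ends D c v γ)

theorem mem_Mis {D : Finset E} {k : ℕ} {c : E → Fin k} {v : V} {γ : Fin k} :
    γ ∈ Mis ends D c v ↔ Missing ends D c v γ := by
  unfold Mis
  simp

theorem card_Mis (D : Finset E) {k : ℕ} (c : E → Fin k) (v : V) :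
    k ≤ (Mis ends D c v).card + degOn ends D v := by
  have h : (Finset.univ : Finset (Fin k)) ⊆
      Mis ends D c v ∪ (D.filter (fun e => v ∈ ends e)).image c := by
    intro γ _
    rw [Finset.mem_union]
    by_cases hγ : Missing ends D c v γ
    · exact Or.inl (mem_Mis.2 hγ)
    · right
      unfold Missing at hγ
      push Not at hγ
      obtain ⟨e, he, hv, hc⟩ := hγ
      exact Finset.mem_image.2 ⟨e, Finset.mem_filter.2 ⟨he, hv⟩, hc⟩
  have h1 := Finset.card_le_card h
  have h2 := Finset.card_union_le (Mis ends D c v) ((D.filter (fun e => v ∈ ends e)).image c)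
  have h3 : ((D.filter (fun e => v ∈ ends e)).image c).card ≤ degOn ends D v :=
    Finset.card_image_le
  simp only [Finset.card_univ, Fintype.card_fin] at h1
  omega

theorem degOn_erase_le (F : Finset E) (e0 : E) (v : V) :
    degOn ends (F.erase e0) v ≤ degOn ends F v := by
  unfold degOn
  apply Finset.card_le_card
  intro e he
  rw [Finset.mem_filter] at he ⊢
  exact ⟨Finset.mem_of_mem_erase he.1, he.2⟩

theorem degOn_erase_lt {F : Finset E} {e0 : E} (he0 : e0 ∈ F) {v : V} (hv : v ∈ ends e0) :
    degOn ends (F.erase e0) v + 1 ≤ degOn ends F v := by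
  unfold degOn
  have : (F.erase e0).filter (fun e => v ∈ ends e) ⊂ F.filter (fun e => v ∈ ends e) := by
    rw [Finset.ssubset_iff_of_subset]
    · refine ⟨e0, Finset.mem_filter.2 ⟨he0, hv⟩, ?_⟩
      rw [Finset.mem_filter]
      intro h
      exact Finset.notMem_erase e0 F h.1
    · intro e he
      rw [Finset.mem_filter] at he ⊢
      exact ⟨Finset.mem_of_mem_erase he.1, he.2⟩
  exact Finset.card_lt_card this

theorem degOn_mono {F F' : Finset E} (h : F ⊆ F') (v : V) : degOn ends F v ≤ degOn ends F' v := by
  unfold degOn
  exact Finset.card_le_card (Finset.filter_subset_filter _ h)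

/-- Extending a Kierstead path. -/
theorem KPath.extend {D : Finset E} {e0 : E} {C : Type*} {c : E → C} {y : ℕ → V} {ed : ℕ → E}
    {p : ℕ} (hp : 1 ≤ p) (h : KPath ends D e0 c y ed p) {f : E} {z : V} (hf : f ∈ D)
    (hfe : ends f = s(y p, z)) (hz : ∀ i ≤ p, y i ≠ z) {j : ℕ} (hj : j < p)
    (hm : Missing ends D c (y j) (c f)) :
    KPath ends D e0 c (Function.update y (p + 1) z) (Function.update ed (p + 1) f) (p + 1) := by
  have hy : ∀ i, i ≤ p → Function.update y (p + 1) z i = y i := by
    intro i hi
    rw [Function.update_of_ne]
    omega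
  have hed : ∀ i, i ≤ p → Function.update ed (p + 1) f i = ed i := by
    intro i hi
    rw [Function.update_of_ne]
    omega
  refine ⟨?_, ?_, ?_, ?_, ?_⟩
  · intro i j hi hj hij
    rcases Nat.lt_or_ge p i with h1 | h1
    · have h1' : i = p + 1 := by omega
      rcases Nat.lt_or_ge p j with h2 | h2
      · omega
      · exfalso
        subst h1'
        rw [Function.update_self, hy j h2] at hij
        exact hz j h2 hij.symm
    · rcases Nat.lt_or_ge p j with h2 | h2
      · exfalso
        have h2' : j = p + 1 := by omega
        subst h2'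
        rw [Function.update_self, hy i h1] at hij
        exact hz i h1 hij
      · rw [hy i h1, hy j h2] at hij
        exact h.inj i j h1 h2 hij
  · rw [hy 0 (by omega), hy 1 hp]
    exact h.start
  · intro i h2 hi
    rcases Nat.lt_or_ge p i with h1 | h1
    · have h1' : i = p + 1 := by omega
      subst h1'
      rw [Function.update_self]
      exact hf
    · rw [hed i h1]
      exact h.mem i h2 h1
  · intro i h2 hi
    rcases Nat.lt_or_ge p i with h1 | h1
    · have h1' : i = p + 1 := by omega
      subst h1'
      rw [Function.update_self, Function.update_self, hy _ (by omega)]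
      simpa using hfe
    · rw [hed i h1, hy i h1, hy (i - 1) (by omega)]
      exact h.ends_eq i h2 h1
  · intro i h2 hi
    rcases Nat.lt_or_ge p i with h1 | h1
    · have h1' : i = p + 1 := by omega
      subst h1'
      refine ⟨j, by omega, ?_⟩
      rw [Function.update_self, hy j (by omega)]
      exact hm
    · obtain ⟨j', hj', hm'⟩ := h.miss i h2 h1
      refine ⟨j', hj', ?_⟩
      rw [hed i h1, hy j' (by omega)]
      exact hm'

/-- In a non-colourable edge set, the colouring of `F \ e0` with a Kierstead path: a counting
bound. -/
theorem sum_Mis_le {F : Finset E} {e0 : E} (he0 : e0 ∈ F) {k : ℕ}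
    (hF : ¬ ∃ c : E → Fin k, ProperOn ends F c) (hk : ∀ v, degOn ends F v < k)
    {c : E → Fin k} (hc : ProperOn ends (F.erase e0) c) {y : ℕ → V} {ed : ℕ → E} {p : ℕ}
    (hp : 1 ≤ p) (h : KPath ends (F.erase e0) e0 c y ed p) :
    ∑ i ∈ Finset.range (p + 1), (Mis ends (F.erase e0) c (y i)).card ≤ k := by
  have _ := hp
  have hmiss : ∀ c : E → Fin k, ProperOn ends (F.erase e0) c →
      ∀ v, ∃ γ, Missing ends (F.erase e0) c v γ := by
    intro c _ v
    have h1 := card_Mis (ends := ends) (F.erase e0) c v
    have h2 := degOn_erase_le (ends := ends) F e0 v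
    have h3 := hk v
    have h4 : 0 < (Mis ends (F.erase e0) c v).card := by omega
    obtain ⟨γ, hγ⟩ := Finset.card_pos.1 h4
    exact ⟨γ, mem_Mis.1 hγ⟩
  have hd : ∀ i j, i < j → j ≤ p →
      Disjoint (Mis ends (F.erase e0) c (y i)) (Mis ends (F.erase e0) c (y j)) := by
    intro i j hij hj
    rw [Finset.disjoint_left]
    intro γ h1 h2
    exact kierstead he0 hF hmiss y ed j (by omega) c hc (h.mono hj) i hij γ
      ⟨mem_Mis.1 h1, mem_Mis.1 h2⟩
  rw [← Finset.card_biUnion]
  · have := Finset.card_le_univ ((Finset.range (p + 1)).biUnion
      (fun i => Mis ends (F.erase e0) c (y i)))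
    simpa using this
  · intro i hi j hj hij
    rw [Finset.mem_coe, Finset.mem_range] at hi hj
    rcases Nat.lt_or_ge i j with h1 | h1
    · exact hd i j h1 (by omega)
    · exact (hd j i (by omega) (by omega)).symm

theorem exists_critical [Fintype E] {k : ℕ} (hk : 0 < k)
    (h : ¬ ∃ c : E → Fin k, ProperOn ends Finset.univ c) :
    ∃ F : Finset E, ∃ e0 ∈ F, (¬ ∃ c : E → Fin k, ProperOn ends F c) ∧
      ∃ c : E → Fin k, ProperOn ends (F.erase e0) c := by
  have key : ∀ n, ∀ F : Finset E, F.card = n → (¬ ∃ c : E → Fin k, ProperOn ends F c) →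
      ∃ F : Finset E, ∃ e0 ∈ F, (¬ ∃ c : E → Fin k, ProperOn ends F c) ∧
      ∃ c : E → Fin k, ProperOn ends (F.erase e0) c := by
    intro n
    induction n with
    | zero =>
      intro F hF hcol
      exfalso
      rw [Finset.card_eq_zero] at hF
      subst hF
      apply hcol
      refine ⟨fun _ => ⟨0, hk⟩, ?_⟩
      intro e he
      exact absurd he (Finset.notMem_empty e)
    | succ n ih =>
      intro F hF hcol
      have hne : F.Nonempty := by
        rw [← Finset.card_pos]; omega
      obtain ⟨e0, he0⟩ := hne
      by_cases h1 : ∃ c : E → Fin k, ProperOn ends (F.erase e0) c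
      · exact ⟨F, e0, he0, hcol, h1⟩
      · exact ih (F.erase e0) (by rw [Finset.card_erase_of_mem he0]; omega) h1
  exact key _ Finset.univ rfl h

/-- Long alternating Kierstead paths. -/
theorem exists_long_path {F : Finset E} {e0 : E} (he0 : e0 ∈ F) {k : ℕ}
    (hF : ¬ ∃ c : E → Fin k, ProperOn ends F c) (hk : ∀ v, degOn ends F v < k)
    (hloop : ∀ e, ¬ (ends e).IsDiag) {s : ℕ} (hg : GirthGE ends (2 * s))
    {c : E → Fin k} (hc : ProperOn ends (F.erase e0) c) :
    ∀ q, 1 ≤ q → q ≤ 2 * s → ∃ (y : ℕ → V) (ed : ℕ → E), KPath ends (F.erase e0) e0 c y ed q := by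
  have hmiss : ∀ c : E → Fin k, ProperOn ends (F.erase e0) c →
      ∀ v, ∃ γ, Missing ends (F.erase e0) c v γ := by
    intro c _ v
    have h1 := card_Mis (ends := ends) (F.erase e0) c v
    have h2 := degOn_erase_le (ends := ends) F e0 v
    have h3 := hk v
    have h4 : 0 < (Mis ends (F.erase e0) c v).card := by omega
    obtain ⟨γ, hγ⟩ := Finset.card_pos.1 h4
    exact ⟨γ, mem_Mis.1 hγ⟩
  -- the endpoints of `e0`
  obtain ⟨a, b, hab⟩ : ∃ a b, ends e0 = s(a, b) := by
    induction h : ends e0 using Sym2.ind with
    | _ a b => exact ⟨a, b, rfl⟩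
  have hne : a ≠ b := by
    intro h
    apply hloop e0
    rw [hab, h]
    exact Sym2.mk_isDiag_iff.2 rfl
  obtain ⟨β, hβ⟩ := hmiss c hc a
  obtain ⟨α, hα⟩ := hmiss c hc b
  have main : ∀ q, 1 ≤ q → q ≤ 2 * s → ∃ (y : ℕ → V) (ed : ℕ → E),
      KPath ends (F.erase e0) e0 c y ed q ∧ y 0 = a ∧ y 1 = b ∧
      ∀ i, 2 ≤ i → i ≤ q → c (ed i) = if i % 2 = 0 then β else α := by
    intro q hq
    induction q, hq using Nat.le_induction with
    | base =>
      intro _
      refine ⟨fun i => if i = 0 then a else b, fun _ => e0, ⟨?_, ?_, ?_, ?_, ?_⟩, by simp, by simp,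
        fun i h2 h1 => by omega⟩
      · intro i j hi hj hij
        interval_cases i <;> interval_cases j <;> simp_all
      · simpa using hab
      · intro i h2 h1; omega
      · intro i h2 h1; omega
      · intro i h2 h1; omega
    | succ q hq ih =>
      intro hqs
      obtain ⟨y, ed, hk', hy0, hy1, halt⟩ := ih (by omega)
      have elem := fun p hp (hpq : p ≤ q) => kierstead he0 hF hmiss y ed p hp c hc (hk'.mono hpq)
      -- `α ≠ β`
      have hαβ : α ≠ β := by
        intro h
        apply elem 1 le_rfl hq 0 (by omega) α
        rw [hy0, hy1, h]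
        rw [h] at hα
        exact ⟨hβ, hα⟩
      -- the next colour
      set γ := if (q + 1) % 2 = 0 then β else α with hγ
      have hγmiss : ∃ j, j < q ∧ Missing ends (F.erase e0) c (y j) γ := by
        rcases Nat.lt_or_ge q 2 with h2 | h2
        · have : q = 1 := by omega
          subst this
          refine ⟨0, by omega, ?_⟩
          rw [hγ, hy0]
          simpa using hβ
        · by_cases h3 : (q + 1) % 2 = 0
          · refine ⟨0, by omega, ?_⟩
            rw [hγ, if_pos h3, hy0]
            exact hβ
          · refine ⟨1, by omega, ?_⟩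
            rw [hγ, if_neg h3, hy1]
            exact hα
      obtain ⟨j0, hj0, hj0m⟩ := hγmiss
      have hnot : ¬ Missing ends (F.erase e0) c (y q) γ := by
        intro h
        exact elem q hq le_rfl j0 hj0 γ ⟨hj0m, h⟩
      unfold Missing at hnot
      push Not at hnot
      obtain ⟨f, hf, hyf, hcf⟩ := hnot
      obtain ⟨z, hz⟩ : ∃ z, ends f = s(y q, z) := by
        obtain ⟨z, hz⟩ := Sym2.mem_iff_exists.1 hyf
        exact ⟨z, hz⟩
      have hzq : z ≠ y q := by
        intro h
        apply hloop f
        rw [hz, h]
        exact Sym2.mk_isDiag_iff.2 rfl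
      have hzmem : z ∈ ends f := by rw [hz]; exact Sym2.mem_mk_right _ _
      -- `z` is new
      have hnew : ∀ t, t ≤ q → y t ≠ z := by
        intro t ht htz
        have htq : t ≠ q := by
          intro h
          subst h
          exact hzq htz.symm
        have htq' : t < q := by omega
        rw [← htz] at hz hzmem
        -- an edge of the path at `y t` with colour `γ` is `f`
        have huniq : ∀ i, 2 ≤ i → i ≤ q → y t ∈ ends (ed i) → c (ed i) = γ → ed i = f := by
          intro i h2 hi hmem hcol
          by_contra hcon
          exact hc (ed i) (hk'.mem i h2 hi) f hf hcon (y t) hmem hzmem (by rw [hcol, hcf])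
        have hbad : ∀ i, 2 ≤ i → i ≤ q → ed i = f → c (ed i) = γ → False := by
          intro i h2 hi hif hcol
          have h3 := hk'.ends_eq i h2 hi
          rw [hif, hz] at h3
          have h4 : y q ∈ s(y (i - 1), y i) := by rw [← h3]; exact Sym2.mem_mk_left _ _
          have h5 : i = q := by
            rcases Sym2.mem_iff.1 h4 with h6 | h6
            · have := hk'.inj q (i - 1) le_rfl (by omega) h6
              omega
            · exact (hk'.inj q i le_rfl hi h6).symm
          subst h5
          have h7 := halt i h2 le_rfl
          rw [hcol, hγ] at h7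
          by_cases h8 : i % 2 = 0
          · have h9 : ¬ ((i + 1) % 2 = 0) := by omega
            rw [if_pos h8, if_neg h9] at h7
            exact hαβ h7
          · have h9 : (i + 1) % 2 = 0 := by omega
            rw [if_neg h8, if_pos h9] at h7
            exact hαβ h7.symm
        have hmem1 : ∀ i, 2 ≤ i → i ≤ q → y (i - 1) ∈ ends (ed i) := by
          intro i h2 hi
          rw [hk'.ends_eq i h2 hi]; exact Sym2.mem_mk_left _ _
        have hmem2 : ∀ i, 2 ≤ i → i ≤ q → y i ∈ ends (ed i) := by
          intro i h2 hi
          rw [hk'.ends_eq i h2 hi]; exact Sym2.mem_mk_right _ _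
        rcases Nat.lt_or_ge t 2 with ht2 | ht2
        · rcases Nat.lt_or_ge t 1 with ht1 | ht1
          · -- `t = 0`: a closed cycle
            have ht0 : t = 0 := by omega
            subst ht0
            have hγα : γ = α := by
              by_contra hcon
              have : γ = β := by
                rw [hγ]
                split_ifs with h8
                · rfl
                · exfalso
                  apply hcon
                  rw [hγ, if_neg h8]
              rw [this] at hcf
              rw [hy0] at hzmem
              exact hβ f hf hzmem hcf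
            have hpar : ¬ ((q + 1) % 2 = 0) := by
              intro h8
              rw [hγ, if_pos h8] at hγα
              exact hαβ hγα.symm
            have hq2 : 2 ≤ q := by omega
            have hgirth : 2 * s ≤ q + 1 := by
              apply hg (q + 1) (by omega) y
              · intro i hi j hj hij
                exact hk'.inj i j (by omega) (by omega) hij
              · intro i hi
                rcases Nat.lt_or_ge i q with h9 | h9
                · have h10 : (i + 1) % (q + 1) = i + 1 := Nat.mod_eq_of_lt (by omega)
                  rw [h10]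
                  rcases Nat.lt_or_ge i 1 with h11 | h11
                  · have : i = 0 := by omega
                    subst this
                    exact ⟨e0, hk'.start⟩
                  · exact ⟨ed (i + 1), by
                      have := hk'.ends_eq (i + 1) (by omega) (by omega)
                      simpa using this⟩
                · have h10 : i = q := by omega
                  subst h10
                  rw [Nat.mod_self]
                  exact ⟨f, hz⟩
            omega
          · have ht1' : t = 1 := by omega
            subst ht1'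
            -- `α` is missing at `y 1`, so `γ = β` and `f = ed 2`
            have hγβ : γ = β := by
              by_contra hcon
              have : γ = α := by
                rw [hγ]
                split_ifs with h8
                · exfalso
                  apply hcon
                  rw [hγ, if_pos h8]
                · rfl
              rw [this] at hcf
              rw [hy1] at hzmem
              exact hα f hf hzmem hcf
            have hcol : c (ed 2) = γ := by
              rw [halt 2 le_rfl (by omega), hγβ]
              simp
            exact hbad 2 le_rfl (by omega) (huniq 2 le_rfl (by omega)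
              (by simpa using hmem1 2 le_rfl (by omega)) hcol) hcol
        · -- `t ≥ 2`
          have h12 : c (ed t) = γ ∨ c (ed (t + 1)) = γ := by
            rw [halt t ht2 (by omega), halt (t + 1) (by omega) (by omega), hγ]
            rcases Nat.mod_two_eq_zero_or_one t with h13 | h13 <;>
            rcases Nat.mod_two_eq_zero_or_one q with h14 | h14
            · have h15 : (t + 1) % 2 = 1 := by omega
              have h16 : (q + 1) % 2 = 1 := by omega
              simp [h13, h15, h16]
            · have h15 : (t + 1) % 2 = 1 := by omega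
              have h16 : (q + 1) % 2 = 0 := by omega
              simp [h13, h15, h16]
            · have h15 : (t + 1) % 2 = 0 := by omega
              have h16 : (q + 1) % 2 = 1 := by omega
              simp [h13, h15, h16]
            · have h15 : (t + 1) % 2 = 0 := by omega
              have h16 : (q + 1) % 2 = 0 := by omega
              simp [h13, h15, h16]
          rcases h12 with hcol | hcol
          · exact hbad t ht2 (by omega) (huniq t ht2 (by omega) (hmem2 t ht2 (by omega)) hcol) hcol
          · exact hbad (t + 1) (by omega) (by omega) (huniq (t + 1) (by omega) (by omega)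
              (by simpa using hmem1 (t + 1) (by omega) (by omega)) hcol) hcol
      refine ⟨Function.update y (q + 1) z, Function.update ed (q + 1) f, ?_, ?_, ?_, ?_⟩
      · apply hk'.extend hq hf hz hnew hj0
        rw [hcf]
        exact hj0m
      · rw [Function.update_of_ne (by omega), hy0]
      · rw [Function.update_of_ne (by omega), hy1]
      · intro i h2 hi
        rcases Nat.lt_or_ge q i with h1 | h1
        · have h1' : i = q + 1 := by omega
          subst h1'
          rw [Function.update_self, hcf]
        · rw [Function.update_of_ne (by omega)]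
          exact halt i h2 h1
  intro q hq hqs
  obtain ⟨y, ed, h, _⟩ := main q hq hqs
  exact ⟨y, ed, h⟩

/-- lower bound for the missing colours -/
theorem Mis_ge {F : Finset E} {e0 : E} {k Δ : ℕ} (hΔ : ∀ v, degOn ends F v ≤ Δ)
    (c : E → Fin k) (v : V) : k - Δ ≤ (Mis ends (F.erase e0) c v).card := by
  have h1 := card_Mis (ends := ends) (F.erase e0) c v
  have h2 := degOn_erase_le (ends := ends) F e0 v
  have h3 := hΔ v
  omega

theorem Mis_ge' {F : Finset E} {e0 : E} (he0 : e0 ∈ F) {k Δ : ℕ} (hkΔ : Δ ≤ k)
    (hΔ : ∀ v, degOn ends F v ≤ Δ)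
    (c : E → Fin k) {v : V} (hv : v ∈ ends e0) :
    k - Δ + 1 ≤ (Mis ends (F.erase e0) c v).card := by
  have h1 := card_Mis (ends := ends) (F.erase e0) c v
  have h2 := degOn_erase_lt (ends := ends) he0 hv
  have h3 := hΔ v
  omega

theorem sum_Mis_ge {F : Finset E} {e0 : E} (he0 : e0 ∈ F) {k Δ : ℕ} (hkΔ : Δ ≤ k)
    (hΔ : ∀ v, degOn ends F v ≤ Δ) {c : E → Fin k} {y : ℕ → V} {ed : ℕ → E} {p n : ℕ}
    (hn : 1 ≤ n)
    (h : KPath ends (F.erase e0) e0 c y ed p) :
    (n + 1) * (k - Δ) + 2 ≤ ∑ i ∈ Finset.range (n + 1), (Mis ends (F.erase e0) c (y i)).card := by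
  induction n, hn using Nat.le_induction with
  | base =>
    rw [Finset.sum_range_succ, Finset.sum_range_one]
    have h0 := Mis_ge' he0 hkΔ hΔ c (v := y 0) (by rw [h.start]; exact Sym2.mem_mk_left _ _)
    have h1 := Mis_ge' he0 hkΔ hΔ c (v := y 1) (by rw [h.start]; exact Sym2.mem_mk_right _ _)
    omega
  | succ n hn ih =>
    rw [Finset.sum_range_succ]
    have h1 := Mis_ge (e0 := e0) (k := k) hΔ c (y (n + 1))
    have h2 : (n + 1 + 1) * (k - Δ) = (n + 1) * (k - Δ) + (k - Δ) := by ring
    omega

/-- Goldberg's bound: a graph of maximum degree `Δ` all of whose odd cycles have length at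
least `2 s + 1` which is not `k`-edge-colourable for some `k > Δ` satisfies
`(2 s + 1) (k - Δ) + 2 ≤ k`. -/
theorem goldberg [Fintype E] {k Δ s : ℕ} (hk : Δ < k) (hs : 1 ≤ s)
    (hloop : ∀ e, ¬ (ends e).IsDiag) (hg : GirthGE ends (2 * s))
    (hΔ : ∀ v, degOn ends Finset.univ v ≤ Δ)
    (h : ¬ ∃ c : E → Fin k, ProperOn ends Finset.univ c) :
    (2 * s + 1) * (k - Δ) + 2 ≤ k := by
  obtain ⟨F, e0, he0, hF, c, hc⟩ := exists_critical (by omega) h
  have hΔ' : ∀ v, degOn ends F v ≤ Δ := fun v =>
    (degOn_mono (Finset.subset_univ F) v).trans (hΔ v)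
  have hk' : ∀ v, degOn ends F v < k := fun v => (hΔ' v).trans_lt hk
  obtain ⟨y, ed, hP⟩ := exists_long_path he0 hF hk' hloop hg hc (2 * s) (by omega) le_rfl
  have h1 := sum_Mis_le he0 hF hk' hc (by omega) hP
  have h2 := sum_Mis_ge he0 hk.le hΔ' (n := 2 * s) (by omega) hP
  omega

end Pool.Agent.Lib.MP_633d19_co
end
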