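import Mathlib

/-!
Finite loopless multigraphs, their maximum degree, maximum multiplicity, girth, chromatic
index, and the parameter `st`.
-/

namespace Pool.Agent.Lib.MP_633d19_co

open Classical

/-- A finite loopless multigraph: finite types of vertices and of edges, each edge having an
unordered pair of distinct vertices as its ends. Parallel edges are allowed. -/
structure MGraph where
  /-- the vertices -/
  V : Type
  /-- the edges -/
  E : Type
  [fV : Fintype V]
  [fE : Fintype E]
  /-- the two ends of an edge -/
  ends : E → Sym2 V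
  loopless : ∀ e, ¬ (ends e).IsDiag

namespace MGraph

attribute [instance] fV fE

/-- The degree of a vertex: the number of edges at it, parallel edges counted separately. -/
noncomputable def deg (G : MGraph) (v : G.V) : ℕ :=
  (Finset.univ.filter (fun e => v ∈ G.ends e)).card

/-- The number of edges joining `u` and `v`. -/
noncomputable def mult (G : MGraph) (u v : G.V) : ℕ :=
  (Finset.univ.filter (fun e => G.ends e = s(u, v))).card

/-- The maximum degree. -/
noncomputable def maxDeg (G : MGraph) : ℕ := Finset.univ.sup G.deg

/-- The maximum number of edges joining a pair of vertices. -/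
noncomputable def maxMult (G : MGraph) : ℕ :=
  Finset.univ.sup (fun p : G.V × G.V => G.mult p.1 p.2)

/-- `G` contains a cycle with the `ℓ` distinct vertices `y 0, …, y (ℓ - 1)`, consecutive ones
(cyclically) being joined by at least one edge. Used for `ℓ ≥ 3` only. -/
def HasCycle (G : MGraph) (ℓ : ℕ) : Prop :=
  ∃ y : ℕ → G.V, (∀ i < ℓ, ∀ j < ℓ, y i = y j → i = j) ∧
    ∀ i < ℓ, ∃ e, G.ends e = s(y i, y ((i + 1) % ℓ))

/-- The girth of `G` is `g`: the least length, at least three, of a cycle of `G` is `g`. -/
def HasGirth (G : MGraph) (g : ℕ) : Prop :=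
  3 ≤ g ∧ G.HasCycle g ∧ ∀ ℓ, 3 ≤ ℓ → G.HasCycle ℓ → g ≤ ℓ

/-- `G` has a proper edge colouring with `k` colours. -/
def Colorable (G : MGraph) (k : ℕ) : Prop :=
  ∃ c : G.E → Fin k, ∀ e e', e ≠ e' → ∀ v, v ∈ G.ends e → v ∈ G.ends e' → c e ≠ c e'

/-- The chromatic index. -/
noncomputable def chromIndex (G : MGraph) : ℕ := sInf {k | G.Colorable k}

end MGraph

/-- The set of chromatic indices of the multigraphs with maximum degree `Δ`, maximum
multiplicity `μ` and girth `g`. -/
def stSet (Δ μ g : ℕ) : Set ℕ :=
  {n | ∃ G : MGraph, G.maxDeg = Δ ∧ G.maxMult = μ ∧ G.HasGirth g ∧ G.chromIndex = n}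

/-- `st Δ μ g` is the maximum of the chromatic indices of the multigraphs with maximum degree
`Δ`, maximum multiplicity `μ` and girth `g`. -/
noncomputable def st (Δ μ g : ℕ) : ℕ := sSup (stSet Δ μ g)

end Pool.Agent.Lib.MP_633d19_co
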