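import Pool.Agent.Lib.MP_633d19_co.Graphs

section

/-!
For every `D ≥ 3` and `g`, a simple graph of maximum degree `D` with all cycles of length at
least `g` which is not `D`-edge-colourable: a bipartite Cayley-type graph of large girth with
one subdivided edge.
-/

namespace Pool.Agent.Lib.MP_633d19_co

open Classical

/-- reduced words -/
def Red {α : Type} : List α → Prop
  | [] => True
  | [_] => True
  | a :: b :: l => a ≠ b ∧ Red (b :: l)

theorem Red.tail {α : Type} {a : α} {l : List α} (h : Red (a :: l)) : Red l := by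
  cases l with
  | nil => trivial
  | cons b l => exact h.2

/-- reduced words of length at most `r` -/
def Wd (D r : ℕ) : Type := {w : List (Fin D) // w.length ≤ r ∧ Red w}

instance (D r : ℕ) : Finite (Wd D r) := by
  have h : {w : List (Fin D) | w.length ≤ r}.Finite := List.finite_length_le (Fin D) r
  exact Set.Finite.subset (s := {w : List (Fin D) | w.length ≤ r}) h (fun w hw => hw.1)

noncomputable instance (D r : ℕ) : Fintype (Wd D r) := Fintype.ofFinite _

/-- multiplication by a generator on lists -/
noncomputable def stepL {D : ℕ} (r : ℕ) (i : Fin D) (w : List (Fin D)) : List (Fin D) :=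
  match w with
  | [] => if r = 0 then [] else [i]
  | a :: l => if a = i then l else if l.length + 1 < r then i :: a :: l else a :: l

theorem stepL_ok {D r : ℕ} (i : Fin D) {w : List (Fin D)} (h : w.length ≤ r ∧ Red w) :
    (stepL r i w).length ≤ r ∧ Red (stepL r i w) := by
  unfold stepL
  cases w with
  | nil =>
    simp only
    split_ifs with h1
    · simp [h1, Red]
    · simp only [List.length_cons, List.length_nil, Red, and_true]
      omega
  | cons a l =>
    simp only
    obtain ⟨h1, h2⟩ := h
    simp only [List.length_cons] at h1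
    split_ifs with h3 h4
    · exact ⟨by omega, h2.tail⟩
    · refine ⟨by simp only [List.length_cons]; omega, ?_⟩
      exact ⟨fun h => h3 h.symm, h2⟩
    · exact ⟨by simpa using h1, h2⟩

theorem stepL_stepL {D r : ℕ} (i : Fin D) {w : List (Fin D)} (h : w.length ≤ r ∧ Red w) :
    stepL r i (stepL r i w) = w := by
  cases w with
  | nil =>
    by_cases h1 : r = 0
    · simp [stepL, h1]
    · simp [stepL, h1]
  | cons a l =>
    obtain ⟨h1, h2⟩ := h
    simp only [List.length_cons] at h1
    by_cases h3 : a = i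
    · subst h3
      cases l with
      | nil =>
        have : r ≠ 0 := by simp at h1; omega
        simp [stepL, this]
      | cons b l =>
        have hab : a ≠ b := h2.1
        have h5 : l.length + 1 < r := by simp only [List.length_cons] at h1; omega
        have hba : b ≠ a := fun h => hab h.symm
        simp [stepL, hba, h5]
    · by_cases h4 : l.length + 1 < r
      · simp [stepL, h3, h4]
      · simp [stepL, h3, h4]

/-- the generators, as permutations of the reduced words -/
noncomputable def gen {D : ℕ} (r : ℕ) (i : Fin D) : Equiv.Perm (Wd D r) where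
  toFun w := ⟨stepL r i w.1, stepL_ok i w.2⟩
  invFun w := ⟨stepL r i w.1, stepL_ok i w.2⟩
  left_inv w := Subtype.ext (stepL_stepL i w.2)
  right_inv w := Subtype.ext (stepL_stepL i w.2)

theorem gen_mul_self {D r : ℕ} (i : Fin D) : gen r i * gen r i = 1 := by
  apply Equiv.ext
  intro w
  exact Subtype.ext (stepL_stepL i w.2)

/-- the empty word -/
def emp (D r : ℕ) : Wd D r := ⟨[], by simp, trivial⟩

theorem prod_gen_emp {D r : ℕ} : ∀ l : List (Fin D), Red l → l.length ≤ r →
    (((l.map (gen r)).prod) (emp D r)).1 = l := by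
  intro l
  induction l with
  | nil => intro _ _; rfl
  | cons a l ih =>
    intro h1 h2
    have h3 := ih h1.tail (by simp only [List.length_cons] at h2; omega)
    rw [List.map_cons, List.prod_cons]
    change stepL r a (((l.map (gen r)).prod) (emp D r)).1 = a :: l
    rw [h3]
    cases l with
    | nil =>
      have : r ≠ 0 := by simp at h2; omega
      simp [stepL, this]
    | cons b l =>
      have hab : b ≠ a := fun h => h1.1 h.symm
      have h5 : l.length + 1 < r := by simp only [List.length_cons] at h2; omega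
      simp [stepL, hab, h5]

theorem prod_gen_ne {D r : ℕ} {l : List (Fin D)} (h : Red l) (h1 : l.length ≤ r) (h2 : l ≠ []) :
    (l.map (gen r)).prod ≠ 1 := by
  intro h3
  have h4 := prod_gen_emp l h h1
  rw [h3] at h4
  exact h2 h4.symm

theorem gen_inj {D r : ℕ} (hr : 1 ≤ r) {i j : Fin D} (h : gen r i = gen r j) : i = j := by
  have h1 := prod_gen_emp (r := r) [i] trivial (by simpa using hr)
  have h2 := prod_gen_emp (r := r) [j] trivial (by simpa using hr)
  simp only [List.map_cons, List.map_nil, List.prod_cons, List.prod_nil, mul_one] at h1 h2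
  rw [h, h2] at h1
  simpa using h1.symm

/-- The bipartite double cover with one subdivided edge. -/
noncomputable def hgraph (D r : ℕ) (i0 : Fin D) : MGraph where
  V := Option (Equiv.Perm (Wd D r) × Bool)
  E := Option (Equiv.Perm (Wd D r) × Fin D)
  ends := fun e => match e with
    | none => s(none, some (gen r i0, true))
    | some (x, i) => if x = 1 ∧ i = i0 then s(some (1, false), none)
        else s(some (x, false), some (x * gen r i, true))
  loopless := by
    intro e
    rcases e with _ | ⟨x, i⟩
    · simp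
    · simp only
      split_ifs with h
      · simp
      · simp

variable {D r : ℕ} {i0 : Fin D}

theorem hends_none : (hgraph D r i0).ends (none : Option (Equiv.Perm (Wd D r) × Fin D)) =
    s((none : Option (Equiv.Perm (Wd D r) × Bool)), some (gen r i0, true)) := rfl

theorem hends_some (x : Equiv.Perm (Wd D r)) (i : Fin D) :
    (hgraph D r i0).ends (some (x, i) : Option (Equiv.Perm (Wd D r) × Fin D)) =
    if x = 1 ∧ i = i0 then s((some (1, false) : Option (Equiv.Perm (Wd D r) × Bool)), none)
        else s(some (x, false), some (x * gen r i, true)) := rfl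

/-- adjacency in `hgraph` between old vertices -/
theorem hadj_old {a b : Equiv.Perm (Wd D r) × Bool} {e : (hgraph D r i0).E}
    (h : (hgraph D r i0).ends e = s((some a : Option (Equiv.Perm (Wd D r) × Bool)), some b)) :
    ∃ i : Fin D, b.1 = a.1 * gen r i ∧ b.2 = !a.2 ∧ (a = (1, false) → i ≠ i0) ∧
      (a = (gen r i0, true) → i ≠ i0) := by
  change Option (Equiv.Perm (Wd D r) × Fin D) at e
  rcases e with _ | ⟨x, i⟩
  · exfalso
    have h' : s((none : Option (Equiv.Perm (Wd D r) × Bool)), some (gen r i0, true)) =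
      s(some a, some b) := h
    rcases Sym2.eq_iff.1 h' with ⟨h1, _⟩ | ⟨h1, _⟩
    · exact Option.some_ne_none _ h1.symm
    · exact Option.some_ne_none _ h1.symm
  · have h' : (if x = 1 ∧ i = i0 then
        s((some (1, false) : Option (Equiv.Perm (Wd D r) × Bool)), none)
        else s(some (x, false), some (x * gen r i, true))) = s(some a, some b) := h
    split_ifs at h' with hx
    · exfalso
      rcases Sym2.eq_iff.1 h' with ⟨_, h1⟩ | ⟨_, h1⟩
      · exact Option.some_ne_none _ h1.symm
      · exact Option.some_ne_none _ h1.symm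
    · refine ⟨i, ?_⟩
      rcases Sym2.eq_iff.1 h' with ⟨h1, h2⟩ | ⟨h1, h2⟩
      · rw [Option.some.injEq] at h1 h2
        subst h1
        subst h2
        refine ⟨rfl, rfl, ?_, ?_⟩
        · intro h3 hi
          rw [Prod.mk.injEq] at h3
          exact hx ⟨h3.1, hi⟩
        · intro h3
          rw [Prod.mk.injEq] at h3
          exact absurd h3.2 (by simp)
      · rw [Option.some.injEq] at h1 h2
        subst h1
        subst h2
        refine ⟨?_, rfl, ?_, ?_⟩
        · rw [mul_assoc, gen_mul_self, mul_one]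
        · intro h3
          rw [Prod.mk.injEq] at h3
          exact absurd h3.2 (by simp)
        · intro h3 hi
          rw [Prod.mk.injEq] at h3
          subst hi
          have : x = 1 := by
            have h4 := congrArg (· * gen r i) h3.1
            simp only [mul_assoc, gen_mul_self, mul_one] at h4
            exact h4
          exact hx ⟨this, rfl⟩

theorem hadj_none {a : Equiv.Perm (Wd D r) × Bool} {e : (hgraph D r i0).E}
    (h : (hgraph D r i0).ends e = s((none : Option (Equiv.Perm (Wd D r) × Bool)), some a)) :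
    a = (1, false) ∨ a = (gen r i0, true) := by
  change Option (Equiv.Perm (Wd D r) × Fin D) at e
  rcases e with _ | ⟨x, i⟩
  · have h' : s((none : Option (Equiv.Perm (Wd D r) × Bool)), some (gen r i0, true)) =
      s(none, some a) := h
    rcases Sym2.eq_iff.1 h' with ⟨_, h1⟩ | ⟨h1, _⟩
    · right
      rw [Option.some.injEq] at h1
      exact h1.symm
    · exact absurd h1.symm (Option.some_ne_none _)
  · have h' : (if x = 1 ∧ i = i0 then
        s((some (1, false) : Option (Equiv.Perm (Wd D r) × Bool)), none)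
        else s(some (x, false), some (x * gen r i, true))) = s(none, some a) := h
    split_ifs at h' with hx
    · left
      rcases Sym2.eq_iff.1 h' with ⟨h1, _⟩ | ⟨h1, _⟩
      · exact absurd h1 (Option.some_ne_none _)
      · rw [Option.some.injEq] at h1
        exact h1.symm
    · exfalso
      rcases Sym2.eq_iff.1 h' with ⟨h1, _⟩ | ⟨_, h1⟩
      · exact Option.some_ne_none _ h1
      · exact Option.some_ne_none _ h1

/-- words read along a walk -/
def wd {α : Type} (a : ℕ → α) (j : ℕ) : ℕ → List α
  | 0 => []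
  | n + 1 => a j :: wd a (j + 1) n

theorem wd_length {α : Type} (a : ℕ → α) : ∀ n j, (wd a j n).length = n := by
  intro n
  induction n with
  | zero => intro j; rfl
  | succ n ih => intro j; simp [wd, ih]

theorem wd_red {α : Type} (a : ℕ → α) : ∀ n j, (∀ i, j ≤ i → i + 1 < j + n → a i ≠ a (i + 1)) →
    Red (wd a j n) := by
  intro n
  induction n with
  | zero => intro j _; trivial
  | succ n ih =>
    intro j h
    cases n with
    | zero => trivial
    | succ n =>
      refine ⟨h j le_rfl (by omega), ?_⟩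
      exact ih (j + 1) (fun i hi hi' => h i (by omega) (by omega))

theorem wd_prod (z : ℕ → Equiv.Perm (Wd D r)) (a : ℕ → Fin D) : ∀ n j,
    (∀ i, j ≤ i → i < j + n → z (i + 1) = z i * gen r (a i)) →
    z (j + n) = z j * ((wd a j n).map (gen r)).prod := by
  intro n
  induction n with
  | zero => intro j _; simp [wd]
  | succ n ih =>
    intro j h
    have h1 := ih (j + 1) (fun i hi hi' => h i (by omega) (by omega))
    have h2 := h j le_rfl (by omega)
    rw [show j + (n + 1) = j + 1 + n by ring, h1, h2]
    simp [wd, mul_assoc]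

theorem girth_hgraph {ℓ : ℕ} (hℓ : 3 ≤ ℓ) (h : (hgraph D r i0).HasCycle ℓ) : r < ℓ := by
  by_contra hcon
  push Not at hcon
  obtain ⟨y, hinj, hadj⟩ := h
  change ℕ → Option (Equiv.Perm (Wd D r) × Bool) at y
  by_cases hnone : ∃ t, t < ℓ ∧ y t = none
  · -- the cycle passes through the new vertex
    obtain ⟨t, ht, hyt⟩ := hnone
    -- rotate
    set w : ℕ → Option (Equiv.Perm (Wd D r) × Bool) := fun i => y ((t + i) % ℓ) with hw
    have hmod : ∀ i, (t + i) % ℓ < ℓ := fun i => Nat.mod_lt _ (by omega)
    have hwinj : ∀ i j, i < ℓ → j < ℓ → w i = w j → i = j := by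
      intro i j hi hj hij
      have h1 := hinj _ (hmod i) _ (hmod j) hij
      have h2 : i ≡ j [MOD ℓ] := Nat.ModEq.add_left_cancel' t h1
      have h3 := h2
      unfold Nat.ModEq at h3
      rwa [Nat.mod_eq_of_lt hi, Nat.mod_eq_of_lt hj] at h3
    have hw0 : w 0 = none := by
      rw [hw]
      simp only [add_zero, Nat.mod_eq_of_lt ht]
      exact hyt
    have hwadj : ∀ i, ∃ e, (hgraph D r i0).ends e = s(w i, w (i + 1)) := by
      intro i
      have h1 := hadj _ (hmod i)
      rw [Nat.mod_add_mod] at h1
      exact h1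
    have hwℓ : w ℓ = none := by
      rw [← hw0, hw]
      simp
    have hsome : ∀ i, ∃ a, 1 ≤ i → i < ℓ → w i = some a := by
      intro i
      by_cases hi : 1 ≤ i ∧ i < ℓ
      · rcases hwi : w i with _ | a
        · exfalso
          have := hwinj i 0 hi.2 (by omega) (by rw [hwi, hw0])
          omega
        · exact ⟨a, fun _ _ => rfl⟩
      · exact ⟨(1, false), fun h1 h2 => absurd ⟨h1, h2⟩ hi⟩
    choose z hz using hsome
    have hstep : ∀ i, ∃ c : Fin D, 1 ≤ i → i + 1 < ℓ → (z (i + 1)).1 = (z i).1 * gen r c ∧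
        (z (i + 1)).2 = !(z i).2 ∧ (z i = (1, false) → c ≠ i0) ∧
        (z i = (gen r i0, true) → c ≠ i0) := by
      intro i
      by_cases hi : 1 ≤ i ∧ i + 1 < ℓ
      · obtain ⟨e, he⟩ := hwadj i
        rw [hz i hi.1 (by omega), hz (i + 1) (by omega) hi.2] at he
        obtain ⟨c, hc⟩ := hadj_old he
        exact ⟨c, fun _ _ => hc⟩
      · exact ⟨i0, fun h1 h2 => absurd ⟨h1, h2⟩ hi⟩
    choose c hc using hstep
    -- colours alternate
    have hcne : ∀ i, 1 ≤ i → i + 2 < ℓ → c i ≠ c (i + 1) := by
      intro i hi1 hi2 heq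
      have h1 := hc i hi1 (by omega)
      have h2 := hc (i + 1) (by omega) (by omega)
      have h3 : z (i + 2) = z i := by
        apply Prod.ext
        · rw [show i + 2 = i + 1 + 1 by ring, h2.1, h1.1, ← heq, mul_assoc, gen_mul_self, mul_one]
        · rw [show i + 2 = i + 1 + 1 by ring, h2.2.1, h1.2.1, Bool.not_not]
      have h4 := hwinj (i + 2) i (by omega) (by omega) (by
        rw [hz (i + 2) (by omega) (by omega), hz i hi1 (by omega), h3])
      omega
    have hz1 : z 1 = (1, false) ∨ z 1 = (gen r i0, true) := by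
      obtain ⟨e, he⟩ := hwadj 0
      rw [hw0, hz (0 + 1) (by omega) (by omega)] at he
      exact hadj_none he
    have hzl : z (ℓ - 1) = (1, false) ∨ z (ℓ - 1) = (gen r i0, true) := by
      obtain ⟨e, he⟩ := hwadj (ℓ - 1)
      rw [show ℓ - 1 + 1 = ℓ by omega, hwℓ, hz (ℓ - 1) (by omega) (by omega), Sym2.eq_swap] at he
      exact hadj_none he
    have hne : z 1 ≠ z (ℓ - 1) := by
      intro h
      have := hwinj 1 (ℓ - 1) (by omega) (by omega) (by
        rw [hz 1 (by omega) (by omega), hz (ℓ - 1) (by omega) (by omega), h])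
      omega
    -- the word
    have hprod := wd_prod (fun i => (z i).1) c (ℓ - 2) 1 (by
      intro i hi1 hi2
      exact (hc i hi1 (by omega)).1)
    rw [show 1 + (ℓ - 2) = ℓ - 1 by omega] at hprod
    beta_reduce at hprod
    have hc1 : c 1 ≠ i0 := by
      have h1 := hc 1 (by omega) (by omega)
      rcases hz1 with h | h
      · exact h1.2.2.1 h
      · exact h1.2.2.2 h
    have hred : Red (i0 :: wd c 1 (ℓ - 2)) := by
      have h1 : ℓ - 2 = (ℓ - 3) + 1 := by omega
      have h2 := wd_red c (ℓ - 2) 1 (by
        intro i hi1 hi2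
        exact hcne i hi1 (by omega))
      rw [h1] at h2 ⊢
      exact ⟨fun h => hc1 h.symm, h2⟩
    have hfin : ((i0 :: wd c 1 (ℓ - 2)).map (gen r)).prod = 1 := by
      rw [List.map_cons, List.prod_cons]
      rcases hz1 with h1 | h1
      · rcases hzl with h2 | h2
        · exact absurd (h1.trans h2.symm) hne
        · rw [h1, h2] at hprod
          simp only [one_mul] at hprod
          rw [← hprod, gen_mul_self]
      · rcases hzl with h2 | h2
        · rw [h1, h2] at hprod
          simp only at hprod
          rw [← hprod]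
        · exact absurd (h1.trans h2.symm) hne
    refine prod_gen_ne hred ?_ (by simp) hfin
    rw [List.length_cons, wd_length]
    omega
  · -- the cycle avoids the new vertex
    push Not at hnone
    have hsome : ∀ i, ∃ a, y (i % ℓ) = some a := by
      intro i
      rcases hyi : y (i % ℓ) with _ | a
      · exact absurd hyi (hnone _ (Nat.mod_lt _ (by omega)))
      · exact ⟨a, rfl⟩
    choose z hz using hsome
    have hstep : ∀ i, ∃ c : Fin D, (z (i + 1)).1 = (z i).1 * gen r c ∧
        (z (i + 1)).2 = !(z i).2 := by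
      intro i
      obtain ⟨e, he⟩ := hadj (i % ℓ) (Nat.mod_lt _ (by omega))
      rw [Nat.mod_add_mod, hz i, hz (i + 1)] at he
      obtain ⟨c, hc⟩ := hadj_old he
      exact ⟨c, hc.1, hc.2.1⟩
    choose c hc using hstep
    have hcne : ∀ i, i + 2 ≤ ℓ → c i ≠ c (i + 1) := by
      intro i hi2 heq
      have h1 := hc i
      have h2 := hc (i + 1)
      have h3 : z (i + 2) = z i := by
        apply Prod.ext
        · rw [show i + 2 = i + 1 + 1 by ring, h2.1, h1.1, ← heq, mul_assoc, gen_mul_self, mul_one]
        · rw [show i + 2 = i + 1 + 1 by ring, h2.2, h1.2, Bool.not_not]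
      have h4 := hinj ((i + 2) % ℓ) (Nat.mod_lt _ (by omega)) (i % ℓ) (Nat.mod_lt _ (by omega))
        (by rw [hz, hz, h3])
      have h5 : i % ℓ = i := Nat.mod_eq_of_lt (by omega)
      rcases Nat.lt_or_ge (i + 2) ℓ with h6 | h6
      · rw [Nat.mod_eq_of_lt h6, h5] at h4
        omega
      · have h7 : i + 2 = ℓ := by omega
        rw [h7, Nat.mod_self, h5] at h4
        omega
    have hprod := wd_prod (fun i => (z i).1) c ℓ 0 (by
      intro i hi1 hi2
      exact (hc i).1)
    have hz0 : z (0 + ℓ) = z 0 := by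
      have h1 := hz (0 + ℓ)
      have h2 := hz 0
      rw [zero_add, Nat.mod_self] at h1
      rw [Nat.zero_mod] at h2
      rw [h1] at h2
      rw [zero_add]
      exact Option.some.inj h2
    simp only [hz0] at hprod
    have hred : Red (wd c 0 ℓ) := wd_red c ℓ 0 (by
      intro i _ hi2
      exact hcne i (by omega))
    refine prod_gen_ne (r := r) hred ?_ ?_ ?_
    · rw [wd_length]; omega
    · intro h
      have := congrArg List.length h
      rw [wd_length] at this
      simp at this
      omega
    · have := hprod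
      exact (mul_eq_left.1 this.symm)

/-- the index of an edge -/
noncomputable def lab (i0 : Fin D) : Option (Equiv.Perm (Wd D r) × Fin D) → Fin D
  | none => i0
  | some (_, i) => i

theorem mem_hends_none {v : Equiv.Perm (Wd D r) × Bool}
    (h : (some v : Option (Equiv.Perm (Wd D r) × Bool)) ∈ (hgraph D r i0).ends
      (none : Option (Equiv.Perm (Wd D r) × Fin D))) : v = (gen r i0, true) := by
  have h' : (some v : Option (Equiv.Perm (Wd D r) × Bool)) ∈
    s((none : Option (Equiv.Perm (Wd D r) × Bool)), some (gen r i0, true)) := h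
  rcases Sym2.mem_iff.1 h' with h1 | h1
  · exact absurd h1 (Option.some_ne_none _)
  · exact Option.some.inj h1

theorem mem_hends_some {v : Equiv.Perm (Wd D r) × Bool} {x : Equiv.Perm (Wd D r)} {i : Fin D}
    (h : (some v : Option (Equiv.Perm (Wd D r) × Bool)) ∈ (hgraph D r i0).ends
      (some (x, i) : Option (Equiv.Perm (Wd D r) × Fin D))) :
    v = (x, false) ∨ (v = (x * gen r i, true) ∧ ¬ (x = 1 ∧ i = i0)) := by
  have h' : (some v : Option (Equiv.Perm (Wd D r) × Bool)) ∈
    (if x = 1 ∧ i = i0 then s((some (1, false) : Option (Equiv.Perm (Wd D r) × Bool)), none)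
        else s(some (x, false), some (x * gen r i, true))) := h
  split_ifs at h' with hx
  · left
    rcases Sym2.mem_iff.1 h' with h1 | h1
    · rw [Option.some.inj h1, hx.1]
    · exact absurd h1 (Option.some_ne_none _)
  · rcases Sym2.mem_iff.1 h' with h1 | h1
    · exact Or.inl (Option.some.inj h1)
    · exact Or.inr ⟨Option.some.inj h1, hx⟩

theorem hgraph_deg_le (hD : 2 ≤ D) (v : (hgraph D r i0).V) : (hgraph D r i0).deg v ≤ D := by
  change Option (Equiv.Perm (Wd D r) × Bool) at v
  unfold MGraph.deg
  rcases v with _ | v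
  · -- the new vertex
    have hmem : ∀ (x : Equiv.Perm (Wd D r)) (i : Fin D),
        (none : Option (Equiv.Perm (Wd D r) × Bool)) ∈ (hgraph D r i0).ends
          (some (x, i) : Option (Equiv.Perm (Wd D r) × Fin D)) → x = 1 ∧ i = i0 := by
      intro x i h
      have h' : (none : Option (Equiv.Perm (Wd D r) × Bool)) ∈
        (if x = 1 ∧ i = i0 then s((some (1, false) : Option (Equiv.Perm (Wd D r) × Bool)), none)
        else s(some (x, false), some (x * gen r i, true))) := h
      split_ifs at h' with hx
      · exact hx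
      · exfalso
        rcases Sym2.mem_iff.1 h' with h1 | h1
        · exact Option.some_ne_none _ h1.symm
        · exact Option.some_ne_none _ h1.symm
    calc _ ≤ (Finset.univ : Finset Bool).card := by
          apply Finset.card_le_card_of_injOn
            (fun e : Option (Equiv.Perm (Wd D r) × Fin D) => e.isSome)
          · intro e _
            exact Finset.mem_coe.2 (Finset.mem_univ _)
          · intro e he e' he' hlab
            have he := Finset.mem_filter.1 (Finset.mem_coe.1 he)
            have he' := Finset.mem_filter.1 (Finset.mem_coe.1 he')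
            change Option (Equiv.Perm (Wd D r) × Fin D) at e
            change Option (Equiv.Perm (Wd D r) × Fin D) at e'
            rcases e with _ | ⟨x, i⟩ <;> rcases e' with _ | ⟨x', i'⟩
            · rfl
            · exact absurd hlab (by simp)
            · exact absurd hlab (by simp)
            · have h1 := hmem x i he.2
              have h2 := hmem x' i' he'.2
              rw [h1.1, h1.2, h2.1, h2.2]
      _ = 2 := by simp
      _ ≤ D := hD
  · calc _ ≤ (Finset.univ : Finset (Fin D)).card := by
          apply Finset.card_le_card_of_injOn (lab i0)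
          · intro e _
            exact Finset.mem_coe.2 (Finset.mem_univ _)
          · intro e he e' he' hlab
            have he := Finset.mem_filter.1 (Finset.mem_coe.1 he)
            have he' := Finset.mem_filter.1 (Finset.mem_coe.1 he')
            change Option (Equiv.Perm (Wd D r) × Fin D) at e
            change Option (Equiv.Perm (Wd D r) × Fin D) at e'
            rcases e with _ | ⟨x, i⟩ <;> rcases e' with _ | ⟨x', i'⟩
            · rfl
            · exfalso
              have h1 := mem_hends_none he.2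
              have h2 := mem_hends_some he'.2
              have hii : i0 = i' := hlab
              rcases h2 with h2 | ⟨h2, h3⟩
              · rw [h1, Prod.mk.injEq] at h2
                exact absurd h2.2 (by simp)
              · rw [h1, Prod.mk.injEq] at h2
                apply h3
                refine ⟨?_, hii.symm⟩
                rw [← hii] at h2
                exact mul_eq_right.1 h2.1.symm
            · exfalso
              have h1 := mem_hends_none he'.2
              have h2 := mem_hends_some he.2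
              have hii : i = i0 := hlab
              rcases h2 with h2 | ⟨h2, h3⟩
              · rw [h1, Prod.mk.injEq] at h2
                exact absurd h2.2 (by simp)
              · rw [h1, Prod.mk.injEq] at h2
                apply h3
                refine ⟨?_, hii⟩
                rw [hii] at h2
                exact mul_eq_right.1 h2.1.symm
            · have hii : i = i' := hlab
              subst hii
              have h1 := mem_hends_some he.2
              have h2 := mem_hends_some he'.2
              rcases h1 with h1 | ⟨h1, _⟩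
              · rcases h2 with h2 | ⟨h2, _⟩
                · rw [h1, Prod.mk.injEq] at h2
                  rw [h2.1]
                · rw [h1, Prod.mk.injEq] at h2
                  exact absurd h2.2 (by simp)
              · rcases h2 with h2 | ⟨h2, _⟩
                · rw [h1, Prod.mk.injEq] at h2
                  exact absurd h2.2 (by simp)
                · rw [h1, Prod.mk.injEq] at h2
                  rw [mul_right_cancel h2.1]
      _ = D := by simp

theorem hgraph_deg_ge : D ≤ (hgraph D r i0).deg
    (some (1, false) : Option (Equiv.Perm (Wd D r) × Bool)) := by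
  unfold MGraph.deg
  calc D = (Finset.univ : Finset (Fin D)).card := by simp
    _ ≤ _ := by
      apply Finset.card_le_card_of_injOn
        (fun i => (some (1, i) : Option (Equiv.Perm (Wd D r) × Fin D)))
      · intro i _
        refine Finset.mem_coe.2 (Finset.mem_filter.2 ⟨Finset.mem_univ _, ?_⟩)
        change (some (1, false) : Option (Equiv.Perm (Wd D r) × Bool)) ∈
          (if (1 : Equiv.Perm (Wd D r)) = 1 ∧ i = i0 then
          s((some (1, false) : Option (Equiv.Perm (Wd D r) × Bool)), none)
          else s(some (1, false), some (1 * gen r i, true)))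
        split_ifs
        · exact Sym2.mem_mk_left _ _
        · exact Sym2.mem_mk_left _ _
      · intro i _ j _ hij
        have := Option.some.inj hij
        rw [Prod.mk.injEq] at this
        exact this.2

theorem hgraph_mult_le (hr : 1 ≤ r) (u v : (hgraph D r i0).V) :
    (hgraph D r i0).mult u v ≤ 1 := by
  unfold MGraph.mult
  rw [Finset.card_le_one]
  intro e he e' he'
  rw [Finset.mem_filter] at he he'
  have heq : (hgraph D r i0).ends e = (hgraph D r i0).ends e' := he.2.trans he'.2.symm
  clear he he'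
  change Option (Equiv.Perm (Wd D r) × Fin D) at e
  change Option (Equiv.Perm (Wd D r) × Fin D) at e'
  rcases e with _ | ⟨x, i⟩ <;> rcases e' with _ | ⟨x', i'⟩
  · rfl
  · exfalso
    have h' : s((none : Option (Equiv.Perm (Wd D r) × Bool)), some (gen r i0, true)) =
      (if x' = 1 ∧ i' = i0 then s((some (1, false) : Option (Equiv.Perm (Wd D r) × Bool)), none)
        else s(some (x', false), some (x' * gen r i', true))) := heq
    split_ifs at h' with hx
    · rcases Sym2.eq_iff.1 h' with ⟨h1, _⟩ | ⟨_, h1⟩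
      · exact Option.some_ne_none _ h1.symm
      · have := Option.some.inj h1
        rw [Prod.mk.injEq] at this
        exact absurd this.2 (by simp)
    · rcases Sym2.eq_iff.1 h' with ⟨h1, _⟩ | ⟨h1, _⟩
      · exact Option.some_ne_none _ h1.symm
      · exact Option.some_ne_none _ h1.symm
  · exfalso
    have h' : (if x = 1 ∧ i = i0 then
        s((some (1, false) : Option (Equiv.Perm (Wd D r) × Bool)), none)
        else s(some (x, false), some (x * gen r i, true))) =
        s((none : Option (Equiv.Perm (Wd D r) × Bool)), some (gen r i0, true)) := heq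
    split_ifs at h' with hx
    · rcases Sym2.eq_iff.1 h' with ⟨h1, _⟩ | ⟨h1, _⟩
      · exact Option.some_ne_none _ h1
      · have := Option.some.inj h1
        rw [Prod.mk.injEq] at this
        exact absurd this.2 (by simp)
    · rcases Sym2.eq_iff.1 h' with ⟨h1, _⟩ | ⟨_, h1⟩
      · exact Option.some_ne_none _ h1
      · exact Option.some_ne_none _ h1
  · have h' : (if x = 1 ∧ i = i0 then
        s((some (1, false) : Option (Equiv.Perm (Wd D r) × Bool)), none)
        else s(some (x, false), some (x * gen r i, true))) =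
        (if x' = 1 ∧ i' = i0 then s((some (1, false) : Option (Equiv.Perm (Wd D r) × Bool)), none)
        else s(some (x', false), some (x' * gen r i', true))) := heq
    split_ifs at h' with hx hx' hx'
    · rw [hx.1, hx.2, hx'.1, hx'.2]
    · exfalso
      rcases Sym2.eq_iff.1 h' with ⟨_, h1⟩ | ⟨_, h1⟩
      · exact Option.some_ne_none _ h1.symm
      · exact Option.some_ne_none _ h1.symm
    · exfalso
      rcases Sym2.eq_iff.1 h' with ⟨_, h1⟩ | ⟨h1, _⟩
      · exact Option.some_ne_none _ h1
      · exact Option.some_ne_none _ h1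
    · rcases Sym2.eq_iff.1 h' with ⟨h1, h2⟩ | ⟨h1, _⟩
      · have h3 := Option.some.inj h1
        have h4 := Option.some.inj h2
        rw [Prod.mk.injEq] at h3 h4
        have hxx : x = x' := h3.1
        subst hxx
        have hii := gen_inj hr (mul_left_cancel h4.1)
        rw [hii]
      · have := Option.some.inj h1
        rw [Prod.mk.injEq] at this
        exact absurd this.2 (by simp)

theorem hgraph_not_colorable : ¬ (hgraph D r i0).Colorable D := by
  intro h
  have h1 := MGraph.card_E_le h
  have h2 : Fintype.card (hgraph D r i0).E = Fintype.card (Equiv.Perm (Wd D r)) * D + 1 := by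
    have : Fintype.card (Option (Equiv.Perm (Wd D r) × Fin D)) =
        Fintype.card (Equiv.Perm (Wd D r)) * D + 1 := by
      rw [Fintype.card_option, Fintype.card_prod, Fintype.card_fin]
    rw [← this]
    exact Fintype.card_congr (Equiv.refl _)
  have h3 : Fintype.card (hgraph D r i0).V = Fintype.card (Equiv.Perm (Wd D r)) * 2 + 1 := by
    have : Fintype.card (Option (Equiv.Perm (Wd D r) × Bool)) =
        Fintype.card (Equiv.Perm (Wd D r)) * 2 + 1 := by
      rw [Fintype.card_option, Fintype.card_prod, Fintype.card_bool]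
    rw [← this]
    exact Fintype.card_congr (Equiv.refl _)
  rw [h2, h3] at h1
  have h4 : (Fintype.card (Equiv.Perm (Wd D r)) * 2 + 1) / 2 =
      Fintype.card (Equiv.Perm (Wd D r)) := by omega
  rw [h4] at h1
  have : D * Fintype.card (Equiv.Perm (Wd D r)) = Fintype.card (Equiv.Perm (Wd D r)) * D := by ring
  omega

end Pool.Agent.Lib.MP_633d19_co
end

section

/-!
Cycles with prescribed multiplicities.
-/

namespace Pool.Agent.Lib.MP_633d19_co

open Classical

/-- successor on a cycle -/
def nxt {n : ℕ} (i : Fin n) : Fin n := ⟨(i.1 + 1) % n, Nat.mod_lt _ (by have := i.2; omega)⟩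

/-- predecessor on a cycle -/
def prv {n : ℕ} (i : Fin n) : Fin n := ⟨(i.1 + (n - 1)) % n, Nat.mod_lt _ (by have := i.2; omega)⟩

theorem nxt_val {n : ℕ} (i : Fin n) : (nxt i).1 = if i.1 + 1 = n then 0 else i.1 + 1 := by
  have := i.2
  change (i.1 + 1) % n = _
  split_ifs with h
  · rw [h, Nat.mod_self]
  · exact Nat.mod_eq_of_lt (by omega)

theorem prv_val {n : ℕ} (i : Fin n) : (prv i).1 = if i.1 = 0 then n - 1 else i.1 - 1 := by
  have hi := i.2
  change (i.1 + (n - 1)) % n = _
  split_ifs with h
  · rw [h, Nat.zero_add]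
    exact Nat.mod_eq_of_lt (by omega)
  · have h1 : i.1 + (n - 1) = (i.1 - 1) + n := by omega
    rw [h1, Nat.add_mod_right]
    exact Nat.mod_eq_of_lt (by omega)

theorem nxt_prv {n : ℕ} (i : Fin n) : nxt (prv i) = i := by
  apply Fin.ext
  have := i.2
  rw [nxt_val, prv_val]
  split_ifs <;> omega

theorem prv_nxt {n : ℕ} (i : Fin n) : prv (nxt i) = i := by
  apply Fin.ext
  have hi := i.2
  rw [prv_val, nxt_val]
  by_cases h : i.1 + 1 = n
  · rw [if_pos h, if_pos rfl]
    omega
  · rw [if_neg h, if_neg (by omega)]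
    omega

theorem nxt_ne {n : ℕ} (hn : 2 ≤ n) (i : Fin n) : nxt i ≠ i := by
  intro h
  have h1 := congrArg Fin.val h
  rw [nxt_val] at h1
  split_ifs at h1 <;> omega

theorem nxt_nxt_ne {n : ℕ} (hn : 3 ≤ n) (i : Fin n) : nxt (nxt i) ≠ i := by
  intro h
  have h1 := congrArg Fin.val h
  have := i.2
  rw [nxt_val, nxt_val] at h1
  split_ifs at h1 <;> omega

theorem nxt_inj {n : ℕ} {i j : Fin n} (h : nxt i = nxt j) : i = j := by
  rw [← prv_nxt i, ← prv_nxt j, h]

/-- the cycle of length `n` with `m i` parallel edges between `i` and `i + 1` -/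
def mcycle (n : ℕ) (hn : 3 ≤ n) (m : Fin n → ℕ) : MGraph where
  V := Fin n
  E := Σ i : Fin n, Fin (m i)
  ends := fun e => s(e.1, nxt e.1)
  loopless := by
    intro e h
    rw [Sym2.mk_isDiag_iff] at h
    exact nxt_ne (by omega) e.1 h.symm

variable {n : ℕ} {hn : 3 ≤ n} {m : Fin n → ℕ}

theorem card_E_mcycle : Fintype.card (mcycle n hn m).E = ∑ i, m i := by
  have h1 : Fintype.card (Σ i : Fin n, Fin (m i)) = ∑ i, m i := by
    rw [Fintype.card_sigma]
    simp
  rw [← h1]
  exact Fintype.card_congr (Equiv.refl _)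

theorem card_V_mcycle : Fintype.card (mcycle n hn m).V = n := Fintype.card_fin n

theorem deg_mcycle (v : Fin n) : (mcycle n hn m).deg v = m v + m (prv v) := by
  have h1 : (mcycle n hn m).deg v =
      ((Finset.univ : Finset (Σ i : Fin n, Fin (m i))).filter (fun e => e.1 = v ∨ e.1 = prv v)).card := by
    unfold MGraph.deg
    have h2 : ∀ e : (Σ i : Fin n, Fin (m i)), v ∈ (mcycle n hn m).ends e ↔ (e.1 = v ∨ e.1 = prv v) := by
      intro e
      constructor
      · intro h
        have h' : v ∈ s(e.1, nxt e.1) := h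
        rcases Sym2.mem_iff.1 h' with h3 | h3
        · exact Or.inl h3.symm
        · right
          rw [h3, prv_nxt]
      · intro h
        refine Sym2.mem_iff.2 ?_
        rcases h with h3 | h3
        · exact Or.inl h3.symm
        · right
          rw [h3, nxt_prv]
    refine congrArg Finset.card ?_
    apply Finset.filter_congr
    intro e _
    exact h2 e
  rw [h1]
  have h3 : (Finset.univ : Finset (Σ i : Fin n, Fin (m i))).filter
      (fun e => e.1 = v ∨ e.1 = prv v) =
      ({v, prv v} : Finset (Fin n)).sigma (fun i => (Finset.univ : Finset (Fin (m i)))) := by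
    ext e
    simp
  rw [h3, Finset.card_sigma]
  have hne : v ≠ prv v := by
    intro h
    apply nxt_ne (n := n) (by omega) (prv v)
    rw [nxt_prv]
    exact h
  rw [Finset.sum_pair hne]
  simp

theorem ends_inj (hn : 3 ≤ n) {i j : Fin n} (h : s(i, nxt i) = s(j, nxt j)) : i = j := by
  rcases Sym2.eq_iff.1 h with ⟨h1, _⟩ | ⟨h1, h2⟩
  · exact h1
  · exfalso
    apply nxt_nxt_ne hn j
    rw [← h1, h2]

theorem mult_mcycle_eq (u v : Fin n) : (mcycle n hn m).mult u v =
    ((Finset.univ : Finset (Σ i : Fin n, Fin (m i))).filter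
        (fun e => s(e.1, nxt e.1) = s(u, v))).card := by
  unfold MGraph.mult
  refine congrArg Finset.card ?_
  apply Finset.filter_congr
  intro e _
  exact Iff.rfl

theorem mult_mcycle_le {M : ℕ} (hM : ∀ i, m i ≤ M) (u v : Fin n) :
    (mcycle n hn m).mult u v ≤ M := by
  by_cases h : ∃ i : Fin n, s(i, nxt i) = s(u, v)
  · obtain ⟨i, hi⟩ := h
    refine le_trans ?_ (hM i)
    have h1 : ((Finset.univ : Finset (Σ i : Fin n, Fin (m i))).filter
        (fun e => s(e.1, nxt e.1) = s(u, v))) ⊆
        ({i} : Finset (Fin n)).sigma (fun i => (Finset.univ : Finset (Fin (m i)))) := by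
      intro e he
      rw [Finset.mem_filter] at he
      rw [Finset.mem_sigma]
      refine ⟨?_, Finset.mem_univ _⟩
      rw [Finset.mem_singleton]
      exact ends_inj hn (he.2.trans hi.symm)
    have h2 := Finset.card_le_card h1
    rw [Finset.card_sigma, Finset.sum_singleton, Finset.card_univ, Fintype.card_fin] at h2
    rw [mult_mcycle_eq]
    exact h2
  · have h1 : ((Finset.univ : Finset (Σ i : Fin n, Fin (m i))).filter
        (fun e => s(e.1, nxt e.1) = s(u, v))).card = 0 := by
      rw [Finset.card_eq_zero, Finset.filter_eq_empty_iff]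
      intro e _ he
      exact h ⟨e.1, he⟩
    rw [mult_mcycle_eq, h1]
    exact Nat.zero_le _

theorem mult_mcycle_ge (i : Fin n) : m i ≤ (mcycle n hn m).mult i (nxt i) := by
  have h1 : ({i} : Finset (Fin n)).sigma (fun i => (Finset.univ : Finset (Fin (m i)))) ⊆
      ((Finset.univ : Finset (Σ i : Fin n, Fin (m i))).filter
        (fun e => s(e.1, nxt e.1) = s(i, nxt i))) := by
    intro e he
    rw [Finset.mem_sigma, Finset.mem_singleton] at he
    rw [Finset.mem_filter]
    exact ⟨Finset.mem_univ _, by rw [he.1]⟩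
  have h2 := Finset.card_le_card h1
  rw [Finset.card_sigma, Finset.sum_singleton, Finset.card_univ, Fintype.card_fin] at h2
  rw [mult_mcycle_eq]
  exact h2

theorem hasCycle_mcycle (hm : ∀ i, 1 ≤ m i) : (mcycle n hn m).HasCycle n := by
  refine ⟨fun i => ⟨i % n, Nat.mod_lt _ (by omega)⟩, ?_, ?_⟩
  · intro i hi j hj hij
    have h1 := congrArg Fin.val hij
    simp only [Nat.mod_eq_of_lt hi, Nat.mod_eq_of_lt hj] at h1
    exact h1
  · intro i hi
    refine ⟨⟨⟨i % n, Nat.mod_lt _ (by omega)⟩, ⟨0, hm _⟩⟩, ?_⟩
    have h1 : nxt (⟨i % n, Nat.mod_lt _ (by omega)⟩ : Fin n) =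
        ⟨(i + 1) % n % n, Nat.mod_lt _ (by omega)⟩ := by
      apply Fin.ext
      change (i % n + 1) % n = (i + 1) % n % n
      rw [Nat.mod_mod, Nat.mod_add_mod]
    change s((⟨i % n, Nat.mod_lt _ (by omega)⟩ : Fin n), nxt (⟨i % n, Nat.mod_lt _ (by omega)⟩ : Fin n)) = _
    rw [h1]
    rfl

/-- distance from `v0` going up -/
def dst {n : ℕ} (v0 x : Fin n) : ℕ := (x.1 + (n - v0.1)) % n

theorem dst_val {n : ℕ} (v0 x : Fin n) : dst v0 x = if v0.1 ≤ x.1 then x.1 - v0.1 else
    x.1 + n - v0.1 := by
  have h1 := x.2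
  have h2 := v0.2
  unfold dst
  split_ifs with h
  · have h3 : x.1 + (n - v0.1) = (x.1 - v0.1) + n := by omega
    rw [h3, Nat.add_mod_right]
    exact Nat.mod_eq_of_lt (by omega)
  · have h3 : x.1 + (n - v0.1) = x.1 + n - v0.1 := by omega
    rw [h3]
    exact Nat.mod_eq_of_lt (by omega)

theorem dst_lt {n : ℕ} (v0 x : Fin n) : dst v0 x < n := by
  have h1 := x.2
  unfold dst
  exact Nat.mod_lt _ (by omega)

theorem dst_nxt {n : ℕ} (v0 x : Fin n) (h : nxt x ≠ v0) : dst v0 (nxt x) = dst v0 x + 1 := by
  have h1 := x.2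
  have h2 := v0.2
  have h3 : (nxt x).1 ≠ v0.1 := fun h' => h (Fin.ext h')
  rw [dst_val, dst_val]
  rw [nxt_val] at h3 ⊢
  split_ifs at h3 ⊢ <;> omega

theorem girth_mcycle {ℓ : ℕ} (hℓ : 3 ≤ ℓ) (h : (mcycle n hn m).HasCycle ℓ) : n ≤ ℓ := by
  obtain ⟨y, hinj, hadj⟩ := h
  by_contra hcon
  push Not at hcon
  change ℕ → Fin n at y
  -- a vertex not on the cycle
  obtain ⟨v0, hv0⟩ : ∃ v0 : Fin n, ∀ i < ℓ, y i ≠ v0 := by
    by_contra hall
    push Not at hall
    have h1 : (Finset.univ : Finset (Fin n)) ⊆ (Finset.range ℓ).image y := by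
      intro v _
      obtain ⟨i, hi, hiv⟩ := hall v
      exact Finset.mem_image.2 ⟨i, Finset.mem_range.2 hi, hiv⟩
    have h2 := Finset.card_le_card h1
    have h3 : ((Finset.range ℓ).image y).card ≤ (Finset.range ℓ).card := Finset.card_image_le
    rw [Finset.card_univ, Fintype.card_fin] at h2
    rw [Finset.card_range] at h3
    omega
  -- the vertex of the cycle farthest from `v0`
  obtain ⟨i, hi, hmax⟩ := Finset.exists_max_image (Finset.range ℓ) (fun i => dst v0 (y i))
    ⟨0, Finset.mem_range.2 (by omega)⟩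
  rw [Finset.mem_range] at hi
  -- its neighbours on the cycle are different from `nxt (y i)`
  have hnot : ∀ j, j < ℓ → y j ≠ nxt (y i) := by
    intro j hj hji
    have h1 : nxt (y i) ≠ v0 := by
      rw [← hji]
      exact hv0 j hj
    have h2 := dst_nxt v0 (y i) h1
    have h3 : dst v0 (y j) ≤ dst v0 (y i) := hmax j (Finset.mem_range.2 hj)
    rw [hji] at h3
    omega
  have hadj' : ∀ i j, i < ℓ → j < ℓ → (∃ e, (mcycle n hn m).ends e = s(y i, y j)) →
      y j = nxt (y i) ∨ y i = nxt (y j) := by
    rintro i j _ _ ⟨e, he⟩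
    have he' : s(e.1, nxt e.1) = s(y i, y j) := he
    rcases Sym2.eq_iff.1 he' with ⟨h1, h2⟩ | ⟨h1, h2⟩
    · left
      rw [← h1, ← h2]
    · right
      rw [← h1, ← h2]
  -- successor index
  have hs : (i + 1) % ℓ < ℓ := Nat.mod_lt _ (by omega)
  have h1 := hadj' i ((i + 1) % ℓ) hi hs (hadj i hi)
  have h1' : y i = nxt (y ((i + 1) % ℓ)) := by
    rcases h1 with h | h
    · exact absurd h (hnot _ hs)
    · exact h
  -- predecessor index
  have hp : (i + (ℓ - 1)) % ℓ < ℓ := Nat.mod_lt _ (by omega)
  have hpi : ((i + (ℓ - 1)) % ℓ + 1) % ℓ = i := by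
    rw [Nat.mod_add_mod]
    have : i + (ℓ - 1) + 1 = i + ℓ := by omega
    rw [this, Nat.add_mod_right]
    exact Nat.mod_eq_of_lt hi
  have h2 := hadj' ((i + (ℓ - 1)) % ℓ) i hp hi (by
    have := hadj _ hp
    rwa [hpi] at this)
  have h2' : y i = nxt (y ((i + (ℓ - 1)) % ℓ)) := by
    rcases h2 with h | h
    · exact h
    · exact absurd h (hnot _ hp)
  have h3 : y ((i + 1) % ℓ) = y ((i + (ℓ - 1)) % ℓ) := nxt_inj (h1'.symm.trans h2')
  have h4 := hinj _ hs _ hp h3
  have h5 : (i + 1) % ℓ = if i + 1 = ℓ then 0 else i + 1 := by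
    split_ifs with h
    · rw [h, Nat.mod_self]
    · exact Nat.mod_eq_of_lt (by omega)
  have h6 : (i + (ℓ - 1)) % ℓ = if i = 0 then ℓ - 1 else i - 1 := by
    split_ifs with h
    · rw [h, Nat.zero_add]
      exact Nat.mod_eq_of_lt (by omega)
    · have h7 : i + (ℓ - 1) = (i - 1) + ℓ := by omega
      rw [h7, Nat.add_mod_right]
      exact Nat.mod_eq_of_lt (by omega)
  rw [h5, h6] at h4
  split_ifs at h4 <;> omega

end Pool.Agent.Lib.MP_633d19_co
end

section

/-!
The value of `st Δ μ g` for `Δ ≤ 2 μ` and for `μ ≤ ⌊g / 2⌋`.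
-/

namespace Pool.Agent.Lib.MP_633d19_co

open Classical

theorem degOn_univ (G : MGraph) (v : G.V) : degOn G.ends Finset.univ v = G.deg v := by
  unfold degOn MGraph.deg
  refine congrArg Finset.card ?_
  apply Finset.filter_congr
  intro e _
  exact Iff.rfl

theorem girthGE_of_hasGirth {G : MGraph} {g : ℕ} (h : G.HasGirth g) {h' : ℕ} (hh : h' ≤ g) :
    GirthGE G.ends h' := by
  intro ℓ hℓ y hinj hadj
  exact hh.trans (h.2.2 ℓ hℓ ⟨y, hinj, hadj⟩)

theorem colorable_of_proper {G : MGraph} {k : ℕ}
    (h : ∃ c : G.E → Fin k, ProperOn G.ends Finset.univ c) : G.Colorable k := by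
  obtain ⟨c, hc⟩ := h
  exact ⟨c, fun e e' hne v hv hv' =>
    hc e (Finset.mem_univ _) e' (Finset.mem_univ _) hne v hv hv'⟩

/-- upper bound from Goldberg's inequality -/
theorem upper_goldberg {G : MGraph} {g : ℕ} (hg : G.HasGirth g) :
    G.Colorable (G.maxDeg + 1 + (G.maxDeg - 2) / (2 * (g / 2))) := by
  by_contra hcon
  have h3 := hg.1
  obtain ⟨s, hs⟩ : ∃ s, s = g / 2 := ⟨_, rfl⟩
  rw [← hs] at hcon
  have hs1 : 1 ≤ s := by omega
  obtain ⟨q, hq⟩ : ∃ q, q = (G.maxDeg - 2) / (2 * s) := ⟨_, rfl⟩
  rw [← hq] at hcon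
  have h1 := goldberg (ends := G.ends) (k := G.maxDeg + 1 + q) (Δ := G.maxDeg) (s := s)
    (Nat.le_add_right _ _) hs1 G.loopless
    (girthGE_of_hasGirth hg (by omega))
    (fun v => by rw [degOn_univ]; exact G.deg_le_maxDeg v)
    (fun h => hcon (colorable_of_proper h))
  have h2 : G.maxDeg + 1 + q - G.maxDeg = 1 + q := by clear hq; omega
  rw [h2] at h1
  have h4 : (1 + q) * (2 * s) ≤ G.maxDeg - 2 := by
    have h6 : (2 * s + 1) * (1 + q) = (1 + q) * (2 * s) + (1 + q) := by ring
    clear hq
    omega
  have h5 : 1 + q ≤ q := by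
    have h7 := (Nat.le_div_iff_mul_le (by omega)).2 h4
    rwa [← hq] at h7
  clear hq
  omega

/-- upper bound for small multiplicity -/
theorem upper_small {G : MGraph} {g : ℕ} (hg : G.HasGirth g) (hμ : G.maxMult ≤ g / 2) :
    G.Colorable (G.maxDeg + 1) := by
  have h3 := hg.1
  refine colorable_of_proper (steffen_small (s := g / 2) (by omega) G.loopless
    (girthGE_of_hasGirth hg (by omega)) (fun v => by rw [degOn_univ]; exact G.deg_le_maxDeg v) ?_)
  intro u v
  refine le_trans ?_ ((G.mult_le_maxMult u v).trans hμ)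
  apply le_of_eq
  unfold MGraph.mult
  refine congrArg Finset.card ?_
  apply Finset.filter_congr
  intro e _
  exact Iff.rfl

/-- the disjoint union of `G`, a cycle `C_g` and a dipole with `μ` edges -/
def complete (G : MGraph) (g : ℕ) (hg : 3 ≤ g) (μ : ℕ) : MGraph :=
  G.sum ((mcycle g hg (fun _ => 1)).sum (MGraph.dipole μ))

theorem maxDeg_cyc (g : ℕ) (hg : 3 ≤ g) : (mcycle g hg (fun _ => 1)).maxDeg = 2 := by
  refine MGraph.maxDeg_eq (fun v => ?_) (⟨0, by omega⟩ : Fin g) ?_
  · rw [deg_mcycle]
  · rw [deg_mcycle]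

theorem complete_maxDeg {G : MGraph} {g : ℕ} {hg : 3 ≤ g} {μ : ℕ} (h2 : 2 ≤ G.maxDeg)
    (hμ : μ ≤ G.maxDeg) : (complete G g hg μ).maxDeg = G.maxDeg := by
  unfold complete
  rw [MGraph.maxDeg_sum, MGraph.maxDeg_sum, maxDeg_cyc, MGraph.maxDeg_dipole]
  omega

theorem complete_maxMult {G : MGraph} {g : ℕ} {hg : 3 ≤ g} {μ : ℕ} (h1 : 1 ≤ μ)
    (hμ : G.maxMult ≤ μ) : (complete G g hg μ).maxMult = μ := by
  unfold complete
  rw [MGraph.maxMult_sum, MGraph.maxMult_sum, MGraph.maxMult_dipole]
  have : (mcycle g hg (fun _ => 1)).maxMult ≤ 1 :=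
    MGraph.maxMult_le (fun u v => mult_mcycle_le (fun _ => le_rfl) u v)
  omega

theorem complete_hasGirth {G : MGraph} {g : ℕ} {hg : 3 ≤ g} {μ : ℕ}
    (h : ∀ ℓ, 3 ≤ ℓ → G.HasCycle ℓ → g ≤ ℓ) : (complete G g hg μ).HasGirth g := by
  refine ⟨hg, ?_, ?_⟩
  · unfold complete
    rw [MGraph.hasCycle_sum (by omega), MGraph.hasCycle_sum (by omega)]
    exact Or.inr (Or.inl (hasCycle_mcycle (fun _ => le_rfl)))
  · intro ℓ hℓ hc
    unfold complete at hc
    rw [MGraph.hasCycle_sum (by omega), MGraph.hasCycle_sum (by omega)] at hc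
    rcases hc with hc | hc | hc
    · exact h ℓ hℓ hc
    · exact girth_mcycle hℓ hc
    · exact absurd hc (MGraph.no_cycle_dipole μ ℓ hℓ)

theorem sum_alt (D s : ℕ) : ∑ i ∈ Finset.range (2 * s + 1),
    (if i % 2 = 1 then (D + 1) / 2 else D / 2) = s * D + D / 2 := by
  induction s with
  | zero => simp
  | succ s ih =>
    rw [show 2 * (s + 1) + 1 = (2 * s + 1) + 1 + 1 by ring, Finset.sum_range_succ,
      Finset.sum_range_succ, ih]
    have h1 : (2 * s + 1) % 2 = 1 := by omega
    have h2 : ¬ ((2 * s + 1 + 1) % 2 = 1) := by omega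
    rw [if_pos h1, if_neg h2]
    have h3 : (s + 1) * D = s * D + D := by ring
    omega

/-- The odd cycle with alternating multiplicities. -/
def altCycle (s : ℕ) (hs : 1 ≤ s) (D : ℕ) : MGraph :=
  mcycle (2 * s + 1) (by omega) (fun i => if i.1 % 2 = 1 then (D + 1) / 2 else D / 2)

theorem altCycle_maxDeg (s : ℕ) (hs : 1 ≤ s) (D : ℕ) : (altCycle s hs D).maxDeg = D := by
  unfold altCycle
  refine MGraph.maxDeg_eq (fun v => ?_) (⟨1, by omega⟩ : Fin (2 * s + 1)) ?_
  · change Fin (2 * s + 1) at v
    rw [deg_mcycle, prv_val]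
    have h1 := v.2
    split_ifs <;> omega
  · rw [deg_mcycle, prv_val]
    have h1 : (1 : ℕ) ≠ 0 := by omega
    simp
    omega

theorem altCycle_not_colorable {s : ℕ} (hs : 1 ≤ s) {D k : ℕ} (h : k * s < s * D + D / 2) :
    ¬ (altCycle s hs D).Colorable k := by
  intro hc
  have h1 := MGraph.card_E_le hc
  unfold altCycle at h1
  rw [card_E_mcycle, card_V_mcycle, Fin.sum_univ_eq_sum_range
    (fun i => if i % 2 = 1 then (D + 1) / 2 else D / 2), sum_alt] at h1
  have h2 : (2 * s + 1) / 2 = s := by omega
  rw [h2] at h1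
  omega

/-- lower bound, `Δ ≤ 2 μ` -/
theorem exists_large {Δ μ g : ℕ} (hg : 3 ≤ g) (hμ : 1 ≤ μ) (hΔ : 2 ≤ Δ) (hμΔ : μ ≤ Δ)
    (hΔμ : Δ ≤ 2 * μ) :
    ∃ G : MGraph, G.maxDeg = Δ ∧ G.maxMult = μ ∧ G.HasGirth g ∧
      G.chromIndex = Δ + 1 + (Δ - 2) / (2 * (g / 2)) := by
  have hs : 1 ≤ g / 2 := by omega
  set s := g / 2 with hsdef
  set q := (Δ - 2) / (2 * s) with hq
  have hD := altCycle_maxDeg s hs Δ
  have hM : (altCycle s hs Δ).maxMult ≤ μ := by
    apply MGraph.maxMult_le
    intro u v
    apply mult_mcycle_le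
    intro i
    split_ifs <;> omega
  have hG : (complete (altCycle s hs Δ) g hg μ).HasGirth g := by
    apply complete_hasGirth
    intro ℓ hℓ hc
    have := girth_mcycle hℓ hc
    omega
  have hdeg : (complete (altCycle s hs Δ) g hg μ).maxDeg = Δ := by
    rw [complete_maxDeg (by omega) (by omega), hD]
  refine ⟨complete (altCycle s hs Δ) g hg μ, hdeg, complete_maxMult hμ hM, hG, ?_⟩
  apply le_antisymm
  · have h1 := MGraph.chromIndex_le (upper_goldberg hG)
    rw [hdeg] at h1
    exact h1
  · have h1 : ¬ (complete (altCycle s hs Δ) g hg μ).Colorable (Δ + q) := by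
      intro h2
      refine altCycle_not_colorable hs ?_ (MGraph.colorable_of_sum h2)
      have h3 : q * (2 * s) ≤ Δ - 2 := Nat.div_mul_le_self _ _
      have h4 : (Δ + q) * s = s * Δ + q * s := by ring
      have h5 : q * (2 * s) = 2 * (q * s) := by ring
      omega
    have h2 := MGraph.lt_chromIndex h1
    omega

/-- lower bound, `μ ≤ ⌊g / 2⌋` -/
theorem exists_small {Δ μ g : ℕ} (hg : 3 ≤ g) (hμ : 1 ≤ μ) (hΔ : 2 ≤ Δ) (hμΔ : μ ≤ Δ)
    (hμg : μ ≤ g / 2) :
    ∃ G : MGraph, G.maxDeg = Δ ∧ G.maxMult = μ ∧ G.HasGirth g ∧ G.chromIndex = Δ + 1 := by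
  set i0 : Fin Δ := ⟨0, by omega⟩
  have hD : (hgraph Δ g i0).maxDeg = Δ := by
    apply le_antisymm
    · exact MGraph.maxDeg_le (hgraph_deg_le hΔ)
    · exact hgraph_deg_ge.trans (MGraph.deg_le_maxDeg _ _)
  have hM : (hgraph Δ g i0).maxMult ≤ μ :=
    (MGraph.maxMult_le (hgraph_mult_le (by omega))).trans hμ
  have hG : (complete (hgraph Δ g i0) g hg μ).HasGirth g := by
    apply complete_hasGirth
    intro ℓ hℓ hc
    exact (girth_hgraph hℓ hc).le
  have hdeg : (complete (hgraph Δ g i0) g hg μ).maxDeg = Δ := by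
    rw [complete_maxDeg (by omega) (by omega), hD]
  have hmu : (complete (hgraph Δ g i0) g hg μ).maxMult = μ := complete_maxMult hμ hM
  refine ⟨complete (hgraph Δ g i0) g hg μ, hdeg, hmu, hG, ?_⟩
  apply le_antisymm
  · have h1 := MGraph.chromIndex_le (upper_small hG (by rw [hmu]; exact hμg))
    rw [hdeg] at h1
    exact h1
  · have h1 : ¬ (complete (hgraph Δ g i0) g hg μ).Colorable Δ := by
      intro h2
      exact hgraph_not_colorable (MGraph.colorable_of_sum h2)
    exact MGraph.lt_chromIndex h1

theorem isGreatest_large {Δ μ g : ℕ} (hg : 3 ≤ g) (hμ : 1 ≤ μ) (hΔ : 2 ≤ Δ) (hμΔ : μ ≤ Δ)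
    (hΔμ : Δ ≤ 2 * μ) : IsGreatest (stSet Δ μ g) (Δ + 1 + (Δ - 2) / (2 * (g / 2))) := by
  refine ⟨exists_large hg hμ hΔ hμΔ hΔμ, ?_⟩
  rintro n ⟨G, h1, h2, h3, h4⟩
  rw [← h4, ← h1]
  exact MGraph.chromIndex_le (upper_goldberg h3)

theorem isGreatest_small {Δ μ g : ℕ} (hg : 3 ≤ g) (hμ : 1 ≤ μ) (hΔ : 2 ≤ Δ) (hμΔ : μ ≤ Δ)
    (hμg : μ ≤ g / 2) : IsGreatest (stSet Δ μ g) (Δ + 1) := by
  refine ⟨exists_small hg hμ hΔ hμΔ hμg, ?_⟩
  rintro n ⟨G, h1, h2, h3, h4⟩
  rw [← h4, ← h1]
  exact MGraph.chromIndex_le (upper_small h3 (by rw [h2]; exact hμg))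

theorem st_eq {Δ μ g n : ℕ} (h : IsGreatest (stSet Δ μ g) n) : st Δ μ g = n := h.csSup_eq

end Pool.Agent.Lib.MP_633d19_co
end
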