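import Pool.Agent.Lib.MP_633d19_co.TashCount

section

/-!
The edges inside a maximal tree whose colour is missing at a vertex of the tree.
-/

namespace Pool.Agent.Lib.MP_633d19_co

open Classical

variable {V E : Type*} {ends : E → Sym2 V} {F : Finset E} {e0 : E} {k : ℕ}

/-- `X` contains the ends `a`, `b` of the uncoloured edge `e0`, the missing colours of its
vertices are pairwise different, and no edge with such a colour leaves `X`. -/
structure CES (ends : E → Sym2 V) (F : Finset E) (e0 : E) (c : E → Fin k) (X : Finset V)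
    (a b : V) : Prop where
  he0 : e0 ∈ F
  hc : ProperOn ends (F.erase e0) c
  hab : ends e0 = s(a, b)
  ha : a ∈ X
  hb : b ∈ X
  hne : a ≠ b
  closed : ∀ e ∈ F.erase e0, ∀ v w, ends e = s(v, w) → v ∈ X →
    (∃ u ∈ X, Missing ends (F.erase e0) c u (c e)) → w ∈ X
  elem : ∀ u ∈ X, ∀ v ∈ X, ∀ γ, Missing ends (F.erase e0) c u γ →
    Missing ends (F.erase e0) c v γ → u = v

/-- the colours missing in `X` -/
noncomputable def MX (ends : E → Sym2 V) (D : Finset E) (c : E → Fin k) (X : Finset V) :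
    Finset (Fin k) := X.biUnion (fun w => Mis ends D c w)

theorem mem_MX {D : Finset E} {c : E → Fin k} {X : Finset V} {γ : Fin k} :
    γ ∈ MX ends D c X ↔ ∃ u ∈ X, Missing ends D c u γ := by
  unfold MX
  rw [Finset.mem_biUnion]
  constructor
  · rintro ⟨i, hi, h⟩; exact ⟨i, hi, mem_Mis.1 h⟩
  · rintro ⟨i, hi, h⟩; exact ⟨i, hi, mem_Mis.2 h⟩

/-- the edges inside `X` with a colour missing in `X`, and `e0` -/
noncomputable def HE (ends : E → Sym2 V) (F : Finset E) (e0 : E) (c : E → Fin k)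
    (X : Finset V) : Finset E :=
  F.filter (fun e => e = e0 ∨ (c e ∈ MX ends (F.erase e0) c X ∧ ∀ x ∈ ends e, x ∈ X))

/-- the number of missing colours, `e0` being counted as if coloured -/
noncomputable def bb (ends : E → Sym2 V) (F : Finset E) (e0 : E) (c : E → Fin k) (w : V) : ℕ :=
  (Mis ends (F.erase e0) c w).card - (if w ∈ ends e0 then 1 else 0)

variable {c : E → Fin k} {X : Finset V} {a b : V}

namespace CES

theorem sum_Mis (h : CES ends F e0 c X a b) :
    ∑ w ∈ X, (Mis ends (F.erase e0) c w).card = (MX ends (F.erase e0) c X).card := by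
  unfold MX
  rw [Finset.card_biUnion]
  intro i hi j hj hij
  rw [Function.onFun, Finset.disjoint_left]
  intro γ h1 h2
  exact hij (h.elem i hi j hj γ (mem_Mis.1 h1) (mem_Mis.1 h2))

theorem e0_mem (h : CES ends F e0 c X a b) : e0 ∈ HE ends F e0 c X := by
  unfold HE
  rw [Finset.mem_filter]
  exact ⟨h.he0, Or.inl rfl⟩

theorem sub (X : Finset V) (c : E → Fin k) : HE ends F e0 c X ⊆ F :=
  Finset.filter_subset _ _

theorem inside (h : CES ends F e0 c X a b) {e : E} (he : e ∈ HE ends F e0 c X) {x : V}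
    (hx : x ∈ ends e) : x ∈ X := by
  unfold HE at he
  rw [Finset.mem_filter] at he
  rcases he.2 with h1 | h1
  · rw [h1, h.hab] at hx
    rcases Sym2.mem_iff.1 hx with h2 | h2
    · rw [h2]; exact h.ha
    · rw [h2]; exact h.hb
  · exact h1.2 x hx

theorem mem_of_touch (h : CES ends F e0 c X a b) {e : E} (he : e ∈ F.erase e0) {w : V}
    (hw : w ∈ X) (hwe : w ∈ ends e) (hm : c e ∈ MX ends (F.erase e0) c X) :
    e ∈ HE ends F e0 c X := by
  unfold HE
  rw [Finset.mem_filter]
  refine ⟨Finset.mem_of_mem_erase he, Or.inr ⟨hm, ?_⟩⟩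
  obtain ⟨z, hz⟩ := Sym2.mem_iff_exists.1 hwe
  intro x hx
  rw [hz] at hx
  rcases Sym2.mem_iff.1 hx with h2 | h2
  · rw [h2]; exact hw
  · rw [h2]
    exact h.closed e he w z hz hw (mem_MX.1 hm)

/-- the degrees -/
theorem deg_HE (h : CES ends F e0 c X a b) {w : V} (hw : w ∈ X) :
    degOn ends (HE ends F e0 c X) w + (Mis ends (F.erase e0) c w).card =
      (MX ends (F.erase e0) c X).card + (if w ∈ ends e0 then 1 else 0) := by
  set M := MX ends (F.erase e0) c X with hM
  set S := ((F.erase e0).filter (fun e => w ∈ ends e)).filter (fun e => c e ∈ M) with hS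
  have hS1 : S.card + (Mis ends (F.erase e0) c w).card = M.card := by
    have h1 : S.image c = M \ Mis ends (F.erase e0) c w := by
      ext γ
      rw [Finset.mem_image, Finset.mem_sdiff, mem_Mis]
      constructor
      · rintro ⟨e, he, hce⟩
        rw [hS, Finset.mem_filter, Finset.mem_filter] at he
        rw [← hce]
        exact ⟨he.2, fun h2 => h2 e he.1.1 he.1.2 rfl⟩
      · rintro ⟨h2, h3⟩
        unfold Missing at h3
        push Not at h3
        obtain ⟨e, he, hwe, hce⟩ := h3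
        refine ⟨e, ?_, hce⟩
        rw [hS, Finset.mem_filter, Finset.mem_filter]
        exact ⟨⟨he, hwe⟩, by rw [hce]; exact h2⟩
    have h2 : (S.image c).card = S.card := by
      rw [Finset.card_image_of_injOn]
      intro e he e' he' hee
      rw [Finset.mem_coe, hS, Finset.mem_filter, Finset.mem_filter] at he he'
      by_contra hne
      exact h.hc e he.1.1 e' he'.1.1 hne w he.1.2 he'.1.2 hee
    have h3 : Mis ends (F.erase e0) c w ⊆ M := by
      intro γ hγ
      rw [hM, mem_MX]
      exact ⟨w, hw, mem_Mis.1 hγ⟩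
    rw [← h2, h1, Finset.card_sdiff_add_card_eq_card h3]
  have hnot : e0 ∉ S := by
    rw [hS, Finset.mem_filter, Finset.mem_filter]
    rintro ⟨⟨h2, _⟩, _⟩
    exact Finset.notMem_erase e0 F h2
  have hfil : (HE ends F e0 c X).filter (fun e => w ∈ ends e) =
      if w ∈ ends e0 then insert e0 S else S := by
    ext e
    rw [Finset.mem_filter]
    by_cases hee : e = e0
    · subst hee
      split_ifs with h2
      · exact ⟨fun _ => Finset.mem_insert_self _ _, fun _ => ⟨h.e0_mem, h2⟩⟩
      · exact ⟨fun h3 => absurd h3.2 h2, fun h3 => absurd h3 hnot⟩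
    · have h3 : (e ∈ HE ends F e0 c X ∧ w ∈ ends e) ↔ e ∈ S := by
        rw [hS, Finset.mem_filter, Finset.mem_filter, Finset.mem_erase]
        constructor
        · rintro ⟨h4, h5⟩
          unfold HE at h4
          rw [Finset.mem_filter] at h4
          rcases h4.2 with h6 | h6
          · exact absurd h6 hee
          · exact ⟨⟨⟨hee, h4.1⟩, h5⟩, h6.1⟩
        · rintro ⟨⟨⟨h4, h5⟩, h6⟩, h7⟩
          exact ⟨h.mem_of_touch (Finset.mem_erase.2 ⟨h4, h5⟩) hw h6 h7, h6⟩
      rw [h3]
      split_ifs with h2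
      · rw [Finset.mem_insert]
        exact ⟨Or.inr, fun h4 => h4.resolve_left hee⟩
      · rfl
  unfold degOn
  rw [hfil]
  split_ifs with h2
  · rw [Finset.card_insert_of_notMem hnot]
    omega
  · omega

theorem mis_ge (h : CES ends F e0 c X a b) {Δ t : ℕ} (hk : k = Δ + t)
    (hΔ : ∀ v, degOn ends F v ≤ Δ) (w : V) :
    t + (if w ∈ ends e0 then 1 else 0) ≤ (Mis ends (F.erase e0) c w).card := by
  split_ifs with h1
  · exact Mis_lower' h.he0 hk hΔ c h1
  · exact Mis_lower hk hΔ c w

theorem bb_add (h : CES ends F e0 c X a b) {Δ t : ℕ} (hk : k = Δ + t)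
    (hΔ : ∀ v, degOn ends F v ≤ Δ) (w : V) :
    bb ends F e0 c w + (if w ∈ ends e0 then 1 else 0) = (Mis ends (F.erase e0) c w).card := by
  have := h.mis_ge hk hΔ w
  unfold bb
  omega

theorem bb_ge (h : CES ends F e0 c X a b) {Δ t : ℕ} (hk : k = Δ + t)
    (hΔ : ∀ v, degOn ends F v ≤ Δ) (w : V) : t ≤ bb ends F e0 c w := by
  have := h.mis_ge hk hΔ w
  have := h.bb_add hk hΔ w
  omega

theorem sum_ends (h : CES ends F e0 c X a b) :
    ∑ w ∈ X, (if w ∈ ends e0 then 1 else 0) = 2 := by
  rw [← Finset.card_filter]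
  have : X.filter (fun w => w ∈ ends e0) = {a, b} := by
    ext w
    rw [Finset.mem_filter, h.hab, Sym2.mem_iff, Finset.mem_insert, Finset.mem_singleton]
    constructor
    · exact fun h1 => h1.2
    · intro h1
      refine ⟨?_, h1⟩
      rcases h1 with h1 | h1
      · rw [h1]; exact h.ha
      · rw [h1]; exact h.hb
  rw [this, Finset.card_pair h.hne]

theorem sum_bb (h : CES ends F e0 c X a b) {Δ t : ℕ} (hk : k = Δ + t)
    (hΔ : ∀ v, degOn ends F v ≤ Δ) :
    ∑ w ∈ X, bb ends F e0 c w + 2 = (MX ends (F.erase e0) c X).card := by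
  rw [← h.sum_Mis, ← h.sum_ends, ← Finset.sum_add_distrib]
  exact Finset.sum_congr rfl (fun w _ => h.bb_add hk hΔ w)

theorem deg_HE' (h : CES ends F e0 c X a b) {Δ t : ℕ} (hk : k = Δ + t)
    (hΔ : ∀ v, degOn ends F v ≤ Δ) {w : V} (hw : w ∈ X) :
    degOn ends (HE ends F e0 c X) w + bb ends F e0 c w =
      (MX ends (F.erase e0) c X).card := by
  have h1 := h.deg_HE hw
  have h2 := h.bb_add hk hΔ w
  omega

/-- the edges of `HE` at a vertex of `X` go to `X` -/
theorem ed2_HE (h : CES ends F e0 c X a b) (w : V) :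
    ed2 ends (HE ends F e0 c X) X w = (HE ends F e0 c X).filter (fun e => w ∈ ends e) := by
  unfold ed2
  ext e
  rw [Finset.mem_filter, Finset.mem_filter]
  constructor
  · rintro ⟨h1, x, _, h3⟩
    exact ⟨h1, by rw [h3]; exact Sym2.mem_mk_left _ _⟩
  · rintro ⟨h1, h2⟩
    obtain ⟨z, hz⟩ := Sym2.mem_iff_exists.1 h2
    exact ⟨h1, z, h.inside h1 (by rw [hz]; exact Sym2.mem_mk_right _ _), hz⟩

/-- lower bound for the degrees -/
theorem deg_HE_ge (h : CES ends F e0 c X a b) {Δ t N : ℕ} (hk : k = Δ + t)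
    (hΔ : ∀ v, degOn ends F v ≤ Δ) (hX : X.card = N + 1) {w : V} (hw : w ∈ X) :
    N * t + 2 ≤ (ed2 ends (HE ends F e0 c X) X w).card := by
  rw [h.ed2_HE]
  change _ ≤ degOn ends (HE ends F e0 c X) w
  have h1 := h.deg_HE' hk hΔ hw
  have h2 := h.sum_bb hk hΔ
  rw [← Finset.add_sum_erase X _ hw] at h2
  have h3 : (X.erase w).card • t ≤ ∑ x ∈ X.erase w, bb ends F e0 c x :=
    Finset.card_nsmul_le_sum _ _ _ (fun x _ => h.bb_ge hk hΔ x)
  rw [Finset.card_erase_of_mem hw, hX, Nat.add_sub_cancel, smul_eq_mul] at h3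
  omega

/-- a permutation of `X` moving each vertex along an edge -/
theorem exists_perm (h : CES ends F e0 c X a b) {γ₀ γ₁ : Fin k}
    (hγ₀ : Missing ends (F.erase e0) c a γ₀) (hγ₁ : Missing ends (F.erase e0) c b γ₁) :
    ∃ σ : Equiv.Perm X, ∀ x : X, ∃ e ∈ HE ends F e0 c X, ends e = s(x.1, (σ x).1) := by
  have hab' : ends e0 = s(b, a) := by rw [h.hab, Sym2.eq_swap]
  have key : ∀ (a' : V) (γ : Fin k), a' ∈ X → Missing ends (F.erase e0) c a' γ →
      ∃ f : X → X, (∀ x : X, x.1 ≠ a' → ∃ e ∈ F.erase e0, c e = γ ∧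
        e ∈ HE ends F e0 c X ∧ ends e = s(x.1, (f x).1)) := by
    intro a' γ ha' hm
    have : ∀ x : X, ∃ z : X, x.1 ≠ a' → ∃ e ∈ F.erase e0, c e = γ ∧
        e ∈ HE ends F e0 c X ∧ ends e = s(x.1, z.1) := by
      intro x
      by_cases hx : x.1 = a'
      · exact ⟨x, fun h1 => absurd hx h1⟩
      · have h1 : ¬ Missing ends (F.erase e0) c x.1 γ := by
          intro h1
          exact hx (h.elem x.1 x.2 a' ha' γ h1 hm)
        unfold Missing at h1
        push Not at h1
        obtain ⟨e, he, hxe, hce⟩ := h1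
        have h2 : e ∈ HE ends F e0 c X := h.mem_of_touch he x.2 hxe
          (by rw [hce, mem_MX]; exact ⟨a', ha', hm⟩)
        obtain ⟨z, hz⟩ := Sym2.mem_iff_exists.1 hxe
        have h3 : z ∈ X := h.inside h2 (by rw [hz]; exact Sym2.mem_mk_right _ _)
        exact ⟨⟨z, h3⟩, fun _ => ⟨e, he, hce, h2, hz⟩⟩
    choose f hf using this
    exact ⟨f, hf⟩
  obtain ⟨f₀, hf₀⟩ := key a γ₀ h.ha hγ₀
  obtain ⟨f₁, hf₁⟩ := key b γ₁ h.hb hγ₁
  have huniq : ∀ e e' : E, e ∈ F.erase e0 → e' ∈ F.erase e0 → ∀ v, v ∈ ends e → v ∈ ends e' →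
      c e = c e' → e = e' := by
    intro e e' he he' v hv hv' hcc
    by_contra hne
    exact h.hc e he e' he' hne v hv hv' hcc
  have inv : ∀ (a' : V) (γ : Fin k) (f : X → X), Missing ends (F.erase e0) c a' γ →
      (∀ x : X, x.1 ≠ a' → ∃ e ∈ F.erase e0, c e = γ ∧
        e ∈ HE ends F e0 c X ∧ ends e = s(x.1, (f x).1)) →
      ∀ x : X, x.1 ≠ a' → (f x).1 ≠ a' ∧ f (f x) = x := by
    intro a' γ f hm hf x hx
    obtain ⟨e, he, hce, _, hex⟩ := hf x hx
    have h1 : (f x).1 ≠ a' := by
      intro h1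
      exact hm e he (by rw [hex, h1]; exact Sym2.mem_mk_right _ _) hce
    refine ⟨h1, ?_⟩
    obtain ⟨e', he', hce', _, hex'⟩ := hf (f x) h1
    have h2 : e = e' := huniq e e' he he' (f x).1 (by rw [hex]; exact Sym2.mem_mk_right _ _)
      (by rw [hex']; exact Sym2.mem_mk_left _ _) (by rw [hce, hce'])
    rw [← h2, hex, Sym2.eq_swap] at hex'
    exact Subtype.ext (Sym2.congr_right.1 hex').symm
  set A : X := ⟨a, h.ha⟩ with hA
  set B : X := ⟨b, h.hb⟩ with hB
  let φ : X × Bool → X × Bool := fun p =>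
    if p.2 = false then (if p.1.1 = a then (B, true) else (f₀ p.1, false))
    else (if p.1.1 = b then (A, false) else (f₁ p.1, true))
  have hφ : ∀ p, φ (φ p) = p := by
    rintro ⟨x, t⟩
    cases t
    · by_cases hx : x.1 = a
      · have h1 : φ (x, false) = (B, true) := by
          simp only [φ]; rw [if_pos trivial, if_pos hx]
        rw [h1]
        have h2 : φ (B, true) = (A, false) := by
          simp only [φ]; rw [if_neg (by decide), if_pos rfl]
        rw [h2, hA]
        exact Prod.ext (Subtype.ext hx.symm) rfl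
      · have h1 : φ (x, false) = (f₀ x, false) := by
          simp only [φ]; rw [if_pos trivial, if_neg hx]
        obtain ⟨h3, h4⟩ := inv a γ₀ f₀ hγ₀ hf₀ x hx
        have h2 : φ (f₀ x, false) = (f₀ (f₀ x), false) := by
          simp only [φ]; rw [if_pos trivial, if_neg h3]
        rw [h1, h2, h4]
    · by_cases hx : x.1 = b
      · have h1 : φ (x, true) = (A, false) := by
          simp only [φ]; rw [if_neg (by decide), if_pos hx]
        rw [h1]
        have h2 : φ (A, false) = (B, true) := by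
          simp only [φ]; rw [if_pos trivial, if_pos rfl]
        rw [h2, hB]
        exact Prod.ext (Subtype.ext hx.symm) rfl
      · have h1 : φ (x, true) = (f₁ x, true) := by
          simp only [φ]; rw [if_neg (by decide), if_neg hx]
        obtain ⟨h3, h4⟩ := inv b γ₁ f₁ hγ₁ hf₁ x hx
        have h2 : φ (f₁ x, true) = (f₁ (f₁ x), true) := by
          simp only [φ]; rw [if_neg (by decide), if_neg h3]
        rw [h1, h2, h4]
  have hinj : Function.Injective φ := fun p q hpq => by rw [← hφ p, ← hφ q, hpq]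
  -- `φ p` is adjacent to `p`
  let nbr : X → Finset X := fun x => Finset.univ.filter
    (fun z : X => ∃ e ∈ HE ends F e0 c X, ends e = s(x.1, z.1))
  have hadj : ∀ p, (φ p).1 ∈ nbr p.1 := by
    rintro ⟨x, t⟩
    simp only [nbr, Finset.mem_filter, Finset.mem_univ, true_and]
    cases t
    · by_cases hx : x.1 = a
      · have h1 : φ (x, false) = (B, true) := by
          simp only [φ]; rw [if_pos trivial, if_pos hx]
        rw [h1]
        exact ⟨e0, h.e0_mem, by rw [hx]; exact h.hab⟩
      · have h1 : φ (x, false) = (f₀ x, false) := by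
          simp only [φ]; rw [if_pos trivial, if_neg hx]
        rw [h1]
        obtain ⟨e, _, _, he, hex⟩ := hf₀ x hx
        exact ⟨e, he, hex⟩
    · by_cases hx : x.1 = b
      · have h1 : φ (x, true) = (A, false) := by
          simp only [φ]; rw [if_neg (by decide), if_pos hx]
        rw [h1]
        exact ⟨e0, h.e0_mem, by rw [hx]; exact hab'⟩
      · have h1 : φ (x, true) = (f₁ x, true) := by
          simp only [φ]; rw [if_neg (by decide), if_neg hx]
        rw [h1]
        obtain ⟨e, _, _, he, hex⟩ := hf₁ x hx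
        exact ⟨e, he, hex⟩
  have hall : ∀ s : Finset X, s.card ≤ (s.biUnion nbr).card := by
    intro s
    have h1 : (s ×ˢ (Finset.univ : Finset Bool)).image φ ⊆
        (s.biUnion nbr) ×ˢ (Finset.univ : Finset Bool) := by
      intro p hp
      obtain ⟨q, hq, hqp⟩ := Finset.mem_image.1 hp
      rw [Finset.mem_product] at hq
      rw [Finset.mem_product]
      refine ⟨Finset.mem_biUnion.2 ⟨q.1, hq.1, ?_⟩, Finset.mem_univ _⟩
      rw [← hqp]
      exact hadj q
    have h2 := Finset.card_le_card h1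
    rw [Finset.card_image_of_injective _ hinj, Finset.card_product, Finset.card_product] at h2
    simp only [Finset.card_univ, Fintype.card_bool] at h2
    omega
  obtain ⟨σ, hσ, hσn⟩ := (Finset.all_card_le_biUnion_card_iff_exists_injective nbr).1 hall
  refine ⟨Equiv.ofBijective σ (Finite.injective_iff_bijective.1 hσ), ?_⟩
  intro x
  have h1 := hσn x
  simp only [nbr, Finset.mem_filter, Finset.mem_univ, true_and] at h1
  exact h1

end CES

end Pool.Agent.Lib.MP_633d19_co
end

section

/-!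
Hamiltonian cycles of edges.
-/

namespace Pool.Agent.Lib.MP_633d19_co

open Classical

variable {V E : Type*} {ends : E → Sym2 V}

/-- `z 0, …, z N` are all the vertices of `X`, and `o i` joins `z i` to `z (i + 1)`, where
`z (N + 1) = z 0`. -/
structure HamC (ends : E → Sym2 V) (H : Finset E) (X : Finset V) (N : ℕ) (z : ℕ → V)
    (o : ℕ → E) : Prop where
  mem : ∀ i, z i ∈ X
  inj : ∀ i j, i ≤ N → j ≤ N → z i = z j → i = j
  per : z (N + 1) = z 0
  edge : ∀ i, o i ∈ H
  ends_eq : ∀ i, ends (o i) = s(z i, z (i + 1))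
  card : X.card = N + 1

theorem exists_hamC {H : Finset E} {X : Finset V} {N : ℕ} (hX : X.card = N + 1)
    (τ : Equiv.Perm X) (hτ : ∀ x : X, ∃ e ∈ H, ends e = s(x.1, (τ x).1))
    (hs : ∀ x y, τ.SameCycle x y) : ∃ z o, HamC ends H X N z o := by
  have hne : X.Nonempty := by rw [← Finset.card_pos]; omega
  obtain ⟨v0, hv0⟩ := hne
  set x0 : X := ⟨v0, hv0⟩ with hx0
  have hcyc : τ.IsCycleOn (↑(Finset.univ : Finset X) : Set X) := by
    refine ⟨?_, ?_⟩
    · rw [Finset.coe_univ]
      exact Set.bijOn_univ.2 τ.bijective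
    · intro x _ y _
      exact hs x y
  choose f hf hfe using hτ
  refine ⟨fun i => ((τ ^ i) x0).1, fun i => f ((τ ^ i) x0), ?_, ?_, ?_, ?_, ?_, hX⟩
  · intro i
    exact ((τ ^ i) x0).2
  · intro i j hi hj hij
    have h1 : (τ ^ i) x0 = (τ ^ j) x0 := Subtype.ext hij
    rw [hcyc.pow_apply_eq_pow_apply (Finset.mem_univ x0)] at h1
    rw [Finset.card_univ, Fintype.card_coe, hX] at h1
    exact Nat.ModEq.eq_of_lt_of_lt h1 (by omega) (by omega)
  · have h1 : (τ ^ (N + 1)) x0 = x0 := by
      rw [hcyc.pow_apply_eq (Finset.mem_univ x0), Finset.card_univ, Fintype.card_coe, hX]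
    change ((τ ^ (N + 1)) x0).1 = ((τ ^ 0) x0).1
    rw [h1]
    rfl
  · intro i
    exact hf _
  · intro i
    change ends (f ((τ ^ i) x0)) = s(((τ ^ i) x0).1, ((τ ^ (i + 1)) x0).1)
    rw [hfe, pow_succ', Equiv.Perm.mul_apply]

namespace HamC

variable {H : Finset E} {X : Finset V} {N : ℕ} {z : ℕ → V} {o : ℕ → E}

theorem surj (h : HamC ends H X N z o) {v : V} (hv : v ∈ X) : ∃ i ≤ N, z i = v := by
  have h1 : (Finset.range (N + 1)).image z = X := by
    apply Finset.eq_of_subset_of_card_le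
    · intro x hx
      obtain ⟨i, _, hi⟩ := Finset.mem_image.1 hx
      rw [← hi]
      exact h.mem i
    · rw [Finset.card_image_of_injOn, Finset.card_range, h.card]
      intro i hi j hj hij
      rw [Finset.mem_coe, Finset.mem_range] at hi hj
      exact h.inj i j (by omega) (by omega) hij
  rw [← h1] at hv
  obtain ⟨i, hi, hiv⟩ := Finset.mem_image.1 hv
  exact ⟨i, by have := Finset.mem_range.1 hi; omega, hiv⟩

theorem o_inj (h : HamC ends H X N z o) (hN : 2 ≤ N) {i j : ℕ} (hi : i ≤ N) (hj : j ≤ N)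
    (hij : o i = o j) : i = j := by
  have h1 := h.ends_eq i
  rw [hij, h.ends_eq j] at h1
  have hz : ∀ i ≤ N, z (i + 1) = z (if i = N then 0 else i + 1) := by
    intro i hi
    split_ifs with h2
    · rw [h2, h.per]
    · rfl
  rw [hz i hi, hz j hj] at h1
  rcases Sym2.eq_iff.1 h1 with ⟨h2, _⟩ | ⟨h2, h3⟩
  · exact (h.inj j i hj hi h2).symm
  · exfalso
    have h4 := h.inj _ _ hj (by split_ifs <;> omega) h2
    have h5 := h.inj _ _ (by split_ifs <;> omega) hi h3
    split_ifs at h4 h5 <;> omega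

/-- the edges of the cycle -/
noncomputable def O (o : ℕ → E) (N : ℕ) : Finset E := (Finset.range (N + 1)).image o

theorem O_sub (h : HamC ends H X N z o) : O o N ⊆ H := by
  intro e he
  obtain ⟨i, _, hi⟩ := Finset.mem_image.1 he
  rw [← hi]
  exact h.edge i

theorem deg_O (h : HamC ends H X N z o) (hN : 2 ≤ N) {w : V} (hw : w ∈ X) :
    degOn ends (O o N) w = 2 := by
  obtain ⟨j, hj, hjw⟩ := h.surj hw
  have h1 : (O o N).filter (fun e => w ∈ ends e) =
      ((Finset.range (N + 1)).filter (fun i => w ∈ ends (o i))).image o := by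
    unfold O
    rw [Finset.filter_image]
  unfold degOn
  rw [h1, Finset.card_image_of_injOn]
  swap
  · intro i hi i' hi' hii
    rw [Finset.mem_coe, Finset.mem_filter, Finset.mem_range] at hi hi'
    exact h.o_inj hN (by omega) (by omega) hii
  have hz : ∀ i ≤ N, z (i + 1) = z (if i = N then 0 else i + 1) := by
    intro i hi
    split_ifs with h2
    · rw [h2, h.per]
    · rfl
  have h2 : (Finset.range (N + 1)).filter (fun i => w ∈ ends (o i)) =
      {j, if j = 0 then N else j - 1} := by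
    ext i
    rw [Finset.mem_filter, Finset.mem_range, h.ends_eq, Sym2.mem_iff, Finset.mem_insert,
      Finset.mem_singleton, ← hjw]
    constructor
    · rintro ⟨hi, h3 | h3⟩
      · left
        exact (h.inj j i hj (by omega) h3).symm
      · right
        rw [hz i (by omega)] at h3
        have h4 := h.inj _ _ hj (by split_ifs <;> omega) h3
        split_ifs at h4 ⊢ <;> omega
    · rintro (h3 | h3)
      · exact ⟨by omega, Or.inl (by rw [h3])⟩
      · have h4 : i ≤ N := by split_ifs at h3 <;> omega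
        refine ⟨by omega, Or.inr ?_⟩
        rw [hz i h4]
        congr 1
        split_ifs at h3 ⊢ <;> omega
  rw [h2, Finset.card_pair]
  split_ifs <;> omega

end HamC

theorem degOn_sdiff {H O : Finset E} (h : O ⊆ H) (w : V) :
    degOn ends (H \ O) w + degOn ends O w = degOn ends H w := by
  unfold degOn
  rw [← Finset.card_union_of_disjoint]
  · congr 1
    ext e
    simp only [Finset.mem_union, Finset.mem_filter, Finset.mem_sdiff]
    constructor
    · rintro (⟨⟨h1, _⟩, h2⟩ | ⟨h1, h2⟩)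
      · exact ⟨h1, h2⟩
      · exact ⟨h h1, h2⟩
    · rintro ⟨h1, h2⟩
      by_cases h3 : e ∈ O
      · exact Or.inr ⟨h3, h2⟩
      · exact Or.inl ⟨⟨h1, h3⟩, h2⟩
  · rw [Finset.disjoint_left]
    intro e h1 h2
    rw [Finset.mem_filter, Finset.mem_sdiff] at h1
    rw [Finset.mem_filter] at h2
    exact h1.1.2 h2.1

end Pool.Agent.Lib.MP_633d19_co
end

section

/-!
Recolouring the edges of a maximal tree such that a Hamiltonian cycle uses only two colours.
-/

namespace Pool.Agent.Lib.MP_633d19_co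

open Classical

variable {V E : Type*} {ends : E → Sym2 V} {F : Finset E} {e0 : E} {k N : ℕ}

/-- If the edges in `HE` without those of a Hamiltonian cycle can be coloured with two colours
less, then the maximal tree is dense. -/
theorem recolor_dense (hloop : ∀ e, ¬ (ends e).IsDiag) {Δ t : ℕ} (hk : k = Δ + t)
    (ht1 : 1 ≤ t) (hΔ : ∀ v, degOn ends F v ≤ Δ)
    (hF : ¬ ∃ c : E → Fin k, ProperOn ends F c) (hmax : ∀ e ∈ F, TMax ends F e k N)
    (hN : 2 ≤ N) (hNe : Even N) {c : E → Fin k} {X : Finset V} {a b : V}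
    (h : CES ends F e0 c X a b) {z : ℕ → V} {o : ℕ → E}
    (hz : HamC ends (HE ends F e0 c X) X N z o) {K : ℕ}
    (hK : (MX ends (F.erase e0) c X).card = K + 2)
    (hJ : ∃ cJ : E → Fin K, ProperOn ends (HE ends F e0 c X \ HamC.O o N) cJ) :
    k * N + 2 ≤ ∑ w ∈ X, (ed2 ends F X w).card := by
  have hkd : ∀ v, degOn ends F v < k := fun v => (hΔ v).trans_lt (by omega)
  obtain ⟨cJ, hcJ⟩ := hJ
  set M := MX ends (F.erase e0) c X with hM
  set H := HE ends F e0 c X with hH
  set J := H \ HamC.O o N with hJdef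
  -- the colours
  obtain ⟨q, hqinj, hqM⟩ : ∃ q : Fin (K + 2) → Fin k, Function.Injective q ∧ ∀ i, q i ∈ M := by
    let e := (M.equivFinOfCardEq hK).symm
    exact ⟨fun i => (e i).1, fun i j hij => e.injective (Subtype.ext hij), fun i => (e i).2⟩
  obtain ⟨ι, γa, γb, hι, hιM, hιa, hιb, hab, haM, hbM⟩ : ∃ (ι : Fin K → Fin k) (γa γb : Fin k),
      Function.Injective ι ∧ (∀ i, ι i ∈ M) ∧ (∀ i, ι i ≠ γa) ∧ (∀ i, ι i ≠ γb) ∧ γa ≠ γb ∧
      γa ∈ M ∧ γb ∈ M := by
    refine ⟨fun i => q ⟨i.1, by have := i.2; omega⟩, q ⟨K, by omega⟩, q ⟨K + 1, by omega⟩,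
      ?_, fun i => hqM _, ?_, ?_, ?_, hqM _, hqM _⟩
    · intro i j hij
      have := Fin.ext_iff.1 (hqinj hij)
      exact Fin.ext this
    · intro i hi
      have := Fin.ext_iff.1 (hqinj hi)
      have h1 := i.2
      simp only at this
      omega
    · intro i hi
      have := Fin.ext_iff.1 (hqinj hi)
      have h1 := i.2
      simp only at this
      omega
    · intro hi
      have := Fin.ext_iff.1 (hqinj hi)
      simp only at this
      omega
  -- the new colouring
  set c' : E → Fin k := fun e => if e ∈ J then ι (cJ e) else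
    if hi : ∃ i, i ≤ N ∧ o i = e then (if (hi.choose) % 2 = 1 then γa else γb) else c e with hc'
  have hO_notJ : ∀ i ≤ N, o i ∉ J := by
    intro i hi h1
    rw [hJdef, Finset.mem_sdiff] at h1
    apply h1.2
    unfold HamC.O
    exact Finset.mem_image.2 ⟨i, Finset.mem_range.2 (by omega), rfl⟩
  have hJc : ∀ e ∈ J, c' e = ι (cJ e) := by
    intro e he
    simp only [hc']
    rw [if_pos he]
  have hOc : ∀ i ≤ N, c' (o i) = if i % 2 = 1 then γa else γb := by
    intro i hi
    have h1 : ∃ i', i' ≤ N ∧ o i' = o i := ⟨i, hi, rfl⟩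
    simp only [hc']
    rw [if_neg (hO_notJ i hi), dif_pos h1]
    have h2 := h1.choose_spec
    rw [hz.o_inj hN h2.1 hi h2.2]
  have hmemJ : ∀ e ∈ H, e ∈ J ∨ ∃ i ≤ N, o i = e := by
    intro e he
    by_cases h1 : e ∈ HamC.O o N
    · right
      unfold HamC.O at h1
      obtain ⟨i, hi, hie⟩ := Finset.mem_image.1 h1
      exact ⟨i, by have := Finset.mem_range.1 hi; omega, hie⟩
    · left
      rw [hJdef, Finset.mem_sdiff]
      exact ⟨he, h1⟩
  have hJH : ∀ e ∈ J, e ∈ H := fun e he => (Finset.mem_sdiff.1 he).1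
  have hrest : ∀ e, e ∉ H → c' e = c e := by
    intro e he
    simp only [hc']
    rw [if_neg (fun h1 => he (hJH e h1)), dif_neg]
    rintro ⟨i, _, hie⟩
    exact he (by rw [← hie]; exact hz.edge i)
  have hHM : ∀ e ∈ H, c' e ∈ M := by
    intro e he
    rcases hmemJ e he with h1 | ⟨i, hi, hie⟩
    · rw [hJc e h1]; exact hιM _
    · rw [← hie, hOc i hi]
      split_ifs
      · exact haM
      · exact hbM
  have hrestM : ∀ e ∈ F, e ∉ H → ∀ v ∈ X, v ∈ ends e → c' e ∉ M := by
    intro e he heH v hv hve hce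
    rw [hrest e heH] at hce
    have h1 : e ≠ e0 := fun h1 => heH (by rw [h1]; exact h.e0_mem)
    exact heH (h.mem_of_touch (Finset.mem_erase.2 ⟨h1, he⟩) hv hve hce)
  have hHX : ∀ e ∈ H, ∀ v ∈ ends e, v ∈ X := fun e he v hv => h.inside he hv
  -- adjacency on the cycle
  have hzO : ∀ i, i ≤ N → ∀ j, j ≤ N → z j ∈ ends (o i) → j = i ∨ j = i + 1 ∨ (i = N ∧ j = 0) := by
    intro i hi j hj hv
    rw [hz.ends_eq] at hv
    rcases Sym2.mem_iff.1 hv with h1 | h1
    · left; exact hz.inj j i hj hi h1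
    · rcases Nat.lt_or_ge i N with h2 | h2
      · right; left; exact hz.inj j (i + 1) hj (by omega) h1
      · right; right
        have h3 : i = N := by omega
        rw [h3, hz.per] at h1
        exact ⟨h3, hz.inj j 0 hj (by omega) h1⟩
  have hD' : ∀ e, e ∈ F.erase (o 0) → e ∈ F ∧ e ≠ o 0 := fun e he =>
    ⟨Finset.mem_of_mem_erase he, Finset.ne_of_mem_erase he⟩
  have hproper : ProperOn ends (F.erase (o 0)) c' := by
    intro e he e' he' hne v hv hv'
    obtain ⟨heF, he0⟩ := hD' e he
    obtain ⟨heF', he0'⟩ := hD' e' he'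
    by_cases h1 : e ∈ H
    · by_cases h2 : e' ∈ H
      · rcases hmemJ e h1 with h3 | ⟨i, hi, hie⟩
        · rcases hmemJ e' h2 with h4 | ⟨i', hi', hie'⟩
          · rw [hJc e h3, hJc e' h4]
            intro h5
            exact hcJ e h3 e' h4 hne v hv hv' (hι h5)
          · rw [hJc e h3, ← hie', hOc i' hi']
            split_ifs
            · exact hιa _
            · exact hιb _
        · rcases hmemJ e' h2 with h4 | ⟨i', hi', hie'⟩
          · rw [hJc e' h4, ← hie, hOc i hi]
            split_ifs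
            · exact (hιa _).symm
            · exact (hιb _).symm
          · have hi0 : i ≠ 0 := fun h5 => he0 (by rw [← hie, h5])
            have hi0' : i' ≠ 0 := fun h5 => he0' (by rw [← hie', h5])
            have hii : i ≠ i' := fun h5 => hne (by rw [← hie, ← hie', h5])
            obtain ⟨j, hj, hjv⟩ := hz.surj (hHX e h1 v hv)
            rw [← hjv, ← hie] at hv
            rw [← hjv, ← hie'] at hv'
            have h5 := hzO i hi j hj hv
            have h6 := hzO i' hi' j hj hv'
            rw [← hie, ← hie', hOc i hi, hOc i' hi']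
            have h7 : (i % 2 = 1 ∧ ¬ i' % 2 = 1) ∨ (¬ i % 2 = 1 ∧ i' % 2 = 1) := by omega
            rcases h7 with ⟨h8, h9⟩ | ⟨h8, h9⟩
            · rw [if_pos h8, if_neg h9]; exact hab
            · rw [if_neg h8, if_pos h9]; exact hab.symm
      · intro h3
        exact hrestM e' heF' h2 v (hHX e h1 v hv) hv' (by rw [← h3]; exact hHM e h1)
    · by_cases h2 : e' ∈ H
      · intro h3
        exact hrestM e heF h1 v (hHX e' h2 v hv') hv (by rw [h3]; exact hHM e' h2)
      · rw [hrest e h1, hrest e' h2]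
        have h3 : e ≠ e0 := fun h3 => h1 (by rw [h3]; exact h.e0_mem)
        have h4 : e' ≠ e0 := fun h4 => h2 (by rw [h4]; exact h.e0_mem)
        exact h.hc e (Finset.mem_erase.2 ⟨h3, heF⟩) e' (Finset.mem_erase.2 ⟨h4, heF'⟩) hne v hv hv'
  -- missing colours
  have hmis : ∀ j ≤ N, ∀ γ ∈ M, (∀ i, ι i ≠ γ) →
      (∀ i, 1 ≤ i → i ≤ N → z j ∈ ends (o i) → (if i % 2 = 1 then γa else γb) ≠ γ) →
      Missing ends (F.erase (o 0)) c' (z j) γ := by
    intro j hj γ hγM hγι hγO e he hv hce
    obtain ⟨heF, he0⟩ := hD' e he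
    by_cases h1 : e ∈ H
    · rcases hmemJ e h1 with h3 | ⟨i, hi, hie⟩
      · rw [hJc e h3] at hce
        exact hγι _ hce
      · have hi0 : i ≠ 0 := fun h5 => he0 (by rw [← hie, h5])
        rw [← hie, hOc i hi] at hce
        exact hγO i (by omega) hi (by rw [hie]; exact hv) hce
    · exact hrestM e heF h1 (z j) (hz.mem j) hv (by rw [hce]; exact hγM)
  have hpres : ∀ j ≤ N, ∀ i, 1 ≤ i → i ≤ N → z j ∈ ends (o i) →
      ¬ Missing ends (F.erase (o 0)) c' (z j) (if i % 2 = 1 then γa else γb) := by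
    intro j _ i h1 hi hv hm
    refine hm (o i) (Finset.mem_erase.2 ⟨?_, CES.sub X c (hz.edge i)⟩) hv (hOc i hi)
    intro h2
    have := hz.o_inj hN hi (by omega) h2
    omega
  have hNmod : N % 2 = 0 := Nat.even_iff.1 hNe
  have ha0 : Missing ends (F.erase (o 0)) c' (z 0) γa := by
    refine hmis 0 (by omega) γa haM hιa ?_
    intro i h1 hi hv
    have h2 := hzO i hi 0 (by omega) hv
    rw [if_neg (by omega)]
    exact hab.symm
  have hb1 : Missing ends (F.erase (o 0)) c' (z 1) γb := by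
    refine hmis 1 (by omega) γb hbM hιb ?_
    intro i h1 hi hv
    have h2 := hzO i hi 1 (by omega) hv
    rw [if_pos (by omega)]
    exact hab
  have hb0 : ¬ Missing ends (F.erase (o 0)) c' (z 0) γb := by
    have := hpres 0 (by omega) N (by omega) le_rfl
      (by rw [hz.ends_eq, hz.per]; exact Sym2.mem_mk_right _ _)
    rwa [if_neg (by omega)] at this
  have hpresj : ∀ j, 1 ≤ j → j ≤ N → ¬ Missing ends (F.erase (o 0)) c' (z j)
      (if j % 2 = 1 then γa else γb) := fun j h1 hj =>
    hpres j hj j h1 hj (by rw [hz.ends_eq]; exact Sym2.mem_mk_left _ _)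
  have hpresj' : ∀ j, 2 ≤ j → j ≤ N → ¬ Missing ends (F.erase (o 0)) c' (z j)
      (if j % 2 = 1 then γb else γa) := by
    intro j h1 hj
    have := hpres j hj (j - 1) (by omega) (by omega) (by
      rw [hz.ends_eq, Nat.sub_add_cancel (by omega)]; exact Sym2.mem_mk_right _ _)
    rcases Nat.mod_two_eq_zero_or_one j with h2 | h2
    · rw [if_pos (by omega)] at this
      rwa [if_neg (by omega)]
    · rw [if_neg (by omega)] at this
      rwa [if_pos (by omega)]
  have ha1 : ¬ Missing ends (F.erase (o 0)) c' (z 1) γa := by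
    have := hpresj 1 le_rfl (by omega)
    rwa [if_pos (by decide)] at this
  have hoF : o 0 ∈ F := CES.sub X c (hz.edge 0)
  -- the tree
  have htree : TTree ends (F.erase (o 0)) (o 0) c' z (fun i => o (i - 1)) N N := by
    have hatt : ∀ i, 2 ≤ i → ends (o (i - 1)) = s(z (i - 1), z i) := by
      intro i h2
      rw [hz.ends_eq, Nat.sub_add_cancel (by omega)]
    refine ⟨fun i j hi hj => hz.inj i j hi hj, hz.ends_eq 0, ?_, ?_, ?_, ?_⟩
    · intro i h2 hi
      refine Finset.mem_erase.2 ⟨?_, CES.sub X c (hz.edge _)⟩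
      intro h3
      have := hz.o_inj hN (by omega : i - 1 ≤ N) (by omega) h3
      omega
    · intro i h2 hi
      exact ⟨i - 1, by omega, hatt i h2⟩
    · intro i h2 hi
      change ∃ j, j < i ∧ Missing ends (F.erase (o 0)) c' (z j) (c' (o (i - 1)))
      rw [hOc (i - 1) (by omega)]
      split_ifs
      · exact ⟨0, by omega, ha0⟩
      · exact ⟨1, by omega, hb1⟩
    · intro i h2 hi _
      exact hatt i h2
  have htc : ∀ i, 2 ≤ i → i ≤ N → c' (o (i - 1)) = γa ∨ c' (o (i - 1)) = γb := by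
    intro i h2 hi
    rw [hOc (i - 1) (by omega)]
    split_ifs
    · exact Or.inl rfl
    · exact Or.inr rfl
  -- colours to avoid
  have hmis2 : ∀ j, j ≤ N → ∃ β, Missing ends (F.erase (o 0)) c' (z j) β ∧ β ≠ γa ∧ β ≠ γb := by
    intro j hj
    rcases Nat.lt_or_ge j 2 with h2 | h2
    · have h1 : t + 1 ≤ (Mis ends (F.erase (o 0)) c' (z j)).card := by
        apply Mis_lower' hoF hk hΔ
        rw [hz.ends_eq 0]
        interval_cases j
        · exact Sym2.mem_mk_left _ _
        · exact Sym2.mem_mk_right _ _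
      obtain ⟨γ, hγ, h3⟩ := exists_ne_ne (α := γa) (β := γb)
        (by omega : 2 ≤ (Mis ends (F.erase (o 0)) c' (z j)).card)
        (fun h4 h5 => by
          exfalso
          rw [mem_Mis] at h4 h5
          interval_cases j
          · exact hb0 h5
          · exact ha1 h4)
      exact ⟨γ, mem_Mis.1 hγ, h3⟩
    · obtain ⟨β, hβ⟩ := exists_missing (e0 := o 0) hkd c' (z j)
      refine ⟨β, hβ, ?_⟩
      have h3 := hpresj j (by omega) hj
      have h4 := hpresj' j h2 hj
      constructor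
      · intro h5
        rw [h5] at hβ
        split_ifs at h3 h4
        · exact h3 hβ
        · exact h4 hβ
      · intro h5
        rw [h5] at hβ
        split_ifs at h3 h4
        · exact h4 hβ
        · exact h3 hβ
  obtain ⟨α, hα, hαa, hαb⟩ := hmis2 0 (by omega)
  have hsc : ∀ δ : Fin k, (∀ j ≤ N, ¬ Missing ends (F.erase (o 0)) c' (z j) δ) →
      ∀ (f₁ f₂ : E) (u₁ u₂ w₁ w₂ : V), f₁ ∈ F.erase (o 0) → c' f₁ = δ →
      ends f₁ = s(u₁, w₁) → InX z N u₁ → ¬ InX z N w₁ → f₂ ∈ F.erase (o 0) → c' f₂ = δ →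
      ends f₂ = s(u₂, w₂) → InX z N u₂ → ¬ InX z N w₂ → u₁ = u₂ := by
    intro δ hδ f₁ f₂ u₁ u₂ w₁ w₂ hf₁ hc₁ he₁ hu₁ hw₁ hf₂ hc₂ he₂ hu₂ hw₂
    refine strongly_closed hoF hF hkd hloop (hmax _ hoF) (by omega) hproper htree hα ?_ hδ
      hf₁ hc₁ he₁ hu₁ hw₁ hf₂ hc₂ he₂ hu₂ hw₂
    rintro u ⟨j, hj, hju⟩
    obtain ⟨β, hβ, hβa, hβb⟩ := hmis2 j hj
    rw [← hju]
    refine ⟨β, hβ, z, fun i => o (i - 1), htree, ?_⟩
    intro i h2 hi
    rcases htc i h2 hi with h3 | h3
    · exact ⟨by change c' (o (i - 1)) ≠ α; rw [h3]; exact hαa.symm,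
        by change c' (o (i - 1)) ≠ β; rw [h3]; exact hβa.symm⟩
    · exact ⟨by change c' (o (i - 1)) ≠ α; rw [h3]; exact hαb.symm,
        by change c' (o (i - 1)) ≠ β; rw [h3]; exact hβb.symm⟩
  have hfin := total_degree_ge hoF hF hkd (hmax _ hoF) (by omega) hproper htree hsc
  have hVX : VX z N = X := by
    ext v
    rw [mem_VX]
    constructor
    · rintro ⟨i, _, hi⟩
      rw [← hi]; exact hz.mem i
    · intro hv
      exact hz.surj hv
  rw [hVX] at hfin
  exact hfin

end Pool.Agent.Lib.MP_633d19_co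
end
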