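import Pool.Agent.Lib.MP_633d19_co.TashkinovThm

section

/-!
Maximal Tashkinov trees: closedness, parity, and a criterion for being strongly closed.
-/

namespace Pool.Agent.Lib.MP_633d19_co

open Classical

theorem even_card_of_invol {V : Type*} (S : Finset V) (g : V → V) (hg : ∀ v ∈ S, g v ∈ S)
    (hne : ∀ v ∈ S, g v ≠ v) (hinv : ∀ v ∈ S, g (g v) = v) : Even S.card := by
  have h : ∑ _v ∈ S, (1 : ZMod 2) = 0 := by
    refine Finset.sum_involution (fun v _ => g v) ?_ ?_ ?_ ?_
    · intro v hv
      decide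
    · intro v hv _
      exact hne v hv
    · intro v hv
      exact hg v hv
    · intro v hv
      exact hinv v hv
  rw [Finset.sum_const, nsmul_eq_mul, mul_one] at h
  exact (ZMod.natCast_eq_zero_iff_even).1 h

section maxtree

variable {V E : Type*} {ends : E → Sym2 V} {F : Finset E} {e0 : E} {k N : ℕ}

/-- a finite set perfectly matched by the edges of one colour has even size -/
theorem even_of_matching {C : Type*} (hloop : ∀ e, ¬ (ends e).IsDiag) {D : Finset E}
    {c : E → C} (hc : ProperOn ends D c) {γ : C} (S : Finset V)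
    (h : ∀ v ∈ S, ∃ w ∈ S, ∃ e ∈ D, c e = γ ∧ ends e = s(v, w)) : Even S.card := by
  choose! g hg hex using h
  refine even_card_of_invol S g hg ?_ ?_
  · intro v hv h1
    obtain ⟨e, _, _, h2⟩ := hex v hv
    rw [h1] at h2
    exact hloop e (by rw [h2]; exact rfl)
  · intro v hv
    obtain ⟨e, he, hce, h1⟩ := hex v hv
    obtain ⟨e', he', hce', h2⟩ := hex (g v) (hg v hv)
    by_contra hcon
    have h3 : e ≠ e' := by
      intro h3
      rw [h3, h2] at h1
      rw [Sym2.eq_swap] at h1
      exact hcon (Sym2.congr_left.1 h1)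
    exact hc e he e' he' h3 (g v)
      (by rw [h1]; exact Sym2.mem_mk_right _ _) (by rw [h2]; exact Sym2.mem_mk_left _ _)
      (by rw [hce, hce'])

/-- `v` is one of the vertices `y 0, …, y N` -/
def InX (y : ℕ → V) (N : ℕ) (v : V) : Prop := ∃ i ≤ N, y i = v

/-- no Tashkinov tree for the uncoloured edge `e0` has more than `N + 1` vertices -/
def TMax (ends : E → Sym2 V) (F : Finset E) (e0 : E) (k N : ℕ) : Prop :=
  ∀ (c : E → Fin k) (y : ℕ → V) (ed : ℕ → E) (n : ℕ), ProperOn ends (F.erase e0) c →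
    TTree ends (F.erase e0) e0 c y ed n n → n ≤ N

theorem closed_of_max (hmax : TMax ends F e0 k N) (hN : 1 ≤ N) {c : E → Fin k} {y : ℕ → V}
    {ed : ℕ → E} (hc : ProperOn ends (F.erase e0) c)
    (ht : TTree ends (F.erase e0) e0 c y ed N N) {e : E} {v w : V} (he : e ∈ F.erase e0)
    (hvw : ends e = s(v, w)) (hv : InX y N v) {j : ℕ} (hj : j ≤ N)
    (hm : Missing ends (F.erase e0) c (y j) (c e)) : InX y N w := by
  by_contra hcon
  obtain ⟨a, ha, hav⟩ := hv
  have h1 := ht.extend hN (f := e) (z := w) (a := a) (b := j) (q := N + 1) he ha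
    (by rw [hav]; exact hvw) (fun i hi h => hcon ⟨i, hi, h⟩) hj hm (Or.inr (by omega))
    (Or.inr le_rfl)
  have := hmax c _ _ (N + 1) hc h1
  omega

theorem sub_of_max (hmax : TMax ends F e0 k N) (hN : 1 ≤ N) {c : E → Fin k} {y : ℕ → V}
    {ed : ℕ → E} (hc : ProperOn ends (F.erase e0) c)
    (ht : TTree ends (F.erase e0) e0 c y ed N N) {y' : ℕ → V} {ed' : ℕ → E} {p n : ℕ}
    (ht' : TTree ends (F.erase e0) e0 c y' ed' p n) : ∀ i ≤ n, InX y N (y' i) := by
  intro i
  induction i using Nat.strong_induction_on with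
  | _ i ih =>
    intro hi
    rcases Nat.lt_or_ge i 2 with h2 | h2
    · have h3 : y' i ∈ ends e0 := by
        rw [ht'.start]
        interval_cases i
        · exact Sym2.mem_mk_left _ _
        · exact Sym2.mem_mk_right _ _
      rw [ht.start] at h3
      rcases Sym2.mem_iff.1 h3 with h4 | h4
      · exact ⟨0, by omega, h4.symm⟩
      · exact ⟨1, by omega, h4.symm⟩
    · obtain ⟨j, hj, hje⟩ := ht'.att i h2 hi
      obtain ⟨b, hb, hbm⟩ := ht'.miss i h2 hi
      obtain ⟨j', hj', hjj⟩ := ih b hb (by omega)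
      rw [← hjj] at hbm
      exact closed_of_max hmax hN hc ht (ht'.mem i h2 hi) hje (ih j hj (by omega)) hj' hbm

theorem inX_iff (hmax : TMax ends F e0 k N) (hN : 1 ≤ N) {c : E → Fin k} {y : ℕ → V}
    {ed : ℕ → E} (hc : ProperOn ends (F.erase e0) c)
    (ht : TTree ends (F.erase e0) e0 c y ed N N) {y' : ℕ → V} {ed' : ℕ → E}
    (ht' : TTree ends (F.erase e0) e0 c y' ed' N N) (v : V) : InX y' N v ↔ InX y N v := by
  constructor
  · rintro ⟨i, hi, h⟩
    rw [← h]
    exact sub_of_max hmax hN hc ht ht' i hi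
  · rintro ⟨i, hi, h⟩
    rw [← h]
    exact sub_of_max hmax hN hc ht' ht i hi

/-- all the boundary edges of colour `δ` lie in the `(α,δ)`-component of the vertex missing
`α` -/
theorem boundary_reach (hmax : TMax ends F e0 k N) (hN : 1 ≤ N) {c : E → Fin k} {y : ℕ → V}
    {ed : ℕ → E} (hc : ProperOn ends (F.erase e0) c)
    (ht : TTree ends (F.erase e0) e0 c y ed N N) {α δ : Fin k}
    (hun : ∀ a, 2 ≤ a → a ≤ N → c (ed a) ≠ α) {j0 : ℕ} (hj0 : j0 ≤ N)
    (hα : Missing ends (F.erase e0) c (y j0) α)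
    (hδ : ∀ j ≤ N, ¬ Missing ends (F.erase e0) c (y j) δ) {f : E} {u w : V}
    (hf : f ∈ F.erase e0) (hcf : c f = δ) (hfe : ends f = s(u, w)) (hu : InX y N u)
    (hw : ¬ InX y N w) : (abGraph ends (F.erase e0) c α δ).Reachable u (y j0) := by
  by_contra hcon
  set K : V → Prop := fun v => (abGraph ends (F.erase e0) c α δ).Reachable u v with hKdef
  have hcl : ClosedK ends (F.erase e0) c α δ K := closedK_comp ends _ c α δ u
  have hKu : K u := SimpleGraph.Reachable.refl _
  have hk' : TTree ends (F.erase e0) e0 (swapc ends c α δ K) y ed N N := by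
    refine ht.swap hcl ?_
    intro a h2a ha h3
    exfalso
    rcases h3 with h3 | h3
    · exact hun a h2a ha h3
    · obtain ⟨b, hb, hbm⟩ := ht.miss a h2a ha
      rw [h3] at hbm
      exact hδ b (by omega) hbm
  have hcf' : swapc ends c α δ K f = α :=
    swapc_eq_left (v := u) (by rw [hfe]; exact Sym2.mem_mk_left _ _) hKu hcf
  refine hw (closed_of_max hmax hN (properOn_swapc hc hcl) hk' hf hfe hu (j := j0) hj0 ?_)
  rw [hcf']
  exact (missing_swapc_not hcl hcon _).2 hα

/-- the graph of the edges coloured `α` or `δ` that do not join two vertices of `X` -/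
def outGraph (ends : E → Sym2 V) (D : Finset E) {C : Type*} (c : E → C) (α δ : C)
    (X : V → Prop) : SimpleGraph V where
  Adj u w := (abGraph ends D c α δ).Adj u w ∧ ¬ (X u ∧ X w)
  symm := ⟨by
    rintro u w ⟨h, h'⟩
    exact ⟨h.symm, fun h2 => h' ⟨h2.2, h2.1⟩⟩⟩
  loopless := ⟨by
    rintro u ⟨h, _⟩
    exact h.ne rfl⟩

/-- the number of vertices of a maximal tree is odd -/
theorem even_of_max (he0 : e0 ∈ F) (hF : ¬ ∃ c : E → Fin k, ProperOn ends F c)
    (hkd : ∀ v, degOn ends F v < k) (hloop : ∀ e, ¬ (ends e).IsDiag)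
    (hmax : TMax ends F e0 k N) (hN : 1 ≤ N) {c : E → Fin k} {y : ℕ → V}
    {ed : ℕ → E} (hc : ProperOn ends (F.erase e0) c)
    (ht : TTree ends (F.erase e0) e0 c y ed N N) : Even N := by
  obtain ⟨γ, hγ⟩ := exists_missing (e0 := e0) hkd c (y 0)
  have hel := tashkinov_elem he0 hF hkd hc ht
  have h1 : Even ((Finset.Icc 1 N).image y).card := by
    refine even_of_matching hloop hc (γ := γ) _ ?_
    intro v hv
    obtain ⟨i, hi, hiv⟩ := Finset.mem_image.1 hv
    rw [Finset.mem_Icc] at hi
    have h2 : ¬ Missing ends (F.erase e0) c (y i) γ := fun h =>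
      hel 0 i (by omega) hi.2 γ ⟨hγ, h⟩
    unfold Missing at h2
    push Not at h2
    obtain ⟨e, he, hve, hce⟩ := h2
    obtain ⟨w, hw⟩ := Sym2.mem_iff_exists.1 hve
    have h3 : InX y N w := closed_of_max hmax hN hc ht he hw ⟨i, hi.2, rfl⟩ (j := 0)
      (by omega) (by rw [hce]; exact hγ)
    obtain ⟨j, hj, hjw⟩ := h3
    have hj0 : j ≠ 0 := by
      intro hj0
      subst hj0
      exact hγ e he (by rw [hw, ← hjw]; exact Sym2.mem_mk_right _ _) hce
    exact ⟨w, Finset.mem_image.2 ⟨j, Finset.mem_Icc.2 ⟨by omega, hj⟩, hjw⟩, e, he, hce,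
      by rw [← hiv]; exact hw⟩
  rw [Finset.card_image_of_injOn] at h1
  · simpa using h1
  · intro a ha b hb hab
    rw [Finset.mem_coe, Finset.mem_Icc] at ha hb
    exact ht.inj a b ha.2 hb.2 hab

/-- A maximal Tashkinov tree is strongly closed if for each of its vertices `u` some colour
missing at `u` and the colour `α` missing at `y 0` can both be avoided by a spanning
Tashkinov tree. -/
theorem strongly_closed (he0 : e0 ∈ F) (hF : ¬ ∃ c : E → Fin k, ProperOn ends F c)
    (hkd : ∀ v, degOn ends F v < k) (hloop : ∀ e, ¬ (ends e).IsDiag)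
    (hmax : TMax ends F e0 k N) (hN : 1 ≤ N) {c : E → Fin k} {y : ℕ → V}
    {ed : ℕ → E} (hc : ProperOn ends (F.erase e0) c)
    (ht : TTree ends (F.erase e0) e0 c y ed N N) {α : Fin k}
    (hα : Missing ends (F.erase e0) c (y 0) α)
    (hS : ∀ u, InX y N u → ∃ β, Missing ends (F.erase e0) c u β ∧ ∃ y' ed',
      TTree ends (F.erase e0) e0 c y' ed' N N ∧
      ∀ a, 2 ≤ a → a ≤ N → c (ed' a) ≠ α ∧ c (ed' a) ≠ β)
    {δ : Fin k} (hδ : ∀ j ≤ N, ¬ Missing ends (F.erase e0) c (y j) δ)
    {f₁ f₂ : E} {u₁ u₂ w₁ w₂ : V} (hf₁ : f₁ ∈ F.erase e0) (hc₁ : c f₁ = δ)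
    (he₁ : ends f₁ = s(u₁, w₁)) (hu₁ : InX y N u₁) (hw₁ : ¬ InX y N w₁)
    (hf₂ : f₂ ∈ F.erase e0) (hc₂ : c f₂ = δ)
    (he₂ : ends f₂ = s(u₂, w₂)) (hu₂ : InX y N u₂) (hw₂ : ¬ InX y N w₂) : u₁ = u₂ := by
  have hel := tashkinov_elem he0 hF hkd hc ht
  have hNeven := even_of_max he0 hF hkd hloop hmax hN hc ht
  have hαδ : α ≠ δ := fun h => hδ 0 (by omega) (by rw [← h]; exact hα)
  set X : Finset V := (Finset.range (N + 1)).image y with hX
  have hmemX : ∀ v, v ∈ X ↔ InX y N v := by
    intro v
    rw [hX, Finset.mem_image]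
    constructor
    · rintro ⟨i, hi, h⟩
      exact ⟨i, by have := Finset.mem_range.1 hi; omega, h⟩
    · rintro ⟨i, hi, h⟩
      exact ⟨i, Finset.mem_range.2 (by omega), h⟩
  have hXcard : X.card = N + 1 := by
    rw [hX, Finset.card_image_of_injOn, Finset.card_range]
    intro a ha b hb hab
    rw [Finset.mem_coe, Finset.mem_range] at ha hb
    exact ht.inj a b (by omega) (by omega) hab
  set B : Finset V := X.filter (fun u => ∃ f ∈ F.erase e0, c f = δ ∧ ∃ w, ends f = s(u, w) ∧
    ¬ InX y N w) with hB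
  have hmemB : ∀ u, u ∈ B ↔ InX y N u ∧ ∃ f ∈ F.erase e0, c f = δ ∧ ∃ w, ends f = s(u, w) ∧
    ¬ InX y N w := by
    intro u
    rw [hB, Finset.mem_filter, hmemX]
  have huniq : ∀ e e' : E, e ∈ F.erase e0 → e' ∈ F.erase e0 → ∀ v, v ∈ ends e → v ∈ ends e' →
      c e = c e' → e = e' := by
    intro e e' he he' v hv hv' hcc
    by_contra hne
    exact hc e he e' he' hne v hv hv' hcc
  -- the other vertices of `X` are matched among each other by `δ`
  have hEv : Even (X \ B).card := by
    refine even_of_matching hloop hc (γ := δ) _ ?_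
    intro v hv
    rw [Finset.mem_sdiff, hmemX, hmemB] at hv
    obtain ⟨⟨i, hi, hiv⟩, hvB⟩ := hv
    have h2 := hδ i hi
    unfold Missing at h2
    push Not at h2
    obtain ⟨e, he, hve, hce⟩ := h2
    rw [hiv] at hve
    obtain ⟨w, hw⟩ := Sym2.mem_iff_exists.1 hve
    have hwX : InX y N w := by
      by_contra hcon
      exact hvB ⟨⟨i, hi, hiv⟩, e, he, hce, w, hw, hcon⟩
    refine ⟨w, ?_, e, he, hce, hw⟩
    rw [Finset.mem_sdiff, hmemX, hmemB]
    refine ⟨hwX, ?_⟩
    rintro ⟨_, f, hf, hcf, z, hz, hzX⟩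
    have h3 : f = e := huniq f e hf he w (by rw [hz]; exact Sym2.mem_mk_left _ _)
      (by rw [hw]; exact Sym2.mem_mk_right _ _) (by rw [hcf, hce])
    rw [h3, hw] at hz
    have h4 : z = v := by
      rw [Sym2.eq_swap] at hz
      exact (Sym2.congr_right.1 hz).symm
    exact hzX (by rw [h4]; exact ⟨i, hi, hiv⟩)
  have hBsub : B ⊆ X := Finset.filter_subset _ _
  have hBodd : ¬ Even B.card := by
    intro hBe
    have h1 := Finset.card_sdiff_add_card_eq_card hBsub
    rw [hXcard] at h1
    have h2 : Even (N + 1) := by rw [← h1]; exact hEv.add hBe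
    rw [Nat.even_add_one] at h2
    exact h2 hNeven
  -- the exit vertex
  set G2 := outGraph ends (F.erase e0) c α δ (InX y N) with hG2
  have hG2le : ∀ a b, G2.Adj a b → (abGraph ends (F.erase e0) c α δ).Adj a b := fun a b h => h.1
  have hdeg2 : ∀ x a b d, G2.Adj x a → G2.Adj x b → G2.Adj x d → a = b ∨ b = d ∨ a = d := by
    intro x a b d h1 h2 h3
    exact abGraph_deg hc x a b d (hG2le _ _ h1) (hG2le _ _ h2) (hG2le _ _ h3)
  -- edges of `G2` at vertices of `X` have colour `δ`
  have hcolX : ∀ u w e, InX y N u → e ∈ F.erase e0 → (c e = α ∨ c e = δ) → ends e = s(u, w) →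
      ¬ (InX y N u ∧ InX y N w) → c e = δ := by
    intro u w e hu he hce hends hnot
    rcases hce with h1 | h1
    · exfalso
      exact hnot ⟨hu, closed_of_max hmax hN hc ht he hends hu (j := 0) (by omega)
        (by rw [h1]; exact hα)⟩
    · exact h1
  have hend2 : ∀ u, InX y N u → ∀ a b, G2.Adj u a → G2.Adj u b → a = b := by
    rintro u hu a b ⟨⟨_, e, he, hce, hea⟩, hna⟩ ⟨⟨_, e', he', hce', heb⟩, hnb⟩
    have h1 := hcolX u a e hu he hce hea hna
    have h2 := hcolX u b e' hu he' hce' heb hnb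
    have h3 : e = e' := huniq e e' he he' u (by rw [hea]; exact Sym2.mem_mk_left _ _)
      (by rw [heb]; exact Sym2.mem_mk_left _ _) (by rw [h1, h2])
    rw [h3, heb] at hea
    exact (Sym2.congr_right.1 hea).symm
  have hexit : ∃ u ∈ B, ∀ u' ∈ B, u' ≠ u → ¬ G2.Reachable u u' := by
    by_contra hcon
    push Not at hcon
    choose! g hg hgne hgr using hcon
    apply hBodd
    refine even_card_of_invol B g hg hgne ?_
    intro u hu
    by_contra hne
    have h1 := hg u hu
    have h2 := hg _ h1
    exact three_ends G2 hdeg2 (hend2 u ((hmemB u).1 hu).1) (hend2 _ ((hmemB _).1 h1).1)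
      (hend2 _ ((hmemB _).1 h2).1) (hgne u hu).symm (fun h => hne h.symm)
      (hgne _ h1).symm (hgr u hu) ((hgr u hu).trans (hgr _ h1))
  obtain ⟨u, huB, hexit⟩ := hexit
  obtain ⟨huX, f, hf, hcf, w, hfe, hwX⟩ := (hmemB u).1 huB
  -- a colouring in which `α` is missing at `u`
  have hcol : ∃ (c'' : E → Fin k) (y' : ℕ → V) (ed' : ℕ → E), ProperOn ends (F.erase e0) c'' ∧
      TTree ends (F.erase e0) e0 c'' y' ed' N N ∧ (∀ v, InX y' N v ↔ InX y N v) ∧
      (∀ a, 2 ≤ a → a ≤ N → c'' (ed' a) ≠ α) ∧ Missing ends (F.erase e0) c'' u α ∧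
      (∀ e ∈ F.erase e0, c'' e = δ ↔ c e = δ) ∧
      (∀ e ∈ F.erase e0, ∀ a b, ends e = s(a, b) → ¬ (InX y N a ∧ InX y N b) → c'' e = c e) := by
    obtain ⟨β, hβ, y', ed', ht', hun⟩ := hS u huX
    have hiff := inX_iff hmax hN hc ht ht'
    have hel' := tashkinov_elem he0 hF hkd hc ht'
    by_cases hu0 : u = y 0
    · exact ⟨c, y', ed', hc, ht', hiff, fun a h2 ha => (hun a h2 ha).1, by rw [hu0]; exact hα,
        fun e _ => Iff.rfl, fun e _ a b _ _ => rfl⟩
    · obtain ⟨a0, ha0, hya0⟩ := (hiff (y 0)).2 ⟨0, by omega, rfl⟩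
      obtain ⟨au, hau, hyau⟩ := (hiff u).2 huX
      have ha0u : a0 ≠ au := by
        intro h
        apply hu0
        rw [← hyau, ← hya0, h]
      have hreach : (abGraph ends (F.erase e0) c α β).Reachable (y' a0) (y' au) := by
        refine TTree.reach hc ht' ?_ hun ha0 hau ha0u (by rw [hya0]; exact hα)
          (by rw [hyau]; exact hβ)
        intro c' hc' ht''
        exact tashkinov_elem he0 hF hkd hc' ht''
      rw [hya0, hyau] at hreach
      set K : V → Prop := fun v => (abGraph ends (F.erase e0) c α β).Reachable (y 0) v with hK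
      have hcl : ClosedK ends (F.erase e0) c α β K := closedK_comp ends _ c α β (y 0)
      -- the component stays inside `X`
      have hstep : ∀ a b, InX y N a → (abGraph ends (F.erase e0) c α β).Adj a b → InX y N b := by
        rintro a b ha ⟨_, e, he, hce, hends⟩
        rcases hce with h1 | h1
        · exact closed_of_max hmax hN hc ht he hends ha (j := 0) (by omega)
            (by rw [h1]; exact hα)
        · obtain ⟨j, hj, hju⟩ := huX
          exact closed_of_max hmax hN hc ht he hends ha (j := j) hj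
            (by rw [h1, hju]; exact hβ)
      have hKX : ∀ v, K v → InX y N v := by
        intro v hv
        obtain ⟨p⟩ := hv
        have : ∀ (a b : V) (p : (abGraph ends (F.erase e0) c α β).Walk a b), InX y N a →
            InX y N b := by
          intro a b p
          induction p with
          | nil => exact id
          | cons h p ih => intro ha; exact ih (hstep _ _ ha h)
        exact this _ _ p ⟨0, by omega, rfl⟩
      have hβδ : β ≠ δ := by
        intro h
        obtain ⟨j, hj, hju⟩ := huX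
        exact hδ j hj (by rw [← h, hju]; exact hβ)
      have hKu : K u := hreach
      refine ⟨swapc ends c α β K, y', ed', properOn_swapc hc hcl, ?_, hiff, ?_,
        missing_swapc_right hKu hβ, ?_, ?_⟩
      · refine ht'.swap hcl ?_
        intro a h2a ha h3
        have := hun a h2a ha
        tauto
      · intro a h2a ha
        have := hun a h2a ha
        rw [swapc_of_ne this.1 this.2]
        exact this.1
      · intro e _
        constructor
        · intro h
          by_contra hne
          by_cases h1 : c e = α ∨ c e = β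
          · rcases swapc_or (ends := ends) (K := K) h1 with h2 | h2
            · exact hαδ (h2.symm.trans h)
            · exact hβδ (h2.symm.trans h)
          · push Not at h1
            rw [swapc_of_ne h1.1 h1.2] at h
            exact hne h
        · intro h
          rw [swapc_of_ne (by rw [h]; exact hαδ.symm) (by rw [h]; exact hβδ.symm)]
          exact h
      · intro e he a b hab hnot
        by_cases h1 : c e = α ∨ c e = β
        · -- then `e` does not meet `K`
          have ha' : ¬ K a := by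
            intro hKa
            have hKb : K b := hcl e he h1 a (by rw [hab]; exact Sym2.mem_mk_left _ _) b
              (by rw [hab]; exact Sym2.mem_mk_right _ _) hKa
            exact hnot ⟨hKX a hKa, hKX b hKb⟩
          exact swapc_of_not hcl he (v := a) (by rw [hab]; exact Sym2.mem_mk_left _ _) ha'
        · push Not at h1
          exact swapc_of_ne h1.1 h1.2
  obtain ⟨c'', y', ed', hc'', ht'', hiff, hun'', hαu, hδiff, hout⟩ := hcol
  have hδ'' : ∀ j ≤ N, ¬ Missing ends (F.erase e0) c'' (y' j) δ := by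
    intro j hj hm
    obtain ⟨i, hi, hiy⟩ := (hiff (y' j)).1 ⟨j, hj, rfl⟩
    apply hδ i hi
    intro e he hve hce
    rw [hiy] at hve
    exact hm e he hve ((hδiff e he).2 hce)
  obtain ⟨ju, hju, hyju⟩ := (hiff u).2 huX
  -- the `(α,δ)`-component of `u` for the new colouring
  have hcomp : ∀ v, (abGraph ends (F.erase e0) c'' α δ).Reachable u v → G2.Reachable u v := by
    have hstep : ∀ a b, G2.Reachable u a → (abGraph ends (F.erase e0) c'' α δ).Adj a b →
        G2.Reachable u b := by
      rintro a b hra ⟨hab, e, he, hce, hends⟩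
      by_cases hin : InX y N a ∧ InX y N b
      · -- then `a = u`
        exfalso
        have hau : a = u := by
          by_contra hau
          refine hexit a ?_ hau hra
          rw [hmemB]
          refine ⟨hin.1, ?_⟩
          obtain ⟨p⟩ := hra.symm
          cases p with
          | nil => exact absurd rfl hau
          | @cons _ z _ h _ =>
            obtain ⟨⟨_, e', he', hce', hez⟩, hnz⟩ := h
            exact ⟨e', he', hcolX a z e' hin.1 he' hce' hez hnz, z, hez,
              fun hz => hnz ⟨hin.1, hz⟩⟩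
        rw [hau] at hends
        have hue : u ∈ ends e := by rw [hends]; exact Sym2.mem_mk_left _ _
        rcases hce with h1 | h1
        · exact hαu e he hue h1
        · have h2 := (hδiff e he).1 h1
          have h3 : e = f := huniq e f he hf u hue (by rw [hfe]; exact Sym2.mem_mk_left _ _)
            (by rw [h2, hcf])
          rw [h3, hfe] at hends
          have h4 := Sym2.congr_right.1 hends
          exact hwX (by rw [h4]; exact hin.2)
      · have h1 := hout e he a b hends hin
        refine hra.trans (SimpleGraph.Adj.reachable ?_)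
        exact ⟨⟨hab, e, he, by rw [h1] at hce; exact hce, hends⟩, hin⟩
    intro v hv
    obtain ⟨p⟩ := hv
    have : ∀ (a b : V) (p : (abGraph ends (F.erase e0) c'' α δ).Walk a b), G2.Reachable u a →
        G2.Reachable u b := by
      intro a b p
      induction p with
      | nil => exact id
      | cons h p ih => intro ha; exact ih (hstep _ _ ha h)
    exact this _ _ p (SimpleGraph.Reachable.refl _)
  -- all boundary vertices are equal to `u`
  have hall : ∀ u' f' w', f' ∈ F.erase e0 → c f' = δ → ends f' = s(u', w') → InX y N u' →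
      ¬ InX y N w' → u' = u := by
    intro u' f' w' hf' hcf' hfe' hu' hw'
    by_contra hne
    have h1 := boundary_reach hmax hN hc'' ht'' hun'' hju (by rw [hyju]; exact hαu) hδ'' hf'
      ((hδiff f' hf').2 hcf') hfe' ((hiff u').2 hu') (fun h => hw' ((hiff w').1 h))
    rw [hyju] at h1
    exact hexit u' ((hmemB u').2 ⟨hu', f', hf', hcf', w', hfe', hw'⟩) hne (hcomp u' h1.symm)
  rw [hall u₁ f₁ w₁ hf₁ hc₁ he₁ hu₁ hw₁, hall u₂ f₂ w₂ hf₂ hc₂ he₂ hu₂ hw₂]

end maxtree

end Pool.Agent.Lib.MP_633d19_co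
end

section

/-!
Spanning Tashkinov trees avoiding two colours, and counting edges in a maximal tree.
-/

namespace Pool.Agent.Lib.MP_633d19_co

open Classical

section cycles

variable {V E : Type*} {ends : E → Sym2 V}

/-- A nonempty finite set in which every vertex has two neighbours contains a cycle. -/
theorem card_ge_of_two_nbrs {g : ℕ} (hloop : ∀ e, ¬ (ends e).IsDiag) (hg : GirthGE ends g)
    (S : Finset V) (hS : S.Nonempty)
    (h : ∀ v ∈ S, ∀ x, ∃ z ∈ S, z ≠ x ∧ ∃ e, ends e = s(v, z)) : g ≤ S.card := by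
  -- paths
  let P : ℕ → Prop := fun n => ∃ y : ℕ → V, (∀ i ≤ n, y i ∈ S) ∧
    (∀ i j, i ≤ n → j ≤ n → y i = y j → i = j) ∧ ∀ i < n, ∃ e, ends e = s(y i, y (i + 1))
  have hcard : ∀ n, P n → n + 1 ≤ S.card := by
    rintro n ⟨y, hyS, hinj, _⟩
    have h1 : ((Finset.range (n + 1)).image y).card = n + 1 := by
      rw [Finset.card_image_of_injOn, Finset.card_range]
      intro a ha b hb hab
      rw [Finset.mem_coe, Finset.mem_range] at ha hb
      exact hinj a b (by omega) (by omega) hab
    rw [← h1]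
    apply Finset.card_le_card
    intro v hv
    obtain ⟨i, hi, hiv⟩ := Finset.mem_image.1 hv
    rw [← hiv]
    exact hyS i (by have := Finset.mem_range.1 hi; omega)
  have hP0 : P 0 := by
    obtain ⟨v, hv⟩ := hS
    refine ⟨fun _ => v, fun _ _ => hv, ?_, ?_⟩
    · intro i j hi hj _; omega
    · intro i hi; omega
  obtain ⟨n, hn, hmax⟩ : ∃ n, P n ∧ ¬ P (n + 1) := by
    by_contra hcon
    push Not at hcon
    have : ∀ n, P n := by
      intro n
      induction n with
      | zero => exact hP0
      | succ n ih => exact hcon n ih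
    have := hcard _ (this S.card)
    omega
  obtain ⟨y, hyS, hinj, hadj⟩ := hn
  obtain ⟨z, hzS, hzne, e, he⟩ := h (y n) (hyS n le_rfl) (y (n - 1))
  by_cases hz : ∃ j ≤ n, y j = z
  · obtain ⟨j, hj, hjz⟩ := hz
    have hjn : j ≠ n := by
      intro h1
      apply hloop e
      rw [he, ← hjz, h1]
      exact rfl
    have hjn1 : j ≠ n - 1 := by
      intro h1
      exact hzne (by rw [← hjz, h1])
    have h1 := hg (n - j + 1) (by omega) (fun i => y (j + i)) ?_ ?_
    · have := hcard n ⟨y, hyS, hinj, hadj⟩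
      omega
    · intro a ha b hb hab
      have := hinj (j + a) (j + b) (by omega) (by omega) hab
      omega
    · intro i hi
      rcases Nat.lt_or_ge i (n - j) with h2 | h2
      · obtain ⟨e', he'⟩ := hadj (j + i) (by omega)
        refine ⟨e', ?_⟩
        show ends e' = s(y (j + i), y (j + ((i + 1) % (n - j + 1))))
        rw [Nat.mod_eq_of_lt (by omega)]
        exact he'
      · have h3 : i = n - j := by omega
        subst h3
        refine ⟨e, ?_⟩
        show ends e = s(y (j + (n - j)), y (j + ((n - j + 1) % (n - j + 1))))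
        rw [Nat.mod_self, Nat.add_zero, hjz, Nat.add_sub_cancel' hj]
        exact he
  · exfalso
    push Not at hz
    apply hmax
    refine ⟨Function.update y (n + 1) z, ?_, ?_, ?_⟩
    · intro i hi
      rcases Nat.lt_or_ge n i with h1 | h1
      · have : i = n + 1 := by omega
        subst this
        rw [Function.update_self]; exact hzS
      · rw [Function.update_of_ne (by omega)]; exact hyS i h1
    · intro i j hi hj hij
      rcases Nat.lt_or_ge n i with h1 | h1
      · have : i = n + 1 := by omega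
        subst this
        rcases Nat.lt_or_ge n j with h2 | h2
        · omega
        · exfalso
          rw [Function.update_self, Function.update_of_ne (by omega)] at hij
          exact hz j h2 hij.symm
      · rcases Nat.lt_or_ge n j with h2 | h2
        · exfalso
          have : j = n + 1 := by omega
          subst this
          rw [Function.update_self, Function.update_of_ne (by omega)] at hij
          exact hz i h1 hij
        · rw [Function.update_of_ne (by omega), Function.update_of_ne (by omega)] at hij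
          exact hinj i j h1 h2 hij
    · intro i hi
      rcases Nat.lt_or_ge i n with h1 | h1
      · rw [Function.update_of_ne (by omega), Function.update_of_ne (by omega)]
        exact hadj i h1
      · have : i = n := by omega
        subst this
        rw [Function.update_of_ne (by omega), Function.update_self]
        exact ⟨e, he⟩

end cycles

section count

variable {V E : Type*} {ends : E → Sym2 V} {F : Finset E} {e0 : E} {k N : ℕ}

/-- the neighbours of `w` in `S` -/
noncomputable def nb (ends : E → Sym2 V) (F : Finset E) (S : Finset V) (w : V) : Finset V :=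
  S.filter (fun x => ∃ e ∈ F, ends e = s(w, x))

/-- the edges joining `w` to `S` -/
noncomputable def ed2 (ends : E → Sym2 V) (F : Finset E) (S : Finset V) (w : V) : Finset E :=
  F.filter (fun e => ∃ x ∈ S, ends e = s(w, x))

theorem card_ed2_le {μ : ℕ} (hμ : ∀ u v, (F.filter (fun e => ends e = s(u, v))).card ≤ μ)
    (S : Finset V) (w : V) : (ed2 ends F S w).card ≤ μ * (nb ends F S w).card := by
  have h : ed2 ends F S w ⊆ (nb ends F S w).biUnion
      (fun x => F.filter (fun e => ends e = s(w, x))) := by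
    intro e he
    unfold ed2 at he
    rw [Finset.mem_filter] at he
    obtain ⟨heF, x, hx, hex⟩ := he
    rw [Finset.mem_biUnion]
    refine ⟨x, ?_, Finset.mem_filter.2 ⟨heF, hex⟩⟩
    unfold nb
    rw [Finset.mem_filter]
    exact ⟨hx, e, heF, hex⟩
  refine (Finset.card_le_card h).trans ?_
  rw [mul_comm]
  exact Finset.card_biUnion_le_card_mul _ _ _ (fun x _ => hμ w x)

theorem card_ed2_le_deg (S : Finset V) (w : V) : (ed2 ends F S w).card ≤ degOn ends F w := by
  unfold ed2 degOn
  apply Finset.card_le_card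
  intro e he
  rw [Finset.mem_filter] at he ⊢
  obtain ⟨heF, x, _, hex⟩ := he
  exact ⟨heF, by rw [hex]; exact Sym2.mem_mk_left _ _⟩

theorem card_le_ed2 {D : Finset E} {c : E → Fin k} {S : Finset V} {w : V} (Q : Finset (Fin k))
    (hQ : ∀ γ ∈ Q, ∃ e ∈ D, c e = γ ∧ ∃ x ∈ S, ends e = s(w, x)) :
    Q.card ≤ (ed2 ends D S w).card := by
  have h : Q ⊆ (ed2 ends D S w).image c := by
    intro γ hγ
    obtain ⟨e, he, hce, x, hx, hex⟩ := hQ γ hγ
    exact Finset.mem_image.2 ⟨e, Finset.mem_filter.2 ⟨he, x, hx, hex⟩, hce⟩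
  exact (Finset.card_le_card h).trans Finset.card_image_le

theorem Mis_lower {Δ t : ℕ} (hk : k = Δ + t) (hΔ : ∀ v, degOn ends F v ≤ Δ)
    (c : E → Fin k) (v : V) : t ≤ (Mis ends (F.erase e0) c v).card := by
  have h1 := card_Mis (ends := ends) (F.erase e0) c v
  have h2 := degOn_erase_le (ends := ends) F e0 v
  have h3 := hΔ v
  omega

theorem Mis_lower' (he0 : e0 ∈ F) {Δ t : ℕ} (hk : k = Δ + t) (hΔ : ∀ v, degOn ends F v ≤ Δ)
    (c : E → Fin k) {v : V} (hv : v ∈ ends e0) :
    t + 1 ≤ (Mis ends (F.erase e0) c v).card := by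
  have h1 := card_Mis (ends := ends) (F.erase e0) c v
  have h2 := degOn_erase_lt (ends := ends) he0 hv
  have h3 := hΔ v
  omega

/-- the colours missing somewhere in the tree -/
noncomputable def MisT (ends : E → Sym2 V) (D : Finset E) (c : E → Fin k) (y : ℕ → V)
    (I : Finset ℕ) : Finset (Fin k) :=
  I.biUnion (fun i => Mis ends D c (y i))

theorem mem_MisT {D : Finset E} {c : E → Fin k} {y : ℕ → V} {I : Finset ℕ} {γ : Fin k} :
    γ ∈ MisT ends D c y I ↔ ∃ i ∈ I, Missing ends D c (y i) γ := by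
  unfold MisT
  rw [Finset.mem_biUnion]
  constructor
  · rintro ⟨i, hi, h⟩; exact ⟨i, hi, mem_Mis.1 h⟩
  · rintro ⟨i, hi, h⟩; exact ⟨i, hi, mem_Mis.2 h⟩

theorem card_MisT {D : Finset E} {c : E → Fin k} {y : ℕ → V} {n : ℕ}
    (hel : Elem ends D c y n) {I : Finset ℕ} (hI : ∀ i ∈ I, i ≤ n) :
    (MisT ends D c y I).card = ∑ i ∈ I, (Mis ends D c (y i)).card := by
  unfold MisT
  rw [Finset.card_biUnion]
  intro i hi j hj hij
  rw [Function.onFun, Finset.disjoint_left]
  intro γ h1 h2
  exact hij (hel.eq (hI i hi) (hI j hj) (mem_Mis.1 h1) (mem_Mis.1 h2))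

theorem sum_Mis_lower (he0 : e0 ∈ F) {Δ t : ℕ} (hk : k = Δ + t)
    (hΔ : ∀ v, degOn ends F v ≤ Δ) (c : E → Fin k) {y : ℕ → V}
    (hstart : ends e0 = s(y 0, y 1)) (I : Finset ℕ) :
    I.card * t + (I.filter (fun i => i < 2)).card ≤
      ∑ i ∈ I, (Mis ends (F.erase e0) c (y i)).card := by
  have h1 : ∀ i ∈ I, t + (if i < 2 then 1 else 0) ≤ (Mis ends (F.erase e0) c (y i)).card := by
    intro i _
    split_ifs with h
    · apply Mis_lower' he0 hk hΔ
      rw [hstart]
      interval_cases i
      · exact Sym2.mem_mk_left _ _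
      · exact Sym2.mem_mk_right _ _
    · exact Mis_lower hk hΔ c _
  refine le_trans ?_ (Finset.sum_le_sum h1)
  rw [Finset.sum_add_distrib, Finset.sum_const, smul_eq_mul, Finset.card_filter]

theorem card_filter_lt_two {n : ℕ} (hn : 1 ≤ n) :
    ((Finset.range (n + 1)).filter (fun i => i < 2)).card = 2 := by
  have : (Finset.range (n + 1)).filter (fun i => i < 2) = {0, 1} := by
    ext i
    simp only [Finset.mem_filter, Finset.mem_range, Finset.mem_insert, Finset.mem_singleton]
    omega
  rw [this]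
  rfl

end count

end Pool.Agent.Lib.MP_633d19_co
end

section

/-!
Existence of spanning Tashkinov trees avoiding two colours.
-/

namespace Pool.Agent.Lib.MP_633d19_co

open Classical

variable {V E : Type*} {ends : E → Sym2 V} {F : Finset E} {e0 : E} {k N : ℕ}

theorem exists_ne_ne {S : Finset (Fin k)} {α β : Fin k} (hS : 2 ≤ S.card)
    (h : α ∈ S → β ∈ S → α = β) : ∃ γ ∈ S, γ ≠ α ∧ γ ≠ β := by
  by_cases hα : α ∈ S
  · obtain ⟨γ, hγ, hne⟩ := Finset.exists_mem_ne (by omega : 1 < S.card) α
    refine ⟨γ, hγ, hne, ?_⟩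
    intro h1
    subst h1
    exact hne (h hα hγ).symm
  · obtain ⟨γ, hγ, hne⟩ := Finset.exists_mem_ne (by omega : 1 < S.card) β
    exact ⟨γ, hγ, fun h1 => hα (h1 ▸ hγ), hne⟩

theorem mult_mono {D : Finset E} (hD : D ⊆ F) {μ : ℕ}
    (hμ : ∀ u v, (F.filter (fun e => ends e = s(u, v))).card ≤ μ) (u v : V) :
    (D.filter (fun e => ends e = s(u, v))).card ≤ μ :=
  (Finset.card_le_card (Finset.filter_subset_filter _ hD)).trans (hμ u v)

/-- An alternating path between the ends of the uncoloured edge closes up to a cycle. -/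
theorem girth_le_path {g : ℕ} (hg : GirthGE ends g) {D : Finset E} {c : E → Fin k}
    {γ₀ γ₁ : Fin k} {a b : V} (hab : a ≠ b) (he0 : ends e0 = s(a, b))
    (h0 : Missing ends D c a γ₀) (h1 : Missing ends D c b γ₁)
    (p : (abGraph ends D c γ₀ γ₁).Walk a b) (hp : p.IsPath) : g ≤ p.length + 1 := by
  have hlen : 2 ≤ p.length := by
    cases p with
    | nil => exact absurd rfl hab
    | @cons _ z _ h q =>
      cases q with
      | nil =>
        exfalso
        obtain ⟨_, e, he, hce, hends⟩ := h
        rcases hce with h2 | h2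
        · exact h0 e he (by rw [hends]; exact Sym2.mem_mk_left _ _) h2
        · exact h1 e he (by rw [hends]; exact Sym2.mem_mk_right _ _) h2
      | cons h' q' => simp
  have hinj := hp.getVert_injOn
  refine hg (p.length + 1) (by omega) (fun i => p.getVert i) ?_ ?_
  · intro i hi j hj hij
    exact hinj (by simp; omega) (by simp; omega) hij
  · intro i hi
    rcases Nat.lt_or_ge i p.length with h2 | h2
    · rw [Nat.mod_eq_of_lt (by omega)]
      obtain ⟨_, e, _, _, hends⟩ := p.adj_getVert_succ h2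
      exact ⟨e, hends⟩
    · have h3 : i = p.length := by omega
      subst h3
      rw [Nat.mod_self]
      refine ⟨e0, ?_⟩
      rw [SimpleGraph.Walk.getVert_zero, SimpleGraph.Walk.getVert_length, he0, Sym2.eq_swap]

/-- Let `X` be a maximal Tashkinov tree with at most `4 s` vertices in a graph of girth at least
`2 s` and multiplicity at most `(t + 1) s`. Then each pair of colours can be avoided by a
spanning Tashkinov tree. -/
theorem spanning_avoiding (he0 : e0 ∈ F) (hF : ¬ ∃ c : E → Fin k, ProperOn ends F c)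
    (hloop : ∀ e, ¬ (ends e).IsDiag) {Δ t s μ g : ℕ} (hk : k = Δ + t) (ht1 : 1 ≤ t)
    (hΔ : ∀ v, degOn ends F v ≤ Δ)
    (hμ : ∀ u v, (F.filter (fun e => ends e = s(u, v))).card ≤ μ) (hμs : μ ≤ (t + 1) * s)
    (hg : GirthGE ends g) (hgs : 2 * s ≤ g) (hs : 1 ≤ s)
    (hmax : TMax ends F e0 k N) (hN : 1 ≤ N) (hN4 : N < 4 * s) {c : E → Fin k} {y : ℕ → V}
    {ed : ℕ → E} (hc : ProperOn ends (F.erase e0) c)
    (ht : TTree ends (F.erase e0) e0 c y ed N N) {α : Fin k}
    (hα : Missing ends (F.erase e0) c (y 0) α) (u : V) (hu : InX y N u) :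
    ∃ β, Missing ends (F.erase e0) c u β ∧ ∃ y' ed',
      TTree ends (F.erase e0) e0 c y' ed' N N ∧
      ∀ a, 2 ≤ a → a ≤ N → c (ed' a) ≠ α ∧ c (ed' a) ≠ β := by
  have hkd : ∀ v, degOn ends F v < k := fun v => (hΔ v).trans_lt (by omega)
  have hel := tashkinov_elem he0 hF hkd hc ht
  -- the colour `β`
  obtain ⟨β, hβ, hβ0⟩ : ∃ β, Missing ends (F.erase e0) c u β ∧ (u = y 0 → β = α) := by
    by_cases h : u = y 0
    · exact ⟨α, by rw [h]; exact hα, fun _ => rfl⟩
    · obtain ⟨β, hβ⟩ := exists_missing (e0 := e0) hkd c u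
      exact ⟨β, hβ, fun h1 => absurd h1 h⟩
  have hsep : ∀ v, InX y N v → Missing ends (F.erase e0) c v α →
      Missing ends (F.erase e0) c v β → α = β := by
    rintro v ⟨i, hi, hiv⟩ h1 h2
    rw [← hiv] at h1 h2
    have hi0 : i = 0 := hel.eq hi (by omega) h1 hα
    subst hi0
    obtain ⟨j, hj, hju⟩ := hu
    rw [← hju] at hβ
    have hj0 : j = 0 := hel.eq hj (by omega) hβ h2
    subst hj0
    exact (hβ0 hju.symm).symm
  refine ⟨β, hβ, ?_⟩
  -- a maximal tree avoiding `α` and `β`
  let P : ℕ → Prop := fun n => ∃ y' ed', TTree ends (F.erase e0) e0 c y' ed' n n ∧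
    ∀ a, 2 ≤ a → a ≤ n → c (ed' a) ≠ α ∧ c (ed' a) ≠ β
  have hP1 : P 1 := ⟨y, ed, ht.mono hN (Or.inl le_rfl), fun a h2 ha => by omega⟩
  have hPN : ∀ n, P n → n ≤ N := by
    rintro n ⟨y', ed', h, _⟩
    exact hmax c y' ed' n hc h
  obtain ⟨n₁, hn1, hPn, hPn'⟩ : ∃ n, 1 ≤ n ∧ P n ∧ ¬ P (n + 1) := by
    by_contra hcon
    push Not at hcon
    have : ∀ n, 1 ≤ n → P n := by
      intro n hn
      induction n, hn using Nat.le_induction with
      | base => exact hP1
      | succ n hn ih => exact hcon n hn ih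
    have := hPN _ (this (N + 1) (by omega))
    omega
  obtain ⟨y', ed', ht', hav⟩ := hPn
  have hn1N : n₁ ≤ N := hmax c y' ed' n₁ hc ht'
  rcases Nat.lt_or_ge n₁ N with hlt | hge
  swap
  · have : n₁ = N := by omega
    subst this
    exact ⟨y', ed', ht', hav⟩
  exfalso
  have hel' := tashkinov_elem he0 hF hkd hc ht'
  have hYX : ∀ i ≤ n₁, InX y N (y' i) := sub_of_max hmax hN hc ht ht'
  have hYcl : ∀ e ∈ F.erase e0, ∀ v w, ends e = s(v, w) → InX y' n₁ v → c e ≠ α → c e ≠ β →
      ∀ j ≤ n₁, Missing ends (F.erase e0) c (y' j) (c e) → InX y' n₁ w := by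
    intro e he v w hvw hv hα' hβ' j hj hm
    by_contra hcon
    obtain ⟨a, ha, hav'⟩ := hv
    apply hPn'
    refine ⟨_, _, ht'.extend hn1 (f := e) (z := w) (a := a) (b := j) (q := n₁ + 1) he ha
      (by rw [hav']; exact hvw) (fun i hi h => hcon ⟨i, hi, h⟩) hj hm (Or.inr (by omega))
      (Or.inr le_rfl), ?_⟩
    intro b h2 hb
    rcases Nat.lt_or_ge n₁ b with h3 | h3
    · have : b = n₁ + 1 := by omega
      subst this
      rw [Function.update_self]
      exact ⟨hα', hβ'⟩
    · rw [Function.update_of_ne (by omega)]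
      exact hav b h2 h3
  have hm2 : ∀ i, i < 2 → i ≤ n₁ → ∃ γ, Missing ends (F.erase e0) c (y' i) γ ∧ γ ≠ α ∧ γ ≠ β := by
    intro i hi hin
    have h1 : t + 1 ≤ (Mis ends (F.erase e0) c (y' i)).card := by
      apply Mis_lower' he0 hk hΔ
      rw [ht'.start]
      interval_cases i
      · exact Sym2.mem_mk_left _ _
      · exact Sym2.mem_mk_right _ _
    obtain ⟨γ, hγ, h2⟩ := exists_ne_ne (α := α) (β := β) (by omega : 2 ≤ _)
      (fun h3 h4 => hsep _ (hYX i hin) (mem_Mis.1 h3) (mem_Mis.1 h4))
    exact ⟨γ, mem_Mis.1 hγ, h2⟩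
  obtain ⟨γ₀, hγ₀, hγ₀α, hγ₀β⟩ := hm2 0 (by omega) (by omega)
  obtain ⟨γ₁, hγ₁, hγ₁α, hγ₁β⟩ := hm2 1 (by omega) hn1
  -- `n₁` is even
  have hn1e : Even n₁ := by
    have h1 : Even ((Finset.Icc 1 n₁).image y').card := by
      refine even_of_matching hloop hc (γ := γ₀) _ ?_
      intro v hv
      obtain ⟨i, hi, hiv⟩ := Finset.mem_image.1 hv
      rw [Finset.mem_Icc] at hi
      have h2 : ¬ Missing ends (F.erase e0) c (y' i) γ₀ := fun h =>
        hel' 0 i (by omega) hi.2 γ₀ ⟨hγ₀, h⟩
      unfold Missing at h2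
      push Not at h2
      obtain ⟨e, he, hve, hce⟩ := h2
      obtain ⟨w, hw⟩ := Sym2.mem_iff_exists.1 hve
      obtain ⟨j, hj, hjw⟩ := hYcl e he _ _ hw ⟨i, hi.2, rfl⟩ (by rw [hce]; exact hγ₀α)
        (by rw [hce]; exact hγ₀β) 0 (by omega) (by rw [hce]; exact hγ₀)
      have hj0 : j ≠ 0 := by
        intro hj0
        subst hj0
        exact hγ₀ e he (by rw [hw, ← hjw]; exact Sym2.mem_mk_right _ _) hce
      exact ⟨w, Finset.mem_image.2 ⟨j, Finset.mem_Icc.2 ⟨by omega, hj⟩, hjw⟩, e, he, hce,
        by rw [← hiv]; exact hw⟩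
    rw [Finset.card_image_of_injOn] at h1
    · simpa using h1
    · intro a ha b hb hab
      rw [Finset.mem_coe, Finset.mem_Icc] at ha hb
      exact ht'.inj a b ha.2 hb.2 hab
  have hinjY : Set.InjOn y' ↑(Finset.range (n₁ + 1)) := by
    intro a ha b hb hab
    rw [Finset.mem_coe, Finset.mem_range] at ha hb
    exact ht'.inj a b (by omega) (by omega) hab
  have hinjX : Set.InjOn y ↑(Finset.range (N + 1)) := by
    intro a ha b hb hab
    rw [Finset.mem_coe, Finset.mem_range] at ha hb
    exact ht.inj a b (by omega) (by omega) hab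
  set Y : Finset V := (Finset.range (n₁ + 1)).image y' with hY
  set X : Finset V := (Finset.range (N + 1)).image y with hX
  have hYc : Y.card = n₁ + 1 := by
    rw [hY, Finset.card_image_of_injOn hinjY, Finset.card_range]
  have hXc : X.card = N + 1 := by
    rw [hX, Finset.card_image_of_injOn hinjX, Finset.card_range]
  have hmemY : ∀ v, v ∈ Y ↔ InX y' n₁ v := by
    intro v
    rw [hY, Finset.mem_image]
    constructor
    · rintro ⟨i, hi, h⟩
      exact ⟨i, by have := Finset.mem_range.1 hi; omega, h⟩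
    · rintro ⟨i, hi, h⟩
      exact ⟨i, Finset.mem_range.2 (by omega), h⟩
  have hmemX : ∀ v, v ∈ X ↔ InX y N v := by
    intro v
    rw [hX, Finset.mem_image]
    constructor
    · rintro ⟨i, hi, h⟩
      exact ⟨i, by have := Finset.mem_range.1 hi; omega, h⟩
    · rintro ⟨i, hi, h⟩
      exact ⟨i, Finset.mem_range.2 (by omega), h⟩
  have hYsub : Y ⊆ X := by
    intro v hv
    obtain ⟨i, hi, h⟩ := (hmemY v).1 hv
    rw [hmemX, ← h]
    exact hYX i hi
  -- `Y` has at least `g` vertices
  have hYg : g ≤ n₁ + 1 := by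
    have hy01 : y' 0 ≠ y' 1 := fun h => by
      have := ht'.inj 0 1 (by omega) hn1 h
      omega
    have hreach : (abGraph ends (F.erase e0) c γ₀ γ₁).Reachable (y' 0) (y' 1) := by
      refine TTree.reach hc (ht'.mono (m := 1) (q := 1) hn1 (Or.inl le_rfl)) ?_
        (fun a h2 ha => by omega) (by omega) le_rfl (by omega) hγ₀ hγ₁
      intro c' hc' ht''
      exact tashkinov_elem he0 hF hkd hc' ht''
    obtain ⟨p, hp⟩ := hreach.exists_isPath
    have h1 := girth_le_path hg hy01 ht'.start hγ₀ hγ₁ p hp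
    have hstep : ∀ a b, InX y' n₁ a → (abGraph ends (F.erase e0) c γ₀ γ₁).Adj a b →
        InX y' n₁ b := by
      rintro a b ha ⟨_, e, he, hce, hends⟩
      rcases hce with h2 | h2
      · exact hYcl e he a b hends ha (by rw [h2]; exact hγ₀α) (by rw [h2]; exact hγ₀β) 0
          (by omega) (by rw [h2]; exact hγ₀)
      · exact hYcl e he a b hends ha (by rw [h2]; exact hγ₁α) (by rw [h2]; exact hγ₁β) 1
          hn1 (by rw [h2]; exact hγ₁)
    have hsup : ∀ (a b : V) (q : (abGraph ends (F.erase e0) c γ₀ γ₁).Walk a b), InX y' n₁ a →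
        ∀ x ∈ q.support, InX y' n₁ x := by
      intro a b q
      induction q with
      | nil =>
        intro ha x hx
        rw [SimpleGraph.Walk.support_nil, List.mem_singleton] at hx
        rw [hx]; exact ha
      | cons h q ih =>
        intro ha x hx
        rw [SimpleGraph.Walk.support_cons] at hx
        rcases List.mem_cons.1 hx with h2 | h2
        · rw [h2]; exact ha
        · exact ih (hstep _ _ ha h) x h2
    have h2 : p.support.toFinset ⊆ Y := by
      intro x hx
      rw [hmemY]
      exact hsup _ _ p ⟨0, by omega, rfl⟩ x (List.mem_toFinset.1 hx)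
    have h3 := Finset.card_le_card h2
    rw [List.toFinset_card_of_nodup hp.support_nodup, SimpleGraph.Walk.length_support, hYc] at h3
    omega
  have hn1s : 2 * s ≤ n₁ := by
    obtain ⟨m, hm⟩ := hn1e
    omega
  -- the rest
  set Z : Finset V := X \ Y with hZ
  have hZc : Z.card = N - n₁ := by
    rw [hZ, Finset.card_sdiff_of_subset hYsub, hXc, hYc]
    omega
  have hZne : Z.Nonempty := by
    rw [← Finset.card_pos, hZc]
    omega
  have hZg : g ≤ Z.card := by
    refine card_ge_of_two_nbrs hloop hg Z hZne ?_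
    intro w hw x
    rw [hZ, Finset.mem_sdiff, hmemX, hmemY] at hw
    obtain ⟨hwX, hwY⟩ := hw
    have hB : (MisT ends (F.erase e0) c y' (Finset.range (n₁ + 1)) \ {α, β}).card ≤
        (ed2 ends (F.erase e0) Z w).card := by
      refine card_le_ed2 (c := c) _ ?_
      intro γ hγ
      rw [Finset.mem_sdiff, mem_MisT] at hγ
      obtain ⟨⟨i, hi, hm⟩, hγαβ⟩ := hγ
      rw [Finset.mem_range] at hi
      rw [Finset.mem_insert, Finset.mem_singleton, not_or] at hγαβ
      -- `γ` is present at `w`
      obtain ⟨j, hj, hjw⟩ := hwX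
      obtain ⟨i', hi', hii⟩ := hYX i (by omega)
      have h1 : ¬ Missing ends (F.erase e0) c w γ := by
        intro h1
        rw [← hjw] at h1
        rw [← hii] at hm
        have h2 := hel.eq hj hi' h1 hm
        subst h2
        exact hwY ⟨i, by omega, by rw [← hii, hjw]⟩
      unfold Missing at h1
      push Not at h1
      obtain ⟨e, he, hwe, hce⟩ := h1
      obtain ⟨z, hz⟩ := Sym2.mem_iff_exists.1 hwe
      refine ⟨e, he, hce, z, ?_, hz⟩
      rw [hZ, Finset.mem_sdiff, hmemX, hmemY]
      constructor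
      · exact closed_of_max hmax hN hc ht he hz ⟨j, hj, hjw⟩ hi' (by rw [hce, hii]; exact hm)
      · intro hzY
        apply hwY
        exact hYcl e he z w (by rw [hz, Sym2.eq_swap]) hzY (by rw [hce]; exact hγαβ.1)
          (by rw [hce]; exact hγαβ.2) i (by omega) (by rw [hce]; exact hm)
    have h1 := card_ed2_le (ends := ends) (mult_mono (Finset.erase_subset e0 F) hμ) Z w
    have h2 := card_MisT hel' (I := Finset.range (n₁ + 1))
      (fun i hi => by have := Finset.mem_range.1 hi; omega)
    have h3 := sum_Mis_lower he0 hk hΔ c ht'.start (Finset.range (n₁ + 1))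
    rw [card_filter_lt_two hn1, Finset.card_range] at h3
    have h4 := Finset.le_card_sdiff ({α, β} : Finset (Fin k))
      (MisT ends (F.erase e0) c y' (Finset.range (n₁ + 1)))
    have h5 : ({α, β} : Finset (Fin k)).card ≤ 2 := Finset.card_le_two
    have h6 : (n₁ + 1) * t ≤ (t + 1) * s * (nb ends (F.erase e0) Z w).card := by
      calc (n₁ + 1) * t ≤ μ * (nb ends (F.erase e0) Z w).card := by omega
        _ ≤ _ := Nat.mul_le_mul_right _ hμs
    have h7 : 1 < (nb ends (F.erase e0) Z w).card := by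
      by_contra hcon
      push Not at hcon
      have h8 : (t + 1) * s * (nb ends (F.erase e0) Z w).card ≤ (t + 1) * s * 1 :=
        Nat.mul_le_mul_left _ hcon
      have h9 : (2 * s + 1) * t ≤ (n₁ + 1) * t := Nat.mul_le_mul_right _ (by omega)
      have h10 : s * 1 ≤ s * t := Nat.mul_le_mul_left _ ht1
      nlinarith
    obtain ⟨z, hz, hzx⟩ := Finset.exists_mem_ne h7 x
    unfold nb at hz
    rw [Finset.mem_filter] at hz
    obtain ⟨hzZ, e, _, he⟩ := hz
    exact ⟨z, hzZ, hzx, e, he⟩
  omega

end Pool.Agent.Lib.MP_633d19_co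
end

section

/-!
Counting edges inside a maximal Tashkinov tree.
-/

namespace Pool.Agent.Lib.MP_633d19_co

open Classical

variable {V E : Type*} {ends : E → Sym2 V} {F : Finset E} {e0 : E} {k N : ℕ}

/-- the vertex set of a tree -/
noncomputable def VX (y : ℕ → V) (N : ℕ) : Finset V := (Finset.range (N + 1)).image y

theorem mem_VX {y : ℕ → V} {N : ℕ} {v : V} : v ∈ VX y N ↔ InX y N v := by
  unfold VX InX
  rw [Finset.mem_image]
  constructor
  · rintro ⟨i, hi, h⟩
    exact ⟨i, by have := Finset.mem_range.1 hi; omega, h⟩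
  · rintro ⟨i, hi, h⟩
    exact ⟨i, Finset.mem_range.2 (by omega), h⟩

theorem card_VX {D : Finset E} {c : E → Fin k} {y : ℕ → V} {ed : ℕ → E} {p : ℕ}
    (ht : TTree ends D e0 c y ed p N) : (VX y N).card = N + 1 := by
  unfold VX
  rw [Finset.card_image_of_injOn, Finset.card_range]
  intro a ha b hb hab
  rw [Finset.mem_coe, Finset.mem_range] at ha hb
  exact ht.inj a b (by omega) (by omega) hab

theorem ed2_erase (he0 : e0 ∈ F) {X : Finset V} {a b : V} (hab : ends e0 = s(a, b))
    (ha : a ∈ X) (hb : b ∈ X) (w : V) :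
    (ed2 ends (F.erase e0) X w).card + (if w = a ∨ w = b then 1 else 0) ≤
      (ed2 ends F X w).card := by
  split_ifs with h
  · have h1 : ed2 ends (F.erase e0) X w ⊂ ed2 ends F X w := by
      rw [Finset.ssubset_iff_of_subset]
      · refine ⟨e0, ?_, ?_⟩
        · unfold ed2
          rw [Finset.mem_filter]
          rcases h with h | h
          · exact ⟨he0, b, hb, by rw [h]; exact hab⟩
          · exact ⟨he0, a, ha, by rw [h, hab, Sym2.eq_swap]⟩
        · unfold ed2
          rw [Finset.mem_filter]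
          intro h2
          exact Finset.notMem_erase e0 F h2.1
      · unfold ed2
        exact Finset.filter_subset_filter _ (Finset.erase_subset e0 F)
    exact Finset.card_lt_card h1
  · unfold ed2
    exact Finset.card_le_card (Finset.filter_subset_filter _ (Finset.erase_subset e0 F))

/-- every vertex of a maximal tree has many edges into the tree -/
theorem inner_degree_ge (he0 : e0 ∈ F) (hF : ¬ ∃ c : E → Fin k, ProperOn ends F c)
    {Δ t : ℕ} (hk : k = Δ + t) (ht1 : 1 ≤ t)
    (hΔ : ∀ v, degOn ends F v ≤ Δ) (hmax : TMax ends F e0 k N) (hN : 1 ≤ N)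
    {c : E → Fin k} {y : ℕ → V} {ed : ℕ → E} (hc : ProperOn ends (F.erase e0) c)
    (ht : TTree ends (F.erase e0) e0 c y ed N N) {w : V} (hw : w ∈ VX y N) :
    N * t + 2 ≤ (ed2 ends F (VX y N) w).card := by
  have hkd : ∀ v, degOn ends F v < k := fun v => (hΔ v).trans_lt (by omega)
  have hel := tashkinov_elem he0 hF hkd hc ht
  obtain ⟨i, hi, hiw⟩ := mem_VX.1 hw
  have h1 : (MisT ends (F.erase e0) c y ((Finset.range (N + 1)).erase i)).card ≤
      (ed2 ends (F.erase e0) (VX y N) w).card := by
    refine card_le_ed2 (c := c) _ ?_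
    intro γ hγ
    rw [mem_MisT] at hγ
    obtain ⟨j, hj, hm⟩ := hγ
    rw [Finset.mem_erase, Finset.mem_range] at hj
    have h2 : ¬ Missing ends (F.erase e0) c w γ := by
      intro h2
      rw [← hiw] at h2
      exact hj.1 (hel.eq (by omega) hi hm h2)
    unfold Missing at h2
    push Not at h2
    obtain ⟨e, he, hwe, hce⟩ := h2
    obtain ⟨z, hz⟩ := Sym2.mem_iff_exists.1 hwe
    exact ⟨e, he, hce, z, mem_VX.2 (closed_of_max hmax hN hc ht he hz ⟨i, hi, hiw⟩ (j := j)
      (by omega) (by rw [hce]; exact hm)), hz⟩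
  rw [card_MisT hel (fun j hj => by
    rw [Finset.mem_erase, Finset.mem_range] at hj; omega)] at h1
  have h2 := sum_Mis_lower he0 hk hΔ c ht.start ((Finset.range (N + 1)).erase i)
  rw [Finset.card_erase_of_mem (Finset.mem_range.2 (by omega)), Finset.card_range,
    Nat.add_sub_cancel] at h2
  have h3 := ed2_erase he0 (X := VX y N) ht.start (mem_VX.2 ⟨0, by omega, rfl⟩)
    (mem_VX.2 ⟨1, by omega, rfl⟩) w
  have h4 : 2 ≤ (((Finset.range (N + 1)).erase i).filter (fun i => i < 2)).card +
      (if w = y 0 ∨ w = y 1 then 1 else 0) := by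
    have h5 := card_filter_lt_two hN
    have h6 : ((Finset.range (N + 1)).erase i).filter (fun i => i < 2) =
        ((Finset.range (N + 1)).filter (fun i => i < 2)).erase i := by
      rw [Finset.filter_erase]
    rw [h6]
    by_cases h7 : i < 2
    · have h8 : w = y 0 ∨ w = y 1 := by
        interval_cases i
        · exact Or.inl hiw.symm
        · exact Or.inr hiw.symm
      have h9 : i ∈ (Finset.range (N + 1)).filter (fun i => i < 2) :=
        Finset.mem_filter.2 ⟨Finset.mem_range.2 (by omega), h7⟩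
      have h10 := Finset.card_erase_of_mem h9
      rw [if_pos h8]
      omega
    · have h9 : i ∉ (Finset.range (N + 1)).filter (fun i => i < 2) :=
        fun h => h7 (Finset.mem_filter.1 h).2
      have h10 : (((Finset.range (N + 1)).filter (fun i => i < 2)).erase i).card =
          ((Finset.range (N + 1)).filter (fun i => i < 2)).card := by
        rw [Finset.erase_eq_of_notMem h9]
      omega
  omega

/-- In a strongly closed maximal tree, the sum of the inner degrees is at least `k N + 2`. -/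
theorem total_degree_ge (he0 : e0 ∈ F) (hF : ¬ ∃ c : E → Fin k, ProperOn ends F c)
    (hkd : ∀ v, degOn ends F v < k) (hmax : TMax ends F e0 k N) (hN : 1 ≤ N)
    {c : E → Fin k} {y : ℕ → V} {ed : ℕ → E} (hc : ProperOn ends (F.erase e0) c)
    (ht : TTree ends (F.erase e0) e0 c y ed N N)
    (hsc : ∀ δ : Fin k, (∀ j ≤ N, ¬ Missing ends (F.erase e0) c (y j) δ) →
      ∀ (f₁ f₂ : E) (u₁ u₂ w₁ w₂ : V), f₁ ∈ F.erase e0 → c f₁ = δ →
      ends f₁ = s(u₁, w₁) → InX y N u₁ → ¬ InX y N w₁ → f₂ ∈ F.erase e0 → c f₂ = δ →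
      ends f₂ = s(u₂, w₂) → InX y N u₂ → ¬ InX y N w₂ → u₁ = u₂) :
    k * N + 2 ≤ ∑ w ∈ VX y N, (ed2 ends F (VX y N) w).card := by
  have hel := tashkinov_elem he0 hF hkd hc ht
  set X := VX y N with hX
  have hXc : X.card = N + 1 := card_VX ht
  -- each colour
  have hcol : ∀ γ : Fin k, N ≤ (X.filter (fun w => ∃ e ∈ F.erase e0, c e = γ ∧
      ∃ x ∈ X, ends e = s(w, x))).card := by
    intro γ
    by_cases hγ : ∃ j ≤ N, Missing ends (F.erase e0) c (y j) γ
    · obtain ⟨j, hj, hm⟩ := hγ
      have h1 : X.erase (y j) ⊆ X.filter (fun w => ∃ e ∈ F.erase e0, c e = γ ∧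
          ∃ x ∈ X, ends e = s(w, x)) := by
        intro w hw
        rw [Finset.mem_erase] at hw
        obtain ⟨hwj, hwX⟩ := hw
        rw [Finset.mem_filter]
        refine ⟨hwX, ?_⟩
        obtain ⟨i, hi, hiw⟩ := mem_VX.1 hwX
        have h2 : ¬ Missing ends (F.erase e0) c w γ := by
          intro h2
          rw [← hiw] at h2
          have := hel.eq hi hj h2 hm
          subst this
          exact hwj hiw.symm
        unfold Missing at h2
        push Not at h2
        obtain ⟨e, he, hwe, hce⟩ := h2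
        obtain ⟨z, hz⟩ := Sym2.mem_iff_exists.1 hwe
        exact ⟨e, he, hce, z, mem_VX.2 (closed_of_max hmax hN hc ht he hz ⟨i, hi, hiw⟩
          (j := j) hj (by rw [hce]; exact hm)), hz⟩
      have h2 := Finset.card_le_card h1
      rw [Finset.card_erase_of_mem (mem_VX.2 ⟨j, hj, rfl⟩), hXc] at h2
      omega
    · push Not at hγ
      by_cases hb : ∃ u ∈ X, ∃ f ∈ F.erase e0, c f = γ ∧ ∃ w, ends f = s(u, w) ∧ ¬ InX y N w
      · obtain ⟨u, huX, f, hf, hcf, w, hfe, hw⟩ := hb
        have h1 : X.erase u ⊆ X.filter (fun w => ∃ e ∈ F.erase e0, c e = γ ∧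
            ∃ x ∈ X, ends e = s(w, x)) := by
          intro v hv
          rw [Finset.mem_erase] at hv
          obtain ⟨hvu, hvX⟩ := hv
          rw [Finset.mem_filter]
          refine ⟨hvX, ?_⟩
          obtain ⟨i, hi, hiv⟩ := mem_VX.1 hvX
          have h2 := hγ i hi
          unfold Missing at h2
          push Not at h2
          obtain ⟨e, he, hve, hce⟩ := h2
          rw [hiv] at hve
          obtain ⟨z, hz⟩ := Sym2.mem_iff_exists.1 hve
          refine ⟨e, he, hce, z, ?_, hz⟩
          by_contra hzX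
          exact hvu (hsc γ hγ e f v u z w he hce hz (mem_VX.1 hvX)
            (fun h => hzX (mem_VX.2 h)) hf hcf hfe (mem_VX.1 huX) hw)
        have h2 := Finset.card_le_card h1
        rw [Finset.card_erase_of_mem huX, hXc] at h2
        omega
      · push Not at hb
        have h1 : X ⊆ X.filter (fun w => ∃ e ∈ F.erase e0, c e = γ ∧
            ∃ x ∈ X, ends e = s(w, x)) := by
          intro v hvX
          rw [Finset.mem_filter]
          refine ⟨hvX, ?_⟩
          obtain ⟨i, hi, hiv⟩ := mem_VX.1 hvX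
          have h2 := hγ i hi
          unfold Missing at h2
          push Not at h2
          obtain ⟨e, he, hve, hce⟩ := h2
          rw [hiv] at hve
          obtain ⟨z, hz⟩ := Sym2.mem_iff_exists.1 hve
          exact ⟨e, he, hce, z, mem_VX.2 (hb v hvX e he hce z hz), hz⟩
        have h2 := Finset.card_le_card h1
        omega
  have h1 : k * N ≤ ∑ w ∈ X, (ed2 ends (F.erase e0) X w).card := by
    calc k * N = ∑ _γ : Fin k, N := by
          rw [Finset.sum_const, Finset.card_univ, Fintype.card_fin, smul_eq_mul]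
      _ ≤ ∑ γ : Fin k, (X.filter (fun w => ∃ e ∈ F.erase e0, c e = γ ∧
            ∃ x ∈ X, ends e = s(w, x))).card := Finset.sum_le_sum (fun γ _ => hcol γ)
      _ = ∑ w ∈ X, ((Finset.univ : Finset (Fin k)).filter (fun γ => ∃ e ∈ F.erase e0, c e = γ ∧
            ∃ x ∈ X, ends e = s(w, x))).card := by
          simp only [Finset.card_filter]
          rw [Finset.sum_comm]
      _ ≤ _ := by
          apply Finset.sum_le_sum
          intro w _
          exact card_le_ed2 (c := c) _ (fun γ hγ => (Finset.mem_filter.1 hγ).2)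
  have h2 : ∑ w ∈ X, ((ed2 ends (F.erase e0) X w).card + (if w = y 0 ∨ w = y 1 then 1 else 0)) ≤
      ∑ w ∈ X, (ed2 ends F X w).card := by
    apply Finset.sum_le_sum
    intro w _
    exact ed2_erase he0 (X := X) ht.start (mem_VX.2 ⟨0, by omega, rfl⟩)
      (mem_VX.2 ⟨1, by omega, rfl⟩) w
  rw [Finset.sum_add_distrib, ← Finset.card_filter] at h2
  have h3 : 2 ≤ (X.filter (fun w => w = y 0 ∨ w = y 1)).card := by
    have h4 : ({y 0, y 1} : Finset V) ⊆ X.filter (fun w => w = y 0 ∨ w = y 1) := by
      intro v hv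
      rw [Finset.mem_insert, Finset.mem_singleton] at hv
      rw [Finset.mem_filter]
      refine ⟨?_, hv⟩
      rcases hv with hv | hv
      · rw [hv]; exact mem_VX.2 ⟨0, by omega, rfl⟩
      · rw [hv]; exact mem_VX.2 ⟨1, by omega, rfl⟩
    have h5 := Finset.card_le_card h4
    rw [Finset.card_pair] at h5
    · exact h5
    · intro h
      have := ht.inj 0 1 (by omega) hN h
      omega
  omega

end Pool.Agent.Lib.MP_633d19_co
end
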