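import Mathlib
import Pool.Agent.Lib.MP_633d19_co.TashCount

section

/-!
Levels around an edge of a simple graph of large girth.
-/

namespace Pool.Agent.Lib.MP_633d19_co

open Classical

section levels

variable {V : Type*} {H : SimpleGraph V}

/-- every cycle of `H` has length at least `g` -/
def CycGE (H : SimpleGraph V) (g : ℕ) : Prop := ∀ (v : V) (w : H.Walk v v), w.IsCycle → g ≤ w.length

theorem two_paths {g : ℕ} (hg : CycGE H g) {u v : V} (p q : H.Walk u v) (hp : p.IsPath)
    (hq : q.IsPath) (hne : p ≠ q) : g ≤ p.length + q.length := by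
  set s : Finset (Sym2 V) := p.edges.toFinset ∪ q.edges.toFinset with hs
  set H' : SimpleGraph V := SimpleGraph.fromEdgeSet (s : Set (Sym2 V)) with hH'
  have hmem : ∀ e ∈ s, e ∈ H.edgeSet := by
    intro e he
    rw [hs, Finset.mem_union, List.mem_toFinset, List.mem_toFinset] at he
    rcases he with he | he
    · exact p.edges_subset_edgeSet he
    · exact q.edges_subset_edgeSet he
  have hedge : ∀ e ∈ s, e ∈ H'.edgeSet := by
    intro e he
    rw [hH', SimpleGraph.edgeSet_fromEdgeSet]
    exact ⟨he, fun h => H.not_isDiag_of_mem_edgeSet (hmem e he) h⟩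
  have hle : H' ≤ H := by
    intro a b hab
    rw [hH', SimpleGraph.fromEdgeSet_adj] at hab
    exact hmem _ hab.1
  have hpe : ∀ e ∈ p.edges, e ∈ H'.edgeSet := fun e he =>
    hedge e (by rw [hs, Finset.mem_union]; exact Or.inl (List.mem_toFinset.2 he))
  have hqe : ∀ e ∈ q.edges, e ∈ H'.edgeSet := fun e he =>
    hedge e (by rw [hs, Finset.mem_union]; exact Or.inr (List.mem_toFinset.2 he))
  have hnac : ¬ H'.IsAcyclic := by
    intro hac
    have h1 : (⟨p.transfer H' hpe, hp.transfer hpe⟩ : H'.Path u v) =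
        ⟨q.transfer H' hqe, hq.transfer hqe⟩ := (hac.subsingleton_path u v).elim _ _
    have h2 : p.transfer H' hpe = q.transfer H' hqe := congrArg Subtype.val h1
    have h3 : (p.transfer H' hpe).support = (q.transfer H' hqe).support := by rw [h2]
    rw [SimpleGraph.Walk.support_transfer, SimpleGraph.Walk.support_transfer] at h3
    exact hne (SimpleGraph.Walk.ext_support h3)
  unfold SimpleGraph.IsAcyclic at hnac
  push Not at hnac
  obtain ⟨x, c, hc⟩ := hnac
  have h1 := hg x (c.mapLe hle) ((SimpleGraph.Walk.isCycle_mapLe hle).2 hc)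
  have h2 : (c.mapLe hle).length = c.length := by simp [SimpleGraph.Walk.mapLe]
  have h3 : c.edges.toFinset ⊆ s := by
    intro e he
    have h4 := c.edges_subset_edgeSet (List.mem_toFinset.1 he)
    rw [hH', SimpleGraph.edgeSet_fromEdgeSet] at h4
    exact h4.1
  have h4 := Finset.card_le_card h3
  rw [List.toFinset_card_of_nodup hc.edges_nodup, SimpleGraph.Walk.length_edges] at h4
  have h5 : s.card ≤ p.length + q.length := by
    refine (Finset.card_union_le _ _).trans ?_
    have h6 := List.toFinset_card_le p.edges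
    have h7 := List.toFinset_card_le q.edges
    rw [SimpleGraph.Walk.length_edges] at h6 h7
    omega
  omega

variable [Fintype V]

/-- the vertices reached from `a` by a path of length `i` avoiding `b` -/
noncomputable def Lv (H : SimpleGraph V) (a b : V) (i : ℕ) : Finset V :=
  Finset.univ.filter (fun x => ∃ p : H.Walk a x, p.IsPath ∧ p.length = i ∧ b ∉ p.support)

/-- the neighbours -/
noncomputable def nbr (H : SimpleGraph V) (x : V) : Finset V := Finset.univ.filter (H.Adj x)

theorem mem_Lv {a b x : V} {i : ℕ} :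
    x ∈ Lv H a b i ↔ ∃ p : H.Walk a x, p.IsPath ∧ p.length = i ∧ b ∉ p.support := by
  unfold Lv
  simp

theorem mem_nbr {x z : V} : z ∈ nbr H x ↔ H.Adj x z := by
  unfold nbr
  simp

theorem Lv_zero {a b : V} (hab : a ≠ b) : Lv H a b 0 = {a} := by
  ext x
  rw [mem_Lv, Finset.mem_singleton]
  constructor
  · rintro ⟨p, _, hp, _⟩
    exact (SimpleGraph.Walk.eq_of_length_eq_zero hp).symm
  · intro h
    subst h
    exact ⟨SimpleGraph.Walk.nil, SimpleGraph.Walk.IsPath.nil, rfl, by simpa using hab.symm⟩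

theorem Lv_disj {g : ℕ} (hg : CycGE H g) {a b : V} {i j : ℕ} (hij : i ≠ j) (h : i + j < g) :
    Disjoint (Lv H a b i) (Lv H a b j) := by
  rw [Finset.disjoint_left]
  intro x hx hx'
  obtain ⟨p, hp, hpi, _⟩ := mem_Lv.1 hx
  obtain ⟨q, hq, hqj, _⟩ := mem_Lv.1 hx'
  have hne : p ≠ q := by
    intro h1
    rw [h1, hqj] at hpi
    exact hij hpi.symm
  have := two_paths hg p q hp hq hne
  omega

theorem Lv_disj' {g : ℕ} (hg : CycGE H g) {a b : V} (hab : H.Adj a b) {i j : ℕ}
    (h : i + j + 1 < g) : Disjoint (Lv H a b i) (Lv H b a j) := by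
  rw [Finset.disjoint_left]
  intro x hx hx'
  obtain ⟨p, hp, hpi, hbp⟩ := mem_Lv.1 hx
  obtain ⟨q, hq, hqj, haq⟩ := mem_Lv.1 hx'
  have hp' : (SimpleGraph.Walk.cons hab.symm p).IsPath :=
    (SimpleGraph.Walk.cons_isPath_iff _ _).2 ⟨hp, hbp⟩
  have hne : SimpleGraph.Walk.cons hab.symm p ≠ q := by
    intro h1
    apply haq
    rw [← h1, SimpleGraph.Walk.support_cons]
    exact List.mem_cons_of_mem _ (SimpleGraph.Walk.start_mem_support p)
  have := two_paths hg _ q hp' hq hne
  rw [SimpleGraph.Walk.length_cons] at this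
  omega

theorem lv_children {g : ℕ} (hg : CycGE H g) {a b : V} (hab : H.Adj a b) {i : ℕ}
    (hi : i + 2 < g) {x : V} (hx : x ∈ Lv H a b i) :
    ∃ r, ∀ z, H.Adj x z → z ≠ r → ∃ q : H.Walk a z, q.IsPath ∧ q.length = i + 1 ∧
      b ∉ q.support ∧ q.penultimate = x := by
  obtain ⟨p, hp, hpi, hbp⟩ := mem_Lv.1 hx
  refine ⟨if i = 0 then b else p.getVert (i - 1), ?_⟩
  intro z hxz hzr
  have hxz' : x ≠ z := hxz.ne
  have hzp : z ∉ p.support := by
    intro hz
    have hq1 : (p.dropUntil z hz).IsPath := hp.dropUntil hz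
    have hq2 : (SimpleGraph.Walk.cons hxz.symm SimpleGraph.Walk.nil).IsPath := by
      rw [SimpleGraph.Walk.cons_isPath_iff]
      exact ⟨SimpleGraph.Walk.IsPath.nil, by simpa using hxz'.symm⟩
    have hsum : (p.takeUntil z hz).length + (p.dropUntil z hz).length = i := by
      rw [← SimpleGraph.Walk.length_append, SimpleGraph.Walk.take_spec, hpi]
    by_cases hne : p.dropUntil z hz = SimpleGraph.Walk.cons hxz.symm SimpleGraph.Walk.nil
    · rw [hne] at hsum
      rw [SimpleGraph.Walk.length_cons, SimpleGraph.Walk.length_nil] at hsum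
      have h1 := SimpleGraph.Walk.getVert_length_takeUntil hz
      apply hzr
      rw [if_neg (by omega), ← h1]
      congr 1
      omega
    · have h1 := two_paths hg _ _ hq1 hq2 hne
      rw [SimpleGraph.Walk.length_cons, SimpleGraph.Walk.length_nil] at h1
      omega
  have hzb : z ≠ b := by
    intro hzb
    rcases Nat.eq_zero_or_pos i with h0 | h0
    · rw [if_pos h0] at hzr
      exact hzr hzb
    · rw [hzb] at hxz
      have hp' : (SimpleGraph.Walk.cons hab.symm p).IsPath :=
        (SimpleGraph.Walk.cons_isPath_iff _ _).2 ⟨hp, hbp⟩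
      have hq2 : (SimpleGraph.Walk.cons hxz.symm SimpleGraph.Walk.nil).IsPath := by
        rw [SimpleGraph.Walk.cons_isPath_iff]
        exact ⟨SimpleGraph.Walk.IsPath.nil, by simpa using hxz.ne.symm⟩
      have hne : SimpleGraph.Walk.cons hab.symm p ≠
          SimpleGraph.Walk.cons hxz.symm SimpleGraph.Walk.nil := by
        intro h1
        have h2 := congrArg SimpleGraph.Walk.length h1
        rw [SimpleGraph.Walk.length_cons, SimpleGraph.Walk.length_cons,
          SimpleGraph.Walk.length_nil] at h2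
        omega
      have h1 := two_paths hg _ _ hp' hq2 hne
      rw [SimpleGraph.Walk.length_cons, SimpleGraph.Walk.length_cons,
        SimpleGraph.Walk.length_nil] at h1
      omega
  refine ⟨p.concat hxz, hp.concat hzp hxz, ?_, ?_, SimpleGraph.Walk.penultimate_concat _ _⟩
  · rw [SimpleGraph.Walk.length_concat, hpi]
  · rw [SimpleGraph.Walk.support_concat, List.mem_append,
      List.mem_singleton, not_or]
    exact ⟨hbp, hzb.symm⟩

theorem lv_sum {g : ℕ} (hg : CycGE H g) {a b : V} (hab : H.Adj a b) {i : ℕ}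
    (hi : i + 2 < g) (hi' : 2 * i + 2 < g) :
    ∑ x ∈ Lv H a b i, ((nbr H x).card - 1) ≤ (Lv H a b (i + 1)).card := by
  let C : V → Finset V := fun x => (nbr H x).filter (fun z => ∃ q : H.Walk a z, q.IsPath ∧
    q.length = i + 1 ∧ b ∉ q.support ∧ q.penultimate = x)
  have h1 : ∀ x ∈ Lv H a b i, (nbr H x).card - 1 ≤ (C x).card := by
    intro x hx
    obtain ⟨r, hr⟩ := lv_children hg hab hi hx
    have h2 : nbr H x ⊆ insert r (C x) := by
      intro z hz
      rw [Finset.mem_insert]
      by_cases hzr : z = r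
      · exact Or.inl hzr
      · right
        exact Finset.mem_filter.2 ⟨hz, hr z (mem_nbr.1 hz) hzr⟩
    have h3 := Finset.card_le_card h2
    have h4 := Finset.card_insert_le r (C x)
    omega
  refine (Finset.sum_le_sum h1).trans ?_
  rw [← Finset.card_biUnion]
  · apply Finset.card_le_card
    intro z hz
    rw [Finset.mem_biUnion] at hz
    obtain ⟨x, _, hz⟩ := hz
    obtain ⟨_, q, hq, hql, hqb, _⟩ := Finset.mem_filter.1 hz
    exact mem_Lv.2 ⟨q, hq, hql, hqb⟩
  · intro x _ x' _ hxx
    rw [Function.onFun, Finset.disjoint_left]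
    intro z hz hz'
    obtain ⟨_, q, hq, hql, hqb, hqp⟩ := Finset.mem_filter.1 hz
    obtain ⟨_, q', hq', hql', hqb', hqp'⟩ := Finset.mem_filter.1 hz'
    have hne : q ≠ q' := by
      intro h
      apply hxx
      rw [← hqp, ← hqp', h]
    have := two_paths hg q q' hq hq' hne
    omega

theorem Lv_subset {X : Finset V} (hX : ∀ x z, H.Adj x z → z ∈ X) {a b : V} (ha : a ∈ X)
    (i : ℕ) : Lv H a b i ⊆ X := by
  intro x hx
  obtain ⟨p, _, _, _⟩ := mem_Lv.1 hx
  have : ∀ (u v : V) (p : H.Walk u v), u ∈ X → v ∈ X := by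
    intro u v p
    induction p with
    | nil => exact id
    | cons h p ih => intro _; exact ih (hX _ _ h)
  exact this _ _ p ha

/-- the union of the two balls around an edge -/
theorem sum_levels_le {g : ℕ} (hg : CycGE H g) {X : Finset V} (hX : ∀ x z, H.Adj x z → z ∈ X)
    {a b : V} (ha : a ∈ X) (hb : b ∈ X) (hab : H.Adj a b) {s : ℕ} (hs : 2 * s ≤ g) :
    ∑ i ∈ Finset.range s, ((Lv H a b i).card + (Lv H b a i).card) ≤ X.card := by
  have h1 : ∀ i ∈ Finset.range s, (Lv H a b i).card + (Lv H b a i).card =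
      (Lv H a b i ∪ Lv H b a i).card := by
    intro i hi
    rw [Finset.mem_range] at hi
    rw [Finset.card_union_of_disjoint (Lv_disj' hg hab (by omega))]
  rw [Finset.sum_congr rfl h1, ← Finset.card_biUnion]
  · apply Finset.card_le_card
    intro x hx
    rw [Finset.mem_biUnion] at hx
    obtain ⟨i, _, hx⟩ := hx
    rw [Finset.mem_union] at hx
    rcases hx with hx | hx
    · exact Lv_subset hX ha i hx
    · exact Lv_subset hX hb i hx
  · intro i hi j hj hij
    rw [Finset.mem_coe, Finset.mem_range] at hi hj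
    rw [Function.onFun, Finset.disjoint_union_left, Finset.disjoint_union_right,
      Finset.disjoint_union_right]
    exact ⟨⟨Lv_disj hg hij (by omega), Lv_disj' hg hab (by omega)⟩,
      ⟨Lv_disj' hg hab.symm (by omega), Lv_disj hg hij (by omega)⟩⟩

end levels

end Pool.Agent.Lib.MP_633d19_co
end

section

/-!
Numerical consequences of the level counts.
-/

namespace Pool.Agent.Lib.MP_633d19_co

open Classical

section

variable {V : Type*} [Fintype V] {H : SimpleGraph V} {g : ℕ} {X : Finset V}

/-- level `i` around the edge `ab` -/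
noncomputable def Bl (H : SimpleGraph V) (a b : V) (i : ℕ) : Finset V := Lv H a b i ∪ Lv H b a i

theorem card_Bl (hg : CycGE H g) {a b : V} (hab : H.Adj a b) {i : ℕ} (hi : 2 * i + 1 < g) :
    (Bl H a b i).card = (Lv H a b i).card + (Lv H b a i).card := by
  unfold Bl
  rw [Finset.card_union_of_disjoint (Lv_disj' hg hab (by omega))]

theorem Bl_disj (hg : CycGE H g) {a b : V} (hab : H.Adj a b) {i j : ℕ} (hij : i ≠ j)
    (h : i + j + 1 < g) : Disjoint (Bl H a b i) (Bl H a b j) := by
  unfold Bl
  rw [Finset.disjoint_union_left, Finset.disjoint_union_right, Finset.disjoint_union_right]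
  exact ⟨⟨Lv_disj hg hij (by omega), Lv_disj' hg hab h⟩,
    ⟨Lv_disj' hg hab.symm h, Lv_disj hg hij (by omega)⟩⟩

theorem Bl_subset (hX : ∀ x z, H.Adj x z → z ∈ X) {a b : V} (ha : a ∈ X) (hb : b ∈ X) (i : ℕ) :
    Bl H a b i ⊆ X :=
  Finset.union_subset (Lv_subset hX ha i) (Lv_subset hX hb i)

theorem sum_Bl_le (hg : CycGE H g) (hX : ∀ x z, H.Adj x z → z ∈ X) {a b : V} (ha : a ∈ X)
    (hb : b ∈ X) (hab : H.Adj a b) (P : V → Prop) [DecidablePred P] {s : ℕ}
    (hs : 2 * s ≤ g) :
    ∑ i ∈ Finset.range s, ((Bl H a b i).filter P).card ≤ (X.filter P).card := by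
  rw [← Finset.card_biUnion]
  · apply Finset.card_le_card
    intro x hx
    rw [Finset.mem_biUnion] at hx
    obtain ⟨i, _, hx⟩ := hx
    rw [Finset.mem_filter] at hx ⊢
    exact ⟨Bl_subset hX ha hb i hx.1, hx.2⟩
  · intro i hi j hj hij
    rw [Finset.mem_coe, Finset.mem_range] at hi hj
    exact Finset.disjoint_filter_filter (Bl_disj hg hab hij (by omega))

theorem sum_Bl_le' (hg : CycGE H g) (hX : ∀ x z, H.Adj x z → z ∈ X) {a b : V} (ha : a ∈ X)
    (hb : b ∈ X) (hab : H.Adj a b) {s : ℕ} (hs : 2 * s ≤ g) :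
    ∑ i ∈ Finset.range s, (Bl H a b i).card ≤ X.card := by
  have := sum_Bl_le hg hX ha hb hab (fun _ => True) hs
  simpa using this

theorem Bl_zero {a b : V} (hab : a ≠ b) : Bl H a b 0 = {a, b} := by
  unfold Bl
  rw [Lv_zero hab, Lv_zero hab.symm]
  rfl

theorem card_Bl_zero {a b : V} (hab : a ≠ b) : (Bl H a b 0).card = 2 := by
  rw [Bl_zero hab, Finset.card_pair hab]

theorem card_Bl_step (hg : CycGE H g) {a b : V} (hab : H.Adj a b) {i : ℕ}
    (hi : i + 2 < g) (hi' : 2 * i + 3 < g) :
    ∑ x ∈ Bl H a b i, ((nbr H x).card - 1) ≤ (Bl H a b (i + 1)).card := by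
  rw [card_Bl hg hab (by omega)]
  unfold Bl
  rw [Finset.sum_union (Lv_disj' hg hab (by omega))]
  exact add_le_add (lv_sum hg hab hi (by omega)) (lv_sum hg hab.symm hi (by omega))

theorem card_Bl_mul (hg : CycGE H g) (hX : ∀ x z, H.Adj x z → z ∈ X) {a b : V} (ha : a ∈ X)
    (hb : b ∈ X) (hab : H.Adj a b) {i r : ℕ} (hr : ∀ x ∈ X, r + 1 ≤ (nbr H x).card)
    (hi : i + 2 < g) (hi' : 2 * i + 3 < g) :
    (Bl H a b i).card * r ≤ (Bl H a b (i + 1)).card := by
  refine le_trans ?_ (card_Bl_step hg hab hi hi')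
  rw [← smul_eq_mul]
  apply Finset.card_nsmul_le_sum
  intro x hx
  have := hr x (Bl_subset hX ha hb i hx)
  omega

theorem card_Bl_two (hg : CycGE H g) (hX : ∀ x z, H.Adj x z → z ∈ X) {a b : V} (ha : a ∈ X)
    (hb : b ∈ X) (hab : H.Adj a b) {i : ℕ} (hr : ∀ x ∈ X, 2 ≤ (nbr H x).card)
    (hi : i + 2 < g) (hi' : 2 * i + 3 < g) :
    2 * (Bl H a b i).card ≤ (Bl H a b (i + 1)).card +
      ((Bl H a b i).filter (fun x => (nbr H x).card ≤ 2)).card := by
  have h1 := card_Bl_step hg hab hi hi'
  have h2 : ∑ x ∈ Bl H a b i, 2 ≤ ∑ x ∈ Bl H a b i, (((nbr H x).card - 1) +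
      (if (nbr H x).card ≤ 2 then 1 else 0)) := by
    apply Finset.sum_le_sum
    intro x hx
    have := hr x (Bl_subset hX ha hb i hx)
    split_ifs <;> omega
  rw [Finset.sum_add_distrib, Finset.sum_const, smul_eq_mul, ← Finset.card_filter] at h2
  omega

theorem card_Bl_one (hg : CycGE H g) {a b : V} (hab : H.Adj a b) (hg4 : 4 ≤ g) :
    ((nbr H a).card - 1) + ((nbr H b).card - 1) ≤ (Bl H a b 1).card := by
  have h := card_Bl_step (i := 0) hg hab (by omega) (by omega)
  rw [Bl_zero hab.ne, Finset.sum_pair hab.ne] at h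
  exact h

/-- Moore bound, girth at least eight -/
theorem moore_big (hg : CycGE H g) (hX : ∀ x z, H.Adj x z → z ∈ X) {a b : V} (ha : a ∈ X)
    (hb : b ∈ X) (hab : H.Adj a b) {s h : ℕ} (hs : 2 * s ≤ g) (hs4 : 4 ≤ s) (hh : 3 ≤ h)
    (hr : ∀ x ∈ X, h ≤ (nbr H x).card) : 2 * s * h ≤ X.card := by
  obtain ⟨r, rfl⟩ : ∃ r, h = r + 1 := ⟨h - 1, by omega⟩
  have hr2 : 2 ≤ r := by omega
  have h0 := card_Bl_zero (H := H) hab.ne
  have hstep : ∀ i, i + 1 < s → (Bl H a b i).card * r ≤ (Bl H a b (i + 1)).card :=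
    fun i hi => card_Bl_mul hg hX ha hb hab hr (by omega) (by omega)
  have h1 : 2 * r ≤ (Bl H a b 1).card := by
    have := hstep 0 (by omega)
    rw [h0] at this
    exact this
  have h2 : 2 * r * r ≤ (Bl H a b 2).card :=
    (Nat.mul_le_mul_right _ h1).trans (hstep 1 (by omega))
  have h3 : 2 * r * r * r ≤ (Bl H a b 3).card :=
    (Nat.mul_le_mul_right _ h2).trans (hstep 2 (by omega))
  have h4 : ∀ j, 3 + j < s → 2 * r * r * r ≤ (Bl H a b (3 + j)).card := by
    intro j
    induction j with
    | zero => intro _; exact h3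
    | succ j ih =>
      intro hj
      have h5 := ih (by omega)
      have h6 := hstep (3 + j) (by omega)
      have h7 : (Bl H a b (3 + j)).card * 1 ≤ (Bl H a b (3 + j)).card * r :=
        Nat.mul_le_mul_left _ (by omega)
      have h8 : 3 + (j + 1) = 3 + j + 1 := by ring
      rw [h8]
      omega
  obtain ⟨q, rfl⟩ : ∃ q, s = 3 + q := ⟨s - 3, by omega⟩
  have hsum := sum_Bl_le' hg hX ha hb hab hs
  rw [Finset.sum_range_add, Finset.sum_range_succ, Finset.sum_range_succ,
    Finset.sum_range_one] at hsum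
  have h5 : q * (2 * r * r * r) ≤ ∑ x ∈ Finset.range q, (Bl H a b (3 + x)).card := by
    have : (Finset.range q).card • (2 * r * r * r) ≤
        ∑ x ∈ Finset.range q, (Bl H a b (3 + x)).card := by
      apply Finset.card_nsmul_le_sum
      intro x hx
      exact h4 x (by have := Finset.mem_range.1 hx; omega)
    rwa [Finset.card_range, smul_eq_mul] at this
  have hq : 1 ≤ q := by omega
  refine le_trans ?_ hsum
  have e1 : 4 * r ≤ 2 * r * r := by nlinarith
  have e2 : 8 * r ≤ 2 * r * r * r := by nlinarith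
  have e3 : q * (8 * r) ≤ q * (2 * r * r * r) := Nat.mul_le_mul_left _ e2
  have e4 : q * 2 ≤ q * r := Nat.mul_le_mul_left _ hr2
  have e5 : 2 * (3 + q) * (r + 1) = 2 * (q * r) + 2 * q + 6 * r + 6 := by ring
  have e6 : q * (8 * r) = 8 * (q * r) := by ring
  omega

/-- every graph of odd order has a vertex of even degree -/
theorem exists_deg_ne_three (hX : ∀ x z, H.Adj x z → z ∈ X) (hodd : ¬ Even X.card) :
    ∃ a ∈ X, (nbr H a).card ≠ 3 := by
  by_contra hcon
  push Not at hcon
  apply hodd
  have h1 := H.even_card_odd_degree_vertices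
  have h2 : (Finset.univ.filter (fun v => Odd (H.degree v))) = X := by
    ext v
    rw [Finset.mem_filter]
    have hd : H.degree v = (nbr H v).card := by
      unfold nbr
      rw [← SimpleGraph.card_neighborFinset_eq_degree]
      congr 1
      ext z
      simp
    constructor
    · rintro ⟨_, h⟩
      rw [hd] at h
      have h3 : 0 < (nbr H v).card := h.pos
      obtain ⟨z, hz⟩ := Finset.card_pos.1 h3
      exact hX z v (mem_nbr.1 hz).symm
    · intro h
      refine ⟨Finset.mem_univ _, ?_⟩
      rw [hd, hcon v h]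
      decide
  rw [h2] at h1
  exact h1

/-- five levels around an edge in girth five -/
theorem five_sets (hg : CycGE H g) (hX : ∀ x z, H.Adj x z → z ∈ X) {a b : V} (ha : a ∈ X)
    (hb : b ∈ X) (hab : H.Adj a b) (hg5 : 5 ≤ g) (P : V → Prop) [DecidablePred P] :
    ((Lv H a b 0).filter P).card + ((Lv H a b 1).filter P).card +
      ((Lv H a b 2).filter P).card + ((Lv H b a 0).filter P).card +
      ((Lv H b a 1).filter P).card ≤ (X.filter P).card := by
  have d01 := Lv_disj (a := a) (b := b) hg (show 0 ≠ 1 by omega) (by omega)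
  have d02 := Lv_disj (a := a) (b := b) hg (show 0 ≠ 2 by omega) (by omega)
  have d12 := Lv_disj (a := a) (b := b) hg (show 1 ≠ 2 by omega) (by omega)
  have e01 := Lv_disj (a := b) (b := a) hg (show 0 ≠ 1 by omega) (by omega)
  have f00 := Lv_disj' hg hab (i := 0) (j := 0) (by omega)
  have f01 := Lv_disj' hg hab (i := 0) (j := 1) (by omega)
  have f10 := Lv_disj' hg hab (i := 1) (j := 0) (by omega)
  have f11 := Lv_disj' hg hab (i := 1) (j := 1) (by omega)
  have f20 := Lv_disj' hg hab (i := 2) (j := 0) (by omega)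
  have f21 := Lv_disj' hg hab (i := 2) (j := 1) (by omega)
  have h1 : ((Lv H a b 0).filter P).card + ((Lv H a b 1).filter P).card +
      ((Lv H a b 2).filter P).card + ((Lv H b a 0).filter P).card +
      ((Lv H b a 1).filter P).card = (((Lv H a b 0) ∪ (Lv H a b 1) ∪ (Lv H a b 2) ∪
        (Lv H b a 0) ∪ (Lv H b a 1)).filter P).card := by
    rw [Finset.filter_union, Finset.filter_union, Finset.filter_union, Finset.filter_union,
      Finset.card_union_of_disjoint, Finset.card_union_of_disjoint,
      Finset.card_union_of_disjoint, Finset.card_union_of_disjoint]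
    · exact Finset.disjoint_filter_filter d01
    · rw [← Finset.filter_union]
      exact Finset.disjoint_filter_filter (Finset.disjoint_union_left.2 ⟨d02, d12⟩)
    · rw [← Finset.filter_union, ← Finset.filter_union]
      exact Finset.disjoint_filter_filter (Finset.disjoint_union_left.2
        ⟨Finset.disjoint_union_left.2 ⟨f00, f10⟩, f20⟩)
    · rw [← Finset.filter_union, ← Finset.filter_union, ← Finset.filter_union]
      exact Finset.disjoint_filter_filter (Finset.disjoint_union_left.2
        ⟨Finset.disjoint_union_left.2 ⟨Finset.disjoint_union_left.2 ⟨f01, f11⟩, f21⟩, e01⟩)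
  rw [h1]
  apply Finset.card_le_card
  apply Finset.filter_subset_filter
  exact Finset.union_subset (Finset.union_subset (Finset.union_subset (Finset.union_subset
    (Lv_subset hX ha 0) (Lv_subset hX ha 1)) (Lv_subset hX ha 2)) (Lv_subset hX hb 0))
    (Lv_subset hX hb 1)

theorem lv_one (hg : CycGE H g) {a b : V} (hab : H.Adj a b) (hg4 : 4 ≤ g) :
    (nbr H a).card - 1 ≤ (Lv H a b 1).card := by
  have h := lv_sum (i := 0) hg hab (by omega) (by omega)
  rw [Lv_zero hab.ne, Finset.sum_singleton] at h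
  exact h

theorem lv_two (hg : CycGE H g) (hX : ∀ x z, H.Adj x z → z ∈ X) {a b : V} (ha : a ∈ X)
    (hab : H.Adj a b) (hg5 : 5 ≤ g) {r : ℕ} (hr : ∀ x ∈ X, r + 1 ≤ (nbr H x).card) :
    (Lv H a b 1).card * r ≤ (Lv H a b 2).card := by
  have h := lv_sum (i := 1) hg hab (by omega) (by omega)
  refine le_trans ?_ h
  rw [← smul_eq_mul]
  apply Finset.card_nsmul_le_sum
  intro x hx
  have := hr x (Lv_subset hX ha 1 hx)
  omega

theorem exists_adj {x : V} (h : 1 ≤ (nbr H x).card) : ∃ b, H.Adj x b := by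
  obtain ⟨b, hb⟩ := Finset.card_pos.1 (show 0 < (nbr H x).card by omega)
  exact ⟨b, mem_nbr.1 hb⟩

/-- Large sets with large degrees do not exist, except possibly for one type. -/
theorem degrees_large (hg : CycGE H g) (hX : ∀ x z, H.Adj x z → z ∈ X) (hg5 : 5 ≤ g) {N : ℕ}
    (hXc : X.card = N + 1) (hN : Even N)
    (hd : ∀ w ∈ X, N + 2 ≤ 2 * (g / 2) * (nbr H w).card) (hN4 : 4 * (g / 2) ≤ N) :
    g / 2 = 3 ∧ N = 16 ∧ ∃ a ∈ X, (nbr H a).card = 4 ∧ ∀ b, H.Adj a b → (nbr H b).card = 3 := by
  set s := g / 2 with hs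
  have hs2 : 2 ≤ s := by omega
  have hsg : 2 * s ≤ g := by omega
  have hXne : X.Nonempty := by
    rw [← Finset.card_pos]; omega
  have hodd : ¬ Even X.card := by
    rw [hXc, Nat.even_add_one]
    exact fun h => h hN
  obtain ⟨w, hw, hmin⟩ := Finset.exists_min_image X (fun x => (nbr H x).card) hXne
  have hmin : ∀ x ∈ X, (nbr H w).card ≤ (nbr H x).card := hmin
  obtain ⟨h, hh⟩ : ∃ h, (nbr H w).card = h := ⟨_, rfl⟩
  rw [hh] at hmin
  have hdw : N + 2 ≤ 2 * s * h := by
    have := hd w hw
    rwa [hh] at this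
  have h3 : 3 ≤ h := by
    by_contra hcon
    have h4 : 2 * s * h ≤ 2 * s * 2 := Nat.mul_le_mul_left _ (by omega)
    omega
  have hXr : ∀ x ∈ X, (h - 1) + 1 ≤ (nbr H x).card := fun x hx => by
    have := hmin x hx
    omega
  obtain ⟨b, hb⟩ := exists_adj (H := H) (x := w) (by omega)
  have hbX : b ∈ X := hX w b hb
  rcases Nat.lt_or_ge s 4 with hs4 | hs4
  swap
  · exfalso
    have := moore_big hg hX hw hbX hb hsg hs4 h3 hmin
    omega
  rcases Nat.lt_or_ge s 3 with hs3 | hs3
  · -- girth five
    exfalso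
    have hs22 : s = 2 := by omega
    have key : ∀ a c, a ∈ X → c ∈ X → H.Adj a c → ∀ r, (∀ x ∈ X, r + 1 ≤ (nbr H x).card) →
        2 + ((nbr H a).card - 1) + ((nbr H a).card - 1) * r + r ≤ X.card := by
      intro a c haX hcX hac r hr
      have k1 := five_sets hg hX haX hcX hac hg5 (fun _ => True)
      simp only [Finset.filter_true] at k1
      rw [Lv_zero hac.ne, Lv_zero hac.ne.symm, Finset.card_singleton,
        Finset.card_singleton] at k1
      have k2 := lv_one hg hac (by omega)
      have k3 := lv_one hg hac.symm (by omega)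
      have k4 := lv_two hg hX haX hac hg5 hr
      have k5 := hr c hcX
      have k6 : ((nbr H a).card - 1) * r ≤ (Lv H a c 1).card * r := Nat.mul_le_mul_right _ k2
      omega
    rcases Nat.lt_or_ge h 4 with h4 | h4
    · have hh3 : h = 3 := by omega
      obtain ⟨a, haX, ha⟩ := exists_deg_ne_three hX hodd
      have ha4 : 4 ≤ (nbr H a).card := by
        have := hmin a haX
        omega
      obtain ⟨c, hc⟩ := exists_adj (H := H) (x := a) (by omega)
      have k1 := key a c haX (hX a c hc) hc 2 (fun x hx => by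
        have := hXr x hx
        omega)
      rw [hs22, hh3] at hdw
      omega
    · have k1 := key w b hw hbX hb (h - 1) hXr
      obtain ⟨r, hr⟩ : ∃ r, h = r + 1 := ⟨h - 1, by omega⟩
      rw [hh, hr] at k1
      rw [hs22, hr] at hdw
      have hr3 : 3 ≤ r := by omega
      simp only [Nat.add_sub_cancel] at k1
      have k2 : 3 * r ≤ r * r := Nat.mul_le_mul_right _ hr3
      omega
  · have hs33 : s = 3 := by omega
    have key : ∀ a c, a ∈ X → c ∈ X → H.Adj a c → ∀ r, (∀ x ∈ X, r + 1 ≤ (nbr H x).card) →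
        2 + (((nbr H a).card - 1) + ((nbr H c).card - 1)) * (r + 1) ≤ X.card := by
      intro a c haX hcX hac r hr
      have k1 := sum_Bl_le' hg hX haX hcX hac (s := 3) (by omega)
      rw [Finset.sum_range_succ, Finset.sum_range_succ, Finset.sum_range_one,
        card_Bl_zero hac.ne] at k1
      have k2 := card_Bl_one hg hac (by omega)
      have k3 : (Bl H a c 1).card * r ≤ (Bl H a c 2).card :=
        card_Bl_mul hg hX haX hcX hac (i := 1) hr (by omega) (by omega)
      have k4 : (((nbr H a).card - 1) + ((nbr H c).card - 1)) * r ≤ (Bl H a c 1).card * r :=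
        Nat.mul_le_mul_right _ k2
      have k5 : (((nbr H a).card - 1) + ((nbr H c).card - 1)) * (r + 1) =
        (((nbr H a).card - 1) + ((nbr H c).card - 1)) * r +
        (((nbr H a).card - 1) + ((nbr H c).card - 1)) := by ring
      omega
    rcases Nat.lt_or_ge h 4 with h4 | h4
    · have hh3 : h = 3 := by omega
      obtain ⟨a, haX, ha⟩ := exists_deg_ne_three hX hodd
      have ha4 : 4 ≤ (nbr H a).card := by
        have := hmin a haX
        omega
      have hr2 : ∀ x ∈ X, 2 + 1 ≤ (nbr H x).card := fun x hx => by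
        have := hXr x hx
        omega
      rw [hs33, hh3] at hdw
      have hall : ∀ c, H.Adj a c → N = 16 ∧ (nbr H a).card = 4 ∧ (nbr H c).card = 3 := by
        intro c hc
        have k1 := key a c haX (hX a c hc) hc 2 hr2
        have k2 := hr2 c (hX a c hc)
        omega
      obtain ⟨c, hc⟩ := exists_adj (H := H) (x := a) (by omega)
      exact ⟨hs33, (hall c hc).1, a, haX, (hall c hc).2.1, fun b hb => (hall b hb).2.2⟩
    · exfalso
      have k1 := key w b hw hbX hb (h - 1) hXr
      have k2 := hmin b hbX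
      obtain ⟨r, hr⟩ : ∃ r, h = r + 1 := ⟨h - 1, by omega⟩
      rw [hh, hr] at k1
      rw [hr] at k2
      rw [hs33, hr] at hdw
      have hr3 : 3 ≤ r := by omega
      simp only [Nat.add_sub_cancel] at k1
      have k3 : (r + r) * (r + 1) ≤ (r + ((nbr H b).card - 1)) * (r + 1) :=
        Nat.mul_le_mul_right _ (by omega)
      have k4 : (r + r) * (r + 1) = 2 * (r * r) + 2 * r := by ring
      have k5 : 3 * r ≤ r * r := Nat.mul_le_mul_right _ hr3
      omega

theorem lv_two' (hg : CycGE H g) (hX : ∀ x z, H.Adj x z → z ∈ X) {a b : V} (ha : a ∈ X)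
    (hab : H.Adj a b) (hg5 : 5 ≤ g) (hr : ∀ x ∈ X, 2 ≤ (nbr H x).card) :
    2 * (Lv H a b 1).card ≤ (Lv H a b 2).card +
      ((Lv H a b 1).filter (fun x => (nbr H x).card ≤ 2)).card := by
  have h1 := lv_sum (i := 1) hg hab (by omega) (by omega)
  have h2 : ∑ x ∈ Lv H a b 1, 2 ≤ ∑ x ∈ Lv H a b 1, (((nbr H x).card - 1) +
      (if (nbr H x).card ≤ 2 then 1 else 0)) := by
    apply Finset.sum_le_sum
    intro x hx
    have := hr x (Lv_subset hX ha 1 hx)
    split_ifs <;> omega
  rw [Finset.sum_add_distrib, Finset.sum_const, smul_eq_mul, ← Finset.card_filter] at h2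
  have h3 : (Lv H a b (1 + 1)).card = (Lv H a b 2).card := rfl
  omega

/-- Small sets with many vertices of degree at least three do not exist. -/
theorem degrees_small (hg : CycGE H g) (hX : ∀ x z, H.Adj x z → z ∈ X) (hg5 : 5 ≤ g) {N : ℕ}
    (hXc : X.card = N + 1) (h2 : ∀ x ∈ X, 2 ≤ (nbr H x).card) (hN : 2 * (g / 2) ≤ N)
    (hn2 : X.card + (X.filter (fun x => (nbr H x).card ≤ 2)).card ≤ 4 * (g / 2)) : False := by
  set s := g / 2 with hs
  have hs2 : 2 ≤ s := by omega
  have hsg : 2 * s ≤ g := by omega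
  obtain ⟨a, haX, ha3⟩ : ∃ a ∈ X, 3 ≤ (nbr H a).card := by
    by_contra hcon
    push Not at hcon
    have h3 : X.filter (fun x => (nbr H x).card ≤ 2) = X := by
      apply Finset.filter_true_of_mem
      intro x hx
      have := hcon x hx
      omega
    rw [h3] at hn2
    omega
  rcases Nat.lt_or_ge s 3 with hs3 | hs3
  · -- girth five
    have hs22 : s = 2 := by omega
    obtain ⟨b, hab⟩ := exists_adj (H := H) (x := a) (by omega)
    have hbX := hX a b hab
    have k1 := five_sets hg hX haX hbX hab hg5 (fun _ => True)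
    simp only [Finset.filter_true] at k1
    rw [Lv_zero hab.ne, Lv_zero hab.ne.symm, Finset.card_singleton,
      Finset.card_singleton] at k1
    have k2 := five_sets hg hX haX hbX hab hg5 (fun x => (nbr H x).card ≤ 2)
    have k3 := lv_one hg hab (by omega)
    have k4 := lv_one hg hab.symm (by omega)
    have k5 := lv_two' hg hX haX hab hg5 h2
    have k6 : 2 ≤ (nbr H b).card - 1 + ((Lv H b a 0).filter (fun x => (nbr H x).card ≤ 2)).card := by
      rw [Lv_zero hab.ne.symm, Finset.filter_singleton]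
      have := h2 b hbX
      split_ifs
      · rw [Finset.card_singleton]; omega
      · omega
    omega
  -- larger girth
  have main : ∀ a b, a ∈ X → b ∈ X → H.Adj a b → 3 ≤ (nbr H a).card →
      (∀ j, 1 ≤ j → j < s → 6 * j ≤ ∑ i ∈ Finset.range (j + 1), (Bl H a b i).card +
        ∑ i ∈ Finset.range j, ((Bl H a b i).filter (fun x => (nbr H x).card ≤ 2)).card) ∧
      3 ≤ (Bl H a b 1).card ∧ (Bl H a b 1).card ≤ (Bl H a b 2).card := by
    intro a b haX hbX hab ha3
    have hstep : ∀ i, i + 1 < s → 2 * (Bl H a b i).card ≤ (Bl H a b (i + 1)).card +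
        ((Bl H a b i).filter (fun x => (nbr H x).card ≤ 2)).card :=
      fun i hi => card_Bl_two hg hX haX hbX hab h2 (by omega) (by omega)
    have hmono : ∀ i, i + 1 < s → (Bl H a b i).card ≤ (Bl H a b (i + 1)).card := by
      intro i hi
      have := card_Bl_mul hg hX haX hbX hab (i := i) (r := 1) h2 (by omega) (by omega)
      omega
    have h0 := card_Bl_zero (H := H) hab.ne
    have h1 : 3 ≤ (Bl H a b 1).card := by
      have k1 := card_Bl_one hg hab (by omega)
      have k2 := h2 b hbX
      omega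
    have h1' : ∀ i, 1 ≤ i → i < s → 3 ≤ (Bl H a b i).card := by
      intro i hi
      induction i, hi using Nat.le_induction with
      | base => intro _; exact h1
      | succ i hi ih =>
        intro his
        exact (ih (by omega)).trans (hmono i his)
    refine ⟨?_, h1, hmono 1 (by omega)⟩
    intro j hj
    induction j, hj using Nat.le_induction with
    | base =>
      intro _
      rw [Finset.sum_range_succ, Finset.sum_range_one, Finset.sum_range_one]
      have := hstep 0 (by omega)
      have e1 : (Bl H a b (0 + 1)).card = (Bl H a b 1).card := rfl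
      omega
    | succ j hj ih =>
      intro hjs
      have k1 := ih (by omega)
      have k2 := hstep j hjs
      have k3 := h1' j hj (by omega)
      rw [Finset.sum_range_succ]
      rw [Finset.sum_range_succ (fun i => ((Bl H a b i).filter
        (fun x => (nbr H x).card ≤ 2)).card) j]
      omega
  have hsum : ∀ a b, a ∈ X → b ∈ X → H.Adj a b →
      ∑ i ∈ Finset.range s, (Bl H a b i).card + ∑ i ∈ Finset.range (s - 1),
        ((Bl H a b i).filter (fun x => (nbr H x).card ≤ 2)).card ≤ 4 * s := by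
    intro a b haX hbX hab
    have k1 := sum_Bl_le' hg hX haX hbX hab hsg
    have k2 := sum_Bl_le hg hX haX hbX hab (fun x => (nbr H x).card ≤ 2) hsg
    have k3 : ∑ i ∈ Finset.range (s - 1),
        ((Bl H a b i).filter (fun x => (nbr H x).card ≤ 2)).card ≤
        ∑ i ∈ Finset.range s, ((Bl H a b i).filter (fun x => (nbr H x).card ≤ 2)).card := by
      apply Finset.sum_le_sum_of_subset
      intro i hi
      rw [Finset.mem_range] at hi ⊢
      omega
    omega
  rcases Nat.lt_or_ge s 4 with hs4 | hs4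
  swap
  · obtain ⟨b, hab⟩ := exists_adj (H := H) (x := a) (by omega)
    have hbX := hX a b hab
    have k1 := (main a b haX hbX hab ha3).1 (s - 1) (by omega) (by omega)
    have k2 := hsum a b haX hbX hab
    rw [show s - 1 + 1 = s by omega] at k1
    omega
  have hs33 : s = 3 := by omega
  -- all neighbours of vertices of degree at least three have degree two
  have hall : ∀ a ∈ X, 3 ≤ (nbr H a).card → ∀ b, H.Adj a b → (nbr H b).card ≤ 2 := by
    intro a haX ha3 b hab
    by_contra hb3
    have hbX := hX a b hab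
    have k2 := hsum a b haX hbX hab
    rw [hs33, Finset.sum_range_succ, Finset.sum_range_succ, Finset.sum_range_one,
      Finset.sum_range_succ, Finset.sum_range_one, card_Bl_zero hab.ne] at k2
    have k3 := card_Bl_one hg hab (by omega)
    have k4 : 2 * (Bl H a b 1).card ≤ (Bl H a b 2).card +
        ((Bl H a b 1).filter (fun x => (nbr H x).card ≤ 2)).card :=
      card_Bl_two hg hX haX hbX hab (i := 1) h2 (by omega) (by omega)
    omega
  have hX8 : 8 ≤ X.card := by
    obtain ⟨b, hab⟩ := exists_adj (H := H) (x := a) (by omega)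
    have hbX := hX a b hab
    have k1 := main a b haX hbX hab ha3
    have k2 := sum_Bl_le' hg hX haX hbX hab (s := 3) (by omega)
    rw [Finset.sum_range_succ, Finset.sum_range_succ, Finset.sum_range_one,
      card_Bl_zero hab.ne] at k2
    omega
  -- double counting
  set D := X.filter (fun x => (nbr H x).card ≤ 2) with hD
  set B := X.filter (fun x => ¬ (nbr H x).card ≤ 2) with hB
  have hDB : D.card + B.card = X.card := Finset.card_filter_add_card_filter_not _
  have k1 : B.card * 3 ≤ ∑ x ∈ B, (D.filter (fun z => H.Adj x z)).card := by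
    rw [← smul_eq_mul]
    apply Finset.card_nsmul_le_sum
    intro x hx
    rw [hB, Finset.mem_filter] at hx
    have h3 : nbr H x ⊆ D.filter (fun z => H.Adj x z) := by
      intro z hz
      have hz' := mem_nbr.1 hz
      rw [Finset.mem_filter, hD, Finset.mem_filter]
      exact ⟨⟨hX x z hz', hall x hx.1 (by omega) z hz'⟩, hz'⟩
    have h4 := Finset.card_le_card h3
    omega
  have k2 : ∑ x ∈ B, (D.filter (fun z => H.Adj x z)).card =
      ∑ z ∈ D, (B.filter (fun x => H.Adj x z)).card := by
    simp only [Finset.card_filter]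
    rw [Finset.sum_comm]
  have k3 : ∑ z ∈ D, (B.filter (fun x => H.Adj x z)).card ≤ D.card * 2 := by
    rw [← smul_eq_mul]
    apply Finset.sum_le_card_nsmul
    intro z hz
    rw [hD, Finset.mem_filter] at hz
    refine le_trans (Finset.card_le_card ?_) hz.2
    intro x hx
    rw [Finset.mem_filter] at hx
    exact mem_nbr.2 hx.2.symm
  omega

end

end Pool.Agent.Lib.MP_633d19_co
end

section

/-!
The exceptional case of 17 vertices in girth six.
-/

namespace Pool.Agent.Lib.MP_633d19_co

open Classical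

variable {V E : Type*} {ends : E → Sym2 V} {F : Finset E} {e0 : E} {k N : ℕ}

/-- number of edges between `w` and `x` in colours of `M` or equal to `e0` -/
noncomputable def qq (ends : E → Sym2 V) (F : Finset E) (e0 : E) (c : E → Fin k)
    (M : Finset (Fin k)) (w x : V) : ℕ :=
  (M.filter (fun γ => ∃ e ∈ F.erase e0, c e = γ ∧ ends e = s(w, x))).card +
    (if ends e0 = s(w, x) then 1 else 0)

theorem qq_symm (c : E → Fin k) (M : Finset (Fin k)) (w x : V) :
    qq ends F e0 c M w x = qq ends F e0 c M x w := by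
  unfold qq
  rw [Sym2.eq_swap]

theorem qq_le (he0 : e0 ∈ F) {μ : ℕ}
    (hμ : ∀ u v, (F.filter (fun e => ends e = s(u, v))).card ≤ μ) (c : E → Fin k)
    (M : Finset (Fin k)) (w x : V) : qq ends F e0 c M w x ≤ μ := by
  refine le_trans ?_ (hμ w x)
  unfold qq
  have h1 : (M.filter (fun γ => ∃ e ∈ F.erase e0, c e = γ ∧ ends e = s(w, x))).card ≤
      ((F.erase e0).filter (fun e => ends e = s(w, x))).card := by
    have h2 : M.filter (fun γ => ∃ e ∈ F.erase e0, c e = γ ∧ ends e = s(w, x)) ⊆
        ((F.erase e0).filter (fun e => ends e = s(w, x))).image c := by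
      intro γ hγ
      obtain ⟨_, e, he, hce, hex⟩ := Finset.mem_filter.1 hγ
      exact Finset.mem_image.2 ⟨e, Finset.mem_filter.2 ⟨he, hex⟩, hce⟩
    exact (Finset.card_le_card h2).trans Finset.card_image_le
  split_ifs with h
  · have h3 : ((F.erase e0).filter (fun e => ends e = s(w, x))) ⊂
        F.filter (fun e => ends e = s(w, x)) := by
      rw [Finset.ssubset_iff_of_subset]
      · refine ⟨e0, Finset.mem_filter.2 ⟨he0, h⟩, ?_⟩
        intro h4
        exact Finset.notMem_erase e0 F (Finset.mem_filter.1 h4).1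
      · exact Finset.filter_subset_filter _ (Finset.erase_subset e0 F)
    have h4 := Finset.card_lt_card h3
    omega
  · have h3 := Finset.card_le_card (Finset.filter_subset_filter
      (fun e => ends e = s(w, x)) (Finset.erase_subset e0 F))
    omega

theorem exceptional_false (he0 : e0 ∈ F) (hF : ¬ ∃ c : E → Fin k, ProperOn ends F c)
    {Δ : ℕ} (hk : k = Δ + 1) (hΔ : ∀ v, degOn ends F v ≤ Δ)
    (hμ : ∀ u v, (F.filter (fun e => ends e = s(u, v))).card ≤ 6)
    (hmax : TMax ends F e0 k N) (hN16 : N = 16)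
    {c : E → Fin k} {y : ℕ → V} {ed : ℕ → E} (hc : ProperOn ends (F.erase e0) c)
    (ht : TTree ends (F.erase e0) e0 c y ed N N) {a : V} (ha : a ∈ VX y N)
    (ha4 : (nb ends F (VX y N) a).card = 4)
    (hb3 : ∀ b ∈ nb ends F (VX y N) a, (nb ends F (VX y N) b).card = 3) : False := by
  have hkd : ∀ v, degOn ends F v < k := fun v => (hΔ v).trans_lt (by omega)
  have hel := tashkinov_elem he0 hF hkd hc ht
  set X := VX y N with hX
  set MT := MisT ends (F.erase e0) c y (Finset.range (N + 1)) with hMT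
  set m : V → ℕ := fun x => (Mis ends (F.erase e0) c x).card with hm
  have hinj : Set.InjOn y ↑(Finset.range (N + 1)) := by
    intro a ha b hb hab
    rw [Finset.mem_coe, Finset.mem_range] at ha hb
    exact ht.inj a b (by omega) (by omega) hab
  have hM : MT.card = ∑ x ∈ X, m x := by
    rw [hMT, card_MisT hel (fun j hj => by have := Finset.mem_range.1 hj; omega), hX]
    unfold VX
    rw [Finset.sum_image hinj]
  have hXc : X.card = N + 1 := card_VX ht
  -- lower bounds for `m`
  have hm1 : ∀ x, 1 + (if x ∈ ends e0 then 1 else 0) ≤ m x := by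
    intro x
    split_ifs with h
    · exact Mis_lower' he0 hk hΔ c h
    · exact Mis_lower hk hΔ c x
  have hy0 : y 0 ∈ X := mem_VX.2 ⟨0, by omega, rfl⟩
  have hy1 : y 1 ∈ X := mem_VX.2 ⟨1, by omega, rfl⟩
  have hy01 : y 0 ≠ y 1 := fun h => by
    have := ht.inj 0 1 (by omega) (by omega) h
    omega
  have hends : ∀ x, x ∈ ends e0 ↔ x = y 0 ∨ x = y 1 := by
    intro x
    rw [ht.start, Sym2.mem_iff]
  -- (q3)
  have q3 : ∀ w ∈ X, MT.card + (if w ∈ ends e0 then 1 else 0) ≤
      ∑ x ∈ nb ends F X w, qq ends F e0 c MT w x + m w := by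
    intro w hw
    obtain ⟨i, hi, hiw⟩ := mem_VX.1 hw
    unfold qq
    rw [Finset.sum_add_distrib]
    have h1 : MT \ Mis ends (F.erase e0) c w ⊆ (nb ends F X w).biUnion (fun x =>
        MT.filter (fun γ => ∃ e ∈ F.erase e0, c e = γ ∧ ends e = s(w, x))) := by
      intro γ hγ
      rw [Finset.mem_sdiff, mem_Mis] at hγ
      obtain ⟨hγM, hγw⟩ := hγ
      unfold Missing at hγw
      push Not at hγw
      obtain ⟨e, he, hwe, hce⟩ := hγw
      obtain ⟨z, hz⟩ := Sym2.mem_iff_exists.1 hwe
      obtain ⟨j, hj, hmj⟩ := mem_MisT.1 hγM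
      rw [Finset.mem_range] at hj
      have hzX : z ∈ X := mem_VX.2 (closed_of_max hmax (by omega) hc ht he hz ⟨i, hi, hiw⟩
        (j := j) (by omega) (by rw [hce]; exact hmj))
      rw [Finset.mem_biUnion]
      refine ⟨z, ?_, Finset.mem_filter.2 ⟨hγM, e, he, hce, hz⟩⟩
      unfold nb
      exact Finset.mem_filter.2 ⟨hzX, e, Finset.mem_of_mem_erase he, hz⟩
    have h2 := (Finset.card_le_card h1).trans Finset.card_biUnion_le
    have h3 := Finset.le_card_sdiff (Mis ends (F.erase e0) c w) MT
    have h4 : (if w ∈ ends e0 then 1 else 0) ≤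
        ∑ x ∈ nb ends F X w, (if ends e0 = s(w, x) then 1 else 0) := by
      split_ifs with h
      · obtain ⟨z, hz⟩ := Sym2.mem_iff_exists.1 h
        have hzX : z ∈ X := by
          have : z ∈ ends e0 := by rw [hz]; exact Sym2.mem_mk_right _ _
          rcases (hends z).1 this with h5 | h5
          · rw [h5]; exact hy0
          · rw [h5]; exact hy1
        have h5 : z ∈ nb ends F X w := Finset.mem_filter.2 ⟨hzX, e0, he0, hz⟩
        have h6 := Finset.single_le_sum
          (f := fun x => if ends e0 = s(w, x) then 1 else 0) (fun x _ => Nat.zero_le _) h5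
        simp only [hz, if_true] at h6
        rw [hz]
        exact h6
      · exact Nat.zero_le _
    have h5 : m w = (Mis ends (F.erase e0) c w).card := rfl
    omega
  -- (q4)
  have q4 : ∀ w (S : Finset V), ∑ x ∈ S, qq ends F e0 c MT w x + (MT ∩ Mis ends (F.erase e0) c w).card ≤
      MT.card + (if w ∈ ends e0 then 1 else 0) := by
    intro w S
    unfold qq
    rw [Finset.sum_add_distrib]
    have h1 : ∑ x ∈ S, (MT.filter (fun γ => ∃ e ∈ F.erase e0, c e = γ ∧ ends e = s(w, x))).card ≤
        (MT \ Mis ends (F.erase e0) c w).card := by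
      rw [← Finset.card_biUnion]
      · apply Finset.card_le_card
        intro γ hγ
        rw [Finset.mem_biUnion] at hγ
        obtain ⟨x, _, hγ⟩ := hγ
        obtain ⟨hγM, e, he, hce, hex⟩ := Finset.mem_filter.1 hγ
        rw [Finset.mem_sdiff, mem_Mis]
        exact ⟨hγM, fun h => h e he (by rw [hex]; exact Sym2.mem_mk_left _ _) hce⟩
      · intro x _ x' _ hxx
        rw [Function.onFun, Finset.disjoint_left]
        intro γ h1 h2
        obtain ⟨_, e, he, hce, hex⟩ := Finset.mem_filter.1 h1
        obtain ⟨_, e', he', hce', hex'⟩ := Finset.mem_filter.1 h2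
        have h3 : e = e' := by
          by_contra hne
          exact hc e he e' he' hne w (by rw [hex]; exact Sym2.mem_mk_left _ _)
            (by rw [hex']; exact Sym2.mem_mk_left _ _) (by rw [hce, hce'])
        rw [h3, hex'] at hex
        exact hxx (Sym2.congr_right.1 hex).symm
    have h2 : ∑ x ∈ S, (if ends e0 = s(w, x) then 1 else 0) ≤
        (if w ∈ ends e0 then 1 else 0) := by
      by_cases h : w ∈ ends e0
      · rw [if_pos h]
        obtain ⟨z, hz⟩ := Sym2.mem_iff_exists.1 h
        rw [← Finset.card_filter]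
        refine (Finset.card_le_card (t := {z}) ?_).trans (by simp)
        intro x hx
        rw [Finset.mem_filter] at hx
        rw [Finset.mem_singleton]
        have h3 := hx.2
        rw [hz] at h3
        exact (Sym2.congr_right.1 h3).symm
      · rw [if_neg h]
        apply le_of_eq
        apply Finset.sum_eq_zero
        intro x _
        rw [if_neg]
        intro h3
        exact h (by rw [h3]; exact Sym2.mem_mk_left _ _)
    have h3 := Finset.card_sdiff_add_card_inter MT (Mis ends (F.erase e0) c w)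
    omega
  -- sums over `X`
  have hε : ∑ x ∈ X, (if x ∈ ends e0 then 1 else 0) = 2 := by
    rw [← Finset.card_filter]
    have : X.filter (fun x => x ∈ ends e0) = {y 0, y 1} := by
      ext x
      rw [Finset.mem_filter, Finset.mem_insert, Finset.mem_singleton, hends]
      constructor
      · exact fun h => h.2
      · intro h
        refine ⟨?_, h⟩
        rcases h with h | h
        · rw [h]; exact hy0
        · rw [h]; exact hy1
    rw [this, Finset.card_pair hy01]
  have hMge : ∀ w ∈ X, 18 + m w ≤ MT.card + (if w ∈ ends e0 then 1 else 0) := by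
    intro w hw
    have h1 : ∑ x ∈ X.erase w, (1 + (if x ∈ ends e0 then 1 else 0)) ≤ ∑ x ∈ X.erase w, m x :=
      Finset.sum_le_sum (fun x _ => hm1 x)
    rw [Finset.sum_add_distrib, Finset.sum_const, smul_eq_mul, mul_one,
      Finset.card_erase_of_mem hw, hXc] at h1
    have h2 := Finset.add_sum_erase X m hw
    have h3 := Finset.add_sum_erase X (fun x => if x ∈ ends e0 then 1 else 0) hw
    rw [hε] at h3
    omega
  have hinter : MT ∩ Mis ends (F.erase e0) c a = Mis ends (F.erase e0) c a := by
    apply Finset.inter_eq_right.2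
    intro γ hγ
    obtain ⟨i, hi, hia⟩ := mem_VX.1 ha
    rw [hMT, mem_MisT]
    exact ⟨i, Finset.mem_range.2 (by omega), by rw [hia]; exact mem_Mis.1 hγ⟩
  have hnbX : ∀ b ∈ nb ends F X a, b ∈ X ∧ a ∈ nb ends F X b := by
    intro b hb
    unfold nb at hb
    obtain ⟨hbX, e, he, hex⟩ := Finset.mem_filter.1 hb
    refine ⟨hbX, ?_⟩
    unfold nb
    exact Finset.mem_filter.2 ⟨ha, e, he, by rw [hex, Sym2.eq_swap]⟩
  have hq6 : ∀ b ∈ nb ends F X a, 6 ≤ qq ends F e0 c MT a b ∧
      MT.card + (if b ∈ ends e0 then 1 else 0) ≤ 18 + m b := by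
    intro b hb
    obtain ⟨hbX, hab⟩ := hnbX b hb
    have h1 := q3 b hbX
    have h2 := hMge b hbX
    have h3 := Finset.add_sum_erase (nb ends F X b) (fun x => qq ends F e0 c MT b x) hab
    have h4 : ∑ x ∈ (nb ends F X b).erase a, qq ends F e0 c MT b x ≤ 2 * 6 := by
      have := Finset.sum_le_card_nsmul ((nb ends F X b).erase a)
        (fun x => qq ends F e0 c MT b x) 6 (fun x _ => qq_le he0 hμ c MT b x)
      rw [Finset.card_erase_of_mem hab, hb3 b hb, smul_eq_mul] at this
      exact this
    have h5 := qq_le he0 hμ c MT b a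
    rw [qq_symm c MT a b]
    omega
  have h1 : 24 ≤ ∑ x ∈ nb ends F X a, qq ends F e0 c MT a x := by
    have := Finset.card_nsmul_le_sum (nb ends F X a) (fun x => qq ends F e0 c MT a x) 6
      (fun x hx => (hq6 x hx).1)
    rw [ha4, smul_eq_mul] at this
    exact this
  have h2 := q4 a (nb ends F X a)
  rw [hinter] at h2
  have h3 := hm1 a
  have h3' : m a = (Mis ends (F.erase e0) c a).card := rfl
  have hM25 : 25 ≤ MT.card := by omega
  have hnbsub : nb ends F X a ⊆ X := Finset.filter_subset _ _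
  have h4 := Finset.sum_sdiff hnbsub (f := m)
  have h5 : (X \ nb ends F X a).card * 1 ≤ ∑ x ∈ X \ nb ends F X a, m x := by
    rw [← smul_eq_mul]
    apply Finset.card_nsmul_le_sum
    intro x _
    have := hm1 x
    omega
  rw [Finset.card_sdiff_of_subset hnbsub, hXc, ha4] at h5
  have h6 : 4 * (MT.card - 18) ≤ ∑ x ∈ nb ends F X a, m x := by
    have := Finset.card_nsmul_le_sum (nb ends F X a) m (MT.card - 18) (fun x hx => by
      have := (hq6 x hx).2
      omega)
    rw [ha4, smul_eq_mul] at this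
    exact this
  omega

end Pool.Agent.Lib.MP_633d19_co
end

section

/-!
The main colouring theorem: graphs of girth at least five, multiplicity at most
`(t + 1) ⌊g / 2⌋` and maximum degree `Δ > 2 μ` are `(Δ + t)`-edge-colourable.
-/

namespace Pool.Agent.Lib.MP_633d19_co

open Classical

variable {V E : Type*} {ends : E → Sym2 V} {F : Finset E} {e0 : E} {k N : ℕ}

/-- the simple graph on `X` -/
def XG (ends : E → Sym2 V) (F : Finset E) (X : Finset V) : SimpleGraph V where
  Adj x z := x ≠ z ∧ x ∈ X ∧ z ∈ X ∧ ∃ e ∈ F, ends e = s(x, z)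
  symm := ⟨by
    rintro x z ⟨h, hx, hz, e, he, hex⟩
    exact ⟨h.symm, hz, hx, e, he, by rw [hex, Sym2.eq_swap]⟩⟩
  loopless := ⟨by
    rintro x ⟨h, _⟩
    exact h rfl⟩

theorem nbr_XG [Fintype V] (hloop : ∀ e, ¬ (ends e).IsDiag) {X : Finset V} {w : V}
    (hw : w ∈ X) : nbr (XG ends F X) w = nb ends F X w := by
  ext x
  unfold nbr nb
  rw [Finset.mem_filter, Finset.mem_filter]
  constructor
  · rintro ⟨_, _, _, hx, h⟩
    exact ⟨hx, h⟩
  · rintro ⟨hx, e, he, hex⟩
    refine ⟨Finset.mem_univ _, ?_, hw, hx, e, he, hex⟩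
    intro h
    exact hloop e (by rw [hex, h]; exact rfl)

theorem cycGE_XG {g : ℕ} (hg : GirthGE ends g) (X : Finset V) : CycGE (XG ends F X) g := by
  intro v w hw
  have hinj := hw.getVert_injOn'
  refine hg w.length hw.three_le_length (fun i => w.getVert i) ?_ ?_
  · intro i hi j hj hij
    exact hinj (by simp; omega) (by simp; omega) hij
  · intro i hi
    have hadj := w.adj_getVert_succ hi
    obtain ⟨_, _, _, e, _, hex⟩ := hadj
    rcases Nat.lt_or_ge (i + 1) w.length with h2 | h2
    · rw [Nat.mod_eq_of_lt h2]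
      exact ⟨e, hex⟩
    · have h3 : i + 1 = w.length := by omega
      refine ⟨e, ?_⟩
      rw [hex, h3, Nat.mod_self, SimpleGraph.Walk.getVert_length,
        SimpleGraph.Walk.getVert_zero]

/-- a maximal tree has at least `g` vertices -/
theorem girth_le_max (he0 : e0 ∈ F) (hF : ¬ ∃ c : E → Fin k, ProperOn ends F c)
    (hkd : ∀ v, degOn ends F v < k) {g : ℕ} (hg : GirthGE ends g)
    (hmax : TMax ends F e0 k N) (hN : 1 ≤ N) {c : E → Fin k} {y : ℕ → V}
    {ed : ℕ → E} (hc : ProperOn ends (F.erase e0) c)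
    (ht : TTree ends (F.erase e0) e0 c y ed N N) : g ≤ N + 1 := by
  obtain ⟨γ₀, hγ₀⟩ := exists_missing (e0 := e0) hkd c (y 0)
  obtain ⟨γ₁, hγ₁⟩ := exists_missing (e0 := e0) hkd c (y 1)
  have hy01 : y 0 ≠ y 1 := fun h => by
    have := ht.inj 0 1 (by omega) hN h
    omega
  have hreach : (abGraph ends (F.erase e0) c γ₀ γ₁).Reachable (y 0) (y 1) := by
    refine TTree.reach hc (ht.mono (m := 1) (q := 1) hN (Or.inl le_rfl)) ?_
      (fun a h2 ha => by omega) (by omega) le_rfl (by omega) hγ₀ hγ₁
    intro c' hc' ht''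
    exact tashkinov_elem he0 hF hkd hc' ht''
  obtain ⟨p, hp⟩ := hreach.exists_isPath
  have h1 := girth_le_path hg hy01 ht.start hγ₀ hγ₁ p hp
  have hstep : ∀ a b, InX y N a → (abGraph ends (F.erase e0) c γ₀ γ₁).Adj a b →
      InX y N b := by
    rintro a b ha ⟨_, e, he, hce, hends⟩
    rcases hce with h2 | h2
    · exact closed_of_max hmax hN hc ht he hends ha (j := 0) (by omega)
        (by rw [h2]; exact hγ₀)
    · exact closed_of_max hmax hN hc ht he hends ha (j := 1) hN
        (by rw [h2]; exact hγ₁)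
  have hsup : ∀ (a b : V) (q : (abGraph ends (F.erase e0) c γ₀ γ₁).Walk a b), InX y N a →
      ∀ x ∈ q.support, InX y N x := by
    intro a b q
    induction q with
    | nil =>
      intro ha x hx
      rw [SimpleGraph.Walk.support_nil, List.mem_singleton] at hx
      rw [hx]; exact ha
    | cons h q ih =>
      intro ha x hx
      rw [SimpleGraph.Walk.support_cons] at hx
      rcases List.mem_cons.1 hx with h2 | h2
      · rw [h2]; exact ha
      · exact ih (hstep _ _ ha h) x h2
  have h2 : p.support.toFinset ⊆ VX y N := by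
    intro x hx
    rw [mem_VX]
    exact hsup _ _ p ⟨0, by omega, rfl⟩ x (List.mem_toFinset.1 hx)
  have h3 := Finset.card_le_card h2
  rw [List.toFinset_card_of_nodup hp.support_nodup, SimpleGraph.Walk.length_support,
    card_VX ht] at h3
  omega

/-- **Main colouring theorem.** -/
theorem colorable_of_girth [Fintype V] [Fintype E] (hloop : ∀ e, ¬ (ends e).IsDiag)
    {Δ t μ g : ℕ} (ht1 : 1 ≤ t) (hg5 : 5 ≤ g) (hg : GirthGE ends g)
    (hΔ : ∀ v, degOn ends Finset.univ v ≤ Δ)
    (hμ : ∀ u v, ((Finset.univ : Finset E).filter (fun e => ends e = s(u, v))).card ≤ μ)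
    (hμs : μ ≤ (t + 1) * (g / 2)) (hΔμ : 2 * μ < Δ) :
    ∃ c : E → Fin (Δ + t), ProperOn ends Finset.univ c := by
  by_contra hcon
  obtain ⟨k, hk⟩ : ∃ k, k = Δ + t := ⟨_, rfl⟩
  rw [← hk] at hcon
  obtain ⟨F, e0, he0, hF, c0, hc0⟩ := exists_critical (ends := ends) (by omega : 0 < k) hcon
  have hΔF : ∀ v, degOn ends F v ≤ Δ := fun v =>
    (degOn_mono (Finset.subset_univ F) v).trans (hΔ v)
  have hkd : ∀ v, degOn ends F v < k := fun v => (hΔF v).trans_lt (by omega)
  have hμF : ∀ u v, (F.filter (fun e => ends e = s(u, v))).card ≤ μ :=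
    mult_mono (Finset.subset_univ F) hμ
  -- a maximal tree
  obtain ⟨N, hN1, ⟨c, y, ed, hc, ht⟩, hmax⟩ : ∃ N, 1 ≤ N ∧ (∃ (c : E → Fin k) (y : ℕ → V)
      (ed : ℕ → E), ProperOn ends (F.erase e0) c ∧ TTree ends (F.erase e0) e0 c y ed N N) ∧
      TMax ends F e0 k N := by
    let P : ℕ → Prop := fun N => ∃ (c : E → Fin k) (y : ℕ → V)
      (ed : ℕ → E), ProperOn ends (F.erase e0) c ∧ TTree ends (F.erase e0) e0 c y ed N N
    have hbd : ∀ n, P n → n ≤ Fintype.card V := by
      rintro n ⟨c, y, ed, _, ht⟩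
      have h1 := card_VX ht
      have h2 := Finset.card_le_univ (VX y n)
      omega
    have hP1 : P 1 := by
      obtain ⟨a, b, hab⟩ : ∃ a b, ends e0 = s(a, b) := by
        induction h : ends e0 with
        | _ a b => exact ⟨a, b, rfl⟩
      have hne : a ≠ b := by
        intro h
        exact hloop e0 (by rw [hab, h]; exact rfl)
      refine ⟨c0, fun i => if i = 0 then a else b, fun _ => e0, hc0, ?_⟩
      refine ⟨?_, ?_, ?_, ?_, ?_, ?_⟩
      · intro i j hi hj hij
        interval_cases i <;> interval_cases j <;> simp_all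
      · simpa using hab
      · intro i h2 hi; omega
      · intro i h2 hi; omega
      · intro i h2 hi; omega
      · intro i h2 hi; omega
    refine ⟨Nat.findGreatest P (Fintype.card V), ?_, ?_, ?_⟩
    · exact Nat.le_findGreatest (hbd 1 hP1) hP1
    · exact Nat.findGreatest_spec (hbd 1 hP1) hP1
    · intro c y ed n hc ht
      exact Nat.le_findGreatest (hbd n ⟨c, y, ed, hc, ht⟩) ⟨c, y, ed, hc, ht⟩
  have hNe := even_of_max he0 hF hkd hloop hmax hN1 hc ht
  obtain ⟨s, hs⟩ : ∃ s, s = g / 2 := ⟨_, rfl⟩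
  have hs2 : 2 ≤ s := by omega
  have hsg : 2 * s ≤ g := by omega
  have hNg : 2 * s ≤ N := by
    have h1 := girth_le_max he0 hF hkd hg hmax hN1 hc ht
    obtain ⟨m, hm⟩ := hNe
    omega
  rw [← hs] at hμs
  set X := VX y N with hX
  have hXc : X.card = N + 1 := card_VX ht
  set H := XG ends F X with hH
  have hHg : CycGE H g := cycGE_XG hg X
  have hHX : ∀ x z, H.Adj x z → z ∈ X := fun x z h => h.2.2.1
  have hd : ∀ w ∈ X, N * t + 2 ≤ μ * (nbr H w).card := by
    intro w hw
    rw [hH, nbr_XG hloop hw]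
    exact (inner_degree_ge he0 hF hk ht1 hΔF hmax hN1 hc ht hw).trans (card_ed2_le hμF X w)
  have hd' : ∀ w ∈ X, N * t + 2 ≤ (t + 1) * (s * (nbr H w).card) := by
    intro w hw
    refine (hd w hw).trans ?_
    rw [← mul_assoc]
    exact Nat.mul_le_mul_right _ hμs
  have hd2 : ∀ w ∈ X, N + 2 ≤ 2 * s * (nbr H w).card := by
    intro w hw
    have h1 := hd' w hw
    obtain ⟨D, hD⟩ : ∃ D, D = s * (nbr H w).card := ⟨_, rfl⟩
    rw [mul_assoc, ← hD]
    rw [← hD] at h1
    have h2 : (t + 1) * D = t * D + D := by ring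
    have hDpos : 2 ≤ D := by
      by_contra hcon
      have h3 : D = 0 ∨ D = 1 := by omega
      rcases h3 with h3 | h3
      · rw [h3] at h1; omega
      · rw [h3] at hD
        have := Nat.eq_one_of_mul_eq_one_right hD.symm
        omega
    rcases Nat.lt_or_ge D N with h3 | h3
    · obtain ⟨u, hu⟩ : ∃ u, N = D + u := ⟨N - D, by omega⟩
      have h4 : N * t = t * D + u * t := by rw [hu]; ring
      have h5 : u * 1 ≤ u * t := Nat.mul_le_mul_left _ ht1
      omega
    · omega
  rcases Nat.lt_or_ge N (4 * s) with hN4 | hN4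
  · -- small trees are strongly closed
    have hsc : ∀ δ : Fin k, (∀ j ≤ N, ¬ Missing ends (F.erase e0) c (y j) δ) →
      ∀ (f₁ f₂ : E) (u₁ u₂ w₁ w₂ : V), f₁ ∈ F.erase e0 → c f₁ = δ →
      ends f₁ = s(u₁, w₁) → InX y N u₁ → ¬ InX y N w₁ → f₂ ∈ F.erase e0 → c f₂ = δ →
      ends f₂ = s(u₂, w₂) → InX y N u₂ → ¬ InX y N w₂ → u₁ = u₂ := by
      obtain ⟨α, hα⟩ := exists_missing (e0 := e0) hkd c (y 0)
      intro δ hδ f₁ f₂ u₁ u₂ w₁ w₂ h1 h2 h3 h4 h5 h6 h7 h8 h9 h10
      exact strongly_closed he0 hF hkd hloop hmax hN1 hc ht hα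
        (fun u hu => spanning_avoiding he0 hF hloop hk ht1 hΔF hμF hμs hg hsg (by omega) hmax
          hN1 hN4 hc ht hα u hu) hδ h1 h2 h3 h4 h5 h6 h7 h8 h9 h10
    have htot := total_degree_ge he0 hF hkd hmax hN1 hc ht hsc
    rw [← hX] at htot
    have hdeg2 : ∀ x ∈ X, 2 ≤ (nbr H x).card := by
      intro x hx
      by_contra hcon
      have h1 := hd2 x hx
      have h2 : 2 * s * (nbr H x).card ≤ 2 * s * 1 := Nat.mul_le_mul_left _ (by omega)
      omega
    -- upper bound for the sum
    have hup : ∑ w ∈ X, (ed2 ends F X w).card + (Δ - 2 * μ) *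
        (X.filter (fun x => (nbr H x).card ≤ 2)).card ≤ (N + 1) * Δ := by
      have h1 : ∑ w ∈ X, ((ed2 ends F X w).card +
          (if (nbr H w).card ≤ 2 then Δ - 2 * μ else 0)) ≤ ∑ _w ∈ X, Δ := by
        apply Finset.sum_le_sum
        intro w hw
        split_ifs with h
        · have h2 := card_ed2_le hμF X w
          rw [← nbr_XG (F := F) hloop hw] at h2
          have h3 : μ * (nbr (XG ends F X) w).card ≤ μ * 2 := Nat.mul_le_mul_left _ h
          omega
        · have h2 := card_ed2_le_deg (ends := ends) (F := F) X w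
          have h3 := hΔF w
          omega
      rw [Finset.sum_add_distrib, ← Finset.sum_filter, Finset.sum_const, Finset.sum_const,
        smul_eq_mul, smul_eq_mul, hXc, mul_comm _ (Δ - 2 * μ)] at h1
      exact h1
    have hn2 : X.card + (X.filter (fun x => (nbr H x).card ≤ 2)).card ≤ 4 * (g / 2) := by
      rw [← hs, hXc]
      obtain ⟨n2, hn2⟩ : ∃ n2, n2 = (X.filter (fun x => (nbr H x).card ≤ 2)).card := ⟨_, rfl⟩
      rw [← hn2] at hup ⊢
      rcases Nat.eq_zero_or_pos n2 with h0 | h0
      · omega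
      · obtain ⟨x, hx⟩ : ∃ x, Δ = 2 * μ + 1 + x := ⟨Δ - 2 * μ - 1, by omega⟩
        obtain ⟨q, hq⟩ : ∃ q, n2 = 1 + q := ⟨n2 - 1, by omega⟩
        have e1 : Δ - 2 * μ = 1 + x := by omega
        rw [e1] at hup
        have e2 : k * N = Δ * N + N * t := by rw [hk]; ring
        have e3 : (N + 1) * Δ = Δ * N + Δ := by ring
        have e4 : (1 + x) * n2 = n2 + x + x * q := by rw [hq]; ring
        have e5 : 0 ≤ x * q := Nat.zero_le _
        -- `N t + n2 + 1 ≤ 2 (t+1) s`
        have e6 : N * t + n2 + 1 ≤ 2 * ((t + 1) * s) := by omega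
        obtain ⟨m, hm⟩ : ∃ m, N = 2 * s + m := ⟨N - 2 * s, by omega⟩
        have e7 : N * t = 2 * (s * t) + m * t := by rw [hm]; ring
        have e8 : m * 1 ≤ m * t := Nat.mul_le_mul_left _ ht1
        have e9 : 2 * ((t + 1) * s) = 2 * (s * t) + 2 * s := by ring
        omega
    exact degrees_small hHg hHX hg5 hXc hdeg2 (by rw [← hs]; exact hNg) hn2
  · -- large trees do not exist
    obtain ⟨hs3, hN16, a, haX, ha4, hb3⟩ := degrees_large hHg hHX hg5 hXc hNe
      (by rw [← hs]; exact hd2) (by rw [← hs]; exact hN4)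
    rw [← hs] at hs3
    -- then `t = 1` and `μ ≤ 6`
    have hb : ∃ b, H.Adj a b := exists_adj (by omega)
    obtain ⟨b, hab⟩ := hb
    have hbX := hHX a b hab
    have h1 := hd' b hbX
    rw [hb3 b hab, hN16, hs3] at h1
    have ht11 : t = 1 := by omega
    have hμ6 : μ ≤ 6 := by
      rw [ht11, hs3] at hμs
      omega
    refine exceptional_false he0 hF (Δ := Δ) (by omega) hΔF
      (fun u v => (hμF u v).trans hμ6) hmax hN16 hc ht haX ?_ ?_
    · rw [← hX, ← nbr_XG (F := F) hloop haX]
      exact ha4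
    · intro z hz
      rw [← hX, ← nbr_XG (F := F) hloop haX] at hz
      have hz' := mem_nbr.1 hz
      rw [← hX, ← nbr_XG (F := F) hloop (hHX a z hz')]
      exact hb3 z hz'

end Pool.Agent.Lib.MP_633d19_co
end
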