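import Mathlib

/-!
Maximal triangle-free graphs on 19 vertices with minimum degree at least 7.
-/

namespace Pool.Agent.Lib.MP_633d19_co

open Classical

namespace Nineteen

section

variable {V : Type*} [Fintype V] (G : SimpleGraph V)

/-- indicator of adjacency -/
noncomputable def ad (z v : V) : ℕ := if G.Adj z v then 1 else 0

theorem prop_q1 (g1 g2 g3 g4 g5 g6 : Prop) (e1 : g1 → ¬ g5) (e2 : g1 → ¬ g6)
    (e3 : g2 → ¬ g6) (e4 : g2 → ¬ g4) (e5 : g3 → ¬ g4) (e6 : g3 → ¬ g5)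
    (e7 : g1 → g2 → ¬ g3) :
    (if g1 then 1 else 0 : ℕ) + (if g2 then 1 else 0) +
    (if g3 then 1 else 0) + (if g4 then 1 else 0) +
    (if g5 then 1 else 0) + (if g6 then 1 else 0) ≤
    2 + if (g4 ∧ g5 ∧ g6) then 1 else 0 := by
  by_cases h1 : g1 <;> by_cases h2 : g2 <;> by_cases h3 : g3 <;> by_cases h4 : g4 <;>
    by_cases h5 : g5 <;> by_cases h6 : g6 <;> simp_all

theorem prop_q2 (g1 g2 g3 g4 g5 g6 g7 : Prop) (e1 : g1 → ¬ g5)
    (e3 : g2 → ¬ g6) (e5 : g3 → ¬ g4) (e7 : g1 → g2 → ¬ g3)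
    (e8 : g7 → ¬ g1) (e9 : g7 → ¬ g2) (e10 : g7 → ¬ g3) (e11 : g7 → ¬ (g4 ∧ g5 ∧ g6)) :
    (if (g4 ∧ g5 ∧ g6) then 1 else 0 : ℕ) +
    (if g7 then 1 else 0) +
    ((if (g1 ∧ ¬ g2 ∧ ¬ g3) ∨ (¬ g1 ∧ g2 ∧ ¬ g3) ∨
      (¬ g1 ∧ ¬ g2 ∧ g3) then 1 else 0) +
    (if (g1 ∧ g2) then 1 else 0) + (if (g2 ∧ g3) then 1 else 0) +
    (if (g3 ∧ g1) then 1 else 0)) ≤ 1 := by
  by_cases h7 : g7 <;> by_cases h1 : g1 <;> by_cases h2 : g2 <;> by_cases h3 : g3 <;>
    by_cases h4 : g4 <;>
    by_cases h5 : g5 <;> by_cases h6 : g6 <;> simp_all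

theorem prop_q3 (g1 g2 g3 : Prop) (e7 : g1 → g2 → ¬ g3) :
    (if g1 then 1 else 0 : ℕ) + (if g2 then 1 else 0) +
    (if g3 then 1 else 0) =
    (if (g1 ∧ ¬ g2 ∧ ¬ g3) ∨ (¬ g1 ∧ g2 ∧ ¬ g3) ∨
      (¬ g1 ∧ ¬ g2 ∧ g3) then 1 else 0) +
    2 * (if (g1 ∧ g2) then 1 else 0) +
    2 * (if (g2 ∧ g3) then 1 else 0) +
    2 * (if (g3 ∧ g1) then 1 else 0) := by
  by_cases h1 : g1 <;> by_cases h2 : g2 <;> by_cases h3 : g3 <;> simp_all

noncomputable def deg (v : V) : ℕ := (Finset.univ.filter (G.Adj v)).card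

theorem deg_eq (v : V) : deg G v = ∑ z, ad G z v := by
  unfold deg ad
  rw [Finset.card_filter]
  refine Finset.sum_congr rfl fun z _ => ?_
  simp [G.adj_comm]

theorem sum_one_eq (p : V) : ∑ z, (if z = p then 1 else 0 : ℕ) = 1 := by
  simp

/-- P3: three distinct pairwise non-adjacent vertices have a common neighbour -/
theorem p3 (hn : Fintype.card V = 19)
    (htri : ∀ a b c, G.Adj a b → G.Adj b c → ¬ G.Adj a c)
    (hmax : ∀ a b, a ≠ b → ¬ G.Adj a b → ∃ x, G.Adj a x ∧ G.Adj x b)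
    (hδ : ∀ v, 7 ≤ deg G v) (a b c : V) (hab : a ≠ b) (hbc : b ≠ c) (hac : a ≠ c)
    (nab : ¬ G.Adj a b) (nbc : ¬ G.Adj b c) (nac : ¬ G.Adj a c) :
    ∃ x, G.Adj x a ∧ G.Adj x b ∧ G.Adj x c := by
  by_contra hno
  push Not at hno
  have nba : ¬ G.Adj b a := fun h => nab h.symm
  have ncb : ¬ G.Adj c b := fun h => nbc h.symm
  have nca : ¬ G.Adj c a := fun h => nac h.symm
  obtain ⟨x3, h3a, h3b⟩ := hmax a b hab nab
  obtain ⟨x1, h1b, h1c⟩ := hmax b c hbc nbc
  obtain ⟨x2, h2a, h2c⟩ := hmax a c hac nac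
  have h3a' := h3a.symm
  have h1b' := h1b.symm
  have h2a' := h2a.symm
  have h3c : ¬ G.Adj x3 c := hno x3 h3a' h3b
  have h1a : ¬ G.Adj x1 a := fun h => hno x1 h h1b' h1c
  have h2b : ¬ G.Adj x2 b := fun h => hno x2 h2a' h h2c
  obtain ⟨p1, hp1a, hp1x⟩ := hmax a x1 (by rintro rfl; exact nab h1b') (fun h => h1a h.symm)
  obtain ⟨p2, hp2b, hp2x⟩ := hmax b x2 (by rintro rfl; exact nba h2a') (fun h => h2b h.symm)
  obtain ⟨p3, hp3c, hp3x⟩ := hmax c x3 (by rintro rfl; exact nca h3a') (fun h => h3c h.symm)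
  have hp1b : ¬ G.Adj p1 b := fun h => htri p1 x1 b hp1x h1b' h
  have hp1c : ¬ G.Adj p1 c := fun h => htri p1 x1 c hp1x h1c h
  have hp2a : ¬ G.Adj p2 a := fun h => htri p2 x2 a hp2x h2a' h
  have hp2c : ¬ G.Adj p2 c := fun h => htri p2 x2 c hp2x h2c h
  have hp3a : ¬ G.Adj p3 a := fun h => htri p3 x3 a hp3x h3a' h
  have hp3b : ¬ G.Adj p3 b := fun h => htri p3 x3 b hp3x h3b h
  have hp1a' := hp1a.symm
  have hp2b' := hp2b.symm
  have hp3c' := hp3c.symm
  have p12 : p1 ≠ p2 := by rintro rfl; exact hp1b hp2b'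
  have p13 : p1 ≠ p3 := by rintro rfl; exact hp1c hp3c'
  have p23 : p2 ≠ p3 := by rintro rfl; exact hp2c hp3c'
  -- the indicator functions
  set T : V → ℕ := fun z => if G.Adj z x1 ∧ G.Adj z x2 ∧ G.Adj z x3 then 1 else 0 with hT
  set E : V → ℕ := fun z => if z = a ∨ z = b ∨ z = c then 1 else 0 with hE
  set N1 : V → ℕ := fun z => if (G.Adj z a ∧ ¬ G.Adj z b ∧ ¬ G.Adj z c) ∨
    (¬ G.Adj z a ∧ G.Adj z b ∧ ¬ G.Adj z c) ∨ (¬ G.Adj z a ∧ ¬ G.Adj z b ∧ G.Adj z c)
    then 1 else 0 with hN1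
  set Nab : V → ℕ := fun z => if G.Adj z a ∧ G.Adj z b then 1 else 0 with hNab
  set Nbc : V → ℕ := fun z => if G.Adj z b ∧ G.Adj z c then 1 else 0 with hNbc
  set Nca : V → ℕ := fun z => if G.Adj z c ∧ G.Adj z a then 1 else 0 with hNca
  -- hexagon
  have q1 : ∑ z, (ad G z a + ad G z b + ad G z c + ad G z x1 + ad G z x2 + ad G z x3) ≤
      ∑ z : V, (2 + T z) := by
    refine Finset.sum_le_sum fun z _ => ?_
    have e1 : G.Adj z a → ¬ G.Adj z x2 := fun h h' => htri x2 z a h'.symm h h2a'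
    have e2 : G.Adj z a → ¬ G.Adj z x3 := fun h h' => htri x3 z a h'.symm h h3a'
    have e3 : G.Adj z b → ¬ G.Adj z x3 := fun h h' => htri x3 z b h'.symm h h3b
    have e4 : G.Adj z b → ¬ G.Adj z x1 := fun h h' => htri x1 z b h'.symm h h1b'
    have e5 : G.Adj z c → ¬ G.Adj z x1 := fun h h' => htri x1 z c h'.symm h h1c
    have e6 : G.Adj z c → ¬ G.Adj z x2 := fun h h' => htri x2 z c h'.symm h h2c
    have e7 := hno z
    exact prop_q1 _ _ _ _ _ _ e1 e2 e3 e4 e5 e6 e7
  have q2' : ∀ z, (T z + E z + (N1 z + Nab z + Nbc z + Nca z)) ≤ 1 := by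
    intro z
    have e1 : G.Adj z a → ¬ G.Adj z x2 := fun h h' => htri x2 z a h'.symm h h2a'
    have e3 : G.Adj z b → ¬ G.Adj z x3 := fun h h' => htri x3 z b h'.symm h h3b
    have e5 : G.Adj z c → ¬ G.Adj z x1 := fun h h' => htri x1 z c h'.symm h h1c
    have e7 := hno z
    have t1 : z = a ∨ z = b ∨ z = c → ¬ G.Adj z a := by
      rintro (rfl | rfl | rfl)
      exacts [G.loopless.irrefl _, nba, nca]
    have t2 : z = a ∨ z = b ∨ z = c → ¬ G.Adj z b := by
      rintro (rfl | rfl | rfl)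
      exacts [nab, G.loopless.irrefl _, ncb]
    have t3 : z = a ∨ z = b ∨ z = c → ¬ G.Adj z c := by
      rintro (rfl | rfl | rfl)
      exacts [nac, nbc, G.loopless.irrefl _]
    have t4 : z = a ∨ z = b ∨ z = c → ¬ (G.Adj z x1 ∧ G.Adj z x2 ∧ G.Adj z x3) := by
      rintro (rfl | rfl | rfl) ⟨k1, k2, k3⟩
      exacts [h1a k1.symm, h2b k2.symm, h3c k3.symm]
    have := prop_q2 _ _ _ _ _ _ _ e1 e3 e5 e7 t1 t2 t3 t4
    convert this
  have q2 : ∑ z, (T z + E z + (N1 z + Nab z + Nbc z + Nca z)) ≤ ∑ z : V, 1 :=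
    Finset.sum_le_sum fun z _ => q2' z
  have q3 : ∑ z, (ad G z a + ad G z b + ad G z c) =
      ∑ z : V, (N1 z + 2 * Nab z + 2 * Nbc z + 2 * Nca z) := by
    refine Finset.sum_congr rfl fun z _ => ?_
    have e7 := hno z
    exact prop_q3 _ _ _ e7
  have q4' : ∀ z, ((if z = p1 then 1 else 0 : ℕ) + (if z = p2 then 1 else 0) +
      (if z = p3 then 1 else 0)) ≤ N1 z := by
    intro z
    simp only [hN1]
    by_cases g1 : z = p1
    · subst g1
      simp_all
    · by_cases g2 : z = p2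
      · subst g2
        simp_all
      · by_cases g3 : z = p3
        · subst g3
          simp_all
        · simp_all
  have q4 : ∑ z, ((if z = p1 then 1 else 0 : ℕ) + (if z = p2 then 1 else 0) +
      (if z = p3 then 1 else 0)) ≤ ∑ z, N1 z := Finset.sum_le_sum fun z _ => q4' z
  have hEsum : ∑ z, E z = 3 := by
    have : ∑ z, E z = ∑ z, ((if z = a then 1 else 0 : ℕ) + (if z = b then 1 else 0) +
      (if z = c then 1 else 0)) := by
      refine Finset.sum_congr rfl fun z _ => ?_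
      simp only [hE]
      by_cases g1 : z = a
      · subst g1; simp_all
      · by_cases g2 : z = b
        · subst g2; simp_all
        · by_cases g3 : z = c
          · subst g3; simp_all
          · simp_all
    rw [this, Finset.sum_add_distrib, Finset.sum_add_distrib, sum_one_eq, sum_one_eq, sum_one_eq]
  have hone : ∑ z : V, 1 = 19 := by simp [hn]
  have htwo : ∑ z : V, 2 = 38 := by simp [hn]
  simp only [Finset.sum_add_distrib, ← deg_eq, ← Finset.mul_sum, sum_one_eq] at q1 q2 q3 q4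
  have da := hδ a
  have db := hδ b
  have dc := hδ c
  have d1 := hδ x1
  have d2 := hδ x2
  have d3 := hδ x3
  have r1 : ∑ z, N1 z = 3 := by omega
  have r2 : ∑ z, T z = 4 := by omega
  have r3 : ∑ z, Nab z + ∑ z, Nbc z + ∑ z, Nca z = 9 := by omega
  have r4 : deg G a = 7 ∧ deg G b = 7 ∧ deg G c = 7 := by omega
  -- equality
  have s1 : ∀ z, T z + E z + (N1 z + Nab z + Nbc z + Nca z) = 1 := by
    have hle : ∀ z ∈ Finset.univ, T z + E z + (N1 z + Nab z + Nbc z + Nca z) ≤ 1 :=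
      fun z _ => q2' z
    have hsum : ∑ z, (T z + E z + (N1 z + Nab z + Nbc z + Nca z)) = ∑ z : V, 1 := by
      simp only [Finset.sum_add_distrib]
      omega
    intro z
    exact (Finset.sum_eq_sum_iff_of_le hle).1 hsum z (Finset.mem_univ z)
  have s2 : ∀ z, ((if z = p1 then 1 else 0 : ℕ) + (if z = p2 then 1 else 0) +
      (if z = p3 then 1 else 0)) = N1 z := by
    have hsum : ∑ z, ((if z = p1 then 1 else 0 : ℕ) + (if z = p2 then 1 else 0) +
      (if z = p3 then 1 else 0)) = ∑ z : V, N1 z := by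
      simp only [Finset.sum_add_distrib, sum_one_eq]
      omega
    intro z
    exact (Finset.sum_eq_sum_iff_of_le (fun z _ => q4' z)).1 hsum z (Finset.mem_univ z)
  have s3 : ∑ z, ad G z p3 ≤ ∑ z, ((if z = c then 1 else 0 : ℕ) + Nab z +
      (if z = p1 then 1 else 0) + (if z = p2 then 1 else 0)) := by
    refine Finset.sum_le_sum fun z _ => ?_
    by_cases hz : G.Adj z p3
    · have u1 := s1 z
      have u2 := s2 z
      have k1 : ¬ G.Adj z c := fun h => htri z c p3 h hp3c hz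
      have k2 : ¬ G.Adj z x3 := fun h => htri z p3 x3 hz hp3x h
      have k3 : z ≠ a := by rintro rfl; exact hp3a hz.symm
      have k4 : z ≠ b := by rintro rfl; exact hp3b hz.symm
      have k5 : z ≠ p3 := by rintro rfl; exact G.loopless.irrefl _ hz
      have l1 : T z = 0 := by simp [hT, k2]
      have l2 : Nbc z = 0 := by simp [hNbc, k1]
      have l3 : Nca z = 0 := by simp [hNca, k1]
      have l4 : E z = if z = c then 1 else 0 := by simp [hE, k3, k4]
      simp only [k5, if_false] at u2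
      simp only [ad, hz, if_true]
      omega
    · simp [ad, hz]
  have s4 : ∑ z, ad G z c = ∑ z, ((if z = p3 then 1 else 0 : ℕ) + Nbc z + Nca z) := by
    refine Finset.sum_congr rfl fun z _ => ?_
    have u2 := s2 z
    have e7 := hno z
    by_cases hz : G.Adj z c
    · have k1 : z ≠ p1 := by rintro rfl; exact hp1c hz
      have k2 : z ≠ p2 := by rintro rfl; exact hp2c hz
      simp only [k1, k2, if_false] at u2
      by_cases g1 : G.Adj z a
      · have g2 : ¬ G.Adj z b := fun h => e7 g1 h hz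
        have l1 : N1 z = 0 := by simp [hN1, g1, g2, hz]
        have l2 : Nbc z = 0 := by simp [hNbc, g2]
        have l3 : Nca z = 1 := by simp [hNca, hz, g1]
        simp only [ad, hz, if_true]
        omega
      · by_cases g2 : G.Adj z b
        · have l1 : N1 z = 0 := by simp [hN1, g1, g2, hz]
          have l2 : Nbc z = 1 := by simp [hNbc, g2, hz]
          have l3 : Nca z = 0 := by simp [hNca, g1]
          simp only [ad, hz, if_true]
          omega
        · have l1 : N1 z = 1 := by simp [hN1, g1, g2, hz]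
          have l2 : Nbc z = 0 := by simp [hNbc, g2]
          have l3 : Nca z = 0 := by simp [hNca, g1]
          simp only [ad, hz, if_true]
          omega
    · have k5 : z ≠ p3 := by rintro rfl; exact hz hp3c'
      have l2 : Nbc z = 0 := by simp [hNbc, hz]
      have l3 : Nca z = 0 := by simp [hNca, hz]
      simp [ad, hz, k5, l2, l3]
  simp only [Finset.sum_add_distrib, ← deg_eq, sum_one_eq] at s3 s4
  have := hδ p3
  omega

end

/-- neighbours in the Wagner graph -/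
def Nb (j i : Fin 8) : Prop := i = j + 1 ∨ i = j - 1 ∨ i = j + 4

instance (j i : Fin 8) : Decidable (Nb j i) := by unfold Nb; infer_instance

theorem wagner_bool : ∀ S : Fin 8 → Bool, (∀ i, (S i && S (i+1)) = false) →
    (∀ i, (S i && S (i+4)) = false) →
    (∑ i, if S i = true then 1 else 0) ≤ 3 ∧ ((∑ i, if S i = true then 1 else 0) = 3 →
      ∃ j, ∀ i, S i = true ↔ Nb j i) := by
  decide +kernel

theorem wagner_two : ∀ S : Fin 8 → Bool, (∀ i, (S i && S (i+1)) = false) →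
    (∀ i, (S i && S (i+4)) = false) → (∑ i, if S i = true then 1 else 0) = 2 →
    ∃ j, (∃ k, Nb j k ∧ S k = false ∧ (∀ i, Nb j i → i ≠ k → S i = true)) := by
  decide +kernel

theorem wagner_three : ∀ j k w : Fin 8, Nb j k → Nb w k →
    ∃ a b, a ≠ b ∧ a ≠ w ∧ b ≠ w ∧ a ≠ k ∧ b ≠ k ∧ Nb j a ∧ Nb j b := by
  decide +kernel

theorem wagner_zero : ∀ j : Fin 8, ¬ Nb j 0 → ∃ i, Nb j i ∧ Nb 0 i := by
  decide +kernel

theorem wagner_sum : ∀ i j : Fin 8, (if Nb j i then 1 else 0 : ℕ) =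
    (if j = i + 1 then 1 else 0) + (if j = i - 1 then 1 else 0) +
      (if j = i + 4 then 1 else 0) := by
  decide +kernel

theorem conf_bool : ∀ s0 s1 s2 s3 s4 v a0 a1 a2 : Bool, (s0 && s1) = false →
    (s1 && s2) = false → (s2 && s3) = false → (s3 && s4) = false → (s4 && s0) = false →
    (v && a0) = false → (v && a1) = false → (v && a2) = false → (a0 && s4) = false →
    (a0 && s1) = false → (a1 && s0) = false → (a1 && s2) = false → (a2 && s1) = false →
    (a2 && s3) = false →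
    (if s0 = true then 1 else 0 : ℕ) + (if s1 = true then 1 else 0) +
    (if s2 = true then 1 else 0) + 2 * (if s3 = true then 1 else 0) +
    2 * (if s4 = true then 1 else 0) + (if v = true then 1 else 0) +
    (if a0 = true then 1 else 0) + (if a1 = true then 1 else 0) +
    (if a2 = true then 1 else 0) ≤ 4 := by
  decide +kernel

theorem three_le_sum (S : Fin 8 → ℕ) (a b c : Fin 8) (hab : a ≠ b) (hac : a ≠ c) (hbc : b ≠ c)
    (ha : S a = 1) (hb : S b = 1) (hc : S c = 1) : 3 ≤ ∑ i, S i := by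
  have h : ∑ i ∈ ({a, b, c} : Finset (Fin 8)), S i ≤ ∑ i, S i :=
    Finset.sum_le_sum_of_subset (Finset.subset_univ _)
  rw [Finset.sum_insert (by simp [hab, hac]), Finset.sum_insert (by simp [hbc]),
    Finset.sum_singleton, ha, hb, hc] at h
  exact h

section

variable {V : Type*} (G : SimpleGraph V)

/-- a copy of the Wagner graph -/
def IsCopy (f : Fin 8 → V) : Prop := ∀ i, G.Adj (f i) (f (i + 1)) ∧ G.Adj (f i) (f (i + 4))

variable {G}

theorem IsCopy.adj {f : Fin 8 → V} (hf : IsCopy G f) (j i : Fin 8) (h : Nb j i) :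
    G.Adj (f j) (f i) := by
  rcases h with rfl | rfl | rfl
  · exact (hf j).1
  · have := (hf (j - 1)).1
    rw [sub_add_cancel] at this
    exact this.symm
  · exact (hf j).2

theorem IsCopy.rotate {f : Fin 8 → V} (hf : IsCopy G f) (k : Fin 8) :
    IsCopy G (fun i => f (i + k)) := by
  intro i
  constructor
  · have := (hf (i + k)).1
    rwa [add_right_comm] at this
  · have := (hf (i + k)).2
    rwa [add_right_comm] at this

theorem IsCopy.replace {f : Fin 8 → V} (hf : IsCopy G f) (j : Fin 8) (z : V)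
    (hz : ∀ i, Nb j i → G.Adj z (f i)) : IsCopy G (Function.update f j z) := by
  intro i
  have n1 : ∀ i : Fin 8, i + 1 ≠ i := by decide
  have n4 : ∀ i : Fin 8, i + 4 ≠ i := by decide
  constructor
  · by_cases h1 : i = j
    · subst h1
      rw [Function.update_self, Function.update_of_ne (n1 i)]
      exact hz _ (Or.inl rfl)
    · by_cases h2 : i + 1 = j
      · subst h2
        rw [Function.update_self, Function.update_of_ne h1]
        exact (hz _ (Or.inr (Or.inl (by simp)))).symm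
      · rw [Function.update_of_ne h1, Function.update_of_ne h2]
        exact (hf i).1
  · by_cases h1 : i = j
    · subst h1
      rw [Function.update_self, Function.update_of_ne (n4 i)]
      exact hz _ (Or.inr (Or.inr rfl))
    · by_cases h2 : i + 4 = j
      · subst h2
        rw [Function.update_self, Function.update_of_ne h1]
        have e : ∀ i : Fin 8, i = i + 4 + 4 := by decide
        exact (hz _ (Or.inr (Or.inr (e i)))).symm
      · rw [Function.update_of_ne h1, Function.update_of_ne h2]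
        exact (hf i).2

theorem ad_eq (z v : V) : ad G z v = if decide (G.Adj z v) = true then 1 else 0 := by
  simp [ad]

theorem IsCopy.cnt {f : Fin 8 → V} (hf : IsCopy G f)
    (htri : ∀ a b c, G.Adj a b → G.Adj b c → ¬ G.Adj a c) (z : V) :
    ∑ i, ad G z (f i) ≤ 3 ∧ (∑ i, ad G z (f i) = 3 → ∃ j, ∀ i, G.Adj z (f i) ↔ Nb j i) := by
  have hb : ∀ x y, G.Adj x y → (decide (G.Adj z x) && decide (G.Adj z y)) = false := by
    intro x y hxy
    rw [Bool.and_eq_false_iff, decide_eq_false_iff_not, decide_eq_false_iff_not]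
    by_contra hcon
    push Not at hcon
    exact htri z x y hcon.1 hxy hcon.2
  have := wagner_bool (fun i => decide (G.Adj z (f i))) (fun i => hb _ _ (hf i).1)
    (fun i => hb _ _ (hf i).2)
  simp only [← ad_eq] at this
  simpa using this

theorem IsCopy.two {f : Fin 8 → V} (hf : IsCopy G f)
    (htri : ∀ a b c, G.Adj a b → G.Adj b c → ¬ G.Adj a c) (z : V)
    (h2 : ∑ i, ad G z (f i) = 2) :
    ∃ j k, Nb j k ∧ ¬ G.Adj z (f k) ∧ ∀ i, Nb j i → i ≠ k → G.Adj z (f i) := by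
  have hb : ∀ x y, G.Adj x y → (decide (G.Adj z x) && decide (G.Adj z y)) = false := by
    intro x y hxy
    rw [Bool.and_eq_false_iff, decide_eq_false_iff_not, decide_eq_false_iff_not]
    by_contra hcon
    push Not at hcon
    exact htri z x y hcon.1 hxy hcon.2
  have := wagner_two (fun i => decide (G.Adj z (f i))) (fun i => hb _ _ (hf i).1)
    (fun i => hb _ _ (hf i).2)
  simp only [← ad_eq] at this
  simpa using this h2

variable [Fintype V]

theorem sum_deg_copy (f : Fin 8 → V) : ∑ i, deg G (f i) = ∑ z, ∑ i, ad G z (f i) := by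
  simp only [deg_eq]
  exact Finset.sum_comm

theorem IsCopy.sum_le {f : Fin 8 → V} (hf : IsCopy G f) (hn : Fintype.card V = 19)
    (htri : ∀ a b c, G.Adj a b → G.Adj b c → ¬ G.Adj a c) (hδ : ∀ v, 7 ≤ deg G v) (p : V)
    (hp : ∑ i, ad G p (f i) ≠ 3) :
    ∑ i, ad G p (f i) = 2 ∧ ∀ z, z ≠ p → ∑ i, ad G z (f i) = 3 := by
  have h1 := sum_deg_copy (G := G) f
  have h2 : ∑ i : Fin 8, 7 ≤ ∑ i, deg G (f i) := Finset.sum_le_sum fun i _ => hδ _
  have h3 : ∑ i : Fin 8, 7 = 56 := by simp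
  have h4 : ∀ z, ∑ i, ad G z (f i) ≤ 3 := fun z => (hf.cnt htri z).1
  have h5 : ∑ z ∈ Finset.univ.erase p, ∑ i, ad G z (f i) ≤ ∑ z ∈ Finset.univ.erase p, 3 :=
    Finset.sum_le_sum fun z _ => h4 z
  have h6 := Finset.add_sum_erase Finset.univ (fun z => ∑ i, ad G z (f i)) (Finset.mem_univ p)
  have h7 : ∑ z ∈ Finset.univ.erase p, 3 = 54 := by
    rw [Finset.sum_const, Finset.card_erase_of_mem (Finset.mem_univ p), Finset.card_univ, hn]
    rfl
  have h8 := h4 p
  have h9 : ∑ i, ad G p (f i) = 2 := by omega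
  refine ⟨h9, fun z hz => ?_⟩
  have h10 : ∑ z ∈ Finset.univ.erase p, ∑ i, ad G z (f i) = ∑ z ∈ Finset.univ.erase p, 3 := by
    omega
  exact (Finset.sum_eq_sum_iff_of_le (fun z _ => h4 z)).1 h10 z
    (Finset.mem_erase.2 ⟨hz, Finset.mem_univ z⟩)

theorem copy_through {f : Fin 8 → V} (hf : IsCopy G f) (hn : Fintype.card V = 19)
    (htri : ∀ a b c, G.Adj a b → G.Adj b c → ¬ G.Adj a c)
    (hmax : ∀ a b, a ≠ b → ¬ G.Adj a b → ∃ x, G.Adj a x ∧ G.Adj x b)
    (hδ : ∀ v, 7 ≤ deg G v) (p : V) : ∃ g, IsCopy G g ∧ g 0 = p := by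
  have key : ∀ (g : Fin 8 → V) (i : Fin 8), IsCopy G g → g i = p →
      ∃ g, IsCopy G g ∧ g 0 = p := by
    intro g i hg hi
    exact ⟨_, hg.rotate i, by simpa using hi⟩
  have key2 : ∀ (g : Fin 8 → V), IsCopy G g → ∑ i, ad G p (g i) = 3 →
      ∃ g, IsCopy G g ∧ g 0 = p := by
    intro g hg h3
    obtain ⟨j, hj⟩ := (hg.cnt htri p).2 h3
    exact key _ j (hg.replace j p fun i hi => (hj i).2 hi) (by simp)
  by_cases hp : ∃ i, f i = p
  · obtain ⟨i, hi⟩ := hp
    exact key f i hf hi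
  push Not at hp
  by_cases h3 : ∑ i, ad G p (f i) = 3
  · exact key2 f hf h3
  obtain ⟨h2, hrest⟩ := hf.sum_le hn htri hδ p h3
  obtain ⟨j, k, hjk, hk, hj⟩ := hf.two htri p h2
  obtain ⟨r, hpr, hrk⟩ := hmax p (f k) (fun h => hp k h.symm) hk
  obtain ⟨w, hw⟩ := (hf.cnt htri r).2 (hrest r (by rintro rfl; exact G.loopless.irrefl _ hpr))
  have hwk : Nb w k := (hw k).1 hrk
  obtain ⟨a, b, hab, haw, hbw, hak, hbk, hja, hjb⟩ := wagner_three j k w hjk hwk
  have hg := hf.replace w r fun i hi => (hw i).2 hi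
  refine key2 _ hg (le_antisymm (hg.cnt htri p).1 ?_)
  refine three_le_sum _ a b w hab haw hbw ?_ ?_ ?_
  · rw [Function.update_of_ne haw, ad, if_pos (hj a hja hak)]
  · rw [Function.update_of_ne hbw, ad, if_pos (hj b hjb hbk)]
  · rw [Function.update_self, ad, if_pos hpr]

theorem copy_degs {f : Fin 8 → V} (hf : IsCopy G f) (hn : Fintype.card V = 19)
    (htri : ∀ a b c, G.Adj a b → G.Adj b c → ¬ G.Adj a c)
    (hδ : ∀ v, 7 ≤ deg G v) (h8 : 8 ≤ deg G (f 0)) :
    deg G (f 0) = 8 ∧ (∀ i, i ≠ 0 → deg G (f i) = 7) ∧ ∀ z, ∑ i, ad G z (f i) = 3 := by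
  have h1 := sum_deg_copy (G := G) f
  have h4 : ∀ z, ∑ i, ad G z (f i) ≤ 3 := fun z => (hf.cnt htri z).1
  have h5 : ∑ z, ∑ i, ad G z (f i) ≤ ∑ z : V, 3 := Finset.sum_le_sum fun z _ => h4 z
  have h6 : ∑ z : V, 3 = 57 := by simp [hn]
  have h7 : ∑ i, deg G (f i) = deg G (f 0) + deg G (f 1) + deg G (f 2) + deg G (f 3) +
    deg G (f 4) + deg G (f 5) + deg G (f 6) + deg G (f 7) := Fin.sum_univ_eight _
  have d1 := hδ (f 1)
  have d2 := hδ (f 2)
  have d3 := hδ (f 3)
  have d4 := hδ (f 4)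
  have d5 := hδ (f 5)
  have d6 := hδ (f 6)
  have d7 := hδ (f 7)
  refine ⟨by omega, ?_, ?_⟩
  · intro i hi
    fin_cases i <;> simp only [Fin.reduceFinMk, Fin.isValue] at hi ⊢ <;>
      first | (exact absurd rfl hi) | omega
  · have h10 : ∑ z, ∑ i, ad G z (f i) = ∑ z : V, 3 := by omega
    intro z
    exact (Finset.sum_eq_sum_iff_of_le (fun z _ => h4 z)).1 h10 z (Finset.mem_univ z)

theorem exists_eight (hn : Fintype.card V = 19) (hδ : ∀ v, 7 ≤ deg G v) :
    ∃ p, 8 ≤ deg G p := by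
  by_contra hcon
  push Not at hcon
  have h7 : ∀ v, G.degree v = 7 := by
    intro v
    have h1 := hδ v
    have h2 := hcon v
    have h3 : G.degree v = deg G v := by
      rw [deg, SimpleGraph.degree]
      congr 1
      ext u
      simp
    omega
  have h := G.sum_degrees_eq_twice_card_edges
  simp only [h7, Finset.sum_const, Finset.card_univ, hn] at h
  simp only [smul_eq_mul] at h
  omega

theorem from_copy {f : Fin 8 → V} (hf : IsCopy G f) (hn : Fintype.card V = 19)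
    (htri : ∀ a b c, G.Adj a b → G.Adj b c → ¬ G.Adj a c)
    (hmax : ∀ a b, a ≠ b → ¬ G.Adj a b → ∃ x, G.Adj a x ∧ G.Adj x b)
    (hδ : ∀ v, 7 ≤ deg G v) :
    ∃ P Q : Finset V, P.card = 3 ∧ Q.card = 8 ∧ (∀ p ∈ P, ∀ q ∈ Q, G.Adj p q) ∧
      ∀ q ∈ Q, (Finset.univ.filter (G.Adj q)).card = 7 := by
  obtain ⟨p, hp8⟩ := exists_eight (G := G) hn hδ
  obtain ⟨g, hg, hg0⟩ := copy_through hf hn htri hmax hδ p
  clear hf f
  subst hg0
  obtain ⟨hd0, hd, hcnt⟩ := copy_degs hg hn htri hδ hp8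
  have hex : ∀ z, ∃ j, ∀ i, G.Adj z (g i) ↔ Nb j i := fun z => (hg.cnt htri z).2 (hcnt z)
  choose c hc using hex
  have hn0 : (Finset.univ.filter (fun z => c z = 0)).card = 3 := by
    have e : ∀ i, deg G (g i) = (Finset.univ.filter (fun z => c z = i + 1)).card +
        (Finset.univ.filter (fun z => c z = i - 1)).card +
        (Finset.univ.filter (fun z => c z = i + 4)).card := by
      intro i
      rw [deg_eq, Finset.card_filter, Finset.card_filter, Finset.card_filter,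
        ← Finset.sum_add_distrib, ← Finset.sum_add_distrib]
      refine Finset.sum_congr rfl fun z _ => ?_
      have h1 := wagner_sum i (c z)
      have h2 : ad G z (g i) = if Nb (c z) i then 1 else 0 := by
        rw [ad]
        exact if_congr (hc z i) rfl rfl
      rw [h2]
      convert h1
    have e0 := e 0
    have e1 := e 1
    have e2 := e 2
    have e3 := e 3
    have e4 := e 4
    have e5 := e 5
    have e6 := e 6
    have e7 := e 7
    have f1 := hd 1 (by decide)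
    have f2 := hd 2 (by decide)
    have f3 := hd 3 (by decide)
    have f4 := hd 4 (by decide)
    have f5 := hd 5 (by decide)
    have f6 := hd 6 (by decide)
    have f7 := hd 7 (by decide)
    simp only [Fin.isValue, Fin.reduceAdd, Fin.reduceSub] at e0 e1 e2 e3 e4 e5 e6 e7
    omega
  have hP : ∀ p, c p = 0 → ∀ z, G.Adj z p → G.Adj z (g 0) := by
    intro p hp z hzp
    rw [hc]
    by_contra hcon
    obtain ⟨i, hi1, hi2⟩ := wagner_zero (c z) hcon
    have h1 := (hc z i).2 hi1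
    have h2 := (hc p i).2 (by rw [hp]; exact hi2)
    exact htri z p (g i) hzp h2 h1
  refine ⟨Finset.univ.filter (fun z => c z = 0), Finset.univ.filter (G.Adj (g 0)), hn0,
    hd0, ?_, ?_⟩
  · intro p hp q hq
    rw [Finset.mem_filter] at hp hq
    have hp := hp.2
    have hq := hq.2
    by_contra hcon
    have hqp : q ≠ p := by
      rintro rfl
      have := (hc q 0).1 hq.symm
      rw [hp] at this
      revert this
      decide
    obtain ⟨r, hr1, hr2⟩ := hmax q p hqp (fun h => hcon h.symm)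
    have := hP p hp r hr2
    exact htri q r (g 0) hr1 this hq.symm
  · intro q hq
    rw [Finset.mem_filter] at hq
    have hq := hq.2
    have h0 : Nb (c q) 0 := (hc q 0).1 hq.symm
    have hne : c q ≠ 0 := by
      intro h
      rw [h] at h0
      revert h0
      decide
    have hg' := hg.replace (c q) q (fun i hi => (hc q i).2 hi)
    have h0' : Function.update g (c q) q 0 = g 0 := Function.update_of_ne hne.symm _ _
    have := (copy_degs hg' hn htri hδ (by rw [h0']; exact hp8)).2.1 (c q) hne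
    rw [Function.update_self] at this
    exact this

end

end Nineteen

open Nineteen in
/-- A maximal triangle-free graph on 19 vertices of minimum degree at least 7 with a pentagon
is either attached to this pentagon, or it contains three vertices with the same eight
neighbours, all of which have degree 7. -/
theorem nineteen {V : Type*} [Fintype V] (hn : Fintype.card V = 19) (G : SimpleGraph V)
    (htri : ∀ a b c, G.Adj a b → G.Adj b c → ¬ G.Adj a c)
    (hmax : ∀ a b, a ≠ b → ¬ G.Adj a b → ∃ x, G.Adj a x ∧ G.Adj x b)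
    (hδ : ∀ v, 7 ≤ (Finset.univ.filter (G.Adj v)).card)
    (s : ZMod 5 → V) (hs : ∀ i, G.Adj (s i) (s (i + 1))) :
    (∀ v, ∃ i, G.Adj v (s (i - 1)) ∧ G.Adj v (s (i + 1))) ∨
    ∃ P Q : Finset V, P.card = 3 ∧ Q.card = 8 ∧ (∀ p ∈ P, ∀ q ∈ Q, G.Adj p q) ∧
      ∀ q ∈ Q, (Finset.univ.filter (G.Adj q)).card = 7 := by
  by_cases hatt : ∀ v, ∃ i, G.Adj v (s (i - 1)) ∧ G.Adj v (s (i + 1))
  · exact Or.inl hatt
  right
  push Not at hatt
  obtain ⟨v, hv⟩ := hatt
  have hδ' : ∀ v, 7 ≤ deg G v := hδ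
  -- rotate such that `v` is adjacent to no `s i`, `i ≠ 0`
  have hrot : ∃ s' : ZMod 5 → V, (∀ i, G.Adj (s' i) (s' (i + 1))) ∧
      (∀ i, ¬ (G.Adj v (s' (i - 1)) ∧ G.Adj v (s' (i + 1)))) ∧
      (G.Adj v (s' 0) ∨ ∀ i, ¬ G.Adj v (s' i)) := by
    by_cases h : ∃ i, G.Adj v (s i)
    · obtain ⟨k, hk⟩ := h
      refine ⟨fun i => s (i + k), ?_, ?_, ?_⟩
      · intro i
        have := hs (i + k)
        rwa [add_right_comm] at this
      · rintro i ⟨h1, h2⟩
        have h3 := hv (i + k)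
        have e1 : i - 1 + k = i + k - 1 := by ring
        have e2 : i + 1 + k = i + k + 1 := by ring
        simp only [e1] at h1
        simp only [e2] at h2
        exact h3 h1 h2
      · left
        simpa using hk
    · push Not at h
      exact ⟨s, hs, fun i h => hv i h.1 h.2, Or.inr h⟩
  clear hv hs
  obtain ⟨t, ht, hv, hv0⟩ := hrot
  -- adjacency facts on the pentagon
  have t01 : G.Adj (t 0) (t 1) := ht 0
  have t12 : G.Adj (t 1) (t 2) := ht 1
  have t23 : G.Adj (t 2) (t 3) := ht 2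
  have t34 : G.Adj (t 3) (t 4) := ht 3
  have t40 : G.Adj (t 4) (t 0) := ht 4
  have n02 : ¬ G.Adj (t 0) (t 2) := htri _ _ _ t01 t12
  have n13 : ¬ G.Adj (t 1) (t 3) := htri _ _ _ t12 t23
  have n24 : ¬ G.Adj (t 2) (t 4) := htri _ _ _ t23 t34
  have n30 : ¬ G.Adj (t 3) (t 0) := htri _ _ _ t34 t40
  have n41 : ¬ G.Adj (t 4) (t 1) := htri _ _ _ t40 t01
  have v0 : ¬ (G.Adj v (t 4) ∧ G.Adj v (t 1)) := hv 0
  have v1 : ¬ (G.Adj v (t 0) ∧ G.Adj v (t 2)) := hv 1
  have v2 : ¬ (G.Adj v (t 1) ∧ G.Adj v (t 3)) := hv 2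
  have v3 : ¬ (G.Adj v (t 2) ∧ G.Adj v (t 4)) := hv 3
  have v4 : ¬ (G.Adj v (t 3) ∧ G.Adj v (t 0)) := hv 4
  have w0 : v ≠ t 0 := by rintro h; rw [h] at v0; exact v0 ⟨t40.symm, t01⟩
  have w1 : v ≠ t 1 := by rintro h; rw [h] at v1; exact v1 ⟨t01.symm, t12⟩
  have w2 : v ≠ t 2 := by rintro h; rw [h] at v2; exact v2 ⟨t12.symm, t23⟩
  have w3 : v ≠ t 3 := by rintro h; rw [h] at v3; exact v3 ⟨t23.symm, t34⟩
  have w4 : v ≠ t 4 := by rintro h; rw [h] at v4; exact v4 ⟨t34.symm, t40⟩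
  have d02 : t 0 ≠ t 2 := by intro h; rw [h] at n30; exact n30 t23.symm
  have d13 : t 1 ≠ t 3 := by intro h; rw [h] at n41; exact n41 t34.symm
  have d24 : t 2 ≠ t 4 := by intro h; rw [h] at n02; exact n02 t40.symm
  have d30 : t 3 ≠ t 0 := by intro h; rw [h] at n13; exact n13 t01.symm
  have d41 : t 4 ≠ t 1 := by intro h; rw [h] at n24; exact n24 t12.symm
  rcases hv0 with hv0 | hv0
  · have a1 : ¬ G.Adj v (t 1) := htri _ _ _ hv0 t01
    have a4 : ¬ G.Adj v (t 4) := htri _ _ _ hv0 t40.symm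
    have a2 : ¬ G.Adj v (t 2) := fun h => v1 ⟨hv0, h⟩
    have a3 : ¬ G.Adj v (t 3) := fun h => v4 ⟨h, hv0⟩
    obtain ⟨y, yv, y1, y3⟩ := p3 G hn htri hmax hδ' v (t 1) (t 3) w1 d13 w3 a1 n13 a3
    obtain ⟨x, xv, x2, x4⟩ := p3 G hn htri hmax hδ' v (t 2) (t 4) w2 d24 w4 a2 n24 a4
    have hc : IsCopy G ![t 0, t 1, t 2, x, v, y, t 3, t 4] := by
      intro i
      fin_cases i
      exacts [⟨t01, hv0.symm⟩, ⟨t12, y1.symm⟩, ⟨x2.symm, t23⟩, ⟨xv, x4⟩, ⟨yv.symm, hv0⟩,
        ⟨y3, y1⟩, ⟨t34, t23.symm⟩, ⟨t40, x4.symm⟩]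
    exact from_copy hc hn htri hmax hδ'
  · exfalso
    obtain ⟨a0, av0, a04, a01⟩ := p3 G hn htri hmax hδ' v (t 4) (t 1) w4 d41 w1 (hv0 4) n41
      (hv0 1)
    obtain ⟨a1, av1, a10, a12⟩ := p3 G hn htri hmax hδ' v (t 0) (t 2) w0 d02 w2 (hv0 0) n02
      (hv0 2)
    obtain ⟨a2, av2, a21, a23⟩ := p3 G hn htri hmax hδ' v (t 1) (t 3) w1 d13 w3 (hv0 1) n13
      (hv0 3)
    have hsum : ∑ z, (ad G z (t 0) + ad G z (t 1) + ad G z (t 2) + 2 * ad G z (t 3) +
        2 * ad G z (t 4) + ad G z v + ad G z a0 + ad G z a1 + ad G z a2) ≤ ∑ z : V, 4 := by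
      refine Finset.sum_le_sum fun z _ => ?_
      have hb : ∀ x y, G.Adj x y → (decide (G.Adj z x) && decide (G.Adj z y)) = false := by
        intro x y hxy
        rw [Bool.and_eq_false_iff, decide_eq_false_iff_not, decide_eq_false_iff_not]
        by_contra hcon
        push Not at hcon
        exact htri z x y hcon.1 hxy hcon.2
      simp only [ad_eq]
      exact conf_bool _ _ _ _ _ _ _ _ _ (hb _ _ t01) (hb _ _ t12) (hb _ _ t23) (hb _ _ t34)
        (hb _ _ t40) (hb _ _ av0.symm) (hb _ _ av1.symm) (hb _ _ av2.symm) (hb _ _ a04)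
        (hb _ _ a01) (hb _ _ a10) (hb _ _ a12) (hb _ _ a21) (hb _ _ a23)
    have h4 : ∑ z : V, 4 = 76 := by simp [hn]
    simp only [Finset.sum_add_distrib, ← deg_eq, ← Finset.mul_sum, h4] at hsum
    have e0 := hδ' (t 0)
    have e1 := hδ' (t 1)
    have e2 := hδ' (t 2)
    have e3 := hδ' (t 3)
    have e4 := hδ' (t 4)
    have e5 := hδ' v
    have e6 := hδ' a0
    have e7 := hδ' a1
    have e8 := hδ' a2
    omega

end Pool.Agent.Lib.MP_633d19_co
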