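import Mathlib

section

section

/-!
Maximal triangle-free graphs: either a blow-up of the pentagon, or they contain one of two
small configurations.
-/

namespace Pool.Agent.Lib.MP_633d19_co

open Classical

/-- every triangle-free graph is contained in a maximal one -/
theorem exists_maximal_tri {V : Type*} [Fintype V] (G0 : SimpleGraph V)
    (h : ∀ a b c, G0.Adj a b → G0.Adj b c → ¬ G0.Adj a c) :
    ∃ G : SimpleGraph V, G0 ≤ G ∧ (∀ a b c, G.Adj a b → G.Adj b c → ¬ G.Adj a c) ∧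
      ∀ a b, a ≠ b → ¬ G.Adj a b → ∃ x, G.Adj a x ∧ G.Adj x b := by
  obtain ⟨G, hG, hmax⟩ := (Set.toFinite {G : SimpleGraph V | 
    ∀ a b c, G.Adj a b → G.Adj b c → ¬ G.Adj a c}).exists_le_maximal h
  have htri : ∀ a b c, G.Adj a b → G.Adj b c → ¬ G.Adj a c := hmax.1
  refine ⟨G, hG, htri, fun a b hab hn => ?_⟩
  by_contra hno
  push Not at hno
  have h2 : ∀ x y z, (G ⊔ SimpleGraph.edge a b).Adj x y → (G ⊔ SimpleGraph.edge a b).Adj y z → 
      ¬ (G ⊔ SimpleGraph.edge a b).Adj x z := by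
    intro x y z hxy hyz hxz
    have n1 := hxy.ne
    have n2 := hyz.ne
    have n3 := hxz.ne
    rw [SimpleGraph.sup_adj, SimpleGraph.edge_adj] at hxy hyz hxz
    rcases hxy with hxy | ⟨⟨e1, e2⟩ | ⟨e1, e2⟩, _⟩ <;>
    rcases hyz with hyz | ⟨⟨e3, e4⟩ | ⟨e3, e4⟩, _⟩ <;>
    rcases hxz with hxz | ⟨⟨e5, e6⟩ | ⟨e5, e6⟩, _⟩ <;>
    subst_vars <;>
    first
    | exact absurd rfl n1
    | exact absurd rfl n2
    | exact absurd rfl n3
    | exact htri _ _ _ hxy hyz hxz
    | exact hno _ hxy hyz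
    | exact hno _ hyz.symm hxy.symm
    | exact hno _ hxy.symm hxz
    | exact hno _ hxz.symm hxy
    | exact hno _ hxz hyz.symm
    | exact hno _ hyz hxz.symm
  have h3 := hmax.2 (y := G ⊔ SimpleGraph.edge a b) h2 le_sup_left
  exact hn (h3 (by rw [SimpleGraph.sup_adj, SimpleGraph.edge_adj]; exact Or.inr ⟨Or.inl ⟨rfl, rfl⟩, hab⟩))

/-- in a maximal triangle-free graph which is not bipartite every edge lies in a pentagon -/
theorem edge_in_pentagon {V : Type*} [Fintype V] (G : SimpleGraph V)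
    (htri : ∀ a b c, G.Adj a b → G.Adj b c → ¬ G.Adj a c)
    (hmax : ∀ a b, a ≠ b → ¬ G.Adj a b → ∃ x, G.Adj a x ∧ G.Adj x b)
    (hnb : ¬ ∃ P : V → Prop, ∀ a b, G.Adj a b → (P a ↔ ¬ P b))
    {p q : V} (hpq : G.Adj p q) :
    ∃ s : ZMod 5 → V, (∀ i, G.Adj (s i) (s (i + 1))) ∧ s 0 = p ∧ s 1 = q := by
  have hr : ∃ r, ¬ G.Adj r p ∧ ¬ G.Adj r q := by
    by_contra hno
    push Not at hno
    refine hnb ⟨fun a => G.Adj a p, fun a b hab => ⟨fun ha hb => ?_, fun hb => ?_⟩⟩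
    · exact htri _ _ _ hab hb ha
    · by_contra ha
      exact htri _ _ _ hab (hno b hb) (hno a ha)
  obtain ⟨r, hrp, hrq⟩ := hr
  have n1 : p ≠ r := by rintro rfl; exact hrq hpq
  have n2 : q ≠ r := by rintro rfl; exact hrp hpq.symm
  obtain ⟨a, hpa, har⟩ := hmax p r n1 (fun h => hrp h.symm)
  obtain ⟨c, hqc, hcr⟩ := hmax q r n2 (fun h => hrq h.symm)
  refine ⟨(![p, q, c, r, a] : Fin 5 → V), ?_, rfl, rfl⟩
  intro i
  fin_cases i
  · exact hpq
  · exact hqc
  · exact hcr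
  · exact har.symm
  · exact hpa.symm

section aux

variable {V : Type*} (G : SimpleGraph V)
    (htri : ∀ a b c, G.Adj a b → G.Adj b c → ¬ G.Adj a c)

include htri

lemma c5_adj (s : ZMod 5 → V) (hs : ∀ i, G.Adj (s i) (s (i + 1))) {z : V} {i j : ZMod 5}
    (h1 : G.Adj z (s i)) (h2 : G.Adj z (s j)) : i = j ∨ j = i + 2 ∨ i = j + 2 := by
  have h3 : j ≠ i + 1 := by
    rintro rfl; exact htri _ _ _ h1 (hs i) h2
  have h4 : i ≠ j + 1 := by
    rintro rfl; exact htri _ _ _ h2 (hs j) h1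
  clear h1 h2
  revert i j
  decide

lemma c5_inj {n : ℕ} (f : Fin n → V) (A : Fin n → Fin n → Bool)
    (hA : ∀ j k, A j k = true → G.Adj (f j) (f k))
    (hw : ∀ j k, j ≠ k → A j k = true ∨ ∃ a b, A j a = true ∧ A a b = true ∧ A b k = true) :
    Function.Injective f := by
  intro j k hjk
  by_contra hne
  rcases hw j k hne with h | ⟨a, b, h1, h2, h3⟩
  · have := hA _ _ h
    rw [hjk] at this
    exact this.ne rfl
  · have e1 := hA _ _ h1
    have e2 := hA _ _ h2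
    have e3 := hA _ _ h3
    rw [← hjk] at e3
    exact htri _ _ _ e1 e2 e3.symm

omit htri in
lemma c5_bool {n : ℕ} (E : Finset (Fin n × Fin n)) {f : Fin n → V} (hE : ∀ e ∈ E, G.Adj (f e.1) (f e.2)) :
    ∀ j k, decide ((j, k) ∈ E ∨ (k, j) ∈ E) = true → G.Adj (f j) (f k) := by
  intro j k h
  rcases of_decide_eq_true h with h | h
  · exact hE _ h
  · exact (hE _ h).symm


lemma c5_case1 (hmax : ∀ a b, a ≠ b → ¬ G.Adj a b → ∃ x, G.Adj a x ∧ G.Adj x b)
    (s : ZMod 5 → V) (hs : ∀ i, G.Adj (s i) (s (i + 1))) (v : V) (hv0 : G.Adj v (s 0))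
    (hk : ∀ k, k ≠ 0 → ¬ G.Adj v (s k)) :
    (∃ f : Fin 8 → V, Function.Injective f ∧
      ∀ z, (∑ j, if G.Adj z (f j) then 1 else 0) ≤ 3) ∨
    (∃ (f : Fin 9 → V) (ω : Fin 9 → ℕ), Function.Injective f ∧ (∀ j, ω j ≤ 2) ∧
      ∑ j, ω j = 11 ∧ ∀ z, (∑ j, if G.Adj z (f j) then ω j else 0) ≤ 4) := by
  have e01 : G.Adj (s 0) (s 1) := hs 0
  have e12 : G.Adj (s 1) (s 2) := hs 1
  have e23 : G.Adj (s 2) (s 3) := hs 2
  have e34 : G.Adj (s 3) (s 4) := hs 3
  have e40 : G.Adj (s 4) (s 0) := hs 4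
  have nv2 : v ≠ s 2 := by
    rintro rfl
    exact hk 1 (by decide) e12.symm
  have nv3 : v ≠ s 3 := by
    rintro rfl
    exact hk 2 (by decide) e23.symm
  obtain ⟨x, hvx, hx2⟩ := hmax v (s 2) nv2 (hk 2 (by decide))
  obtain ⟨y, hvy, hy3⟩ := hmax v (s 3) nv3 (hk 3 (by decide))
  by_cases hu : ∃ u, G.Adj u (s 1) ∧ G.Adj u x ∧ G.Adj u y ∧ G.Adj u (s 4)
  · right
    obtain ⟨u, u1, ux, uy, u4⟩ := hu
    let f : Fin 9 → V := ![s 0, s 1, s 2, s 3, s 4, v, x, y, u]
    let E : Finset (Fin 9 × Fin 9) := {(0, 1), (1, 2), (2, 3), (3, 4), (4, 0), (5, 0), (5, 6),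
      (5, 7), (6, 2), (7, 3), (8, 1), (8, 4), (8, 6), (8, 7)}
    have hE : ∀ e ∈ E, G.Adj (f e.1) (f e.2) := by
      simp only [E, f, Finset.forall_mem_insert, Finset.mem_singleton, forall_eq]
      exact ⟨e01, e12, e23, e34, e40, hv0, hvx, hvy, hx2, hy3, u1, u4, ux, uy⟩
    refine ⟨f, ![2, 1, 1, 1, 1, 2, 1, 1, 1], ?_, by decide, by decide, fun z => ?_⟩
    · refine c5_inj G htri f _ (c5_bool G E hE) ?_
      decide +kernel
    · have hz : ∀ e ∈ E, ¬ (G.Adj z (f e.1) ∧ G.Adj z (f e.2)) := fun e he h =>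
        htri _ _ _ h.1 (hE e he) h.2
      have hb : ∀ b : Fin 9 → Bool, (∀ e ∈ E, ¬ (b e.1 = true ∧ b e.2 = true)) →
          ∑ j, (if b j = true then (![2, 1, 1, 1, 1, 2, 1, 1, 1] : Fin 9 → ℕ) j else 0) ≤ 4 := by
        decide +kernel
      have := hb (fun j => decide (G.Adj z (f j))) (by simpa using hz)
      simpa using this
  · left
    let f : Fin 8 → V := ![s 0, s 1, s 2, x, v, y, s 3, s 4]
    let E : Finset (Fin 8 × Fin 8) := {(0, 1), (1, 2), (2, 3), (3, 4), (4, 5), (5, 6), (6, 7),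
      (7, 0), (0, 4), (2, 6)}
    have hE : ∀ e ∈ E, G.Adj (f e.1) (f e.2) := by
      simp only [E, f, Finset.forall_mem_insert, Finset.mem_singleton, forall_eq]
      exact ⟨e01, e12, hx2.symm, hvx.symm, hvy, hy3, e34, e40, hv0.symm, e23⟩
    refine ⟨f, ?_, fun z => ?_⟩
    · refine c5_inj G htri f _ (c5_bool G E hE) ?_
      decide +kernel
    · have hz : ∀ e ∈ E, ¬ (G.Adj z (f e.1) ∧ G.Adj z (f e.2)) := fun e he h =>
        htri _ _ _ h.1 (hE e he) h.2
      have hb : ∀ b : Fin 8 → Bool, (∀ e ∈ E, ¬ (b e.1 = true ∧ b e.2 = true)) →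
          ¬ (b 1 = true ∧ b 3 = true ∧ b 5 = true ∧ b 7 = true) → 
          ∑ j, (if b j = true then 1 else 0) ≤ 3 := by
        decide +kernel
      have := hb (fun j => decide (G.Adj z (f j))) (by simpa using hz) (by
        simp only [decide_eq_true_eq]
        exact fun h => hu ⟨z, h.1, h.2.1, h.2.2.1, h.2.2.2⟩)
      simpa using this

lemma c5_case2 (s : ZMod 5 → V) (hs : ∀ i, G.Adj (s i) (s (i + 1))) (v a0 a1 a2 : V) 
    (v0 : G.Adj v a0) (v1 : G.Adj v a1) (v2 : G.Adj v a2)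
    (h04 : G.Adj a0 (s 4)) (h01 : G.Adj a0 (s 1)) (h10 : G.Adj a1 (s 0)) (h12 : G.Adj a1 (s 2))
    (h21 : G.Adj a2 (s 1)) (h23 : G.Adj a2 (s 3)) :
    (∃ (f : Fin 9 → V) (ω : Fin 9 → ℕ), Function.Injective f ∧ (∀ j, ω j ≤ 2) ∧
      ∑ j, ω j = 11 ∧ ∀ z, (∑ j, if G.Adj z (f j) then ω j else 0) ≤ 4) := by
  have e01 : G.Adj (s 0) (s 1) := hs 0
  have e12 : G.Adj (s 1) (s 2) := hs 1
  have e23 : G.Adj (s 2) (s 3) := hs 2
  have e34 : G.Adj (s 3) (s 4) := hs 3
  have e40 : G.Adj (s 4) (s 0) := hs 4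
  let f : Fin 9 → V := ![s 0, s 1, s 2, s 3, s 4, v, a0, a1, a2]
  let E : Finset (Fin 9 × Fin 9) := {(0, 1), (1, 2), (2, 3), (3, 4), (4, 0), (5, 6), (5, 7),
      (5, 8), (6, 4), (6, 1), (7, 0), (7, 2), (8, 1), (8, 3)}
  have hE : ∀ e ∈ E, G.Adj (f e.1) (f e.2) := by
    simp only [E, f, Finset.forall_mem_insert, Finset.mem_singleton, forall_eq]
    exact ⟨e01, e12, e23, e34, e40, v0, v1, v2, h04, h01, h10, h12, h21, h23⟩
  refine ⟨f, ![1, 1, 1, 2, 2, 1, 1, 1, 1], ?_, by decide, by decide, fun z => ?_⟩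
  · refine c5_inj G htri f _ (c5_bool G E hE) ?_
    decide +kernel
  · have hz : ∀ e ∈ E, ¬ (G.Adj z (f e.1) ∧ G.Adj z (f e.2)) := fun e he h =>
      htri _ _ _ h.1 (hE e he) h.2
    have hb : ∀ b : Fin 9 → Bool, (∀ e ∈ E, ¬ (b e.1 = true ∧ b e.2 = true)) →
        ∑ j, (if b j = true then (![1, 1, 1, 2, 2, 1, 1, 1, 1] : Fin 9 → ℕ) j else 0) ≤ 4 := by
      decide +kernel
    have := hb (fun j => decide (G.Adj z (f j))) (by simpa using hz)
    simpa using this

end aux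

/-- the structure of a maximal triangle-free graph with a pentagon `s` -/
theorem c5_structure {V : Type*} [Fintype V] (G : SimpleGraph V)
    (htri : ∀ a b c, G.Adj a b → G.Adj b c → ¬ G.Adj a c)
    (hmax : ∀ a b, a ≠ b → ¬ G.Adj a b → ∃ x, G.Adj a x ∧ G.Adj x b)
    (s : ZMod 5 → V) (hs : ∀ i, G.Adj (s i) (s (i + 1))) :
    (∀ v, ∃ i, G.Adj v (s (i - 1)) ∧ G.Adj v (s (i + 1))) ∨
    (∃ f : Fin 8 → V, Function.Injective f ∧
      ∀ z, (∑ j, if G.Adj z (f j) then 1 else 0) ≤ 3) ∨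
    (∃ (f : Fin 9 → V) (ω : Fin 9 → ℕ), Function.Injective f ∧ (∀ j, ω j ≤ 2) ∧
      ∑ j, ω j = 11 ∧ ∀ z, (∑ j, if G.Adj z (f j) then ω j else 0) ≤ 4) := by
  by_cases hall : ∀ v, ∃ i, G.Adj v (s (i - 1)) ∧ G.Adj v (s (i + 1))
  · exact Or.inl hall
  right
  by_cases h1 : ∃ v, (¬ ∃ i, G.Adj v (s (i - 1)) ∧ G.Adj v (s (i + 1))) ∧ ∃ i, G.Adj v (s i)
  · obtain ⟨v, hv, i, hvi⟩ := h1
    refine c5_case1 G htri hmax (fun k => s (k + i)) (fun k => ?_) v (by simpa using hvi)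
      (fun k hk hvk => ?_)
    · have := hs (k + i)
      rwa [show k + i + 1 = k + 1 + i by ring] at this
    · rcases c5_adj G htri s hs hvi hvk with h | h | h
      · exact hk (by linear_combination -h)
      · refine hv ⟨i + 1, ?_, ?_⟩
        · simpa using hvi
        · rw [show i + 1 + 1 = i + 2 by ring, ← h]; exact hvk
      · refine hv ⟨k + i + 1, ?_, ?_⟩
        · simpa using hvk
        · rw [show k + i + 1 + 1 = k + i + 2 by ring, ← h]; exact hvi
  · right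
    push Not at h1
    obtain ⟨v, hv⟩ := not_forall.1 hall
    have hv' : ∀ i, ¬ G.Adj v (s i) := h1 v (by push Not at hv; exact hv)
    -- the classes of the neighbours of `v`
    have hC : ∀ i, (∃ y, G.Adj v y ∧ G.Adj y (s (i - 1 - 1)) ∧ G.Adj y (s (i - 1 + 1))) ∨
        (∃ y, G.Adj v y ∧ G.Adj y (s (i + 1 - 1)) ∧ G.Adj y (s (i + 1 + 1))) := by
      intro i
      have hne : v ≠ s i := by
        rintro rfl
        have h := hs (i - 1)
        rw [sub_add_cancel] at h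
        exact hv' _ h.symm
      obtain ⟨y, hvy, hyi⟩ := hmax v (s i) hne (hv' i)
      have hy : ∃ j, G.Adj y (s (j - 1)) ∧ G.Adj y (s (j + 1)) := by
        by_contra hcon
        push Not at hcon
        exact h1 y hcon i hyi
      obtain ⟨j, hj1, hj2⟩ := hy
      have a1 := c5_adj G htri s hs hyi hj1
      have a2 := c5_adj G htri s hs hyi hj2
      have h3 : j = i - 1 ∨ j = i + 1 := by
        clear hj1 hj2 hyi hne
        revert i j
        decide
      rcases h3 with rfl | rfl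
      · exact Or.inl ⟨y, hvy, hj1, hj2⟩
      · exact Or.inr ⟨y, hvy, hj1, hj2⟩
    have hfin : ∀ c : ZMod 5 → Bool, (∀ i, c (i - 1) = true ∨ c (i + 1) = true) → 
        ∃ j, c j = true ∧ c (j + 1) = true ∧ c (j + 2) = true := by
      decide +kernel
    obtain ⟨j, c0, c1, c2⟩ := hfin 
      (fun i => decide (∃ y, G.Adj v y ∧ G.Adj y (s (i - 1)) ∧ G.Adj y (s (i + 1))))
      (by simpa using hC)
    simp only [decide_eq_true_eq] at c0 c1 c2
    obtain ⟨a0, v0, h04, h01⟩ := c0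
    obtain ⟨a1, v1, h10, h12⟩ := c1
    obtain ⟨a2, v2, h21, h23⟩ := c2
    have r : ∀ (k l : ZMod 5), k = l → s k = s l := fun k l h => by rw [h]
    refine c5_case2 G htri (fun k => s (k + j)) (fun k => ?_) v a0 a1 a2 v0 v1 v2 
      ?_ ?_ ?_ ?_ ?_ ?_
    · have := hs (k + j)
      rwa [show k + j + 1 = k + 1 + j by ring] at this
    · have h4 : ∀ j : ZMod 5, 4 + j = j - 1 := by decide
      rw [r (4 + j) (j - 1) (h4 j)]; exact h04
    · rw [r (1 + j) (j + 1) (by ring)]; exact h01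
    · rw [r (0 + j) (j + 1 - 1) (by ring)]; exact h10
    · rw [r (2 + j) (j + 1 + 1) (by ring)]; exact h12
    · rw [r (1 + j) (j + 2 - 1) (by ring)]; exact h21
    · rw [r (3 + j) (j + 2 + 1) (by ring)]; exact h23

/-- if all the vertices are attached to the pentagon, there is a homomorphism to the
pentagon -/
theorem exists_hom_of_attached {V : Type*} [Fintype V] (G : SimpleGraph V)
    (htri : ∀ a b c, G.Adj a b → G.Adj b c → ¬ G.Adj a c)
    (s : ZMod 5 → V) (hs : ∀ i, G.Adj (s i) (s (i + 1)))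
    (h : ∀ v, ∃ i, G.Adj v (s (i - 1)) ∧ G.Adj v (s (i + 1))) :
    ∃ A : V → ZMod 5, (∀ u v, G.Adj u v → A v = A u + 1 ∨ A u = A v + 1) ∧
      ∀ i, ∃ v, A v = i := by
  choose A hA using h
  refine ⟨A, fun u v huv => ?_, fun i => ⟨s i, ?_⟩⟩
  · obtain ⟨u1, u2⟩ := hA u
    obtain ⟨v1, v2⟩ := hA v
    have n1 : A u - 1 ≠ A v - 1 := fun h => htri _ _ _ huv v1 (h ▸ u1)
    have n2 : A u - 1 ≠ A v + 1 := fun h => htri _ _ _ huv v2 (h ▸ u1)
    have n3 : A u + 1 ≠ A v - 1 := fun h => htri _ _ _ huv v1 (h ▸ u2)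
    generalize A u = a at *
    generalize A v = b at *
    clear u1 u2 v1 v2
    revert a b
    decide
  · obtain ⟨u1, u2⟩ := hA (s i)
    have h1 := hs i
    have h2 := hs (i - 1)
    rw [sub_add_cancel] at h2
    have a1 := c5_adj G htri s hs u1 h1
    have a2 := c5_adj G htri s hs u2 h1
    have a3 := c5_adj G htri s hs u1 h2.symm
    have a4 := c5_adj G htri s hs u2 h2.symm
    generalize A (s i) = b at *
    clear u1 u2 h1 h2
    revert i b
    decide

end Pool.Agent.Lib.MP_633d19_co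
end

section

/-!
Inequalities for symmetric weights with values at most `μ`, with all the degrees at most `Δ`
and total deficiency at most `D`.
-/

namespace Pool.Agent.Lib.MP_633d19_co

open Classical

/-- the deficiencies add up to at most `D` -/
theorem c5ineq_def_sum {V : Type*} [Fintype V] (w : V → V → ℕ) {Δ D : ℕ}
    (hdeg : ∀ v, ∑ u, w v u ≤ Δ) (hD : Fintype.card V * Δ ≤ (∑ v, ∑ u, w v u) + D) :
    ∑ v, (Δ - ∑ u, w v u) ≤ D := by
  have h1 : ∑ v, (Δ - ∑ u, w v u) + ∑ v, ∑ u, w v u = Fintype.card V * Δ := by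
    rw [← Finset.sum_add_distrib]
    rw [Finset.sum_congr rfl fun v _ => Nat.sub_add_cancel (hdeg v)]
    simp
  omega

/-- weights on a blow-up of the pentagon -/
theorem c5_hom_ineq {V : Type*} [Fintype V] (w : V → V → ℕ) (hsymm : ∀ a b, w a b = w b a)
    {μ : ℕ} (hle : ∀ a b, w a b ≤ μ) (A : V → ZMod 5)
    (hA : ∀ u v, w u v ≠ 0 → A v = A u + 1 ∨ A u = A v + 1) {Δ D : ℕ}
    (hdeg : ∀ v, ∑ u, w v u ≤ Δ) (hD : Fintype.card V * Δ ≤ (∑ v, ∑ u, w v u) + D)
    (a : ZMod 5 → ℕ) (ha : ∀ i, a i = (Finset.univ.filter (fun v => A v = i)).card) :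
    (∀ i, Δ * (a i + a (i + 2) + a (i + 3)) ≤
      Δ * (a (i - 1) + a (i + 1)) + 2 * μ * (a (i + 2) * a (i + 3)) + D) ∧
    ∑ i, a i * (Δ - μ * (a (i - 1) + a (i + 1))) ≤ D := by
  have hdef := c5ineq_def_sum w hdeg hD
  -- degree of a vertex, split
  have hsplit : ∀ u : V, ∑ v, w u v = ∑ v ∈ Finset.univ.filter (fun v => A v = A u + 1), w u v +
      ∑ v ∈ Finset.univ.filter (fun v => A v = A u - 1), w u v := by
    intro u
    have hdisj : Disjoint (Finset.univ.filter (fun v => A v = A u + 1))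
        (Finset.univ.filter (fun v => A v = A u - 1)) := by
      rw [Finset.disjoint_left]
      intro v h1 h2
      rw [Finset.mem_filter] at h1 h2
      have h3 : A u + 1 = A u - 1 := h1.2.symm.trans h2.2
      have h4 : (2 : ZMod 5) = 0 := by linear_combination h3
      exact absurd h4 (by decide)
    rw [← Finset.sum_union hdisj]
    symm
    apply Finset.sum_subset (Finset.subset_univ _)
    intro v _ hv
    by_contra hne
    apply hv
    rw [Finset.mem_union, Finset.mem_filter, Finset.mem_filter]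
    rcases hA u v hne with h | h
    · exact Or.inl ⟨Finset.mem_univ _, h⟩
    · exact Or.inr ⟨Finset.mem_univ _, by rw [h]; ring⟩
  let X : ZMod 5 → ZMod 5 → ℕ := fun i j =>
    ∑ u ∈ Finset.univ.filter (fun v => A v = i), ∑ v ∈ Finset.univ.filter (fun v => A v = j), w u v
  have X_comm : ∀ i j, X i j = X j i := by
    intro i j
    simp only [X]
    rw [Finset.sum_comm]
    exact Finset.sum_congr rfl fun u _ => Finset.sum_congr rfl fun v _ => hsymm _ _
  have X_le : ∀ i j, X i j ≤ μ * (a i * a j) := by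
    intro i j
    simp only [X]
    calc _ ≤ ∑ u ∈ Finset.univ.filter (fun v => A v = i),
          ∑ v ∈ Finset.univ.filter (fun v => A v = j), μ :=
          Finset.sum_le_sum fun u _ => Finset.sum_le_sum fun v _ => hle u v
      _ = μ * (a i * a j) := by
          simp only [Finset.sum_const, smul_eq_mul]
          rw [ha i, ha j]
          ring
  let T : ZMod 5 → ℕ := fun j => X j (j + 1)
  let S : ZMod 5 → ℕ := fun j => ∑ u ∈ Finset.univ.filter (fun v => A v = j), ∑ v, w u v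
  let Fd : ZMod 5 → ℕ := fun j =>
    ∑ u ∈ Finset.univ.filter (fun v => A v = j), (Δ - ∑ v, w u v)
  have S_eq : ∀ j, S j = T j + T (j - 1) := by
    intro j
    have h1 : T (j - 1) = X j (j - 1) := by
      simp only [T, sub_add_cancel]
      exact X_comm _ _
    rw [h1]
    simp only [S, T, X]
    rw [← Finset.sum_add_distrib]
    refine Finset.sum_congr rfl fun u hu => ?_
    have hu' : A u = j := (Finset.mem_filter.1 hu).2
    rw [hsplit u, hu']
  have SF : ∀ j, Fd j + S j = Δ * a j := by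
    intro j
    simp only [Fd, S]
    rw [← Finset.sum_add_distrib]
    rw [Finset.sum_congr rfl fun v _ => Nat.sub_add_cancel (hdeg v)]
    rw [Finset.sum_const, ha j, smul_eq_mul, mul_comm]
  have Fsum : ∑ j, Fd j ≤ D := by
    have : ∑ j, Fd j = ∑ v, (Δ - ∑ u, w v u) :=
      Finset.sum_fiberwise Finset.univ A (fun v => Δ - ∑ u, w v u)
    rw [this]
    exact hdef
  constructor
  · intro i
    have hm1 : i - 1 = i + 4 := by
      have : (5 : ZMod 5) = 0 := by decide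
      linear_combination -this
    have e0 : S i = T i + T (i + 4) := by rw [S_eq i, hm1]
    have e1 : S (i + 1) = T (i + 1) + T i := by
      rw [S_eq (i + 1), show i + 1 - 1 = i by ring]
    have e2 : S (i + 2) = T (i + 2) + T (i + 1) := by
      rw [S_eq (i + 2), show i + 2 - 1 = i + 1 by ring]
    have e3 : S (i + 3) = T (i + 3) + T (i + 2) := by
      rw [S_eq (i + 3), show i + 3 - 1 = i + 2 by ring]
    have e4 : S (i + 4) = T (i + 4) + T (i + 3) := by
      rw [S_eq (i + 4), show i + 4 - 1 = i + 3 by ring]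
    have hT : T (i + 2) ≤ μ * (a (i + 2) * a (i + 3)) := by
      simp only [T]
      rw [show i + 2 + 1 = i + 3 by ring]
      exact X_le _ _
    have hsum : Fd i + Fd (i + 1) + Fd (i + 2) + Fd (i + 3) + Fd (i + 4) ≤ D := by
      have h1 : ∑ j, Fd j = ∑ j, Fd (i + j) := (Equiv.sum_comp (Equiv.addLeft i) Fd).symm
      have h2 : ∑ j : ZMod 5, Fd (i + j) =
          Fd (i + 0) + Fd (i + 1) + Fd (i + 2) + Fd (i + 3) + Fd (i + 4) :=
        @Fin.sum_univ_five ℕ _ (fun j : ZMod 5 => Fd (i + j))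
      rw [add_zero] at h2
      omega
    rw [hm1]
    have f0 := SF i
    have f1 := SF (i + 1)
    have f2 := SF (i + 2)
    have f3 := SF (i + 3)
    have f4 := SF (i + 4)
    have g1 : Δ * (a i + a (i + 2) + a (i + 3)) = Δ * a i + Δ * a (i + 2) + Δ * a (i + 3) := by
      ring
    have g2 : Δ * (a (i + 4) + a (i + 1)) = Δ * a (i + 4) + Δ * a (i + 1) := by ring
    have g3 : 2 * μ * (a (i + 2) * a (i + 3)) = 2 * (μ * (a (i + 2) * a (i + 3))) := by ring
    rw [g1, g2, g3, ← f0, ← f1, ← f2, ← f3, ← f4]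
    omega
  · refine le_trans ?_ Fsum
    refine Finset.sum_le_sum fun i _ => ?_
    simp only [Fd]
    have : a i * (Δ - μ * (a (i - 1) + a (i + 1))) =
        ∑ u ∈ Finset.univ.filter (fun v => A v = i), (Δ - μ * (a (i - 1) + a (i + 1))) := by
      rw [Finset.sum_const, ← ha i, smul_eq_mul]
    rw [this]
    refine Finset.sum_le_sum fun u hu => ?_
    have hu' : A u = i := (Finset.mem_filter.1 hu).2
    apply Nat.sub_le_sub_left
    rw [hsplit u, hu']
    have h1 : ∑ v ∈ Finset.univ.filter (fun v => A v = i + 1), w u v ≤ a (i + 1) * μ := by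
      rw [ha]
      exact Finset.sum_le_card_nsmul _ _ _ fun v _ => hle u v
    have h2 : ∑ v ∈ Finset.univ.filter (fun v => A v = i - 1), w u v ≤ a (i - 1) * μ := by
      rw [ha]
      exact Finset.sum_le_card_nsmul _ _ _ fun v _ => hle u v
    nlinarith

/-- the degree is at most `μ` times the number of neighbours -/
theorem c5ineq_deg_le {V : Type*} [Fintype V] (w : V → V → ℕ) (hsymm : ∀ a b, w a b = w b a)
    {μ : ℕ} (hle : ∀ a b, w a b ≤ μ) (G : SimpleGraph V) (hG : ∀ u v, w u v ≠ 0 → G.Adj u v)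
    (v : V) : ∑ u, w v u ≤ μ * ∑ z, if G.Adj z v then 1 else 0 := by
  rw [Finset.mul_sum]
  refine Finset.sum_le_sum fun z _ => ?_
  by_cases h : G.Adj z v
  · rw [if_pos h, mul_one]
    exact hle _ _
  · rw [if_neg h, mul_zero]
    by_contra hne
    apply h
    apply hG
    rw [hsymm]
    omega

/-- weights and a small configuration `f` -/
theorem config_ineq {V : Type*} [Fintype V] (w : V → V → ℕ) (hsymm : ∀ a b, w a b = w b a)
    {μ : ℕ} (hle : ∀ a b, w a b ≤ μ) (G : SimpleGraph V) (hG : ∀ u v, w u v ≠ 0 → G.Adj u v)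
    {Δ D : ℕ} (hdeg : ∀ v, ∑ u, w v u ≤ Δ)
    (hD : Fintype.card V * Δ ≤ (∑ v, ∑ u, w v u) + D) {m : ℕ} (f : Fin m → V)
    (hf : Function.Injective f) (ω : Fin m → ℕ) {W α : ℕ} (hω : ∀ j, ω j ≤ W)
    (hα : ∀ z, (∑ j, if G.Adj z (f j) then ω j else 0) ≤ α) :
    Δ * ∑ j, ω j ≤ μ * (α * Fintype.card V) + W * D ∧
    ∀ q ρ, Δ + μ = μ * q + ρ → ρ ≤ μ →
      ρ * (q * ∑ j, ω j) ≤ ρ * (α * Fintype.card V) + W * D := by
  have hdef := c5ineq_def_sum w hdeg hD
  -- the deficiency part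
  have hF : ∑ j, ω j * (Δ - ∑ u, w (f j) u) ≤ W * D := by
    calc _ ≤ ∑ j, W * (Δ - ∑ u, w (f j) u) :=
          Finset.sum_le_sum fun j _ => Nat.mul_le_mul_right _ (hω j)
      _ = W * ∑ j, (Δ - ∑ u, w (f j) u) := by rw [Finset.mul_sum]
      _ ≤ W * D := by
          apply Nat.mul_le_mul_left
          refine le_trans ?_ hdef
          have : ∑ j, (Δ - ∑ u, w (f j) u) =
              ∑ v ∈ Finset.univ.map ⟨f, hf⟩, (Δ - ∑ u, w v u) := by
            rw [Finset.sum_map]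
            rfl
          rw [this]
          exact Finset.sum_le_sum_of_subset (Finset.subset_univ _)
  -- the number of neighbours
  have hN : ∑ j, ω j * ∑ z, (if G.Adj z (f j) then 1 else 0) ≤ α * Fintype.card V := by
    calc _ = ∑ z, ∑ j, (if G.Adj z (f j) then ω j else 0) := by
          rw [Finset.sum_comm]
          refine Finset.sum_congr rfl fun j _ => ?_
          rw [Finset.mul_sum]
          refine Finset.sum_congr rfl fun z _ => ?_
          rw [mul_ite, mul_one, mul_zero]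
      _ ≤ ∑ _z : V, α := Finset.sum_le_sum fun z _ => hα z
      _ = α * Fintype.card V := by
          rw [Finset.sum_const, Finset.card_univ, smul_eq_mul, mul_comm]
  constructor
  · calc Δ * ∑ j, ω j = ∑ j, ω j * Δ := by
          rw [Finset.mul_sum]
          exact Finset.sum_congr rfl fun j _ => mul_comm _ _
      _ ≤ ∑ j, (μ * (ω j * ∑ z, (if G.Adj z (f j) then 1 else 0)) +
            ω j * (Δ - ∑ u, w (f j) u)) := by
          refine Finset.sum_le_sum fun j _ => ?_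
          have h1 := c5ineq_deg_le w hsymm hle G hG (f j)
          have h2 := hdeg (f j)
          calc ω j * Δ ≤ ω j * (μ * ∑ z, (if G.Adj z (f j) then 1 else 0) +
                (Δ - ∑ u, w (f j) u)) := by
                apply Nat.mul_le_mul_left
                omega
            _ = _ := by ring
      _ = μ * (∑ j, ω j * ∑ z, (if G.Adj z (f j) then 1 else 0)) +
            ∑ j, ω j * (Δ - ∑ u, w (f j) u) := by
          rw [Finset.sum_add_distrib, Finset.mul_sum]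
      _ ≤ _ := Nat.add_le_add (Nat.mul_le_mul_left _ hN) hF
  · intro q ρ hq hρ
    have key : ∀ v, ρ * q ≤ ρ * ∑ z, (if G.Adj z v then 1 else 0) + (Δ - ∑ u, w v u) := by
      intro v
      have h1 := c5ineq_deg_le w hsymm hle G hG v
      have h2 := hdeg v
      generalize (∑ z, if G.Adj z v then 1 else 0) = d at *
      generalize (∑ u, w v u) = s at *
      rcases Nat.lt_or_ge d q with hdq | hdq
      · obtain ⟨j, rfl⟩ := Nat.exists_eq_add_of_lt hdq
        -- q = d + j + 1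
        have h3 : ρ * (j + 1) ≤ Δ - s := by
          have h4 : μ * j + ρ + s ≤ Δ := by
            have : Δ + μ = μ * d + μ * j + μ + ρ := by rw [hq]; ring
            omega
          have h5 : ρ * j ≤ μ * j := Nat.mul_le_mul_right _ hρ
          have h6 : ρ * (j + 1) = ρ * j + ρ := by ring
          omega
        calc ρ * (d + j + 1) = ρ * d + ρ * (j + 1) := by ring
          _ ≤ _ := Nat.add_le_add_left h3 _
      · exact le_trans (Nat.mul_le_mul_left _ hdq) (Nat.le_add_right _ _)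
    calc ρ * (q * ∑ j, ω j) = ∑ j, ω j * (ρ * q) := by
          rw [← Finset.sum_mul]; ring
      _ ≤ ∑ j, (ρ * (ω j * ∑ z, (if G.Adj z (f j) then 1 else 0)) +
            ω j * (Δ - ∑ u, w (f j) u)) := by
          refine Finset.sum_le_sum fun j _ => ?_
          calc ω j * (ρ * q) ≤ ω j * (ρ * ∑ z, (if G.Adj z (f j) then 1 else 0) +
                (Δ - ∑ u, w (f j) u)) := Nat.mul_le_mul_left _ (key (f j))
            _ = _ := by ring
      _ = ρ * (∑ j, ω j * ∑ z, (if G.Adj z (f j) then 1 else 0)) +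
            ∑ j, ω j * (Δ - ∑ u, w (f j) u) := by
          rw [Finset.sum_add_distrib, Finset.mul_sum]
      _ ≤ _ := Nat.add_le_add (Nat.mul_le_mul_left _ hN) hF

/-- weights and three vertices with eight common neighbours of degree seven -/
theorem three_eight_ineq {V : Type*} [Fintype V] (w : V → V → ℕ)
    (hsymm : ∀ a b, w a b = w b a)
    {μ : ℕ} (hle : ∀ a b, w a b ≤ μ) (G : SimpleGraph V) (hG : ∀ u v, w u v ≠ 0 → G.Adj u v)
    {Δ D : ℕ} (hdeg : ∀ v, ∑ u, w v u ≤ Δ)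
    (hD : Fintype.card V * Δ ≤ (∑ v, ∑ u, w v u) + D) (P Q : Finset V) (hP : P.card = 3)
    (hQ : Q.card = 8) (hPQ : ∀ p ∈ P, ∀ q ∈ Q, G.Adj p q)
    (hQ7 : ∀ q ∈ Q, (Finset.univ.filter (G.Adj q)).card = 7) :
    8 * Δ ≤ 3 * Δ + 32 * μ + D := by
  have hdef := c5ineq_def_sum w hdeg hD
  have h1 : ∑ q ∈ Q, (Δ - ∑ u, w q u) ≤ D :=
    le_trans (Finset.sum_le_sum_of_subset (Finset.subset_univ _)) hdef
  have h2 : ∑ q ∈ Q, (Δ - ∑ u, w q u) + ∑ q ∈ Q, ∑ u, w q u = 8 * Δ := by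
    rw [← Finset.sum_add_distrib]
    rw [Finset.sum_congr rfl fun v _ => Nat.sub_add_cancel (hdeg v)]
    rw [Finset.sum_const, hQ, smul_eq_mul]
  have h3 : ∑ q ∈ Q, ∑ u, w q u ≤ 3 * Δ + 32 * μ := by
    have h4 : ∀ q ∈ Q, ∑ u, w q u ≤ ∑ u ∈ P, w u q + 4 * μ := by
      intro q hq
      rw [← Finset.sum_filter_add_sum_filter_not Finset.univ (fun u => u ∈ P)]
      apply Nat.add_le_add
      · apply le_of_eq
        rw [Finset.filter_mem_eq_inter, Finset.univ_inter]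
        exact Finset.sum_congr rfl fun u _ => hsymm _ _
      · have h5 : ∑ u ∈ Finset.univ.filter (fun u => u ∉ P), w q u =
            ∑ u ∈ (Finset.univ.filter (G.Adj q)) \ P, w q u := by
          symm
          apply Finset.sum_subset
          · intro u hu
            rw [Finset.mem_sdiff] at hu
            rw [Finset.mem_filter]
            exact ⟨Finset.mem_univ _, hu.2⟩
          · intro u hu hu'
            by_contra hne
            apply hu'
            rw [Finset.mem_sdiff, Finset.mem_filter]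
            exact ⟨⟨Finset.mem_univ _, hG _ _ hne⟩, (Finset.mem_filter.1 hu).2⟩
        rw [h5]
        have h6 : ((Finset.univ.filter (G.Adj q)) \ P).card = 4 := by
          rw [Finset.card_sdiff_of_subset, hQ7 q hq, hP]
          intro p hp
          rw [Finset.mem_filter]
          exact ⟨Finset.mem_univ _, (hPQ p hp q hq).symm⟩
        calc _ ≤ ((Finset.univ.filter (G.Adj q)) \ P).card • μ :=
              Finset.sum_le_card_nsmul _ _ _ fun v _ => hle q v
          _ = 4 * μ := by rw [h6, smul_eq_mul]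
    calc _ ≤ ∑ q ∈ Q, (∑ u ∈ P, w u q + 4 * μ) := Finset.sum_le_sum h4
      _ = ∑ u ∈ P, ∑ q ∈ Q, w u q + 32 * μ := by
          rw [Finset.sum_add_distrib, Finset.sum_comm, Finset.sum_const, hQ, smul_eq_mul]
          ring
      _ ≤ ∑ u ∈ P, Δ + 32 * μ := by
          apply Nat.add_le_add_right
          refine Finset.sum_le_sum fun u _ => ?_
          exact le_trans (Finset.sum_le_sum_of_subset (Finset.subset_univ _)) (hdeg u)
      _ = 3 * Δ + 32 * μ := by rw [Finset.sum_const, hP, smul_eq_mul]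
  omega

end Pool.Agent.Lib.MP_633d19_co
end
end

section

/-!
Dense triangle-free weights, and their arithmetic consequences (definitions).
-/

namespace Pool.Agent.Lib.MP_633d19_co

open Classical

/-- Symmetric triangle-free weights with values at most `μ` and degrees at most `Δ` on an odd
number of points, with large total. -/
structure DW (V : Type*) [Fintype V] (w : V → V → ℕ) (μ t Δ : ℕ) : Prop where
  symm : ∀ a b, w a b = w b a
  loop : ∀ a, w a a = 0
  tri : ∀ a b c, w a b ≠ 0 → w b c ≠ 0 → w a c = 0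
  le : ∀ a b, w a b ≤ μ
  odd : Odd (Fintype.card V)
  deg_le : ∀ v, ∑ u, w v u ≤ Δ
  dense : (Δ + t) * (Fintype.card V - 1) + 2 ≤ ∑ v, ∑ u, w v u

/-- the possible deficiency -/
def Dn (t Δ n : ℕ) : ℕ := Δ - (t * (n - 1) + 2)

/-- there are part sizes `a i` of a blow-up of the pentagon satisfying the inequalities of
`c5_hom_ineq` -/
def C5Num (μ t Δ n : ℕ) : Prop :=
  ∃ a : ZMod 5 → ℕ, (∀ i, 1 ≤ a i) ∧ ∑ i, a i = n ∧
    (∀ i, Δ * (a i + a (i + 2) + a (i + 3)) ≤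
      Δ * (a (i - 1) + a (i + 1)) + 2 * μ * (a (i + 2) * a (i + 3)) + Dn t Δ n) ∧
    ∑ i, a i * (Δ - μ * (a (i - 1) + a (i + 1))) ≤ Dn t Δ n

/-- the inequalities of `config_ineq` -/
def CfgNum (μ t Δ n Ω α W : ℕ) : Prop :=
  Δ * Ω ≤ μ * (α * n) + W * Dn t Δ n ∧
    ∀ q ρ, Δ + μ = μ * q + ρ → ρ ≤ μ → ρ * (q * Ω) ≤ ρ * (α * n) + W * Dn t Δ n

/-- All the arithmetic consequences of the existence of dense weights on `n` points. -/
structure Num (μ t Δ n : ℕ) : Prop where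
  odd : Odd n
  five : 5 ≤ n
  le : t * (n - 1) + 2 ≤ Δ
  count : CfgNum μ t Δ n 5 2 1
  str : C5Num μ t Δ n ∨ CfgNum μ t Δ n 8 3 1 ∨ CfgNum μ t Δ n 11 4 2
  nineteen : n = 19 → 6 * μ < t * 18 + 2 → C5Num μ t Δ n ∨ 5 * Δ ≤ 32 * μ + Dn t Δ n
  nine : ¬ (n = 9 ∧ μ = 6 ∧ t = 2 ∧ Δ = 18)
  ten : ∀ m, ¬ (n = 5 * m + 3 ∧ μ = 10 ∧ t = 4 ∧ Δ = 20 * m + 10)

/-- The pairs `(μ, Δ)` with `2 μ < Δ` for which Steffen's bound for girth four is attained. -/
def Att4 (μ Δ : ℕ) : Prop :=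
  (μ = 3 ∧ (Δ = 12 ∨ (16 ≤ Δ ∧ Δ ≤ 18) ∨ (22 ≤ Δ ∧ Δ ≤ 24) ∨ 26 ≤ Δ)) ∨
  μ = 4 ∨
  (μ = 5 ∧ ∃ m, Odd m ∧ Δ = 10 * m) ∨
  (μ = 6 ∧ ((22 ≤ Δ ∧ Δ ≤ 24) ∨ (30 ≤ Δ ∧ Δ ≤ 38) ∨ 42 ≤ Δ)) ∨
  (μ = 8 ∧ (Δ = 32 ∨ (44 ≤ Δ ∧ Δ ≤ 48) ∨ (62 ≤ Δ ∧ Δ ≤ 64) ∨ (74 ≤ Δ ∧ Δ ≤ 80) ∨
    (92 ≤ Δ ∧ Δ ≤ 96) ∨ (104 ≤ Δ ∧ Δ ≤ 112) ∨ (122 ≤ Δ ∧ Δ ≤ 128) ∨ (134 ≤ Δ ∧ Δ ≤ 144) ∨
    (152 ≤ Δ ∧ Δ ≤ 160) ∨ (164 ≤ Δ ∧ Δ ≤ 177) ∨ (182 ≤ Δ ∧ Δ ≤ 192) ∨
    (194 ≤ Δ ∧ Δ ≤ 209) ∨ 212 ≤ Δ)) ∨
  (μ = 10 ∧ ∃ m, Odd m ∧ 20 * m ≤ Δ + 2 ∧ Δ ≤ 20 * m) ∨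
  (μ = 12 ∧ Δ = 72)

end Pool.Agent.Lib.MP_633d19_co
end
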