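import Mathlib
import Pool.Agent.Lib.MP_633d19_co.WDefs
import Pool.Agent.Lib.MP_633d19_co.Nineteen

section

/-!
Merging cycles of a permutation `σ` with `x ~ σ x`: existence of Hamiltonian permutations in
triangle-free graphs of large minimum degree and in almost complete graphs.
-/

namespace Pool.Agent.Lib.MP_633d19_co

open Classical

section HamPerm

variable {V : Type*} [Fintype V]

/-- number of ordered pairs in the same cycle -/
noncomputable def hpPhi (σ : Equiv.Perm V) : ℕ :=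
  (Finset.univ.filter (fun q : V × V => σ.SameCycle q.1 q.2)).card

lemma hp_step {σ τ : Equiv.Perm V} (h : ∀ y, τ.SameCycle y (σ y)) {y z : V}
    (hyz : σ.SameCycle y z) : τ.SameCycle y z := by
  obtain ⟨n, hn⟩ := hyz.exists_nat_pow_eq
  subst hn
  clear hyz
  induction n with
  | zero => exact Equiv.Perm.SameCycle.rfl
  | succ n ih =>
    rw [pow_succ', Equiv.Perm.mul_apply]
    exact ih.trans (h _)

lemma hp_phi_le {σ τ : Equiv.Perm V} (h : ∀ y z, σ.SameCycle y z → τ.SameCycle y z) :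
    hpPhi σ ≤ hpPhi τ := by
  apply Finset.card_le_card
  intro q hq
  rw [Finset.mem_filter] at hq ⊢
  exact ⟨hq.1, h _ _ hq.2⟩

lemma hp_phi_lt {σ τ : Equiv.Perm V} (h : ∀ y z, σ.SameCycle y z → τ.SameCycle y z) {x c : V}
    (h1 : ¬ σ.SameCycle x c) (h2 : τ.SameCycle x c) : hpPhi σ < hpPhi τ := by
  apply Finset.card_lt_card
  rw [Finset.ssubset_iff_of_subset]
  · refine ⟨(x, c), ?_, ?_⟩
    · rw [Finset.mem_filter]
      exact ⟨Finset.mem_univ _, h2⟩
    · rw [Finset.mem_filter]
      exact fun h => h1 h.2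
  · intro q hq
    rw [Finset.mem_filter] at hq ⊢
    exact ⟨hq.1, h _ _ hq.2⟩

lemma hp_merge_iter {σ : Equiv.Perm V} {x c : V} (h : ¬ σ.SameCycle x c) (i : ℕ) (hi : 1 ≤ i)
    (hj : ∀ j, 1 ≤ j → j < i → (σ ^ j) c ≠ c) :
    ((σ * Equiv.swap x c) ^ i) x = (σ ^ i) c := by
  induction i with
  | zero => omega
  | succ i ih =>
    rcases Nat.eq_zero_or_pos i with h0 | h0
    · subst h0
      simp
    · rw [pow_succ', Equiv.Perm.mul_apply, ih h0 (fun j h1 h2 => hj j h1 (by omega)),
        Equiv.Perm.mul_apply, Equiv.swap_apply_of_ne_of_ne, pow_succ', Equiv.Perm.mul_apply]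
      · intro hx
        apply h
        rw [← hx]
        exact Equiv.Perm.sameCycle_pow_left.mpr Equiv.Perm.SameCycle.rfl
      · exact hj i h0 (by omega)

lemma hp_merge {σ : Equiv.Perm V} {x c : V} (h : ¬ σ.SameCycle x c) :
    (∀ y z, σ.SameCycle y z → (σ * Equiv.swap x c).SameCycle y z) ∧
      (σ * Equiv.swap x c).SameCycle x c := by
  have hxc : (σ * Equiv.swap x c).SameCycle x c := by
    have hex : ∃ i, 1 ≤ i ∧ (σ ^ i) c = c := by
      refine ⟨orderOf σ, orderOf_pos σ, ?_⟩
      rw [pow_orderOf_eq_one]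
      rfl
    have hmin := Nat.find_spec hex
    have key := hp_merge_iter h (Nat.find hex) hmin.1 (by
      intro j h1 h2 h3
      exact Nat.find_min hex h2 ⟨h1, h3⟩)
    rw [hmin.2] at key
    exact ⟨(Nat.find hex : ℤ), by simpa using key⟩
  refine ⟨?_, hxc⟩
  intro y z hyz
  refine hp_step ?_ hyz
  intro y
  by_cases hyx : y = x
  · subst hyx
    have h1 : (σ * Equiv.swap y c) c = σ y := by simp
    rw [← h1]
    exact Equiv.Perm.sameCycle_apply_right.mpr hxc
  · by_cases hyc : y = c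
    · subst hyc
      have h1 : (σ * Equiv.swap x y) x = σ y := by simp
      rw [← h1]
      exact Equiv.Perm.sameCycle_apply_right.mpr hxc.symm
    · have h1 : (σ * Equiv.swap x c) y = σ y := by
        rw [Equiv.Perm.mul_apply, Equiv.swap_apply_of_ne_of_ne hyx hyc]
      rw [← h1]
      exact Equiv.Perm.sameCycle_apply_right.mpr Equiv.Perm.SameCycle.rfl

/-- reversing the cycle of `c` -/
noncomputable def hpRev (σ : Equiv.Perm V) (c : V) : Equiv.Perm V :=
  σ * (σ.cycleOf c)⁻¹ * (σ.cycleOf c)⁻¹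

lemma hp_cycleOf_inv (σ : Equiv.Perm V) (c y : V) :
    (σ.cycleOf c)⁻¹ y = if σ.SameCycle c y then σ⁻¹ y else y := by
  rw [Equiv.Perm.cycleOf_inv, Equiv.Perm.cycleOf_apply]
  simp only [Equiv.Perm.sameCycle_inv]

lemma hpRev_same {σ : Equiv.Perm V} {c y : V} (h : σ.SameCycle c y) : hpRev σ c y = σ⁻¹ y := by
  unfold hpRev
  rw [Equiv.Perm.mul_apply, Equiv.Perm.mul_apply, hp_cycleOf_inv σ c y, if_pos h,
    hp_cycleOf_inv, if_pos]
  · simp
  · have := (Equiv.Perm.sameCycle_symm_apply_right (f := σ) (x := c) (y := y)).mpr h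
    exact this

lemma hpRev_not {σ : Equiv.Perm V} {c y : V} (h : ¬ σ.SameCycle c y) : hpRev σ c y = σ y := by
  unfold hpRev
  rw [Equiv.Perm.mul_apply, Equiv.Perm.mul_apply, hp_cycleOf_inv σ c y, if_neg h,
    hp_cycleOf_inv, if_neg h]

lemma hpRev_sameCycle {σ : Equiv.Perm V} {c y z : V} :
    (hpRev σ c).SameCycle y z ↔ σ.SameCycle y z := by
  constructor
  · intro h
    refine hp_step ?_ h
    intro y
    by_cases hy : σ.SameCycle c y
    · rw [hpRev_same hy]
      exact (Equiv.Perm.sameCycle_symm_apply_right (f := σ)).mpr Equiv.Perm.SameCycle.rfl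
    · rw [hpRev_not hy]
      exact Equiv.Perm.sameCycle_apply_right.mpr Equiv.Perm.SameCycle.rfl
  · intro h
    refine hp_step ?_ h
    intro y
    by_cases hy : σ.SameCycle c y
    · have h1 : hpRev σ c (σ y) = y := by
        rw [hpRev_same (Equiv.Perm.sameCycle_apply_right.mpr hy)]
        simp
      have h2 : (hpRev σ c).SameCycle (σ y) (hpRev σ c (σ y)) :=
        Equiv.Perm.sameCycle_apply_right.mpr Equiv.Perm.SameCycle.rfl
      rw [h1] at h2
      exact h2.symm
    · have h2 : (hpRev σ c).SameCycle y (hpRev σ c y) :=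
        Equiv.Perm.sameCycle_apply_right.mpr Equiv.Perm.SameCycle.rfl
      rwa [hpRev_not hy] at h2

/-- optimal permutations -/
def HpOpt (G : SimpleGraph V) (σ : Equiv.Perm V) : Prop :=
  (∀ x, G.Adj x (σ x)) ∧ ∀ τ : Equiv.Perm V, (∀ x, G.Adj x (τ x)) → hpPhi τ ≤ hpPhi σ

lemma hp_exists_opt {G : SimpleGraph V} (σ : Equiv.Perm V) (hσ : ∀ x, G.Adj x (σ x)) :
    ∃ τ, HpOpt G τ := by
  obtain ⟨τ, hτ, hmax⟩ := Finset.exists_max_image
    (Finset.univ.filter (fun τ : Equiv.Perm V => ∀ x, G.Adj x (τ x))) hpPhi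
    ⟨σ, by rw [Finset.mem_filter]; exact ⟨Finset.mem_univ _, hσ⟩⟩
  rw [Finset.mem_filter] at hτ
  refine ⟨τ, hτ.2, fun ρ hρ => hmax ρ ?_⟩
  rw [Finset.mem_filter]
  exact ⟨Finset.mem_univ _, hρ⟩

lemma HpOpt.m1 {G : SimpleGraph V} {σ : Equiv.Perm V} (h : HpOpt G σ) {x c : V}
    (hxc : ¬ σ.SameCycle x c) : ¬ (G.Adj x (σ c) ∧ G.Adj c (σ x)) := by
  rintro ⟨h1, h2⟩
  obtain ⟨h3, h4⟩ := hp_merge hxc
  have h5 := h.2 (σ * Equiv.swap x c) (by
    intro y
    by_cases hyx : y = x
    · subst hyx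
      simpa using h1
    · by_cases hyc : y = c
      · subst hyc
        simpa using h2
      · rw [Equiv.Perm.mul_apply, Equiv.swap_apply_of_ne_of_ne hyx hyc]
        exact h.1 y)
  have h6 := hp_phi_lt h3 hxc h4
  omega

lemma HpOpt.rev {G : SimpleGraph V} {σ : Equiv.Perm V} (h : HpOpt G σ) (c : V) :
    HpOpt G (hpRev σ c) := by
  constructor
  · intro x
    by_cases hx : σ.SameCycle c x
    · rw [hpRev_same hx]
      have := h.1 (σ⁻¹ x)
      have h2 : σ (σ⁻¹ x) = x := by simp
      rw [h2] at this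
      exact this.symm
    · rw [hpRev_not hx]
      exact h.1 x
  · intro τ hτ
    refine (h.2 τ hτ).trans (hp_phi_le ?_)
    intro y z hyz
    exact hpRev_sameCycle.mpr hyz

lemma HpOpt.m2 {G : SimpleGraph V} {σ : Equiv.Perm V} (h : HpOpt G σ) {x c : V}
    (hxc : ¬ σ.SameCycle x c) : ¬ (G.Adj x c ∧ G.Adj (σ x) (σ c)) := by
  rintro ⟨h1, h2⟩
  have h3 : ¬ (hpRev σ c).SameCycle x (σ c) := by
    rw [hpRev_sameCycle]
    intro h4
    exact hxc (Equiv.Perm.sameCycle_apply_right.mp h4)
  refine (h.rev c).m1 h3 ⟨?_, ?_⟩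
  · rw [hpRev_same (Equiv.Perm.sameCycle_apply_right.mpr Equiv.Perm.SameCycle.rfl)]
    simpa using h1
  · rw [hpRev_not (fun h4 => hxc h4.symm)]
    exact h2.symm

/-- the cycle of `c` as a finset -/
noncomputable def hpCyc (σ : Equiv.Perm V) (c : V) : Finset V :=
  Finset.univ.filter (fun y => σ.SameCycle c y)

lemma mem_hpCyc {σ : Equiv.Perm V} {c y : V} : y ∈ hpCyc σ c ↔ σ.SameCycle c y := by
  unfold hpCyc
  simp

/-- the neighbourhood -/
noncomputable def hpN (G : SimpleGraph V) (v : V) : Finset V := Finset.univ.filter (G.Adj v)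

lemma mem_hpN {G : SimpleGraph V} {v y : V} : y ∈ hpN G v ↔ G.Adj v y := by
  unfold hpN
  simp

lemma hp_map_disj {G : SimpleGraph V} (htri : ∀ a b c, G.Adj a b → G.Adj b c → ¬ G.Adj a c)
    {σ : Equiv.Perm V} (hσ : ∀ x, G.Adj x (σ x)) (v c : V) :
    Disjoint (hpN G v ∩ hpCyc σ c) ((hpN G v ∩ hpCyc σ c).map σ.toEmbedding) := by
  rw [Finset.disjoint_left]
  intro y hy hy2
  rw [Finset.mem_map] at hy2
  obtain ⟨z, hz, hzy⟩ := hy2
  rw [Finset.mem_inter, mem_hpN] at hy hz
  have h1 : σ z = y := hzy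
  rw [← h1] at hy
  exact htri v z (σ z) hz.1 (hσ z) hy.1

lemma hp_inside {G : SimpleGraph V} (htri : ∀ a b c, G.Adj a b → G.Adj b c → ¬ G.Adj a c)
    {σ : Equiv.Perm V} (hσ : ∀ x, G.Adj x (σ x)) (v c : V) :
    2 * (hpN G v ∩ hpCyc σ c).card ≤ (hpCyc σ c).card := by
  have h1 := hp_map_disj htri hσ v c
  have h2 := Finset.card_union_of_disjoint h1
  rw [Finset.card_map] at h2
  have h3 : (hpN G v ∩ hpCyc σ c) ∪ ((hpN G v ∩ hpCyc σ c).map σ.toEmbedding) ⊆ hpCyc σ c := by
    intro y hy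
    rw [Finset.mem_union] at hy
    rcases hy with hy | hy
    · exact (Finset.mem_inter.mp hy).2
    · rw [Finset.mem_map] at hy
      obtain ⟨z, hz, hzy⟩ := hy
      have h1 : σ z = y := hzy
      rw [← h1, mem_hpCyc]
      exact Equiv.Perm.sameCycle_apply_right.mpr (mem_hpCyc.mp (Finset.mem_inter.mp hz).2)
  have h4 := Finset.card_le_card h3
  omega

lemma hp_outside {G : SimpleGraph V} (htri : ∀ a b c, G.Adj a b → G.Adj b c → ¬ G.Adj a c)
    {σ : Equiv.Perm V} (hσ : HpOpt G σ) (c : V) :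
    2 * ((hpN G c \ hpCyc σ c).card + (hpN G (σ c) \ hpCyc σ c).card) + (hpCyc σ c).card ≤
      Fintype.card V := by
  set C := hpCyc σ c with hC
  have hd : Disjoint (hpN G c \ C) (hpN G (σ c) \ C) := by
    rw [Finset.disjoint_left]
    intro y hy hy2
    rw [Finset.mem_sdiff, mem_hpN] at hy hy2
    exact htri c (σ c) y (hσ.1 c) hy2.1 hy.1
  set S := (hpN G c \ C) ∪ (hpN G (σ c) \ C) with hS
  have hcard : S.card = (hpN G c \ C).card + (hpN G (σ c) \ C).card :=
    Finset.card_union_of_disjoint hd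
  have hnC : ∀ y, y ∉ C → ¬ σ.SameCycle y c := by
    intro y hy h
    exact hy (mem_hpCyc.mpr h.symm)
  have hd2 : Disjoint S (S.map σ.toEmbedding) := by
    rw [Finset.disjoint_left]
    intro y hy hy2
    rw [Finset.mem_map] at hy2
    obtain ⟨z, hz, hzy⟩ := hy2
    have h1 : σ z = y := hzy
    rw [← h1] at hy
    rw [hS, Finset.mem_union, Finset.mem_sdiff, Finset.mem_sdiff, mem_hpN, mem_hpN] at hy hz
    rcases hz with hz | hz
    · have h3 := hnC z hz.2
      rcases hy with hy | hy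
      · exact htri c z (σ z) hz.1 (hσ.1 z) hy.1
      · exact hσ.m2 h3 ⟨hz.1.symm, hy.1.symm⟩
    · have h3 := hnC z hz.2
      rcases hy with hy | hy
      · exact hσ.m1 h3 ⟨hz.1.symm, hy.1⟩
      · exact htri (σ c) z (σ z) hz.1 (hσ.1 z) hy.1
  have hd3 : Disjoint (S ∪ S.map σ.toEmbedding) C := by
    rw [Finset.disjoint_left]
    intro y hy hyC
    rw [Finset.mem_union] at hy
    rcases hy with hy | hy
    · rw [hS, Finset.mem_union, Finset.mem_sdiff, Finset.mem_sdiff] at hy
      rcases hy with hy | hy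
      · exact hy.2 hyC
      · exact hy.2 hyC
    · rw [Finset.mem_map] at hy
      obtain ⟨z, hz, hzy⟩ := hy
      have h1 : σ z = y := hzy
      rw [← h1] at hyC
      have h2 : z ∈ C := mem_hpCyc.mpr (Equiv.Perm.sameCycle_apply_right.mp (mem_hpCyc.mp hyC))
      rw [hS, Finset.mem_union, Finset.mem_sdiff, Finset.mem_sdiff] at hz
      rcases hz with hz | hz
      · exact hz.2 h2
      · exact hz.2 h2
  have h5 := Finset.card_union_of_disjoint hd2
  have h6 := Finset.card_union_of_disjoint hd3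
  rw [Finset.card_map] at h5
  have h7 := Finset.card_le_univ ((S ∪ S.map σ.toEmbedding) ∪ C)
  omega

lemma hp_odd_cycle (σ : Equiv.Perm V) (hodd : Odd (Fintype.card V)) :
    ∃ c, Odd (hpCyc σ c).card := by
  by_contra hcon
  push Not at hcon
  have h1 : (Finset.univ : Finset V).card = ∑ q : Quotient (Equiv.Perm.SameCycle.setoid σ),
      ((Finset.univ : Finset V).filter
        (fun v => (Quotient.mk (Equiv.Perm.SameCycle.setoid σ) v) = q)).card :=
    Finset.card_eq_sum_card_fiberwise (fun _ _ => Finset.mem_coe.mpr (Finset.mem_univ _))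
  have h2 : Even (Finset.univ : Finset V).card := by
    rw [h1]
    apply Finset.even_sum
    intro q _
    obtain ⟨c, rfl⟩ := Quotient.exists_rep q
    have h3 : ((Finset.univ : Finset V).filter
        (fun v => (Quotient.mk (Equiv.Perm.SameCycle.setoid σ) v) =
          Quotient.mk (Equiv.Perm.SameCycle.setoid σ) c)) = hpCyc σ c := by
      ext y
      rw [mem_hpCyc, Finset.mem_filter]
      constructor
      · intro h
        have := Quotient.exact h.2
        exact Equiv.Perm.SameCycle.symm this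
      · intro h
        exact ⟨Finset.mem_univ _, Quotient.sound (Equiv.Perm.SameCycle.symm h)⟩
    rw [h3]
    exact Nat.not_odd_iff_even.mp (hcon c)
  rw [Finset.card_univ] at h2
  exact (Nat.not_even_iff_odd.mpr hodd) h2

lemma hp_two_le {G : SimpleGraph V} {σ : Equiv.Perm V} (hσ : ∀ x, G.Adj x (σ x)) (c : V) :
    2 ≤ (hpCyc σ c).card := by
  have h1 : ({c, σ c} : Finset V) ⊆ hpCyc σ c := by
    intro y hy
    rw [Finset.mem_insert, Finset.mem_singleton] at hy
    rw [mem_hpCyc]
    rcases hy with rfl | rfl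
    · exact Equiv.Perm.SameCycle.rfl
    · exact Equiv.Perm.sameCycle_apply_right.mpr Equiv.Perm.SameCycle.rfl
  have h2 := Finset.card_le_card h1
  rw [Finset.card_pair (hσ c).ne] at h2
  exact h2

lemma hp_cyc_disj {σ : Equiv.Perm V} {a b : V} (h : ¬ σ.SameCycle a b) :
    Disjoint (hpCyc σ a) (hpCyc σ b) := by
  rw [Finset.disjoint_left]
  intro y hy hy2
  rw [mem_hpCyc] at hy hy2
  exact h (hy.trans hy2.symm)

lemma hp_even_sum (G : SimpleGraph V) (O : Finset V) : Even (∑ x ∈ O, (hpN G x ∩ O).card) := by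
  have h := (G.induce (O : Set V)).sum_degrees_eq_twice_card_edges
  have h2 : ∑ x ∈ O, (hpN G x ∩ O).card = ∑ v : (O : Set V), (G.induce (O : Set V)).degree v := by
    rw [← Finset.sum_coe_sort O]
    apply Finset.sum_congr rfl
    intro v _
    rw [← SimpleGraph.card_neighborFinset_eq_degree]
    symm
    apply Finset.card_bij (fun (a : (O : Set V)) _ => (a : V))
    · intro a ha
      rw [SimpleGraph.mem_neighborFinset] at ha
      rw [Finset.mem_inter, mem_hpN]
      exact ⟨ha, a.2⟩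
    · intro a _ b _ hab
      exact Subtype.ext hab
    · intro b hb
      rw [Finset.mem_inter, mem_hpN] at hb
      exact ⟨⟨b, hb.2⟩, by rw [SimpleGraph.mem_neighborFinset]; exact hb.1, rfl⟩
  rw [h2, h]
  exact even_two_mul _

/-- the case of a complete bipartite even cycle `C` -/
lemma hp_alt {G : SimpleGraph V} {σ : Equiv.Perm V} {c : V}
    (halt : ∀ y z, σ.SameCycle c y → σ.SameCycle c z → (G.Adj y z ↔ ¬ G.Adj y (σ z)))
    {y z : V} (hy : σ.SameCycle c y) (hz : σ.SameCycle c z) :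
    G.Adj y z ↔ (G.Adj c y ↔ ¬ G.Adj c z) := by
  obtain ⟨n, hn⟩ := hy.exists_nat_pow_eq
  subst hn
  induction n with
  | zero =>
    have h1 : (σ ^ 0) c = c := rfl
    rw [h1]
    have h2 : ¬ G.Adj c c := G.loopless.irrefl c
    tauto
  | succ n ih =>
    have hy' : σ.SameCycle c ((σ ^ n) c) :=
      Equiv.Perm.sameCycle_pow_right.mpr Equiv.Perm.SameCycle.rfl
    have ih' := ih hy'
    rw [pow_succ', Equiv.Perm.mul_apply]
    have h1 := halt z ((σ ^ n) c) hz hy'
    have h2 := halt c ((σ ^ n) c) Equiv.Perm.SameCycle.rfl hy'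
    rw [G.adj_comm z, G.adj_comm z] at h1
    tauto

/-- the conjugation trick -/
lemma hp_conj_false {G : SimpleGraph V} {σ : Equiv.Perm V} (hσ : HpOpt G σ) {c : V}
    (halt : ∀ y z, σ.SameCycle c y → σ.SameCycle c z → (G.Adj y z ↔ ¬ G.Adj y (σ z)))
    {x p1 p2 : V} (hx : ¬ σ.SameCycle c x) (hp1 : σ.SameCycle c p1) (hp2 : σ.SameCycle c p2)
    (hp12 : G.Adj p1 p2) (hxp : G.Adj x p1) (hxp2 : G.Adj (σ x) p2) : False := by
  have hA := @hp_alt V _ G σ c halt
  set π : Equiv.Perm V := Equiv.swap (σ p1) p2 with hπ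
  set τ : Equiv.Perm V := π * σ * π⁻¹ with hτ
  have hσp1 : σ.SameCycle c (σ p1) := Equiv.Perm.sameCycle_apply_right.mpr hp1
  have hπinv : π⁻¹ = π := by rw [hπ, Equiv.swap_inv]
  have hout : ∀ y, ¬ σ.SameCycle c y → π y = y := by
    intro y hy
    rw [hπ]
    apply Equiv.swap_apply_of_ne_of_ne
    · rintro rfl
      exact hy hσp1
    · rintro rfl
      exact hy hp2
  have hin : ∀ y, σ.SameCycle c y → σ.SameCycle c (π y) ∧ (G.Adj c (π y) ↔ G.Adj c y) := by
    intro y hy
    have hcl : G.Adj c (σ p1) ↔ G.Adj c p2 := by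
      have h1 := hA hp1 hp2
      have h2 := hA hp1 hσp1
      have h3 := hσ.1 p1
      tauto
    by_cases h1 : y = σ p1
    · rw [hπ, h1, Equiv.swap_apply_left]
      exact ⟨hp2, hcl.symm⟩
    · by_cases h2 : y = p2
      · rw [hπ, h2, Equiv.swap_apply_right]
        exact ⟨hσp1, hcl⟩
      · rw [hπ, Equiv.swap_apply_of_ne_of_ne h1 h2]
        exact ⟨hy, Iff.rfl⟩
  have hτapp : ∀ y, τ y = π (σ (π y)) := by
    intro y
    rw [hτ, hπinv]
    rfl
  have hτout : ∀ y, ¬ σ.SameCycle c y → τ y = σ y := by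
    intro y hy
    rw [hτapp, hout y hy, hout]
    intro h
    exact hy (Equiv.Perm.sameCycle_apply_right.mp h)
  have hτadj : ∀ y, G.Adj y (τ y) := by
    intro y
    by_cases hy : σ.SameCycle c y
    · have h1 := hin y hy
      have h2 : σ.SameCycle c (σ (π y)) := Equiv.Perm.sameCycle_apply_right.mpr h1.1
      have h3 := hin _ h2
      rw [hτapp, hA hy h3.1]
      have h4 := (hA h1.1 h2).mp (hσ.1 (π y))
      tauto
    · rw [hτout y hy]
      exact hσ.1 y
  have hsame : ∀ y z, τ.SameCycle y z ↔ σ.SameCycle (π y) (π z) := by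
    intro y z
    rw [hτ, Equiv.Perm.sameCycle_conj, hπinv]
  have hphi : hpPhi σ ≤ hpPhi τ := by
    unfold hpPhi
    apply Finset.card_le_card_of_injOn (fun q : V × V => (π q.1, π q.2))
    · intro q hq
      rw [Finset.mem_coe, Finset.mem_filter] at hq ⊢
      refine ⟨Finset.mem_univ _, ?_⟩
      rw [hsame]
      have h1 : ∀ y, π (π y) = y := by
        intro y
        rw [hπ]
        exact Equiv.swap_apply_self _ _ _
      simp only [h1]
      exact hq.2
    · intro q _ r _ hqr
      simp only [Prod.mk.injEq, EmbeddingLike.apply_eq_iff_eq] at hqr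
      exact Prod.ext hqr.1 hqr.2
  have hτopt : HpOpt G τ := ⟨hτadj, fun ρ hρ => (hσ.2 ρ hρ).trans hphi⟩
  have hπp1 : π p1 = p1 := by
    rw [hπ]
    apply Equiv.swap_apply_of_ne_of_ne
    · exact (hσ.1 p1).ne
    · exact hp12.ne
  have hτp1 : τ p1 = p2 := by
    rw [hτapp, hπp1, hπ, Equiv.swap_apply_left]
  have hns : ¬ τ.SameCycle x p1 := by
    rw [hsame, hout x hx, hπp1]
    intro h
    exact hx (hp1.trans h.symm)
  refine hτopt.m2 hns ⟨hxp, ?_⟩
  rw [hτp1, hτout x hx]
  exact hxp2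

/-- A triangle-free graph on an odd number `n` of vertices with minimum degree at least `δ`,
`3 n ≤ 8 δ + 5` and `n ≤ 3 δ`, which has a permutation moving every vertex to a neighbour, has
such a permutation with a single cycle. -/
theorem hamilton_perm {V : Type*} [Fintype V] (G : SimpleGraph V)
    (htri : ∀ a b c, G.Adj a b → G.Adj b c → ¬ G.Adj a c) {δ : ℕ}
    (hodd : Odd (Fintype.card V)) (hδ : ∀ v, δ ≤ (Finset.univ.filter (G.Adj v)).card)
    (h1 : 3 * Fintype.card V ≤ 8 * δ + 5) (h2 : Fintype.card V ≤ 3 * δ)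
    (σ : Equiv.Perm V) (hσ : ∀ x, G.Adj x (σ x)) :
    ∃ τ : Equiv.Perm V, (∀ x, G.Adj x (τ x)) ∧ ∀ x y, τ.SameCycle x y := by
  obtain ⟨ρ, hρ⟩ := hp_exists_opt σ hσ
  refine ⟨ρ, hρ.1, ?_⟩
  by_contra hcon
  push Not at hcon
  set n := Fintype.card V with hn
  have hdeg : ∀ v c, δ ≤ (hpN G v ∩ hpCyc ρ c).card + (hpN G v \ hpCyc ρ c).card := by
    intro v c
    rw [Finset.card_inter_add_card_sdiff]
    exact hδ v
  have hin : ∀ v c, 2 * (hpN G v ∩ hpCyc ρ c).card ≤ (hpCyc ρ c).card :=
    fun v c => hp_inside htri hρ.1 v c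
  have hout := fun c => hp_outside htri hρ c
  obtain ⟨o, ho⟩ := hp_odd_cycle ρ hodd
  obtain ⟨c, hoc⟩ : ∃ c, ¬ ρ.SameCycle o c := by
    by_contra hall
    push Not at hall
    obtain ⟨x, y, hxy⟩ := hcon
    exact hxy ((hall x).symm.trans (hall y))
  have hO2 := hp_two_le hρ.1 o
  have hC2 := hp_two_le hρ.1 c
  -- no third cycle
  have hcover : ∀ v, ρ.SameCycle o v ∨ ρ.SameCycle c v := by
    by_contra hthird
    push Not at hthird
    obtain ⟨w, how, hcw⟩ := hthird
    have hd1 := hp_cyc_disj hoc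
    have hd2 : Disjoint (hpCyc ρ o ∪ hpCyc ρ c) (hpCyc ρ w) := by
      rw [Finset.disjoint_union_left]
      exact ⟨hp_cyc_disj how, hp_cyc_disj hcw⟩
    have e1 := Finset.card_union_of_disjoint hd1
    have e2 := Finset.card_union_of_disjoint hd2
    have e3 := Finset.card_le_univ ((hpCyc ρ o ∪ hpCyc ρ c) ∪ hpCyc ρ w)
    have a1 := hdeg o o
    have a2 := hdeg (ρ o) o
    have a3 := hin o o
    have a4 := hin (ρ o) o
    have a5 := hout o
    have b1 := hdeg c c
    have b2 := hdeg (ρ c) c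
    have b3 := hin c c
    have b4 := hin (ρ c) c
    have b5 := hout c
    have c1 := hdeg w w
    have c2 := hdeg (ρ w) w
    have c3 := hin w w
    have c4 := hin (ρ w) w
    have c5 := hout w
    obtain ⟨k, hk⟩ := ho
    omega
  have hdisj := hp_cyc_disj hoc
  have hunion : hpCyc ρ o ∪ hpCyc ρ c = Finset.univ := by
    ext v
    simp only [Finset.mem_union, Finset.mem_univ, iff_true]
    rw [mem_hpCyc, mem_hpCyc]
    exact hcover v
  have hsum : (hpCyc ρ o).card + (hpCyc ρ c).card = n := by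
    rw [← Finset.card_union_of_disjoint hdisj, hunion, Finset.card_univ]
  obtain ⟨k, hk⟩ := ho
  obtain ⟨j, hj⟩ := hodd
  have a1 := hdeg o o
  have a2 := hdeg (ρ o) o
  have a3 := hin o o
  have a4 := hin (ρ o) o
  have a5 := hout o
  have b1 := hdeg c c
  have b2 := hdeg (ρ c) c
  have b3 := hin c c
  have b4 := hin (ρ c) c
  have b5 := hout c
  have hcase : (hpCyc ρ c).card + n = 4 * δ + 1 ∨ ((hpCyc ρ o).card + n = 4 * δ + 2 ∧ 3 * n = 8 * δ + 5) := by
    omega
  rcases hcase with hcase | ⟨hcase, h8⟩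
  · -- the even cycle is complete bipartite
    have hCdeg : ∀ y ∈ hpCyc ρ c, 2 * (hpN G y ∩ hpCyc ρ c).card = (hpCyc ρ c).card := by
      intro y hy
      have hyc : ρ.SameCycle c y := mem_hpCyc.mp hy
      have hcyc : hpCyc ρ y = hpCyc ρ c := by
        ext z
        rw [mem_hpCyc, mem_hpCyc]
        exact ⟨fun h => hyc.trans h, fun h => hyc.symm.trans h⟩
      have d1 := hdeg y y
      have d2 := hdeg (ρ y) y
      have d3 := hin y y
      have d4 := hin (ρ y) y
      have d5 := hout y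
      rw [hcyc] at d1 d2 d3 d4 d5
      omega
    have halt : ∀ y z, ρ.SameCycle c y → ρ.SameCycle c z →
        (G.Adj y z ↔ ¬ G.Adj y (ρ z)) := by
      intro y z hy hz
      constructor
      · intro h h'
        exact htri y z (ρ z) h (hρ.1 z) h'
      · intro h
        by_contra h'
        have hd := hp_map_disj htri hρ.1 y c
        have e1 := Finset.card_union_of_disjoint hd
        rw [Finset.card_map] at e1
        have e2 := hCdeg y (mem_hpCyc.mpr hy)
        have e3 : (hpN G y ∩ hpCyc ρ c) ∪ ((hpN G y ∩ hpCyc ρ c).map ρ.toEmbedding) ⊆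
            (hpCyc ρ c).erase (ρ z) := by
          intro u hu
          rw [Finset.mem_union] at hu
          rw [Finset.mem_erase]
          rcases hu with hu | hu
          · rw [Finset.mem_inter, mem_hpN] at hu
            refine ⟨?_, hu.2⟩
            rintro rfl
            exact h hu.1
          · rw [Finset.mem_map] at hu
            obtain ⟨v, hv, hvu⟩ := hu
            have hvu' : ρ v = u := hvu
            rw [Finset.mem_inter, mem_hpN] at hv
            rw [← hvu']
            refine ⟨?_, ?_⟩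
            · intro hvz
              have : v = z := ρ.injective hvz
              rw [this] at hv
              exact h' hv.1
            · exact mem_hpCyc.mpr (Equiv.Perm.sameCycle_apply_right.mpr (mem_hpCyc.mp hv.2))
        have e4 := Finset.card_le_card e3
        have e5 : ρ z ∈ hpCyc ρ c := mem_hpCyc.mpr (Equiv.Perm.sameCycle_apply_right.mpr hz)
        rw [Finset.card_erase_of_mem e5] at e4
        have e6 : 0 < (hpCyc ρ c).card := Finset.card_pos.mpr ⟨_, e5⟩
        omega
    have hA := @hp_alt V _ G ρ c halt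
    have hOC : ∀ x, ρ.SameCycle o x → ¬ ρ.SameCycle c x := fun x hx hcx => hoc (hx.trans hcx.symm)
    -- every vertex of O has a neighbour in C
    have hatt : ∀ x, ρ.SameCycle o x → ∃ z, ρ.SameCycle c z ∧ G.Adj x z := by
      intro x hx
      by_contra hno
      push Not at hno
      have hsub : hpN G x \ hpCyc ρ o = ∅ := by
        ext z
        simp only [Finset.mem_sdiff, Finset.notMem_empty, iff_false, not_and, not_not]
        rw [mem_hpN]
        intro hz
        rcases hcover z with h | h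
        · exact mem_hpCyc.mpr h
        · exact absurd hz (hno z h)
      have d1 := hdeg x o
      have d3 := hin x o
      rw [hsub, Finset.card_empty] at d1
      omega
    -- types are constant on O
    have htype : ∀ x, ρ.SameCycle o x → ∀ z z', ρ.SameCycle c z → ρ.SameCycle c z' →
        G.Adj x z → G.Adj x z' → (G.Adj c z ↔ G.Adj c z') := by
      intro x _ z z' hz hz' hxz hxz'
      by_contra hne
      have h3 : G.Adj z z' := by
        rw [hA hz hz']
        tauto
      exact htri x z z' hxz h3 hxz'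
    have hstep : ∀ x, ρ.SameCycle o x → ∀ z z', ρ.SameCycle c z → ρ.SameCycle c z' →
        G.Adj x z → G.Adj (ρ x) z' → (G.Adj c z ↔ G.Adj c z') := by
      intro x hx z z' hz hz' hxz hxz'
      by_contra hne
      have h3 : G.Adj z z' := by
        rw [hA hz hz']
        tauto
      exact hp_conj_false hρ halt (hOC x hx) hz hz' h3 hxz hxz'
    obtain ⟨z₀, hz₀, hoz₀⟩ := hatt o Equiv.Perm.SameCycle.rfl
    have hconst : ∀ x, ρ.SameCycle o x → ∀ z, ρ.SameCycle c z → G.Adj x z →
        (G.Adj c z ↔ G.Adj c z₀) := by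
      intro x hx
      obtain ⟨i, hi⟩ := hx.exists_nat_pow_eq
      subst hi
      induction i with
      | zero =>
        intro z hz hxz
        exact htype o Equiv.Perm.SameCycle.rfl z z₀ hz hz₀ hxz hoz₀
      | succ i ih =>
        intro z hz hxz
        have hx' : ρ.SameCycle o ((ρ ^ i) o) :=
          Equiv.Perm.sameCycle_pow_right.mpr Equiv.Perm.SameCycle.rfl
        obtain ⟨z', hz', hxz'⟩ := hatt _ hx'
        rw [pow_succ', Equiv.Perm.mul_apply] at hxz
        have e1 := hstep _ hx' z' z hz' hz hxz' hxz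
        have e2 := ih hx' z' hz' hxz'
        tauto
    -- a vertex of the other class has all its neighbours in C
    have hw : ∃ w, ρ.SameCycle c w ∧ (G.Adj c w ↔ ¬ G.Adj c z₀) := by
      by_cases h : G.Adj c z₀
      · refine ⟨c, Equiv.Perm.SameCycle.rfl, ?_⟩
        have : ¬ G.Adj c c := G.loopless.irrefl c
        tauto
      · refine ⟨ρ c, Equiv.Perm.sameCycle_apply_right.mpr Equiv.Perm.SameCycle.rfl, ?_⟩
        have := hρ.1 c
        tauto
    obtain ⟨w, hwc, hwt⟩ := hw
    have hsub : hpN G w \ hpCyc ρ c = ∅ := by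
      ext x
      simp only [Finset.mem_sdiff, Finset.notMem_empty, iff_false, not_and, not_not]
      rw [mem_hpN]
      intro hx
      rcases hcover x with h | h
      · exfalso
        have := hconst x h w hwc hx.symm
        tauto
      · exact mem_hpCyc.mpr h
    have d1 := hdeg w c
    have d2 := hCdeg w (mem_hpCyc.mpr hwc)
    rw [hsub, Finset.card_empty] at d1
    omega
  · -- the odd cycle: parity
    have hOdeg : ∀ y ∈ hpCyc ρ o, (hpN G y ∩ hpCyc ρ o).card = k := by
      intro y hy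
      have hyc : ρ.SameCycle o y := mem_hpCyc.mp hy
      have hcyc : hpCyc ρ y = hpCyc ρ o := by
        ext z
        rw [mem_hpCyc, mem_hpCyc]
        exact ⟨fun h => hyc.trans h, fun h => hyc.symm.trans h⟩
      have d1 := hdeg y y
      have d2 := hdeg (ρ y) y
      have d3 := hin y y
      have d4 := hin (ρ y) y
      have d5 := hout y
      rw [hcyc] at d1 d2 d3 d4 d5
      omega
    have he := hp_even_sum G (hpCyc ρ o)
    rw [Finset.sum_congr rfl hOdeg, Finset.sum_const, smul_eq_mul] at he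
    have hkodd : Odd k := by
      rw [Nat.odd_iff]
      omega
    have hOodd : Odd (hpCyc ρ o).card := ⟨k, hk⟩
    exact (Nat.not_even_iff_odd.mpr (hOodd.mul hkodd)) he

/-- The same for graphs in which every vertex has at most one non-neighbour. -/
theorem hamilton_perm_dense {V : Type*} [Fintype V] (G : SimpleGraph V)
    (hodd : Odd (Fintype.card V))
    (hδ : ∀ v, Fintype.card V ≤ (Finset.univ.filter (G.Adj v)).card + 2)
    (σ : Equiv.Perm V) (hσ : ∀ x, G.Adj x (σ x)) :
    ∃ τ : Equiv.Perm V, (∀ x, G.Adj x (τ x)) ∧ ∀ x y, τ.SameCycle x y := by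
  obtain ⟨ρ, hρ⟩ := hp_exists_opt σ hσ
  refine ⟨ρ, hρ.1, ?_⟩
  by_contra hcon
  push Not at hcon
  obtain ⟨a, b, hab⟩ := hcon
  -- the non-neighbours of v other than v
  have hnon : ∀ v x y, x ≠ v → y ≠ v → ¬ G.Adj v x → ¬ G.Adj v y → x = y := by
    intro v x y hx hy hvx hvy
    by_contra hxy
    have h1 : ({v, x, y} : Finset V) ⊆ (hpN G v)ᶜ := by
      intro u hu
      rw [Finset.mem_compl, mem_hpN]
      simp only [Finset.mem_insert, Finset.mem_singleton] at hu
      rcases hu with rfl | rfl | rfl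
      · exact G.loopless.irrefl _
      · exact hvx
      · exact hvy
    have h2 := Finset.card_le_card h1
    rw [Finset.card_compl] at h2
    have h3 : ({v, x, y} : Finset V).card = 3 := Finset.card_eq_three.mpr
      ⟨v, x, y, hx.symm, hy.symm, hxy, rfl⟩
    have h4 := hδ v
    have h5 : (hpN G v).card = (Finset.univ.filter (G.Adj v)).card := rfl
    omega
  have key : ∀ c, ((hpCyc ρ c)ᶜ).card ≤ 2 := by
    intro c
    have hsub : (hpCyc ρ c)ᶜ ⊆ ((Finset.univ.filter (fun x => x ≠ ρ c ∧ ¬ G.Adj (ρ c) x)) ∪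
        ((Finset.univ.filter (fun x => x ≠ c ∧ ¬ G.Adj c x)).map ρ.symm.toEmbedding)) := by
      intro x hx
      rw [Finset.mem_compl, mem_hpCyc] at hx
      have hxc : ¬ ρ.SameCycle x c := fun h => hx h.symm
      have h1 := hρ.m1 hxc
      rw [Finset.mem_union]
      by_cases h2 : G.Adj x (ρ c)
      · right
        rw [Finset.mem_map]
        refine ⟨ρ x, ?_, by simp⟩
        rw [Finset.mem_filter]
        refine ⟨Finset.mem_univ _, ?_, fun h3 => h1 ⟨h2, h3⟩⟩
        intro h3
        apply hxc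
        rw [← h3]
        exact Equiv.Perm.sameCycle_apply_right.mpr Equiv.Perm.SameCycle.rfl
      · left
        rw [Finset.mem_filter]
        refine ⟨Finset.mem_univ _, ?_, fun h3 => h2 h3.symm⟩
        rintro rfl
        exact hx (Equiv.Perm.sameCycle_apply_right.mpr Equiv.Perm.SameCycle.rfl)
    have hone : ∀ v, (Finset.univ.filter (fun x => x ≠ v ∧ ¬ G.Adj v x)).card ≤ 1 := by
      intro v
      rw [Finset.card_le_one]
      intro x hx y hy
      rw [Finset.mem_filter] at hx hy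
      exact hnon v x y hx.2.1 hy.2.1 hx.2.2 hy.2.2
    have h1 := Finset.card_le_card hsub
    have h2 := Finset.card_union_le (Finset.univ.filter (fun x => x ≠ ρ c ∧ ¬ G.Adj (ρ c) x))
      ((Finset.univ.filter (fun x => x ≠ c ∧ ¬ G.Adj c x)).map ρ.symm.toEmbedding)
    rw [Finset.card_map] at h2
    have h3 := hone (ρ c)
    have h4 := hone c
    omega
  have k1 := key a
  have k2 := key b
  have h1 := hp_two_le hρ.1 a
  have h2 := hp_two_le hρ.1 b
  have hd := hp_cyc_disj hab
  have h3 := Finset.card_union_of_disjoint hd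
  have h4 := Finset.card_le_univ (hpCyc ρ a ∪ hpCyc ρ b)
  rw [Finset.card_compl] at k1 k2
  have h5 := Finset.card_le_univ (hpCyc ρ a)
  have h6 := Finset.card_le_univ (hpCyc ρ b)
  obtain ⟨j, hj⟩ := hodd
  omega

end HamPerm

end Pool.Agent.Lib.MP_633d19_co
end

section

section

/-!
Numerical conditions for `dense_of_gmax`.
-/

namespace Pool.Agent.Lib.MP_633d19_co

theorem hnum_three {t : ℕ} (ht : 1 ≤ t) : ∀ n' z K, 3 ≤ n' → Odd n' → Even z → 2 ≤ z →
    (n' + z) * t ≤ K → (z - 2) * K + 2 * (n' * t) + 2 ≤ (t + 1) * (z * (z - 1)) →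
    K * (n' - 1) + 2 ≤ (t + 1) * (n' * (n' - 1)) → False := by
  intro n' z K hn' _ _ hz hK h2 h3
  obtain ⟨m, rfl⟩ : ∃ m, n' = m + 1 := ⟨n' - 1, by omega⟩
  obtain ⟨w, rfl⟩ : ∃ w, z = w + 2 := ⟨z - 2, by omega⟩
  have e1 : m + 1 - 1 = m := by omega
  have e2 : w + 2 - 2 = w := by omega
  have e3 : w + 2 - 1 = w + 1 := by omega
  rw [e2, e3] at h2
  rw [e1] at h3
  have hKlt : K < (t + 1) * (m + 1) := by
    by_contra hc
    push Not at hc
    have : (t + 1) * (m + 1) * m ≤ K * m := Nat.mul_le_mul_right m hc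
    nlinarith
  have ha : (w + 2) * t < m + 1 := by nlinarith
  have hwK : w * ((m + 1 + (w + 2)) * t) ≤ w * K := Nat.mul_le_mul_left w hK
  have hb0 : (w + 2) * (t * m) + 2 ≤ (w + 2) * (w + 1) := by nlinarith
  have hb : t * m < w + 1 := by
    have : (w + 2) * (t * m) < (w + 2) * (w + 1) := by omega
    exact Nat.lt_of_mul_lt_mul_left this
  have hc : w + 2 ≤ (w + 2) * t := Nat.le_mul_of_pos_right _ ht
  have hd : m ≤ t * m := Nat.le_mul_of_pos_left _ ht
  omega

theorem hnum_four {t μ : ℕ} (h : (t = 1 ∧ μ = 3) ∨ (2 ≤ t ∧ μ ≤ 2 * t + 2)) :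
    ∀ n' z K, 4 ≤ n' → Odd n' → Even z → 2 ≤ z →
    (n' + z) * t ≤ K → (z - 2) * K + 2 * (n' * t) + 2 ≤ μ * (2 * (z * z / 4)) →
    K * (n' - 1) + 2 ≤ μ * (2 * (n' * n' / 4)) → False := by
  intro n' z K hn' ho he hz hK h2 h3
  obtain ⟨p, rfl⟩ := ho
  obtain ⟨s0, hs0⟩ := he
  obtain ⟨s, rfl⟩ : ∃ s, s0 = s + 1 := ⟨s0 - 1, by omega⟩
  have hz2 : z = 2 * (s + 1) := by omega
  subst hz2
  have e1 : 2 * (s + 1) * (2 * (s + 1)) / 4 = (s + 1) * (s + 1) := by
    have : 2 * (s + 1) * (2 * (s + 1)) = (s + 1) * (s + 1) * 4 := by ring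
    rw [this, Nat.mul_div_cancel _ (by norm_num)]
  have e2 : (2 * p + 1) * (2 * p + 1) / 4 = p * p + p := by
    have : (2 * p + 1) * (2 * p + 1) = 1 + (p * p + p) * 4 := by ring
    rw [this, Nat.add_mul_div_right _ _ (by norm_num)]
    norm_num
  have e3 : 2 * (s + 1) - 2 = 2 * s := by omega
  have e4 : 2 * p + 1 - 1 = 2 * p := by omega
  rw [e1, e3] at h2
  rw [e2, e4] at h3
  have hp : 2 ≤ p := by omega
  have hKlt : K < μ * (p + 1) := by
    by_contra hc
    push Not at hc
    have : μ * (p + 1) * (2 * p) ≤ K * (2 * p) := Nat.mul_le_mul_right _ hc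
    nlinarith
  have ha : (2 * p + 1 + 2 * (s + 1)) * t < μ * (p + 1) := lt_of_le_of_lt hK hKlt
  have hwK : 2 * s * ((2 * p + 1 + 2 * (s + 1)) * t) ≤ 2 * s * K := Nat.mul_le_mul_left _ hK
  have hb0 : (2 * (s + 1)) * ((2 * p + 1) * t + 2 * s * t) + 2 ≤
      (2 * (s + 1)) * (μ * (s + 1)) := by nlinarith
  have hb : (2 * p + 1) * t + 2 * s * t < μ * (s + 1) := by
    have : (2 * (s + 1)) * ((2 * p + 1) * t + 2 * s * t) < (2 * (s + 1)) * (μ * (s + 1)) := by
      omega
    exact Nat.lt_of_mul_lt_mul_left this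
  rcases h with ⟨rfl, rfl⟩ | ⟨ht, hμ⟩
  · omega
  · have ha' : (2 * p + 1 + 2 * (s + 1)) * t < (2 * t + 2) * (p + 1) :=
      lt_of_lt_of_le ha (Nat.mul_le_mul_right _ hμ)
    have hb' : (2 * p + 1) * t + 2 * s * t < (2 * t + 2) * (s + 1) :=
      lt_of_lt_of_le hb (Nat.mul_le_mul_right _ hμ)
    have h5 : 2 * s * t + t < 2 * p + 2 := by nlinarith
    have h6 : (2 * p - 1) * t < 2 * s + 2 := by
      obtain ⟨q, rfl⟩ : ∃ q, p = q + 1 := ⟨p - 1, by omega⟩
      have : 2 * (q + 1) - 1 = 2 * q + 1 := by omega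
      rw [this]
      nlinarith
    obtain ⟨q, rfl⟩ : ∃ q, p = q + 2 := ⟨p - 2, by omega⟩
    obtain ⟨r, rfl⟩ : ∃ r, t = r + 2 := ⟨t - 2, by omega⟩
    have e5 : 2 * (q + 2) - 1 = 2 * q + 3 := by omega
    rw [e5] at h6
    nlinarith

theorem ham_num {μ t N : ℕ} (hN : 4 ≤ N) (hNe : Even N)
    (h : (3 ≤ t ∧ μ ≤ 2 * t + 2) ∨ (μ = 5 ∧ t = 2) ∨ (μ = 3 ∧ t = 1 ∧ N ≤ 26) ∨
      (μ = 6 ∧ t = 2 ∧ N ≤ 18)) :
    ∃ δ, μ * (δ - 1) < N * t + 2 ∧ 3 * (N + 1) ≤ 8 * δ + 5 ∧ N + 1 ≤ 3 * δ := by
  rcases Nat.eq_zero_or_pos μ with h0 | hpos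
  · subst h0
    refine ⟨N + 1, by omega, by omega, by omega⟩
  · refine ⟨(N * t + 1) / μ + 1, ?_, ?_⟩
    · have h1 : (N * t + 1) / μ + 1 - 1 = (N * t + 1) / μ := Nat.add_sub_cancel _ _
      rw [h1]
      have := Nat.mul_div_le (N * t + 1) μ
      omega
    · set δ := (N * t + 1) / μ + 1 with hδ
      have hlt : N * t + 1 < μ * δ := by
        have := Nat.lt_mul_div_succ (N * t + 1) hpos
        simpa [hδ, Nat.succ_eq_add_one] using this
      rcases h with ⟨ht, hμ⟩ | ⟨rfl, rfl⟩ | ⟨rfl, rfl, hN2⟩ | ⟨rfl, rfl, hN2⟩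
      · have hlt' : N * t + 1 < (2 * t + 2) * δ := lt_of_lt_of_le hlt (Nat.mul_le_mul_right _ hμ)
        obtain ⟨r, rfl⟩ : ∃ r, t = r + 3 := ⟨t - 3, by omega⟩
        constructor
        · by_contra hc
          push Not at hc
          -- 8 δ + 5 < 3 (N + 1)
          have h8 : 8 * δ + 3 ≤ 3 * N := by omega
          have h9 : (2 * (r + 3) + 2) * (8 * δ + 3) ≤ (2 * (r + 3) + 2) * (3 * N) :=
            Nat.mul_le_mul_left _ h8
          nlinarith
        · by_contra hc
          push Not at hc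
          have h8 : 3 * δ ≤ N := by omega
          have h9 : (2 * (r + 3) + 2) * (3 * δ) ≤ (2 * (r + 3) + 2) * N :=
            Nat.mul_le_mul_left _ h8
          nlinarith
      · obtain ⟨k, hk⟩ := hNe
        omega
      · obtain ⟨k, hk⟩ := hNe
        omega
      · obtain ⟨k, hk⟩ := hNe
        omega

end Pool.Agent.Lib.MP_633d19_co
end

section

/-!
There is no 18-regular triangle-free multigraph on nine vertices with multiplicities at most 6.
-/

namespace Pool.Agent.Lib.MP_633d19_co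

open Classical

theorem nine_false {V : Type*} [Fintype V] (hn : Fintype.card V = 9) (w : V → V → ℕ)
    (hsymm : ∀ a b, w a b = w b a) (htri : ∀ a b c, w a b ≠ 0 → w b c ≠ 0 → w a c = 0)
    (hle : ∀ a b, w a b ≤ 6) (hdeg : ∀ v, ∑ u, w v u = 18) : False := by
  obtain ⟨N, hN⟩ : ∃ N : V → Finset V, ∀ v u, u ∈ N v ↔ w v u ≠ 0 :=
    ⟨fun v => Finset.univ.filter (fun u => w v u ≠ 0), fun v u => by simp⟩
  have hNs : ∀ v u, u ∈ N v ↔ v ∈ N u := fun v u => by rw [hN, hN, hsymm]
  have hNt : ∀ v u x, u ∈ N v → x ∈ N v → w u x = 0 := by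
    intro v u x hu hx
    rw [hN] at hu hx
    exact htri u v x (by rw [hsymm]; exact hu) hx
  -- weights from `v` to the set `S`
  have hsumN : ∀ v, ∑ u ∈ N v, w v u = 18 := by
    intro v
    rw [← hdeg v]
    apply Finset.sum_subset (Finset.subset_univ _)
    intro x _ hx
    rw [hN] at hx
    exact not_not.1 hx
  have hd3 : ∀ v, 3 ≤ (N v).card := by
    intro v
    have h1 : ∑ u ∈ N v, w v u ≤ (N v).card • 6 := Finset.sum_le_card_nsmul _ _ _ (fun u _ => hle v u)
    rw [hsumN, smul_eq_mul] at h1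
    omega
  -- weight between `N v` and its complement
  have hout : ∀ v, ∑ x ∈ (N v)ᶜ, ∑ u ∈ N v, w x u = 18 * (N v).card := by
    intro v
    rw [Finset.sum_comm]
    have : ∀ u ∈ N v, ∑ x ∈ (N v)ᶜ, w x u = 18 := by
      intro u hu
      rw [← hdeg u, ← Finset.sum_compl_add_sum (N v)]
      rw [Finset.sum_eq_zero (s := N v) (fun x hx => hNt v u x hu hx), add_zero]
      exact Finset.sum_congr rfl (fun x _ => hsymm x u)
    rw [Finset.sum_congr rfl this, Finset.sum_const, smul_eq_mul, mul_comm]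
  have hcc : ∀ v, ((N v)ᶜ).card = 9 - (N v).card := by
    intro v
    rw [Finset.card_compl, hn]
  have hd4 : ∀ v, (N v).card ≤ 4 := by
    intro v
    have h1 : ∑ x ∈ (N v)ᶜ, ∑ u ∈ N v, w x u ≤ ((N v)ᶜ).card • 18 := by
      apply Finset.sum_le_card_nsmul
      intro x _
      rw [← hdeg x]
      exact Finset.sum_le_sum_of_subset (Finset.subset_univ _)
    rw [hout, hcc, smul_eq_mul] at h1
    have h2 : (N v).card ≤ 9 := by rw [← hn]; exact Finset.card_le_univ _
    omega
  have hsix : ∀ v, (N v).card = 3 → ∀ u ∈ N v, w v u = 6 := by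
    intro v hv u hu
    by_contra hne
    have h1 : ∑ u ∈ N v, w v u < ∑ _u ∈ N v, 6 :=
      Finset.sum_lt_sum (fun x _ => hle v x) ⟨u, hu, lt_of_le_of_ne (hle v u) hne⟩
    rw [hsumN, Finset.sum_const, hv] at h1
    norm_num at h1
  -- weight inside the complement of `N v`
  have hins : ∀ v, (N v).card = 4 → ∑ x ∈ (N v)ᶜ, ∑ u ∈ (N v)ᶜ, w x u = 18 := by
    intro v hv
    have h1 : ∑ x ∈ (N v)ᶜ, ∑ u, w x u = 18 * 5 := by
      rw [Finset.sum_congr rfl (fun x _ => hdeg x), Finset.sum_const, hcc, hv]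
      norm_num
    have h2 : ∀ x, ∑ u, w x u = ∑ u ∈ (N v)ᶜ, w x u + ∑ u ∈ N v, w x u := fun x =>
      (Finset.sum_compl_add_sum (N v) _).symm
    simp only [h2, Finset.sum_add_distrib] at h1
    rw [hout, hv] at h1
    omega
  -- a vertex with four neighbours
  obtain ⟨p, hp⟩ : ∃ p, (N p).card = 4 := by
    by_contra hcon
    push Not at hcon
    have hall : ∀ v, (N v).card = 3 := fun v => by
      have h1 := hd3 v
      have h2 := hd4 v
      have h3 := hcon v
      omega
    let G : SimpleGraph V :=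
      { Adj := fun u v => w u v ≠ 0
        symm := ⟨fun u v h => by rw [hsymm]; exact h⟩
        loopless := ⟨fun v h => h (htri v v v h h)⟩ }
    have h1 := G.sum_degrees_eq_twice_card_edges
    have h2 : ∀ v, G.degree v = 3 := by
      intro v
      rw [← hall v, ← SimpleGraph.card_neighborFinset_eq_degree]
      congr 1
      ext u
      rw [SimpleGraph.mem_neighborFinset, hN]
    rw [Finset.sum_congr rfl (fun v _ => h2 v), Finset.sum_const, Finset.card_univ, hn] at h1
    simp only [smul_eq_mul] at h1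
    omega
  obtain ⟨q, hqp, hq6⟩ : ∃ q ∈ N p, w p q < 6 := by
    by_contra hcon
    push Not at hcon
    have h1 : (N p).card • 6 ≤ ∑ u ∈ N p, w p u := Finset.card_nsmul_le_sum _ _ _ hcon
    rw [hsumN, hp, smul_eq_mul] at h1
    omega
  have hq : (N q).card = 4 := by
    have h1 := hd3 q
    have h2 := hd4 q
    by_contra hne
    have h3 := hsix q (by omega) p ((hNs p q).1 hqp)
    rw [hsymm] at h3
    omega
  have hdisj : Disjoint (N p) (N q) := by
    rw [Finset.disjoint_left]
    intro x hx hx'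
    rw [hN] at hx'
    exact hx' (hNt p q x hqp hx)
  obtain ⟨r, hr⟩ : ∃ r, (N p ∪ N q)ᶜ = {r} := by
    rw [← Finset.card_eq_one, Finset.card_compl, hn, Finset.card_union_of_disjoint hdisj, hp, hq]
  have hrp : r ∉ N p ∧ r ∉ N q := by
    have h1 : r ∈ (N p ∪ N q)ᶜ := by rw [hr]; simp
    rw [Finset.mem_compl, Finset.mem_union, not_or] at h1
    exact h1
  have hpc : (N p)ᶜ = insert r (N q) := by
    ext x
    rw [Finset.mem_compl, Finset.mem_insert]
    constructor
    · intro hx
      by_cases hxq : x ∈ N q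
      · exact Or.inr hxq
      · left
        have h1 : x ∈ (N p ∪ N q)ᶜ := by
          rw [Finset.mem_compl, Finset.mem_union, not_or]
          exact ⟨hx, hxq⟩
        rw [hr, Finset.mem_singleton] at h1
        exact h1
    · rintro (rfl | hx) hxp
      · exact hrp.1 hxp
      · exact Finset.disjoint_left.1 hdisj hxp hx
  have hqc : (N q)ᶜ = insert r (N p) := by
    ext x
    rw [Finset.mem_compl, Finset.mem_insert]
    constructor
    · intro hx
      by_cases hxq : x ∈ N p
      · exact Or.inr hxq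
      · left
        have h1 : x ∈ (N p ∪ N q)ᶜ := by
          rw [Finset.mem_compl, Finset.mem_union, not_or]
          exact ⟨hxq, hx⟩
        rw [hr, Finset.mem_singleton] at h1
        exact h1
    · rintro (rfl | hx) hxp
      · exact hrp.2 hxp
      · exact Finset.disjoint_left.1 hdisj hx hxp
  have hrr : w r r = 0 := by
    by_contra h
    exact h (htri r r r h h)
  have hnine : ∀ s, r ∉ N s → ∑ x ∈ insert r (N s), ∑ u ∈ insert r (N s), w x u = 18 →
      ∑ u ∈ N s, w r u = 9 := by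
    intro s hrs h
    have h1 : ∀ x, ∑ u ∈ insert r (N s), w x u = w x r + ∑ u ∈ N s, w x u := fun x =>
      Finset.sum_insert hrs
    simp only [h1] at h
    rw [Finset.sum_insert hrs, Finset.sum_add_distrib, hrr] at h
    have h2 : ∑ x ∈ N s, w x r = ∑ x ∈ N s, w r x := Finset.sum_congr rfl (fun x _ => hsymm x r)
    have h3 : ∑ x ∈ N s, ∑ u ∈ N s, w x u = 0 :=
      Finset.sum_eq_zero (fun x hx => Finset.sum_eq_zero (fun u hu => hNt s x u hx hu))
    rw [h2, h3] at h
    omega
  have hrq9 : ∑ u ∈ N q, w r u = 9 := hnine q hrp.2 (by rw [← hpc]; exact hins p hp)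
  have hrp9 : ∑ u ∈ N p, w r u = 9 := hnine p hrp.1 (by rw [← hqc]; exact hins q hq)
  have hinter : ∀ s, ∑ u ∈ N s, w r u = ∑ u ∈ N s ∩ N r, w r u := by
    intro s
    symm
    apply Finset.sum_subset Finset.inter_subset_left
    intro x hx hx'
    rw [Finset.mem_inter, not_and] at hx'
    have := hx' hx
    rw [hN] at this
    exact not_not.1 this
  have htwo : ∀ s, ∑ u ∈ N s, w r u = 9 → 2 ≤ (N s ∩ N r).card := by
    intro s hs
    rw [hinter] at hs
    have h1 : ∑ u ∈ N s ∩ N r, w r u ≤ (N s ∩ N r).card • 6 :=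
      Finset.sum_le_card_nsmul _ _ _ (fun u _ => hle r u)
    rw [hs, smul_eq_mul] at h1
    omega
  have hp2 := htwo p hrp9
  have hq2 := htwo q hrq9
  have hdisj2 : Disjoint (N p ∩ N r) (N q ∩ N r) :=
    Finset.disjoint_of_subset_left Finset.inter_subset_left
      (Finset.disjoint_of_subset_right Finset.inter_subset_left hdisj)
  have hsum4 : (N p ∩ N r).card + (N q ∩ N r).card ≤ 4 := by
    rw [← Finset.card_union_of_disjoint hdisj2]
    refine (Finset.card_le_card ?_).trans (hd4 r)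
    exact Finset.union_subset Finset.inter_subset_right Finset.inter_subset_right
  have hxs : ∀ x ∈ N p ∩ N r, w r x = 6 := by
    intro x hx
    rw [Finset.mem_inter] at hx
    have hsub : N x ⊆ insert r (N q \ (N q ∩ N r)) := by
      intro y hy
      have hyp : y ∉ N p := by
        intro h
        rw [hN] at hy
        exact hy (hNt p x y hx.1 h)
      have hyr : y ∉ N r := by
        intro h
        rw [hN] at hy
        exact hy (hNt r x y hx.2 h)
      have h1 : y ∈ (N p)ᶜ := Finset.mem_compl.2 hyp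
      rw [hpc, Finset.mem_insert] at h1
      rw [Finset.mem_insert]
      rcases h1 with h1 | h1
      · exact Or.inl h1
      · right
        rw [Finset.mem_sdiff, Finset.mem_inter, not_and]
        exact ⟨h1, fun _ => hyr⟩
    have h1 := Finset.card_le_card hsub
    have h2 := Finset.card_insert_le r (N q \ (N q ∩ N r))
    have h3 := Finset.card_sdiff_of_subset (s := N q ∩ N r) (t := N q) Finset.inter_subset_left
    have h4 := hd3 x
    have h5 := hsix x (by omega) r ((hNs r x).1 hx.2)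
    rw [hsymm]
    exact h5
  have hfin : ∑ u ∈ N p ∩ N r, w r u = 12 := by
    rw [Finset.sum_congr rfl hxs, Finset.sum_const, smul_eq_mul]
    omega
  rw [hinter p, hfin] at hrp9
  omega

end Pool.Agent.Lib.MP_633d19_co
end

section

/-!
Arithmetic consequences of the existence of dense weights: three special cases.
-/

namespace Pool.Agent.Lib.MP_633d19_co

open Classical

variable {V : Type*} [Fintype V] {w : V → V → ℕ} {μ t Δ : ℕ}

/-- the degree is at most `μ` times the number of neighbours -/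
theorem wspecial_deg_le (hle : ∀ a b, w a b ≤ μ) (G : SimpleGraph V)
    (hG : ∀ u v, w u v ≠ 0 → G.Adj u v) (v : V) :
    ∑ u, w v u ≤ μ * (Finset.univ.filter (G.Adj v)).card := by
  have h1 : ∑ u, w v u = ∑ u ∈ Finset.univ.filter (G.Adj v), w v u := by
    rw [Finset.sum_filter]
    refine Finset.sum_congr rfl fun u _ => ?_
    by_cases h : G.Adj v u
    · rw [if_pos h]
    · rw [if_neg h]
      by_contra h0
      exact h (hG v u h0)
  rw [h1, mul_comm, ← smul_eq_mul]
  exact Finset.sum_le_card_nsmul _ _ _ fun u _ => hle v u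

/-- 19 points (`G` is a maximal triangle-free graph containing the support) -/
theorem DW.nineteen (h : DW V w μ t Δ)
    (hge : ∀ v, t * (Fintype.card V - 1) + 2 ≤ ∑ u, w v u)
    (hle : t * (Fintype.card V - 1) + 2 ≤ Δ)
    (G : SimpleGraph V) (hG : ∀ u v, w u v ≠ 0 → G.Adj u v)
    (htri : ∀ a b c, G.Adj a b → G.Adj b c → ¬ G.Adj a c)
    (hmax : ∀ a b, a ≠ b → ¬ G.Adj a b → ∃ x, G.Adj a x ∧ G.Adj x b)
    (s : ZMod 5 → V) (hs : ∀ i, G.Adj (s i) (s (i + 1)))
    (hn : Fintype.card V = 19) (hμ : 6 * μ < t * 18 + 2) :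
    (∀ v, ∃ i, G.Adj v (s (i - 1)) ∧ G.Adj v (s (i + 1))) ∨
      5 * Δ ≤ 32 * μ + Dn t Δ 19 := by
  rw [hn] at hge hle
  have hδ : ∀ v, 7 ≤ (Finset.univ.filter (G.Adj v)).card := by
    intro v
    by_contra hc
    have h1 : (Finset.univ.filter (G.Adj v)).card ≤ 6 := by omega
    have h2 := wspecial_deg_le h.le G hG v
    have h3 := Nat.mul_le_mul_left μ h1
    have h4 := hge v
    omega
  rcases Pool.Agent.Lib.MP_633d19_co.nineteen hn G htri hmax hδ s hs with h1 | ⟨P, Q, hP, hQ, hPQ, hQ7⟩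
  · exact Or.inl h1
  · right
    have hD : Fintype.card V * Δ ≤ (∑ v, ∑ u, w v u) + Dn t Δ 19 := by
      have h2 := h.dense
      rw [hn] at h2 ⊢
      unfold Dn
      have e : (Δ + t) * (19 - 1) + 2 = 18 * Δ + (t * (19 - 1) + 2) := by ring
      omega
    have h2 := three_eight_ineq w h.symm h.le G hG h.deg_le hD P Q hP hQ hPQ hQ7
    omega

/-- all degrees are `Δ` if the total is at least `n Δ` -/
theorem wspecial_regular (hd : ∀ v, ∑ u, w v u ≤ Δ)
    (ht : Fintype.card V * Δ ≤ ∑ v, ∑ u, w v u) (v : V) : ∑ u, w v u = Δ := by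
  by_contra hv
  have h1 : ∑ v, ∑ u, w v u < ∑ _v : V, Δ :=
    Finset.sum_lt_sum (fun v _ => hd v) ⟨v, Finset.mem_univ v, lt_of_le_of_ne (hd v) hv⟩
  rw [Finset.sum_const, smul_eq_mul, Finset.card_univ] at h1
  omega

/-- nine points -/
theorem DW.nine (h : DW V w 6 2 18) (hn : Fintype.card V = 9) : False := by
  have h1 := h.dense
  rw [hn] at h1
  exact nine_false hn w h.symm h.tri h.le
    (wspecial_regular h.deg_le (by rw [hn]; omega))

theorem wspecial_zmod5 : ∀ T : Finset (ZMod 5),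
    (∀ i ∈ T, ∀ j ∈ T, i = j ∨ j = i + 2 ∨ i = j + 2) → T.card ≤ 2 := by
  decide

/-- the degree sum of a pentagon -/
theorem wspecial_pentagon (G : SimpleGraph V)
    (htri : ∀ a b c, G.Adj a b → G.Adj b c → ¬ G.Adj a c)
    (s : ZMod 5 → V) (hs : ∀ i, G.Adj (s i) (s (i + 1))) :
    ∑ i, (Finset.univ.filter (G.Adj (s i))).card ≤ 2 * Fintype.card V := by
  have h1 : ∀ i, (Finset.univ.filter (G.Adj (s i))).card =
      ∑ z, if G.Adj (s i) z then 1 else 0 := fun i => by
    rw [Finset.card_filter]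
  rw [Finset.sum_congr rfl fun i _ => h1 i, Finset.sum_comm]
  calc ∑ z, ∑ i, (if G.Adj (s i) z then 1 else 0) ≤ ∑ _z : V, 2 := by
        refine Finset.sum_le_sum fun z _ => ?_
        rw [← Finset.card_filter]
        refine wspecial_zmod5 _ fun i hi j hj => ?_
        rw [Finset.mem_filter] at hi hj
        exact c5_adj G htri s hs hi.2.symm hj.2.symm
    _ = 2 * Fintype.card V := by
        rw [Finset.sum_const, smul_eq_mul, Finset.card_univ, mul_comm]

/-- `μ = 10`, `5 m + 3` points, `Δ = 20 m + 10` (`G` is a maximal triangle-free graph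
containing the support) -/
theorem DW.ten {m : ℕ} (h : DW V w 10 4 (20 * m + 10)) (hn : Fintype.card V = 5 * m + 3)
    (G : SimpleGraph V) (hG : ∀ u v, w u v ≠ 0 → G.Adj u v)
    (htri : ∀ a b c, G.Adj a b → G.Adj b c → ¬ G.Adj a c)
    (hmax : ∀ a b, a ≠ b → ¬ G.Adj a b → ∃ x, G.Adj a x ∧ G.Adj x b)
    (hnb : ¬ ∃ P : V → Prop, ∀ a b, G.Adj a b → (P a ↔ ¬ P b)) : False := by
  have hdeg : ∀ v, ∑ u, w v u = 20 * m + 10 := by
    refine wspecial_regular h.deg_le ?_
    have h1 := h.dense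
    rw [hn] at h1 ⊢
    have e1 : (20 * m + 10 + 4) * (5 * m + 3 - 1) + 2 = (5 * m + 3) * (20 * m + 10) := by
      rw [show 5 * m + 3 - 1 = 5 * m + 2 by omega]; ring
    omega
  set d : V → ℕ := fun v => (Finset.univ.filter (G.Adj v)).card with hd
  have hw : ∀ v, ∑ u, w v u ≤ 10 * d v := wspecial_deg_le h.le G hG
  have h1 : ∀ v, 2 * m + 1 ≤ d v := fun v => by
    have := hw v
    rw [hdeg v] at this
    omega
  -- no edge with two large degrees
  have h2 : ∀ p q, G.Adj p q → 2 * m + 2 ≤ d p → ¬ 2 * m + 2 ≤ d q := by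
    intro p q hpq hp hq
    obtain ⟨s, hs, s0, s1⟩ := edge_in_pentagon G htri hmax hnb hpq
    have h3 := wspecial_pentagon G htri s hs
    have h4 : ∑ i, (Finset.univ.filter (G.Adj (s i))).card =
        d (s 0) + d (s 1) + d (s 2) + d (s 3) + d (s 4) := by
      show ∑ i : Fin 5, d (s i) = _
      rw [Fin.sum_univ_five]
      rfl
    rw [h4, s0, s1, hn] at h3
    have h5 := h1 (s 2)
    have h6 := h1 (s 3)
    have h7 := h1 (s 4)
    omega
  -- all degrees are `2 m + 1`
  have h3 : ∀ p, d p = 2 * m + 1 := by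
    intro p
    by_contra hp
    have hp2 : 2 * m + 2 ≤ d p := by have := h1 p; omega
    have h4 : ∀ u, G.Adj p u → w p u = 10 := by
      intro u hu
      have h5 : d u = 2 * m + 1 := by
        have h6 := h2 p u hu hp2
        have h7 := h1 u
        omega
      -- all weights at `u` equal `10`
      by_contra hne
      have h8 : w u p < 10 := by
        rw [h.symm u p]
        exact lt_of_le_of_ne (h.le p u) hne
      have h9 : ∑ x, w u x = ∑ x ∈ Finset.univ.filter (G.Adj u), w u x := by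
        rw [Finset.sum_filter]
        refine Finset.sum_congr rfl fun x _ => ?_
        by_cases hx : G.Adj u x
        · rw [if_pos hx]
        · rw [if_neg hx]
          by_contra h0
          exact hx (hG u x h0)
      have h10 : ∑ x ∈ Finset.univ.filter (G.Adj u), w u x <
          ∑ _x ∈ Finset.univ.filter (G.Adj u), 10 :=
        Finset.sum_lt_sum (fun x _ => h.le u x) ⟨p, by simp [hu.symm], h8⟩
      rw [Finset.sum_const, smul_eq_mul, ← h9, hdeg u] at h10
      have : (Finset.univ.filter (G.Adj u)).card = 2 * m + 1 := h5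
      rw [this] at h10
      omega
    have h9 : ∑ x, w p x = ∑ x ∈ Finset.univ.filter (G.Adj p), w p x := by
      rw [Finset.sum_filter]
      refine Finset.sum_congr rfl fun x _ => ?_
      by_cases hx : G.Adj p x
      · rw [if_pos hx]
      · rw [if_neg hx]
        by_contra h0
        exact hx (hG p x h0)
    rw [Finset.sum_congr rfl (fun x hx => h4 x (Finset.mem_filter.1 hx).2), Finset.sum_const,
      smul_eq_mul, hdeg p] at h9
    have : (Finset.univ.filter (G.Adj p)).card = d p := rfl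
    rw [this] at h9
    omega
  -- parity
  have h4 := G.sum_degrees_eq_twice_card_edges
  have h5 : ∀ v, G.degree v = 2 * m + 1 := by
    intro v
    rw [← h3 v]
    simp only [hd]
    rw [← SimpleGraph.card_neighborFinset_eq_degree]
    congr 1
    ext x
    simp
  rw [Finset.sum_congr rfl fun v _ => h5 v, Finset.sum_const, smul_eq_mul, Finset.card_univ] at h4
  have h6 : Odd (Fintype.card V * (2 * m + 1)) := h.odd.mul ⟨m, rfl⟩
  rw [h4] at h6
  exact (Nat.not_odd_iff_even.2 (even_two_mul _)) h6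

end Pool.Agent.Lib.MP_633d19_co
end
end
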