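import Pool.Agent.Lib.MP_633d19_co.Num3
import Pool.Agent.Lib.MP_633d19_co.TashMain
import Pool.Agent.Lib.MP_633d19_co.Recolor
import Pool.Agent.Lib.MP_633d19_co.WSpecial
import Pool.Agent.Lib.MP_633d19_co.Main

section

/-!
The numerical consequences for `μ = 8`.
-/

namespace Pool.Agent.Lib.MP_633d19_co

open Classical

/-- the attaining values `Δ < 212` for `μ = 8` -/
def num8_att (Δ : ℕ) : Bool :=
  Nat.beq Δ 32 || (Nat.ble 44 Δ && Nat.ble Δ 48) || (Nat.ble 62 Δ && Nat.ble Δ 64) ||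
  (Nat.ble 74 Δ && Nat.ble Δ 80) || (Nat.ble 92 Δ && Nat.ble Δ 96) ||
  (Nat.ble 104 Δ && Nat.ble Δ 112) || (Nat.ble 122 Δ && Nat.ble Δ 128) ||
  (Nat.ble 134 Δ && Nat.ble Δ 144) || (Nat.ble 152 Δ && Nat.ble Δ 160) ||
  (Nat.ble 164 Δ && Nat.ble Δ 177) || (Nat.ble 182 Δ && Nat.ble Δ 192) ||
  (Nat.ble 194 Δ && Nat.ble Δ 209)

set_option maxRecDepth 100000 in
theorem num8_all : numChk_all 8 3 16 212 71 num8_att = true := by
  decide +kernel

theorem att_of_num_8 {Δ n : ℕ} (hΔ : 2 * 8 < Δ) (h : Num 8 3 Δ n) : Att4 8 Δ := by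
  have hA : (8 = 8 ∧ (Δ = 32 ∨ (44 ≤ Δ ∧ Δ ≤ 48) ∨ (62 ≤ Δ ∧ Δ ≤ 64) ∨ (74 ≤ Δ ∧ Δ ≤ 80) ∨
    (92 ≤ Δ ∧ Δ ≤ 96) ∨ (104 ≤ Δ ∧ Δ ≤ 112) ∨ (122 ≤ Δ ∧ Δ ≤ 128) ∨ (134 ≤ Δ ∧ Δ ≤ 144) ∨
    (152 ≤ Δ ∧ Δ ≤ 160) ∨ (164 ≤ Δ ∧ Δ ≤ 177) ∨ (182 ≤ Δ ∧ Δ ≤ 192) ∨
    (194 ≤ Δ ∧ Δ ≤ 209) ∨ 212 ≤ Δ)) → Att4 8 Δ :=
    fun h => Or.inr (Or.inr (Or.inr (Or.inr (Or.inl h))))
  apply hA
  refine ⟨rfl, ?_⟩
  by_cases hB : Δ < 212
  · have h1 := numChk_all_sound (by norm_num) (fun Δ n h1 h2 => by omega) num8_all hΔ hB h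
    unfold num8_att at h1
    simp only [Bool.or_eq_true, Bool.and_eq_true, Nat.beq_eq, Nat.ble_eq] at h1
    omega
  · omega

end Pool.Agent.Lib.MP_633d19_co
end

section

/-!
Balanced multigraphs on blow-ups of the pentagon.
-/

namespace Pool.Agent.Lib.MP_633d19_co

open Classical

theorem blowUp2_range (a e : ℕ) (ha : 1 ≤ a) :
    ∑ u ∈ Finset.range a, (e + u) / a = e := by
  induction e with
  | zero =>
    apply Finset.sum_eq_zero
    intro u hu
    rw [Finset.mem_range] at hu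
    rw [Nat.zero_add, Nat.div_eq_of_lt hu]
  | succ e ih =>
    obtain ⟨b, rfl⟩ : ∃ b, a = b + 1 := ⟨a - 1, by omega⟩
    rw [Finset.sum_range_succ'] at ih
    rw [Finset.sum_range_succ]
    have h1 : (e + 1 + b) / (b + 1) = e / (b + 1) + 1 := by
      have : e + 1 + b = e + (b + 1) := by omega
      rw [this, Nat.add_div_right _ (Nat.succ_pos b)]
    have h2 : ∑ x ∈ Finset.range b, (e + 1 + x) / (b + 1) =
        ∑ x ∈ Finset.range b, (e + (x + 1)) / (b + 1) := by
      apply Finset.sum_congr rfl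
      intro x _
      congr 1
      omega
    simp only [Nat.add_zero] at ih
    rw [h1, h2, ← Nat.add_assoc, ih]

theorem sum_floor (a e : ℕ) (ha : 1 ≤ a) : ∑ u : Fin a, (e + u.1) / a = e := by
  rw [Fin.sum_univ_eq_sum_range (fun u => (e + u) / a) a]
  exact blowUp2_range a e ha

/-- `e i` edges between part `i` and part `i + 1`, distributed evenly -/
theorem exists_c5_balanced (a e : Fin 5 → ℕ) (Δ μ : ℕ) (ha : ∀ i, 1 ≤ a i)
    (h1 : ∀ i, e i ≤ μ * (a i * a (i + 1))) (h2 : ∀ i, e i + e (i - 1) ≤ a i * Δ) :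
    ∃ G : MGraph, G.maxDeg ≤ Δ ∧ G.maxMult ≤ μ ∧ ¬ G.HasCycle 3 ∧
      Fintype.card G.V = ∑ i, a i ∧ Fintype.card G.E = ∑ i, e i := by
  have hs : ∀ i, ∑ u : Fin (a i), (e i + u.1) / a i = e i := fun i => sum_floor (a i) (e i) (ha i)
  obtain ⟨G, g1, g2, g3, g4, g5⟩ := exists_c5_blowup a (fun i u => (e i + u.1) / a i) Δ μ
    (by
      intro i u
      have hi := ha i
      have h := h1 i
      have hu := u.2
      have h3 : e i + u.1 < a i * (μ * a (i + 1) + 1) := by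
        have : a i * (μ * a (i + 1) + 1) = μ * (a i * a (i + 1)) + a i := by ring
        omega
      change (e i + u.1) / a i ≤ μ * a (i + 1)
      have h4 : (e i + u.1) / a i < μ * a (i + 1) + 1 := by
        rw [Nat.div_lt_iff_lt_mul (by omega)]
        rw [Nat.mul_comm]
        exact h3
      omega)
    (by
      intro i u
      have hi := ha i
      have h := h2 i
      have hu := u.2
      change (e i + u.1) / a i + ((∑ v : Fin (a (i - 1)), (e (i - 1) + v.1) / a (i - 1)) +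
        (a i - 1 - u.1)) / a i ≤ Δ
      rw [hs (i - 1)]
      refine le_trans Nat.div_add_div_le_add_div ?_
      have h4 : (e i + u.1 + (e (i - 1) + (a i - 1 - u.1))) / a i < Δ + 1 := by
        rw [Nat.div_lt_iff_lt_mul (by omega)]
        have : (Δ + 1) * a i = a i * Δ + a i := by ring
        omega
      omega)
  refine ⟨G, g1, g2, g3, g4, ?_⟩
  rw [g5]
  exact Finset.sum_congr rfl (fun i _ => hs i)

end Pool.Agent.Lib.MP_633d19_co
end

section

/-!
Steffen's bound for girth three and four.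
-/

namespace Pool.Agent.Lib.MP_633d19_co

open Classical

variable {V E : Type*} {ends : E → Sym2 V}

/-- a maximal Tashkinov tree of a critical edge set -/
theorem steffen34_exists_max [Fintype V] (hloop : ∀ e, ¬ (ends e).IsDiag) {F : Finset E} {e0 : E}
    {k : ℕ} {c0 : E → Fin k} (hc0 : ProperOn ends (F.erase e0) c0) :
    ∃ N, 1 ≤ N ∧ (∃ (c : E → Fin k) (y : ℕ → V)
      (ed : ℕ → E), ProperOn ends (F.erase e0) c ∧ TTree ends (F.erase e0) e0 c y ed N N) ∧
      TMax ends F e0 k N := by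
  let P : ℕ → Prop := fun N => ∃ (c : E → Fin k) (y : ℕ → V)
    (ed : ℕ → E), ProperOn ends (F.erase e0) c ∧ TTree ends (F.erase e0) e0 c y ed N N
  have hbd : ∀ n, P n → n ≤ Fintype.card V := by
    rintro n ⟨c, y, ed, _, ht⟩
    have h1 := card_VX ht
    have h2 := Finset.card_le_univ (VX y n)
    omega
  have hP1 : P 1 := by
    obtain ⟨a, b, hab⟩ : ∃ a b, ends e0 = s(a, b) := by
      induction h : ends e0 with
      | _ a b => exact ⟨a, b, rfl⟩
    have hne : a ≠ b := by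
      intro h
      exact hloop e0 (by rw [hab, h]; exact rfl)
    refine ⟨c0, fun i => if i = 0 then a else b, fun _ => e0, hc0, ?_⟩
    refine ⟨?_, ?_, ?_, ?_, ?_, ?_⟩
    · intro i j hi hj hij
      interval_cases i <;> interval_cases j <;> simp_all
    · simpa using hab
    · intro i h2 hi; omega
    · intro i h2 hi; omega
    · intro i h2 hi; omega
    · intro i h2 hi; omega
  refine ⟨Nat.findGreatest P (Fintype.card V), ?_, ?_, ?_⟩
  · exact Nat.le_findGreatest (hbd 1 hP1) hP1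
  · exact Nat.findGreatest_spec (hbd 1 hP1) hP1
  · intro c y ed n hc ht
    exact Nat.le_findGreatest (hbd n ⟨c, y, ed, hc, ht⟩) ⟨c, y, ed, hc, ht⟩

/-- Vizing's bound -/
theorem colorable_vizing [Fintype V] [Fintype E] (hloop : ∀ e, ¬ (ends e).IsDiag)
    {Δ μ : ℕ} (hμ1 : 1 ≤ μ)
    (hΔ : ∀ v, degOn ends Finset.univ v ≤ Δ)
    (hμ : ∀ u v, ((Finset.univ : Finset E).filter (fun e => ends e = s(u, v))).card ≤ μ) :
    ∃ c : E → Fin (Δ + μ), ProperOn ends Finset.univ c := by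
  by_contra hcon
  obtain ⟨k, hk⟩ : ∃ k, k = Δ + μ := ⟨_, rfl⟩
  rw [← hk] at hcon
  obtain ⟨F, e0, he0, hF, c0, hc0⟩ := exists_critical (ends := ends) (by omega : 0 < k) hcon
  have hΔF : ∀ v, degOn ends F v ≤ Δ := fun v =>
    (degOn_mono (Finset.subset_univ F) v).trans (hΔ v)
  have hμF : ∀ u v, (F.filter (fun e => ends e = s(u, v))).card ≤ μ :=
    mult_mono (Finset.subset_univ F) hμ
  obtain ⟨N, hN1, ⟨c, y, ed, hc, ht⟩, hmax⟩ := steffen34_exists_max hloop hc0
  have hXc : (VX y N).card = N + 1 := card_VX ht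
  have hw : y 0 ∈ VX y N := mem_VX.2 ⟨0, by omega, rfl⟩
  have h1 := (inner_degree_ge he0 hF hk hμ1 hΔF hmax hN1 hc ht hw).trans
    (card_ed2_le hμF (VX y N) (y 0))
  have h2 : nb ends F (VX y N) (y 0) ⊆ (VX y N).erase (y 0) := by
    intro x hx
    unfold nb at hx
    rw [Finset.mem_filter] at hx
    obtain ⟨hxX, e, _, hex⟩ := hx
    refine Finset.mem_erase.2 ⟨?_, hxX⟩
    intro h
    exact hloop e (by rw [hex, h]; exact rfl)
  have h3 := Finset.card_le_card h2
  rw [Finset.card_erase_of_mem hw, hXc, Nat.add_sub_cancel] at h3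
  have h4 : μ * (nb ends F (VX y N) (y 0)).card ≤ μ * N := Nat.mul_le_mul_left _ h3
  have h5 : μ * N = N * μ := mul_comm _ _
  omega

/-- Steffen's bound for triangle-free multigraphs -/
theorem colorable_steffen_four [Fintype V] [Fintype E] (hloop : ∀ e, ¬ (ends e).IsDiag)
    (hg : GirthGE ends 4) {Δ μ b : ℕ} (hb : 1 ≤ b) (hμb : μ ≤ 2 * b)
    (hΔ : ∀ v, degOn ends Finset.univ v ≤ Δ)
    (hμ : ∀ u v, ((Finset.univ : Finset E).filter (fun e => ends e = s(u, v))).card ≤ μ) :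
    ∃ c : E → Fin (Δ + b), ProperOn ends Finset.univ c := by
  by_contra hcon
  obtain ⟨k, hk⟩ : ∃ k, k = Δ + b := ⟨_, rfl⟩
  rw [← hk] at hcon
  obtain ⟨F, e0, he0, hF, c0, hc0⟩ := exists_critical (ends := ends) (by omega : 0 < k) hcon
  have hΔF : ∀ v, degOn ends F v ≤ Δ := fun v =>
    (degOn_mono (Finset.subset_univ F) v).trans (hΔ v)
  have hkd : ∀ v, degOn ends F v < k := fun v => (hΔF v).trans_lt (by omega)
  have hμF : ∀ u v, (F.filter (fun e => ends e = s(u, v))).card ≤ μ :=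
    mult_mono (Finset.subset_univ F) hμ
  obtain ⟨N, hN1, ⟨c, y, ed, hc, ht⟩, hmax⟩ := steffen34_exists_max hloop hc0
  have hNe := even_of_max he0 hF hkd hloop hmax hN1 hc ht
  obtain ⟨m, hm⟩ := hNe
  have hXc : (VX y N).card = N + 1 := card_VX ht
  -- every vertex of the tree has many neighbours in it
  have hd : ∀ w ∈ VX y N, m + 1 ≤ (nb ends F (VX y N) w).card := by
    intro w hw
    have h1 := (inner_degree_ge he0 hF hk hb hΔF hmax hN1 hc ht hw).trans
      (card_ed2_le hμF (VX y N) w)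
    have h2 : μ * (nb ends F (VX y N) w).card ≤ 2 * b * (nb ends F (VX y N) w).card :=
      Nat.mul_le_mul_right _ hμb
    by_contra hcon
    have h3 : (nb ends F (VX y N) w).card ≤ m := by omega
    have h4 : 2 * b * (nb ends F (VX y N) w).card ≤ 2 * b * m := Nat.mul_le_mul_left _ h3
    have h5 : N * b = 2 * b * m := by rw [hm]; ring
    omega
  have hw : y 0 ∈ VX y N := mem_VX.2 ⟨0, by omega, rfl⟩
  obtain ⟨u, hu⟩ : (nb ends F (VX y N) (y 0)).Nonempty := by
    rw [← Finset.card_pos]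
    have := hd _ hw
    omega
  have hu' := hu
  unfold nb at hu'
  rw [Finset.mem_filter] at hu'
  obtain ⟨huX, e, heF, hex⟩ := hu'
  have hne : ∀ (e : E) (a b : V), ends e = s(a, b) → a ≠ b := by
    intro e a b h1 h2
    exact hloop e (by rw [h1, h2]; exact rfl)
  have hdisj : Disjoint (nb ends F (VX y N) (y 0)) (nb ends F (VX y N) u) := by
    rw [Finset.disjoint_left]
    intro x hx1 hx2
    unfold nb at hx1 hx2
    rw [Finset.mem_filter] at hx1 hx2
    obtain ⟨_, e1, _, he1⟩ := hx1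
    obtain ⟨_, e2, _, he2⟩ := hx2
    have n1 := hne e _ _ hex
    have n2 := hne e1 _ _ he1
    have n3 := hne e2 _ _ he2
    have h4 := hg 3 le_rfl (fun i => if i = 0 then y 0 else if i = 1 then u else x) ?_ ?_
    · omega
    · intro i hi j hj hij
      interval_cases i <;> interval_cases j <;> simp_all
    · intro i hi
      interval_cases i
      · exact ⟨e, by simpa using hex⟩
      · exact ⟨e2, by simpa using he2⟩
      · exact ⟨e1, by simpa [Sym2.eq_swap] using he1⟩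
  have h1 : (nb ends F (VX y N) (y 0) ∪ nb ends F (VX y N) u).card ≤ (VX y N).card := by
    apply Finset.card_le_card
    unfold nb
    exact Finset.union_subset (Finset.filter_subset _ _) (Finset.filter_subset _ _)
  rw [Finset.card_union_of_disjoint hdisj, hXc] at h1
  have h2 := hd _ hw
  have h3 := hd _ huX
  omega

end Pool.Agent.Lib.MP_633d19_co
end

section

/-!
Maximal trees are dense, provided that Hamiltonian cycles exist.
-/

namespace Pool.Agent.Lib.MP_633d19_co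

open Classical

variable {V E : Type*} {ends : E → Sym2 V} {F : Finset E} {e0 : E} {k N : ℕ}

theorem card_ed2_eq (D : Finset E) (S : Finset V) (w : V) :
    (ed2 ends D S w).card = ∑ x ∈ S, (D.filter (fun e => ends e = s(w, x))).card := by
  rw [← Finset.card_biUnion]
  · congr 1
    ext e
    unfold ed2
    rw [Finset.mem_filter, Finset.mem_biUnion]
    constructor
    · rintro ⟨h1, x, hx, h2⟩
      exact ⟨x, hx, Finset.mem_filter.2 ⟨h1, h2⟩⟩
    · rintro ⟨x, hx, h2⟩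
      rw [Finset.mem_filter] at h2
      exact ⟨h2.1, x, hx, h2.2⟩
  · intro x _ x' _ hne
    rw [Function.onFun, Finset.disjoint_left]
    intro e h1 h2
    rw [Finset.mem_filter] at h1 h2
    rw [h1.2] at h2
    exact hne (Sym2.congr_right.1 h2.2)

theorem ed2_mono {D D' : Finset E} (h : D ⊆ D') (S : Finset V) (w : V) :
    (ed2 ends D S w).card ≤ (ed2 ends D' S w).card := by
  unfold ed2
  exact Finset.card_le_card (Finset.filter_subset_filter _ h)

/-- a critical subset and a maximum tree -/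
theorem exists_gmax [Fintype V] (hloop : ∀ e, ¬ (ends e).IsDiag) {J : Finset E} {K : ℕ}
    (hK : 0 < K) (hJ : ¬ ∃ c : E → Fin K, ProperOn ends J c) :
    ∃ F, F ⊆ J ∧ (¬ ∃ c : E → Fin K, ProperOn ends F c) ∧ ∃ e0 ∈ F, ∃ N, 1 ≤ N ∧
      (∃ (c : E → Fin K) (y : ℕ → V) (ed : ℕ → E), ProperOn ends (F.erase e0) c ∧
        TTree ends (F.erase e0) e0 c y ed N N) ∧ ∀ e ∈ F, TMax ends F e K N := by
  have key : ∀ n, ∀ F : Finset E, F.card = n → F ⊆ J → (¬ ∃ c : E → Fin K, ProperOn ends F c) →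
      ∃ F : Finset E, F ⊆ J ∧ ∃ e0 ∈ F, (¬ ∃ c : E → Fin K, ProperOn ends F c) ∧
      ∃ c : E → Fin K, ProperOn ends (F.erase e0) c := by
    intro n
    induction n with
    | zero =>
      intro F hF _ hcol
      exfalso
      rw [Finset.card_eq_zero] at hF
      subst hF
      apply hcol
      refine ⟨fun _ => ⟨0, hK⟩, ?_⟩
      intro e he
      exact absurd he (Finset.notMem_empty e)
    | succ n ih =>
      intro F hF hFJ hcol
      have hne : F.Nonempty := by
        rw [← Finset.card_pos]; omega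
      obtain ⟨e0, he0⟩ := hne
      by_cases h1 : ∃ c : E → Fin K, ProperOn ends (F.erase e0) c
      · exact ⟨F, hFJ, e0, he0, hcol, h1⟩
      · exact ih (F.erase e0) (by rw [Finset.card_erase_of_mem he0]; omega)
          ((Finset.erase_subset _ _).trans hFJ) h1
  obtain ⟨F, hFJ, e0, he0, hF, c0, hc0⟩ := key _ J rfl (Finset.Subset.refl J) hJ
  let P : ℕ → Prop := fun N => ∃ e ∈ F, ∃ (c : E → Fin K) (y : ℕ → V)
      (ed : ℕ → E), ProperOn ends (F.erase e) c ∧ TTree ends (F.erase e) e c y ed N N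
  have hbd : ∀ n, P n → n ≤ Fintype.card V := by
    rintro n ⟨e, _, c, y, ed, _, ht⟩
    have h1 := card_VX ht
    have h2 := Finset.card_le_univ (VX y n)
    omega
  have hP1 : P 1 := by
    obtain ⟨a, b, hab⟩ : ∃ a b, ends e0 = s(a, b) := by
      induction h : ends e0 with
      | _ a b => exact ⟨a, b, rfl⟩
    have hne : a ≠ b := by
      intro h
      exact hloop e0 (by rw [hab, h]; exact rfl)
    refine ⟨e0, he0, c0, fun i => if i = 0 then a else b, fun _ => e0, hc0, ?_⟩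
    refine ⟨?_, ?_, ?_, ?_, ?_, ?_⟩
    · intro i j hi hj hij
      interval_cases i <;> interval_cases j <;> simp_all
    · simpa using hab
    · intro i h2 hi; omega
    · intro i h2 hi; omega
    · intro i h2 hi; omega
    · intro i h2 hi; omega
  obtain ⟨e1, he1, h1⟩ := Nat.findGreatest_spec (hbd 1 hP1) hP1
  refine ⟨F, hFJ, hF, e1, he1, Nat.findGreatest P (Fintype.card V), ?_, h1, ?_⟩
  · exact Nat.le_findGreatest (hbd 1 hP1) hP1
  · intro e he c y ed n hc ht
    exact Nat.le_findGreatest (hbd n ⟨e, he, c, y, ed, hc, ht⟩) ⟨e, he, c, y, ed, hc, ht⟩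

theorem ces_of_tree (he0 : e0 ∈ F) (hF : ¬ ∃ c : E → Fin k, ProperOn ends F c)
    (hkd : ∀ v, degOn ends F v < k) (hmax : TMax ends F e0 k N) (hN : 1 ≤ N)
    {c : E → Fin k} {y : ℕ → V} {ed : ℕ → E} (hc : ProperOn ends (F.erase e0) c)
    (ht : TTree ends (F.erase e0) e0 c y ed N N) : CES ends F e0 c (VX y N) (y 0) (y 1) := by
  have hel := tashkinov_elem he0 hF hkd hc ht
  refine ⟨he0, hc, ht.start, mem_VX.2 ⟨0, by omega, rfl⟩, mem_VX.2 ⟨1, hN, rfl⟩, ?_, ?_, ?_⟩
  · intro h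
    have := ht.inj 0 1 (by omega) hN h
    omega
  · rintro e he v w hvw hv ⟨u, hu, hm⟩
    obtain ⟨j, hj, hju⟩ := mem_VX.1 hu
    rw [← hju] at hm
    exact mem_VX.2 (closed_of_max hmax hN hc ht he hvw (mem_VX.1 hv) hj hm)
  · intro u hu v hv γ h1 h2
    obtain ⟨i, hi, hiu⟩ := mem_VX.1 hu
    obtain ⟨j, hj, hjv⟩ := mem_VX.1 hv
    rw [← hiu] at h1
    rw [← hjv] at h2
    rw [← hiu, ← hjv, hel.eq hi hj h1 h2]

/-- On `N + 1` vertices, permutations along edges can be replaced by Hamiltonian cycles. -/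
def HamProp (ends : E → Sym2 V) (F0 : Finset E) (t N : ℕ) : Prop :=
  ∀ (H : Finset E) (X : Finset V), H ⊆ F0 → X.card = N + 1 →
    (∀ v ∈ X, N * t + 2 ≤ (ed2 ends H X v).card) →
    ∀ σ : Equiv.Perm X, (∀ x : X, ∃ e ∈ H, ends e = s(x.1, (σ x).1)) →
    ∃ τ : Equiv.Perm X, (∀ x : X, ∃ e ∈ H, ends e = s(x.1, (τ x).1)) ∧
      ∀ x y, τ.SameCycle x y

/-- **Density of maximal trees.** -/
theorem dense_of_gmax [Fintype V] (hloop : ∀ e, ¬ (ends e).IsDiag) {t g : ℕ} (ht1 : 1 ≤ t)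
    (hg3 : 3 ≤ g) (hg : GirthGE ends g) {F0 : Finset E} {ψ : ℕ → ℕ}
    (hψ : ∀ S : Finset V, ∑ w ∈ S, (ed2 ends F0 S w).card ≤ ψ S.card)
    (hnum : ∀ n' z K, g ≤ n' → Odd n' → Even z → 2 ≤ z → (n' + z) * t ≤ K →
      (z - 2) * K + 2 * (n' * t) + 2 ≤ ψ z → K * (n' - 1) + 2 ≤ ψ n' → False) :
    ∀ N, (∀ N' ≤ N, Even N' → g ≤ N' + 1 → HamProp ends F0 t N') → ∀ (F : Finset E), F ⊆ F0 →
      ∀ (Δ k : ℕ), k = Δ + t → (∀ v, degOn ends F v ≤ Δ) →
      (¬ ∃ c : E → Fin k, ProperOn ends F c) → (∀ e ∈ F, TMax ends F e k N) → 1 ≤ N →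
      ∀ e0 ∈ F, ∀ (c : E → Fin k) (y : ℕ → V) (ed : ℕ → E), ProperOn ends (F.erase e0) c →
      TTree ends (F.erase e0) e0 c y ed N N →
      k * N + 2 ≤ ∑ w ∈ VX y N, (ed2 ends F (VX y N) w).card := by
  intro N
  induction N using Nat.strong_induction_on with
  | _ N IH =>
  intro hHam F hFF0 Δ k hk hΔ hF hmax hN e0 he0 c y ed hc ht
  have hkd : ∀ v, degOn ends F v < k := fun v => (hΔ v).trans_lt (by omega)
  have hNe := even_of_max he0 hF hkd hloop (hmax e0 he0) hN hc ht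
  have hgN := girth_le_max he0 hF hkd hg (hmax e0 he0) hN hc ht
  have h := ces_of_tree he0 hF hkd (hmax e0 he0) hN hc ht
  have hXc : (VX y N).card = N + 1 := card_VX ht
  set X := VX y N with hX
  obtain ⟨γ₀, hγ₀⟩ := exists_missing (e0 := e0) hkd c (y 0)
  obtain ⟨γ₁, hγ₁⟩ := exists_missing (e0 := e0) hkd c (y 1)
  obtain ⟨σ, hσ⟩ := h.exists_perm hγ₀ hγ₁
  obtain ⟨τ, hτ, hτc⟩ := hHam N le_rfl hNe hgN (HE ends F e0 c X) X
    ((CES.sub X c).trans hFF0) hXc (fun v hv => h.deg_HE_ge hk hΔ hXc hv) σ hσ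
  obtain ⟨z, o, hz⟩ := exists_hamC hXc τ hτ hτc
  have hN2 : 2 ≤ N := by omega
  obtain ⟨K, hKdef⟩ : ∃ K, K = ∑ w ∈ X, bb ends F e0 c w := ⟨_, rfl⟩
  have hK := h.sum_bb hk hΔ
  rw [← hKdef] at hK
  refine recolor_dense hloop hk ht1 hΔ hF hmax hN2 hNe h hz hK.symm ?_
  by_contra hJ
  set J := HE ends F e0 c X \ HamC.O o N with hJdef
  have hJH : J ⊆ HE ends F e0 c X := Finset.sdiff_subset
  have hJF0 : J ⊆ F0 := hJH.trans ((CES.sub X c).trans hFF0)
  have hJin : ∀ e ∈ J, ∀ x ∈ ends e, x ∈ X := fun e he x hx => h.inside (hJH he) hx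
  have hKt : (N + 1) * t ≤ K := by
    rw [hKdef, ← hXc, ← smul_eq_mul]
    exact Finset.card_nsmul_le_sum _ _ _ (fun w _ => h.bb_ge hk hΔ w)
  have hNt : 1 * 1 ≤ (N + 1) * t := Nat.mul_le_mul (by omega) ht1
  have hdegJ : ∀ w ∈ X, degOn ends J w + bb ends F e0 c w = K := by
    intro w hw
    have h1 := degOn_sdiff (ends := ends) hz.O_sub w
    have h2 := hz.deg_O hN2 hw
    have h3 := h.deg_HE' hk hΔ hw
    rw [← hK] at h3
    rw [← hJdef] at h1
    omega
  have hdegJ0 : ∀ w, w ∉ X → degOn ends J w = 0 := by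
    intro w hw
    unfold degOn
    rw [Finset.card_eq_zero, Finset.filter_eq_empty_iff]
    intro e he hwe
    exact hw (hJin e he w hwe)
  obtain ⟨F', hF'J, hF', e', he', N', hN'1, ⟨c', y', ed', hc', ht'⟩, hmax'⟩ :=
    exists_gmax hloop (by omega : 0 < K) hJ
  have hΔ' : ∀ v, degOn ends F' v ≤ K - t := by
    intro v
    refine (degOn_mono hF'J v).trans ?_
    by_cases hv : v ∈ X
    · have h1 := hdegJ v hv
      have h2 := h.bb_ge hk hΔ v
      omega
    · rw [hdegJ0 v hv]; omega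
  have htK : t ≤ K := by
    have h1 : (N + 1) * t = N * t + t := by ring
    omega
  have hk' : K = (K - t) + t := by omega
  have hkd' : ∀ v, degOn ends F' v < K := fun v => (hΔ' v).trans_lt (by omega)
  have hNe' := even_of_max he' hF' hkd' hloop (hmax' e' he') hN'1 hc' ht'
  have hgN' := girth_le_max he' hF' hkd' hg (hmax' e' he') hN'1 hc' ht'
  have hXc' : (VX y' N').card = N' + 1 := card_VX ht'
  have hF'in : ∀ e ∈ F', ∀ x ∈ ends e, x ∈ X := fun e he => hJin e (hF'J he)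
  have hX'X : VX y' N' ⊆ X := by
    intro v hv
    obtain ⟨i, hi, hiv⟩ := mem_VX.1 hv
    rw [← hiv]
    rcases Nat.lt_or_ge i 2 with h2 | h2
    · apply hF'in e' he'
      rw [ht'.start]
      interval_cases i
      · exact Sym2.mem_mk_left _ _
      · exact Sym2.mem_mk_right _ _
    · obtain ⟨j, _, hj⟩ := ht'.att i h2 hi
      apply hF'in (ed' i) (Finset.mem_of_mem_erase (ht'.mem i h2 hi))
      rw [hj]
      exact Sym2.mem_mk_right _ _
  have hle := Finset.card_le_card hX'X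
  rw [hXc', hXc] at hle
  have hed : ∀ w, (ed2 ends J X w).card = degOn ends J w := by
    intro w
    unfold ed2 degOn
    congr 1
    ext e
    rw [Finset.mem_filter, Finset.mem_filter]
    constructor
    · rintro ⟨h1, x, _, h3⟩
      exact ⟨h1, by rw [h3]; exact Sym2.mem_mk_left _ _⟩
    · rintro ⟨h1, h2⟩
      obtain ⟨x, hx⟩ := Sym2.mem_iff_exists.1 h2
      exact ⟨h1, x, hJin e h1 x (by rw [hx]; exact Sym2.mem_mk_right _ _), hx⟩
  have hsumdeg : ∑ w ∈ X, degOn ends J w + K = (N + 1) * K := by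
    have h1 : ∑ w ∈ X, (degOn ends J w + bb ends F e0 c w) = ∑ w ∈ X, K :=
      Finset.sum_congr rfl (fun w hw => hdegJ w hw)
    rw [Finset.sum_add_distrib, ← hKdef, Finset.sum_const, hXc, smul_eq_mul] at h1
    exact h1
  rcases Nat.lt_or_ge N' N with hlt | hge
  · -- a smaller tree
    have hA := IH N' hlt (fun n hn => hHam n (by omega)) F' (hF'J.trans hJF0) (K - t) K hk' hΔ'
      hF' hmax' hN'1 e' he' c' y' ed' hc' ht'
    set X' := VX y' N' with hX'
    have hA' : ∑ w ∈ X', (ed2 ends F' X' w).card ≤ ∑ w ∈ X', (ed2 ends J X' w).card :=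
      Finset.sum_le_sum (fun w _ => ed2_mono hF'J X' w)
    obtain ⟨A, hAdef⟩ : ∃ A, A = ∑ w ∈ X', (ed2 ends J X' w).card := ⟨_, rfl⟩
    set Z := X \ X' with hZ
    have hZc : Z.card + (N' + 1) = N + 1 := by
      rw [← hXc', ← hXc]
      exact Finset.card_sdiff_add_card_eq_card hX'X
    obtain ⟨B, hB⟩ : ∃ B, B = ∑ w ∈ X', (ed2 ends J Z w).card := ⟨_, rfl⟩
    have hB' : B = ∑ w ∈ Z, (ed2 ends J X' w).card := by
      rw [hB]
      simp only [card_ed2_eq]
      rw [Finset.sum_comm]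
      refine Finset.sum_congr rfl (fun w _ => Finset.sum_congr rfl (fun x _ => ?_))
      rw [Sym2.eq_swap]
    obtain ⟨C, hC⟩ : ∃ C, C = ∑ w ∈ Z, (ed2 ends J Z w).card := ⟨_, rfl⟩
    have hCψ : C ≤ ψ Z.card := by
      rw [hC]
      exact (Finset.sum_le_sum (fun w _ => ed2_mono hJF0 Z w)).trans (hψ Z)
    have hAψ : A ≤ ψ X'.card := by
      rw [hAdef]
      exact (Finset.sum_le_sum (fun w _ => ed2_mono hJF0 X' w)).trans (hψ X')
    have hsplit : ∀ w, (ed2 ends J X' w).card + (ed2 ends J Z w).card = degOn ends J w := by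
      intro w
      rw [← hed w, card_ed2_eq, card_ed2_eq, card_ed2_eq, add_comm]
      exact Finset.sum_sdiff hX'X
    obtain ⟨β₁, hβ₁⟩ : ∃ β, β = ∑ w ∈ X', bb ends F e0 c w := ⟨_, rfl⟩
    obtain ⟨β₂, hβ₂⟩ : ∃ β, β = ∑ w ∈ Z, bb ends F e0 c w := ⟨_, rfl⟩
    have hβ : β₂ + β₁ = K := by
      rw [hβ₁, hβ₂, hKdef]
      exact Finset.sum_sdiff hX'X
    have hβ₁t : (N' + 1) * t ≤ β₁ := by
      rw [hβ₁, ← hXc', ← smul_eq_mul]
      exact Finset.card_nsmul_le_sum _ _ _ (fun w _ => h.bb_ge hk hΔ w)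
    have hS1 : A + B + β₁ = (N' + 1) * K := by
      have h1 : ∑ w ∈ X', ((ed2 ends J X' w).card + (ed2 ends J Z w).card +
          bb ends F e0 c w) = ∑ w ∈ X', K := by
        refine Finset.sum_congr rfl (fun w hw => ?_)
        rw [hsplit, hdegJ w (hX'X hw)]
      rw [Finset.sum_add_distrib, Finset.sum_add_distrib, ← hβ₁, ← hAdef, ← hB,
        Finset.sum_const, hXc', smul_eq_mul] at h1
      exact h1
    have hS2 : B + C + β₂ = Z.card * K := by
      have h1 : ∑ w ∈ Z, ((ed2 ends J X' w).card + (ed2 ends J Z w).card +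
          bb ends F e0 c w) = ∑ w ∈ Z, K := by
        refine Finset.sum_congr rfl (fun w hw => ?_)
        rw [hsplit, hdegJ w (Finset.sdiff_subset hw)]
      rw [Finset.sum_add_distrib, Finset.sum_add_distrib, ← hβ₂, ← hB', ← hC,
        Finset.sum_const, smul_eq_mul] at h1
      exact h1
    have hZe : Even Z.card := by
      obtain ⟨p, hp⟩ := hNe
      obtain ⟨q, hq⟩ := hNe'
      exact ⟨p - q, by omega⟩
    have hZ2 : 2 ≤ Z.card := by
      obtain ⟨p, hp⟩ := hZe
      omega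
    refine hnum (N' + 1) Z.card K hgN' ?_ hZe hZ2 ?_ ?_ ?_
    · exact hNe'.add_one
    · have : N' + 1 + Z.card = N + 1 := by omega
      rw [this]
      exact hKt
    · obtain ⟨u, hu⟩ : ∃ u, Z.card = u + 2 := ⟨Z.card - 2, by omega⟩
      rw [hu] at hS2 hCψ ⊢
      have e1 : (u + 2) * K = u * K + 2 * K := by ring
      have e2 : (N' + 1) * K = K * N' + K := by ring
      have e3 : u + 2 - 2 = u := by omega
      rw [e3]
      omega
    · rw [Nat.add_sub_cancel, ← hXc']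
      omega
  · -- a spanning tree
    have hNN : N' = N := by omega
    subst hNN
    have hXX : VX y' N' = X := by
      apply Finset.eq_of_subset_of_card_le hX'X
      rw [hXc, hXc']
    have htot := total_degree_ge he' hF' hkd' (hmax' e' he') hN'1 hc' ht' (by
      intro δ _ f₁ f₂ u₁ u₂ w₁ w₂ hf₁ _ he₁ _ hw₁
      exfalso
      apply hw₁
      rw [← mem_VX, hXX]
      exact hF'in f₁ (Finset.mem_of_mem_erase hf₁) w₁ (by rw [he₁]; exact Sym2.mem_mk_right _ _))
    rw [hXX] at htot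
    have h1 : ∑ w ∈ X, (ed2 ends F' X w).card ≤ ∑ w ∈ X, degOn ends J w := by
      refine Finset.sum_le_sum (fun w _ => ?_)
      rw [← hed w]
      exact ed2_mono hF'J X w
    have e1 : (N' + 1) * K = K * N' + K := by ring
    omega

end Pool.Agent.Lib.MP_633d19_co
end

section

/-!
The hypotheses of `dense_of_gmax` for girth three and four.
-/

namespace Pool.Agent.Lib.MP_633d19_co

open Classical

variable {V E : Type*} {ends : E → Sym2 V}

/-- a graph of girth at least four has no triangle -/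
theorem hamProps_tri (hg : GirthGE ends 4) {a b c : V} (hab : a ≠ b) (hbc : b ≠ c) (hac : a ≠ c)
    (h1 : ∃ e, ends e = s(a, b)) (h2 : ∃ e, ends e = s(b, c)) (h3 : ∃ e, ends e = s(a, c)) :
    False := by
  have h := hg 3 (le_refl 3) (fun i => if i = 0 then a else if i = 1 then b else c) ?_ ?_
  · omega
  · intro i hi j hj hij
    interval_cases i <;> interval_cases j <;> simp_all
  · intro i hi
    interval_cases i
    · simpa using h1
    · simpa using h2
    · obtain ⟨e, he⟩ := h3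
      refine ⟨e, ?_⟩
      rw [he]
      simp [Sym2.eq_swap]

/-- the simple graph underlying the edges `H` between the vertices of `X` -/
def hamProps_graph (ends : E → Sym2 V) (H : Finset E) (X : Finset V) : SimpleGraph X where
  Adj a b := a ≠ b ∧ ∃ e ∈ H, ends e = s(a.1, b.1)
  symm := ⟨by
    rintro a b ⟨h1, e, he, h2⟩
    exact ⟨h1.symm, e, he, by rw [h2, Sym2.eq_swap]⟩⟩
  loopless := ⟨fun a h => h.1 rfl⟩

theorem hamProps_nb (hloop : ∀ e, ¬ (ends e).IsDiag) (H : Finset E) (X : Finset V) (v : X) :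
    (nb ends H X v.1).card =
      (Finset.univ.filter ((hamProps_graph ends H X).Adj v)).card := by
  have h : nb ends H X v.1 =
      (Finset.univ.filter ((hamProps_graph ends H X).Adj v)).map (Function.Embedding.subtype _) := by
    ext x
    unfold nb
    rw [Finset.mem_filter, Finset.mem_map]
    constructor
    · rintro ⟨hx, e, he, h2⟩
      refine ⟨⟨x, hx⟩, ?_, rfl⟩
      rw [Finset.mem_filter]
      refine ⟨Finset.mem_univ _, ?_, e, he, h2⟩
      intro h3
      apply hloop e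
      rw [h2, h3]
      exact rfl
    · rintro ⟨y, hy, rfl⟩
      rw [Finset.mem_filter] at hy
      obtain ⟨_, _, e, he, h2⟩ := hy
      exact ⟨y.2, e, he, h2⟩
  rw [h, Finset.card_map]

theorem hamProps_deg (hloop : ∀ e, ¬ (ends e).IsDiag)
    {F0 H : Finset E} {X : Finset V} {μ m δ : ℕ} (hH : H ⊆ F0)
    (hμ : ∀ u v, (F0.filter (fun e => ends e = s(u, v))).card ≤ μ) (hδ : μ * (δ - 1) < m)
    (h : ∀ v ∈ X, m ≤ (ed2 ends H X v).card) (v : X) :
    δ ≤ (Finset.univ.filter ((hamProps_graph ends H X).Adj v)).card := by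
  rw [← hamProps_nb hloop H X v]
  by_contra hcon
  have h1 : (nb ends H X v.1).card ≤ δ - 1 := by omega
  have hμ' : ∀ u v, (H.filter (fun e => ends e = s(u, v))).card ≤ μ := fun u v =>
    (Finset.card_le_card (Finset.filter_subset_filter _ hH)).trans (hμ u v)
  have h2 := card_ed2_le hμ' X v.1
  have h3 := h v.1 v.2
  have h4 := Nat.mul_le_mul_left μ h1
  omega

theorem hamProp_four [Fintype V] (hloop : ∀ e, ¬ (ends e).IsDiag) (hg : GirthGE ends 4)
    {F0 : Finset E} {μ t N δ : ℕ}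
    (hμ : ∀ u v, (F0.filter (fun e => ends e = s(u, v))).card ≤ μ)
    (hδ : μ * (δ - 1) < N * t + 2) (hNe : Even N) (h1 : 3 * (N + 1) ≤ 8 * δ + 5)
    (h2 : N + 1 ≤ 3 * δ) : HamProp ends F0 t N := by
  intro H X hH hX hdeg σ hσ
  have hc : Fintype.card X = N + 1 := by
    rw [Fintype.card_coe, hX]
  have hadj : ∀ (τ : Equiv.Perm X), (∀ x, (hamProps_graph ends H X).Adj x (τ x)) ↔
      ∀ x : X, ∃ e ∈ H, ends e = s(x.1, (τ x).1) := by
    intro τ
    constructor
    · intro h x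
      exact (h x).2
    · intro h x
      obtain ⟨e, he, h2⟩ := h x
      refine ⟨?_, e, he, h2⟩
      intro h3
      apply hloop e
      rw [h2, ← h3]
      exact rfl
  obtain ⟨τ, h3, h4⟩ := hamilton_perm (hamProps_graph ends H X) (δ := δ)
    (by
      rintro a b c ⟨hab, e1, _, h1⟩ ⟨hbc, e2, _, h2⟩ ⟨hac, e3, _, h3⟩
      exact hamProps_tri hg (fun h => hab (Subtype.ext h)) (fun h => hbc (Subtype.ext h))
        (fun h => hac (Subtype.ext h)) ⟨e1, h1⟩ ⟨e2, h2⟩ ⟨e3, h3⟩)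
    (by rw [hc]; exact hNe.add_one)
    (hamProps_deg hloop hH hμ hδ hdeg)
    (by rw [hc]; exact h1) (by rw [hc]; exact h2) σ ((hadj σ).2 hσ)
  exact ⟨τ, (hadj τ).1 h3, h4⟩

theorem hamProp_three [Fintype V] (hloop : ∀ e, ¬ (ends e).IsDiag)
    {F0 : Finset E} {μ t N : ℕ}
    (hμ : ∀ u v, (F0.filter (fun e => ends e = s(u, v))).card ≤ μ)
    (hδ : μ * (N - 2) < N * t + 2) (hNe : Even N) : HamProp ends F0 t N := by
  intro H X hH hX hdeg σ hσ
  have hc : Fintype.card X = N + 1 := by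
    rw [Fintype.card_coe, hX]
  have hadj : ∀ (τ : Equiv.Perm X), (∀ x, (hamProps_graph ends H X).Adj x (τ x)) ↔
      ∀ x : X, ∃ e ∈ H, ends e = s(x.1, (τ x).1) := by
    intro τ
    constructor
    · intro h x
      exact (h x).2
    · intro h x
      obtain ⟨e, he, h2⟩ := h x
      refine ⟨?_, e, he, h2⟩
      intro h3
      apply hloop e
      rw [h2, ← h3]
      exact rfl
  have hd := hamProps_deg (δ := N - 1) hloop hH hμ
    (by have : N - 1 - 1 = N - 2 := by omega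
        rw [this]; exact hδ) hdeg
  obtain ⟨τ, h3, h4⟩ := hamilton_perm_dense (hamProps_graph ends H X)
    (by rw [hc]; exact hNe.add_one)
    (by
      intro v
      have := hd v
      rw [hc]
      omega) σ ((hadj σ).2 hσ)
  exact ⟨τ, (hadj τ).1 h3, h4⟩

theorem psi_three (hloop : ∀ e, ¬ (ends e).IsDiag) {F0 : Finset E} {μ : ℕ}
    (hμ : ∀ u v, (F0.filter (fun e => ends e = s(u, v))).card ≤ μ) (S : Finset V) :
    ∑ w ∈ S, (ed2 ends F0 S w).card ≤ μ * (S.card * (S.card - 1)) := by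
  have h : ∀ w ∈ S, (ed2 ends F0 S w).card ≤ μ * (S.card - 1) := by
    intro w hw
    refine (card_ed2_le hμ S w).trans (Nat.mul_le_mul_left μ ?_)
    rw [← Finset.card_erase_of_mem hw]
    apply Finset.card_le_card
    intro x hx
    unfold nb at hx
    rw [Finset.mem_filter] at hx
    obtain ⟨h1, e, _, h2⟩ := hx
    refine Finset.mem_erase.2 ⟨?_, h1⟩
    intro h3
    apply hloop e
    rw [h2, h3]
    exact rfl
  refine (Finset.sum_le_sum h).trans ?_
  rw [Finset.sum_const, smul_eq_mul]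
  apply le_of_eq
  ring

/-- Mantel's theorem in the form of degree sums -/
theorem hamProps_mantel {W : Type*} [Fintype W] (G : SimpleGraph W)
    (htri : ∀ a b c, G.Adj a b → G.Adj b c → ¬ G.Adj a c) :
    ∑ v, (Finset.univ.filter (G.Adj v)).card ≤
      2 * (Fintype.card W * Fintype.card W / 4) := by
  have hfree : G.CliqueFree 3 := by
    intro s hs
    rw [SimpleGraph.is3Clique_iff] at hs
    obtain ⟨a, b, c, hab, hac, hbc, _⟩ := hs
    exact htri a b c hab hbc hac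
  have h1 : G.edgeFinset.card ≤ Fintype.card W * Fintype.card W / 4 := by
    have h := SimpleGraph.CliqueFree.card_edgeFinset_le (r := 2) hfree
    have h2 : (Fintype.card W % 2).choose 2 = 0 :=
      Nat.choose_eq_zero_of_lt (Nat.mod_lt _ (by norm_num))
    have h3 : (Fintype.card W ^ 2 - (Fintype.card W % 2) ^ 2) * (2 - 1) / (2 * 2) ≤
        Fintype.card W * Fintype.card W / 4 := by
      apply Nat.div_le_div_right
      rw [pow_two (Fintype.card W)]
      omega
    simp only at h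
    rw [h2] at h
    exact h.trans h3
  have h2 : ∑ v, (Finset.univ.filter (G.Adj v)).card = 2 * G.edgeFinset.card := by
    rw [← G.sum_degrees_eq_twice_card_edges]
    apply Finset.sum_congr rfl
    intro v _
    rw [← SimpleGraph.card_neighborFinset_eq_degree]
    congr 1
    ext x
    simp
  rw [h2]
  omega

theorem psi_four (hloop : ∀ e, ¬ (ends e).IsDiag) (hg : GirthGE ends 4) {F0 : Finset E} {μ : ℕ}
    (hμ : ∀ u v, (F0.filter (fun e => ends e = s(u, v))).card ≤ μ) (S : Finset V) :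
    ∑ w ∈ S, (ed2 ends F0 S w).card ≤ μ * (2 * (S.card * S.card / 4)) := by
  have h := hamProps_mantel (hamProps_graph ends F0 S)
    (by
      rintro a b c ⟨hab, e1, _, h1⟩ ⟨hbc, e2, _, h2⟩ ⟨hac, e3, _, h3⟩
      exact hamProps_tri hg (fun h => hab (Subtype.ext h)) (fun h => hbc (Subtype.ext h))
        (fun h => hac (Subtype.ext h)) ⟨e1, h1⟩ ⟨e2, h2⟩ ⟨e3, h3⟩)
  rw [Fintype.card_coe] at h
  refine le_trans ?_ (Nat.mul_le_mul_left μ h)
  rw [Finset.mul_sum, ← Finset.sum_coe_sort]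
  apply Finset.sum_le_sum
  intro v _
  rw [← hamProps_nb hloop F0 S v]
  exact card_ed2_le hμ S v.1

end Pool.Agent.Lib.MP_633d19_co
end

section

/-!
The set `stSet Δ μ g` is nonempty as soon as `3 ≤ g`, `1 ≤ μ ≤ Δ` and `2 ≤ Δ`, and the colouring
theorem for girth at least five in terms of `stSet`.
-/

namespace Pool.Agent.Lib.MP_633d19_co

open Classical

/-- there is a graph with given parameters -/
theorem stSet_nonempty {Δ μ g : ℕ} (hg : 3 ≤ g) (hμ : 1 ≤ μ) (hΔ : 2 ≤ Δ) (hμΔ : μ ≤ Δ) :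
    (stSet Δ μ g).Nonempty := by
  set i0 : Fin Δ := ⟨0, by omega⟩
  have hD : (hgraph Δ g i0).maxDeg = Δ := by
    apply le_antisymm
    · exact MGraph.maxDeg_le (hgraph_deg_le hΔ)
    · exact hgraph_deg_ge.trans (MGraph.deg_le_maxDeg _ _)
  have hM : (hgraph Δ g i0).maxMult ≤ μ :=
    (MGraph.maxMult_le (hgraph_mult_le (by omega))).trans hμ
  have hG : (complete (hgraph Δ g i0) g hg μ).HasGirth g := by
    apply complete_hasGirth
    intro ℓ hℓ hc
    exact (girth_hgraph hℓ hc).le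
  have hdeg : (complete (hgraph Δ g i0) g hg μ).maxDeg = Δ := by
    rw [complete_maxDeg (by omega) (by omega), hD]
  have hmu : (complete (hgraph Δ g i0) g hg μ).maxMult = μ := complete_maxMult hμ hM
  exact ⟨_, complete (hgraph Δ g i0) g hg μ, hdeg, hmu, hG, rfl⟩

/-- an upper bound for the elements of `stSet` gives a greatest element -/
theorem isGreatest_st {Δ μ g B : ℕ} (hg : 3 ≤ g) (hμ : 1 ≤ μ) (hΔ : 2 ≤ Δ) (hμΔ : μ ≤ Δ)
    (hB : ∀ n ∈ stSet Δ μ g, n ≤ B) : IsGreatest (stSet Δ μ g) (st Δ μ g) ∧ st Δ μ g ≤ B := by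
  have hne := stSet_nonempty hg hμ hΔ hμΔ
  have hbd : BddAbove (stSet Δ μ g) := ⟨B, hB⟩
  have h1 : st Δ μ g ∈ stSet Δ μ g := Nat.sSup_mem hne hbd
  exact ⟨⟨h1, fun n hn => le_csSup hbd hn⟩, hB _ h1⟩

theorem mult_univ (G : MGraph) (u v : G.V) :
    ((Finset.univ : Finset G.E).filter (fun e => G.ends e = s(u, v))).card = G.mult u v := by
  unfold MGraph.mult
  refine congrArg Finset.card ?_
  apply Finset.filter_congr
  intro e _
  exact Iff.rfl

/-- girth at least five, `μ ≤ (t + 1) ⌊g / 2⌋` and `2 μ < Δ`: at most `Δ + t` colours -/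
theorem upper_girth_five {Δ μ g t : ℕ} (hg5 : 5 ≤ g) (ht : 1 ≤ t) (hμt : μ ≤ (t + 1) * (g / 2))
    (hΔμ : 2 * μ < Δ) : ∀ n ∈ stSet Δ μ g, n ≤ Δ + t := by
  rintro n ⟨G, h1, h2, h3, h4⟩
  rw [← h4]
  apply MGraph.chromIndex_le
  refine colorable_of_proper (colorable_of_girth G.loopless ht hg5
    (girthGE_of_hasGirth h3 le_rfl) ?_ ?_ hμt hΔμ)
  · intro v
    rw [degOn_univ, ← h1]
    exact G.deg_le_maxDeg v
  · intro u v
    rw [mult_univ, ← h2]
    exact G.mult_le_maxMult u v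

theorem maxMult_le_maxDeg (G : MGraph) : G.maxMult ≤ G.maxDeg := by
  apply MGraph.maxMult_le
  intro u v
  refine le_trans ?_ (G.deg_le_maxDeg u)
  unfold MGraph.mult MGraph.deg
  apply Finset.card_le_card
  intro e he
  rw [Finset.mem_filter] at he ⊢
  exact ⟨he.1, by rw [he.2]; exact Sym2.mem_mk_left _ _⟩

/-- the triples for which there is at least one graph -/
theorem stSet_nonempty_iff {Δ μ g : ℕ} :
    (stSet Δ μ g).Nonempty ↔ 3 ≤ g ∧ 1 ≤ μ ∧ μ ≤ Δ ∧ 2 ≤ Δ := by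
  constructor
  · rintro ⟨n, G, h1, h2, h3, h4⟩
    have hg := h3.1
    obtain ⟨y, hinj, hadj⟩ := h3.2.1
    obtain ⟨e0, he0⟩ := hadj 0 (by omega)
    obtain ⟨e1, he1⟩ := hadj 1 (by omega)
    have e01 : (0 + 1) % g = 1 := Nat.mod_eq_of_lt (by omega)
    have e12 : (1 + 1) % g = 2 := Nat.mod_eq_of_lt (by omega)
    rw [e01] at he0
    rw [e12] at he1
    refine ⟨hg, ?_, ?_, ?_⟩
    · rw [← h2]
      refine le_trans ?_ (G.mult_le_maxMult (y 0) (y 1))
      unfold MGraph.mult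
      rw [Nat.one_le_iff_ne_zero, ← Nat.pos_iff_ne_zero, Finset.card_pos]
      exact ⟨e0, by rw [Finset.mem_filter]; exact ⟨Finset.mem_univ _, he0⟩⟩
    · rw [← h1, ← h2]
      exact maxMult_le_maxDeg G
    · rw [← h1]
      refine le_trans ?_ (G.deg_le_maxDeg (y 1))
      have hne : e0 ≠ e1 := by
        intro h
        rw [h, he1, Sym2.eq_swap] at he0
        have h5 := Sym2.congr_left.1 he0
        have h6 := hinj 2 (by omega) 0 (by omega) h5
        omega
      unfold MGraph.deg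
      have h5 : ({e0, e1} : Finset G.E) ⊆ Finset.univ.filter (fun e => y 1 ∈ G.ends e) := by
        intro e he
        rw [Finset.mem_filter]
        rw [Finset.mem_insert, Finset.mem_singleton] at he
        rcases he with h | h
        · rw [h, he0]; exact ⟨Finset.mem_univ _, Sym2.mem_mk_right _ _⟩
        · rw [h, he1]; exact ⟨Finset.mem_univ _, Sym2.mem_mk_left _ _⟩
      have h6 := Finset.card_le_card h5
      rwa [Finset.card_pair hne] at h6
  · rintro ⟨h1, h2, h3, h4⟩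
    exact stSet_nonempty h1 h2 h4 h3

/-- the triples with `Δ ≤ 2 μ` or `μ ≤ ⌊g / 2⌋` for which Steffen's bound is attained -/
theorem st_range {Δ μ g : ℕ} (hg : 3 ≤ g) (hμ : 1 ≤ μ) (hΔ : 2 ≤ Δ) (hμΔ : μ ≤ Δ)
    (hr : Δ ≤ 2 * μ ∨ μ ≤ g / 2) :
    IsGreatest (stSet Δ μ g) (st Δ μ g) ∧
    (st Δ μ g = Δ + ⌈(μ : ℚ) / ((g / 2 : ℕ) : ℚ)⌉₊ ↔
      μ ≤ g / 2 ∨
        (2 * (⌈(μ : ℚ) / ((g / 2 : ℕ) : ℚ)⌉₊ - 1) * (g / 2) + 2 ≤ Δ ∧ Δ ≤ 2 * μ)) := by
  have hs : 1 ≤ g / 2 := by omega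
  set s := g / 2 with hsdef
  have hsq : (0 : ℚ) < (s : ℚ) := by exact_mod_cast hs
  set b := ⌈(μ : ℚ) / (s : ℚ)⌉₊ with hb
  have hb1 : μ ≤ b * s := by
    have h1 : (μ : ℚ) / (s : ℚ) ≤ (b : ℚ) := Nat.le_ceil _
    rw [div_le_iff₀ hsq] at h1
    exact_mod_cast h1
  have hb0 : 1 ≤ b := by
    rw [hb, Nat.one_le_ceil_iff]
    have : (0 : ℚ) < (μ : ℚ) := by exact_mod_cast hμ
    positivity
  have hb2 : (b - 1) * s < μ := by
    have h1 : b - 1 < b := by omega
    have h2 : ((b - 1 : ℕ) : ℚ) < (μ : ℚ) / (s : ℚ) := Nat.lt_ceil.1 h1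
    rw [lt_div_iff₀ hsq] at h2
    exact_mod_cast h2
  have hval : IsGreatest (stSet Δ μ g) (Δ + 1 + (if μ ≤ s then 0 else (Δ - 2) / (2 * s))) := by
    split_ifs with h
    · exact isGreatest_small hg hμ hΔ hμΔ h
    · rcases hr with h1 | h1
      · exact isGreatest_large hg hμ hΔ hμΔ h1
      · exact absurd h1 h
  have hst := st_eq hval
  refine ⟨by rw [hst]; exact hval, ?_⟩
  rw [hst]
  by_cases h : μ ≤ s
  · rw [if_pos h]
    have hb1' : b = 1 := by
      have h1 : (b - 1) * s < 1 * s := by omega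
      have h2 : b - 1 < 1 := lt_of_mul_lt_mul_right h1 (by omega)
      omega
    constructor
    · intro _; exact Or.inl h
    · intro _; rw [hb1']
  · rw [if_neg h]
    have hΔμ : Δ ≤ 2 * μ := by
      rcases hr with h1 | h1
      · exact h1
      · exact absurd h1 h
    have hq : (Δ - 2) / (2 * s) < b := by
      rw [Nat.div_lt_iff_lt_mul (by omega)]
      have h1 : b * (2 * s) = 2 * (b * s) := by ring
      omega
    have hiff : b - 1 ≤ (Δ - 2) / (2 * s) ↔ (b - 1) * (2 * s) ≤ Δ - 2 :=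
      Nat.le_div_iff_mul_le (by omega)
    have h2 : 2 * (b - 1) * s = (b - 1) * (2 * s) := by ring
    rw [h2]
    constructor
    · intro h1
      right
      have h3 : b - 1 ≤ (Δ - 2) / (2 * s) := by omega
      have h4 := hiff.1 h3
      exact ⟨by omega, hΔμ⟩
    · rintro (h1 | ⟨h1, _⟩)
      · exact absurd h1 h
      · have h4 := hiff.2 (by omega)
        omega

/-- no equality in Steffen's bound if `Δ + ⌈μ/s⌉ - 1` colours always suffice -/
theorem st_no_equality {Δ μ g : ℕ} (hg : 3 ≤ g) (hμ : 1 ≤ μ) (hΔ : 2 ≤ Δ) (hμΔ : μ ≤ Δ)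
    (hΔμ : 2 * μ < Δ) (hμs : g / 2 < μ)
    (hB : ∀ t, 1 ≤ t → μ ≤ (t + 1) * (g / 2) → t * (g / 2) < μ →
      ∀ n ∈ stSet Δ μ g, n ≤ Δ + t) :
    IsGreatest (stSet Δ μ g) (st Δ μ g) ∧
    st Δ μ g < Δ + ⌈(μ : ℚ) / ((g / 2 : ℕ) : ℚ)⌉₊ := by
  have hs : 1 ≤ g / 2 := by omega
  set s := g / 2 with hsdef
  have hsq : (0 : ℚ) < (s : ℚ) := by exact_mod_cast hs
  set b := ⌈(μ : ℚ) / (s : ℚ)⌉₊ with hb
  have hb1 : μ ≤ b * s := by
    have h1 : (μ : ℚ) / (s : ℚ) ≤ (b : ℚ) := Nat.le_ceil _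
    rw [div_le_iff₀ hsq] at h1
    exact_mod_cast h1
  have hb0 : 1 ≤ b := by
    rw [hb, Nat.one_le_ceil_iff]
    have : (0 : ℚ) < (μ : ℚ) := by exact_mod_cast hμ
    positivity
  have hb2 : (b - 1) * s < μ := by
    have h1 : b - 1 < b := by omega
    have h2 : ((b - 1 : ℕ) : ℚ) < (μ : ℚ) / (s : ℚ) := Nat.lt_ceil.1 h1
    rw [lt_div_iff₀ hsq] at h2
    exact_mod_cast h2
  have hb3 : 2 ≤ b := by
    by_contra hcon
    have h3 : b = 1 := by omega
    rw [h3] at hb1
    omega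
  obtain ⟨t, ht⟩ : ∃ t, b = t + 1 := ⟨b - 1, by omega⟩
  have hmain := isGreatest_st (B := Δ + t) hg hμ hΔ hμΔ
    (hB t (by omega) (by rw [← ht]; exact hb1) (by
      have h1 : b - 1 = t := by omega
      rw [h1] at hb2
      exact hb2))
  exact ⟨hmain.1, by have := hmain.2; omega⟩

end Pool.Agent.Lib.MP_633d19_co
end

section

/-!
Colourings with `Δ + ⌈μ / ⌊g / 2⌋⌉ - 1` colours for girth three and four.
-/

namespace Pool.Agent.Lib.MP_633d19_co

open Classical

section weights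

variable {V : Type*} [Fintype V] {w : V → V → ℕ} {μ t Δ : ℕ}

theorem num_of_dw (h : DW V w μ t Δ) : Num μ t Δ (Fintype.card V) := by
  obtain ⟨G, hG, htri, hmax, hnb, s, hs⟩ := h.exists_graph
  refine ⟨h.odd, h.count.1, h.card_le, h.count.2, h.str, ?_, ?_, ?_⟩
  · intro hn hμ
    rcases h.nineteen h.deg_ge h.card_le G hG htri hmax s hs hn hμ with h1 | h1
    · exact Or.inl (h.c5num G hG htri s hs h1)
    · right
      rw [hn]
      exact h1
  · rintro ⟨hn, hμ, ht, hΔ⟩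
    subst hμ ht hΔ
    exact h.nine hn
  · rintro m ⟨hn, hμ, ht, hΔ⟩
    subst hμ ht hΔ
    exact h.ten hn G hG htri hmax hnb

end weights

theorem att_of_num {μ t Δ n : ℕ} (ht : 1 ≤ t) (hμ : μ = 2 * t + 1 ∨ μ = 2 * t + 2)
    (hΔ : 2 * μ < Δ) (h : Num μ t Δ n) : Att4 μ Δ := by
  rcases hμ with hμ | hμ
  · rcases Nat.lt_or_ge t 3 with h3 | h3
    · interval_cases t
      · subst hμ; exact att_of_num_3 hΔ h
      · subst hμ; exact att_of_num_five hΔ h
    · subst hμ
      exact (num_odd_false h3 hΔ h).elim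
  · rcases Nat.lt_or_ge t 5 with h5 | h5
    · interval_cases t
      · subst hμ; exact Or.inr (Or.inl rfl)
      · subst hμ; exact att_of_num_6 hΔ h
      · subst hμ; exact att_of_num_8 hΔ h
      · subst hμ; exact att_of_num_ten hΔ h
    · subst hμ
      exact att_of_num_even h5 hΔ h

variable {V E : Type*} {ends : E → Sym2 V}

/-- there is no triangle -/
theorem no_tri_of_girth (hloop : ∀ e, ¬ (ends e).IsDiag) (hg : GirthGE ends 4) {a b c : V}
    (hab : ∃ e, ends e = s(a, b)) (hbc : ∃ e, ends e = s(b, c)) (hac : ∃ e, ends e = s(a, c)) :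
    False := by
  have key : ∀ x y : V, (∃ e, ends e = s(x, y)) → x ≠ y := by
    rintro x y ⟨e, he⟩ hxy
    exact hloop e (by rw [he, hxy]; exact rfl)
  have h1 := key a b hab
  have h2 := key b c hbc
  have h3 := key a c hac
  have h4 : (4 : ℕ) ≤ 3 := by
    refine hg 3 le_rfl (fun i => if i = 0 then a else if i = 1 then b else c) ?_ ?_
    · intro i hi j hj hij
      interval_cases i <;> interval_cases j <;> simp_all
    · intro i hi
      interval_cases i
      · simpa using hab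
      · simpa using hbc
      · obtain ⟨e, he⟩ := hac
        refine ⟨e, ?_⟩
        simp
        rw [he, Sym2.eq_swap]
  omega

/-- the weights of a dense set of vertices -/
theorem dw_of_dense (hloop : ∀ e, ¬ (ends e).IsDiag) (hg : GirthGE ends 4) {F : Finset E}
    {X : Finset V} {Δ t N μ : ℕ} (hX : X.card = N + 1) (hNe : Even N)
    (hμ : ∀ u v, (F.filter (fun e => ends e = s(u, v))).card ≤ μ)
    (hΔ : ∀ v, degOn ends F v ≤ Δ)
    (hd : (Δ + t) * N + 2 ≤ ∑ w ∈ X, (ed2 ends F X w).card) :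
    DW X (fun a b => (F.filter (fun e => ends e = s(a.1, b.1))).card) μ t Δ := by
  have hsum : ∀ v : X, ∑ u : X, (F.filter (fun e => ends e = s(v.1, u.1))).card =
      (ed2 ends F X v.1).card := by
    intro v
    rw [card_ed2_eq]
    exact Finset.sum_coe_sort X (fun u => (F.filter (fun e => ends e = s(v.1, u))).card)
  have hne : ∀ a b : V, (F.filter (fun e => ends e = s(a, b))).card ≠ 0 →
      ∃ e, ends e = s(a, b) := by
    intro a b h
    rw [← Nat.pos_iff_ne_zero, Finset.card_pos] at h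
    obtain ⟨e, he⟩ := h
    exact ⟨e, (Finset.mem_filter.1 he).2⟩
  refine ⟨?_, ?_, ?_, ?_, ?_, ?_, ?_⟩
  · intro a b
    rw [Sym2.eq_swap]
  · intro a
    rw [Finset.card_eq_zero, Finset.filter_eq_empty_iff]
    intro e _ he
    exact hloop e (by rw [he]; exact rfl)
  · intro a b c hab hbc
    by_contra hac
    exact no_tri_of_girth hloop hg (hne _ _ hab) (hne _ _ hbc) (hne _ _ hac)
  · intro a b
    exact hμ _ _
  · rw [Fintype.card_coe, hX]
    exact hNe.add_one
  · intro v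
    rw [hsum]
    exact (card_ed2_le_deg X v.1).trans (hΔ v.1)
  · rw [Fintype.card_coe, hX, Nat.add_sub_cancel]
    simp only [hsum]
    rw [Finset.sum_coe_sort X (fun u => (ed2 ends F X u).card)]
    exact hd

/-- **Girth at least four, Steffen's bound is not attained.** -/
theorem colorable_four [Fintype V] [Fintype E] (hloop : ∀ e, ¬ (ends e).IsDiag)
    (hg : GirthGE ends 4) {Δ t μ : ℕ} (ht : 1 ≤ t) (hμt : μ = 2 * t + 1 ∨ μ = 2 * t + 2)
    (hΔμ : 2 * μ < Δ) (hna : ¬ Att4 μ Δ)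
    (hΔ : ∀ v, degOn ends Finset.univ v ≤ Δ)
    (hμ : ∀ u v, ((Finset.univ : Finset E).filter (fun e => ends e = s(u, v))).card ≤ μ) :
    ∃ c : E → Fin (Δ + t), ProperOn ends Finset.univ c := by
  by_contra hcon
  obtain ⟨F, hFu, hF, e0, he0, N, hN1, ⟨c, y, ed, hc, htr⟩, hmax⟩ :=
    exists_gmax hloop (by omega : 0 < Δ + t) hcon
  have hΔF : ∀ v, degOn ends F v ≤ Δ := fun v => (degOn_mono hFu v).trans (hΔ v)
  have hμF : ∀ u v, (F.filter (fun e => ends e = s(u, v))).card ≤ μ := mult_mono hFu hμ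
  have hkd : ∀ v, degOn ends F v < Δ + t := fun v => (hΔF v).trans_lt (by omega)
  have hNe := even_of_max he0 hF hkd hloop (hmax e0 he0) hN1 hc htr
  have hbd : N * t + 2 ≤ Δ := by
    have h1 := inner_degree_ge he0 hF rfl ht hΔF (hmax e0 he0) hN1 hc htr
      (w := y 0) (mem_VX.2 ⟨0, by omega, rfl⟩)
    exact h1.trans ((card_ed2_le_deg _ _).trans (hΔF _))
  have hcase : (3 ≤ t ∧ μ ≤ 2 * t + 2) ∨ (μ = 5 ∧ t = 2) ∨ (μ = 3 ∧ t = 1 ∧ N ≤ 26) ∨
      (μ = 6 ∧ t = 2 ∧ N ≤ 18) := by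
    rcases Nat.lt_or_ge t 3 with h3 | h3
    · interval_cases t
      · rcases hμt with h4 | h4
        · right; right; left
          refine ⟨h4, rfl, ?_⟩
          by_contra h5
          apply hna
          left
          exact ⟨h4, by omega⟩
        · exfalso
          apply hna
          right; left
          exact h4
      · rcases hμt with h4 | h4
        · right; left
          exact ⟨h4, rfl⟩
        · right; right; right
          refine ⟨h4, rfl, ?_⟩
          by_contra h5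
          apply hna
          right; right; right; left
          obtain ⟨m, hm⟩ := hNe
          exact ⟨h4, by omega⟩
    · left
      exact ⟨h3, by omega⟩
  have hdense := dense_of_gmax hloop ht (by omega : 3 ≤ 4) hg (F0 := Finset.univ)
    (ψ := fun z => μ * (2 * (z * z / 4))) (psi_four hloop hg hμ)
    (hnum_four (t := t) (μ := μ) (by
      rcases Nat.lt_or_ge t 2 with h2 | h2
      · left
        have h3 : t = 1 := by omega
        refine ⟨h3, ?_⟩
        rcases hμt with h4 | h4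
        · omega
        · exfalso
          apply hna
          right; left
          omega
      · right
        exact ⟨h2, by omega⟩)) N (by
      intro N' hN' hN'e hN'4
      have h4 : 4 ≤ N' := by
        obtain ⟨m, hm⟩ := hN'e
        omega
      obtain ⟨δ, h1, h2, h3⟩ := ham_num (μ := μ) (t := t) h4 hN'e (by omega)
      exact hamProp_four hloop hg hμ h1 hN'e h2 h3) F hFu Δ (Δ + t) rfl hΔF hF hmax hN1 e0 he0
      c y ed hc htr
  have hdw := dw_of_dense hloop hg (card_VX htr) hNe hμF hΔF hdense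
  exact hna (att_of_num ht hμt hΔμ (num_of_dw hdw))

/-- **Vizing's bound is not attained.** -/
theorem colorable_three [Fintype V] [Fintype E] (hloop : ∀ e, ¬ (ends e).IsDiag)
    (hg : GirthGE ends 3) {Δ t : ℕ} (ht : 1 ≤ t)
    (hna : ∀ p, 1 ≤ p → ¬ (2 * p * t + 2 ≤ Δ ∧ Δ ≤ 2 * p * (t + 1)))
    (hΔ : ∀ v, degOn ends Finset.univ v ≤ Δ)
    (hμ : ∀ u v, ((Finset.univ : Finset E).filter (fun e => ends e = s(u, v))).card ≤ t + 1) :
    ∃ c : E → Fin (Δ + t), ProperOn ends Finset.univ c := by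
  by_contra hcon
  obtain ⟨F, hFu, hF, e0, he0, N, hN1, ⟨c, y, ed, hc, htr⟩, hmax⟩ :=
    exists_gmax hloop (by omega : 0 < Δ + t) hcon
  have hΔF : ∀ v, degOn ends F v ≤ Δ := fun v => (degOn_mono hFu v).trans (hΔ v)
  have hμF : ∀ u v, (F.filter (fun e => ends e = s(u, v))).card ≤ t + 1 := mult_mono hFu hμ
  have hkd : ∀ v, degOn ends F v < Δ + t := fun v => (hΔF v).trans_lt (by omega)
  have hNe := even_of_max he0 hF hkd hloop (hmax e0 he0) hN1 hc htr
  have hbd : N * t + 2 ≤ Δ := by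
    have h1 := inner_degree_ge he0 hF rfl ht hΔF (hmax e0 he0) hN1 hc htr
      (w := y 0) (mem_VX.2 ⟨0, by omega, rfl⟩)
    exact h1.trans ((card_ed2_le_deg _ _).trans (hΔF _))
  -- the size of the tree
  have hNt : N ≤ 2 * t := by
    obtain ⟨m, hm⟩ := hNe
    by_contra hlt
    have hm1 : t + 1 ≤ m := by omega
    -- some `p` with `2 p (t+1) < Δ < 2 (p + 1) t + 2`
    obtain ⟨p, hp1, hp2⟩ : ∃ p, 2 * p * (t + 1) < Δ ∧ Δ ≤ 2 * (p + 1) * (t + 1) := by
      refine ⟨(Δ - 1) / (2 * (t + 1)), ?_, ?_⟩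
      · have h1 := Nat.div_mul_le_self (Δ - 1) (2 * (t + 1))
        have h2 : 2 * ((Δ - 1) / (2 * (t + 1))) * (t + 1) =
          (Δ - 1) / (2 * (t + 1)) * (2 * (t + 1)) := by ring
        omega
      · have h1 := Nat.lt_div_mul_add (a := Δ - 1) (b := 2 * (t + 1)) (by omega)
        have h2 : 2 * ((Δ - 1) / (2 * (t + 1)) + 1) * (t + 1) =
          (Δ - 1) / (2 * (t + 1)) * (2 * (t + 1)) + 2 * (t + 1) := by ring
        omega
    have h3 : Δ < 2 * (p + 1) * t + 2 := by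
      by_contra h4
      exact hna (p + 1) (by omega) ⟨by omega, hp2⟩
    have h5 : 2 * p * (t + 1) = 2 * p * t + 2 * p := by ring
    have h6 : 2 * (p + 1) * t = 2 * p * t + 2 * t := by ring
    have h7 : p ≤ t := by omega
    have h8 : N * t = 2 * m * t := by rw [hm]; ring
    have h9 : 2 * m * t < 2 * (p + 1) * t := by omega
    have h10 : 2 * m < 2 * (p + 1) := lt_of_mul_lt_mul_right h9 (by omega)
    omega
  have hdense := dense_of_gmax hloop ht le_rfl hg (F0 := Finset.univ)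
    (ψ := fun z => (t + 1) * (z * (z - 1))) (psi_three hloop hμ)
    (hnum_three ht) N (by
      intro N' hN' hN'e hN'3
      refine hamProp_three hloop hμ ?_ hN'e
      obtain ⟨u, hu⟩ : ∃ u, N' = u + 2 := ⟨N' - 2, by omega⟩
      rw [hu, Nat.add_sub_cancel]
      have h1 : (t + 1) * u = u * t + u := by ring
      have h2 : (u + 2) * t = u * t + 2 * t := by ring
      omega) F hFu Δ (Δ + t) rfl hΔF hF hmax hN1 e0 he0 c y ed hc htr
  have hle := psi_three hloop hμF (VX y N)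
  rw [card_VX htr, Nat.add_sub_cancel] at hle
  have h1 : (Δ + t) * N + 2 ≤ (t + 1) * (N + 1) * N := by
    refine hdense.trans (hle.trans (le_of_eq ?_))
    ring
  have h2 : (Δ + t) * N < (t + 1) * (N + 1) * N := by omega
  have h3 : Δ + t < (t + 1) * (N + 1) := lt_of_mul_lt_mul_right h2 (by omega)
  obtain ⟨m, hm⟩ := hNe
  have h4 : (t + 1) * (N + 1) = N * t + N + t + 1 := by ring
  have h5 : 2 * m * (t + 1) = N * t + N := by rw [hm]; ring
  have h6 : 2 * m * t = N * t := by rw [hm]; ring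
  exact hna m (by omega) ⟨by omega, by omega⟩

end Pool.Agent.Lib.MP_633d19_co
end

section

/-!
Steffen's bound for girth three and four in terms of `stSet`.
-/

namespace Pool.Agent.Lib.MP_633d19_co

open Classical

/-- a graph with many edges gives an element of `stSet` -/
theorem mem_stSet_of_dense {Δ μ g t : ℕ} (hg : 3 ≤ g) (hμ : 1 ≤ μ) (hΔ : 2 ≤ Δ)
    (hμΔ : μ ≤ Δ) (G : MGraph) (h1 : G.maxDeg ≤ Δ) (h2 : G.maxMult ≤ μ)
    (h3 : ∀ ℓ, 3 ≤ ℓ → G.HasCycle ℓ → g ≤ ℓ)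
    (h4 : (Δ + t) * (Fintype.card G.V / 2) < Fintype.card G.E) :
    ∃ n ∈ stSet Δ μ g, Δ + t < n := by
  set i0 : Fin Δ := ⟨0, by omega⟩
  have hD : (hgraph Δ g i0).maxDeg = Δ := by
    apply le_antisymm
    · exact MGraph.maxDeg_le (hgraph_deg_le hΔ)
    · exact hgraph_deg_ge.trans (MGraph.deg_le_maxDeg _ _)
  have hM : (hgraph Δ g i0).maxMult ≤ μ :=
    (MGraph.maxMult_le (hgraph_mult_le (by omega))).trans hμ
  have hD' : (G.sum (hgraph Δ g i0)).maxDeg = Δ := by
    rw [MGraph.maxDeg_sum, hD]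
    omega
  have hM' : (G.sum (hgraph Δ g i0)).maxMult ≤ μ := by
    rw [MGraph.maxMult_sum]
    omega
  have hG : (complete (G.sum (hgraph Δ g i0)) g hg μ).HasGirth g := by
    apply complete_hasGirth
    intro ℓ hℓ hc
    rw [MGraph.hasCycle_sum (by omega)] at hc
    rcases hc with hc | hc
    · exact h3 ℓ hℓ hc
    · exact (girth_hgraph hℓ hc).le
  have hdeg : (complete (G.sum (hgraph Δ g i0)) g hg μ).maxDeg = Δ := by
    rw [complete_maxDeg (by omega) (by omega), hD']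
  have hmu : (complete (G.sum (hgraph Δ g i0)) g hg μ).maxMult = μ := complete_maxMult hμ hM'
  refine ⟨_, ⟨complete (G.sum (hgraph Δ g i0)) g hg μ, hdeg, hmu, hG, rfl⟩, ?_⟩
  apply MGraph.lt_chromIndex
  intro hc
  have h5 := MGraph.card_E_le (MGraph.colorable_of_sum (MGraph.colorable_of_sum hc))
  omega

theorem steffen_le_four {Δ μ b : ℕ} (hb : 1 ≤ b) (hμb : μ ≤ 2 * b) :
    ∀ n ∈ stSet Δ μ 4, n ≤ Δ + b := by
  rintro n ⟨G, h1, h2, h3, h4⟩
  rw [← h4]
  apply MGraph.chromIndex_le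
  refine colorable_of_proper (colorable_steffen_four G.loopless
    (girthGE_of_hasGirth h3 le_rfl) hb hμb ?_ ?_)
  · intro v
    rw [degOn_univ, ← h1]
    exact G.deg_le_maxDeg v
  · intro u v
    rw [mult_univ, ← h2]
    exact G.mult_le_maxMult u v

theorem vizing_le {Δ μ g : ℕ} (hμ : 1 ≤ μ) : ∀ n ∈ stSet Δ μ g, n ≤ Δ + μ := by
  rintro n ⟨G, h1, h2, h3, h4⟩
  rw [← h4]
  apply MGraph.chromIndex_le
  refine colorable_of_proper (colorable_vizing G.loopless hμ ?_ ?_)
  · intro v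
    rw [degOn_univ, ← h1]
    exact G.deg_le_maxDeg v
  · intro u v
    rw [mult_univ, ← h2]
    exact G.mult_le_maxMult u v

theorem upper_girth_four {Δ μ t : ℕ} (ht : 1 ≤ t) (hμt : μ = 2 * t + 1 ∨ μ = 2 * t + 2)
    (hΔμ : 2 * μ < Δ) (hna : ¬ Att4 μ Δ) : ∀ n ∈ stSet Δ μ 4, n ≤ Δ + t := by
  rintro n ⟨G, h1, h2, h3, h4⟩
  rw [← h4]
  apply MGraph.chromIndex_le
  refine colorable_of_proper (colorable_four G.loopless
    (girthGE_of_hasGirth h3 le_rfl) ht hμt hΔμ hna ?_ ?_)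
  · intro v
    rw [degOn_univ, ← h1]
    exact G.deg_le_maxDeg v
  · intro u v
    rw [mult_univ, ← h2]
    exact G.mult_le_maxMult u v

theorem upper_girth_three {Δ t : ℕ} (ht : 1 ≤ t)
    (hna : ∀ p, 1 ≤ p → ¬ (2 * p * t + 2 ≤ Δ ∧ Δ ≤ 2 * p * (t + 1))) :
    ∀ n ∈ stSet Δ (t + 1) 3, n ≤ Δ + t := by
  rintro n ⟨G, h1, h2, h3, h4⟩
  rw [← h4]
  apply MGraph.chromIndex_le
  refine colorable_of_proper (colorable_three G.loopless
    (girthGE_of_hasGirth h3 le_rfl) ht hna ?_ ?_)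
  · intro v
    rw [degOn_univ, ← h1]
    exact G.deg_le_maxDeg v
  · intro u v
    rw [mult_univ, ← h2]
    exact G.mult_le_maxMult u v

theorem ceil_one (μ : ℕ) : ⌈(μ : ℚ) / ((3 / 2 : ℕ) : ℚ)⌉₊ = μ := by
  have : ((3 / 2 : ℕ) : ℚ) = 1 := by norm_num
  rw [this, div_one]
  exact Nat.ceil_natCast μ

theorem ceil_two (μ : ℕ) : ⌈(μ : ℚ) / ((4 / 2 : ℕ) : ℚ)⌉₊ = (μ + 1) / 2 := by
  have h : ((4 / 2 : ℕ) : ℚ) = 2 := by norm_num
  rw [h]
  apply le_antisymm
  · apply Nat.ceil_le.2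
    rw [div_le_iff₀ (by norm_num)]
    have : μ ≤ (μ + 1) / 2 * 2 := by omega
    exact_mod_cast this
  · by_contra hcon
    push Not at hcon
    have h1 : (μ : ℚ) / 2 ≤ (⌈(μ : ℚ) / 2⌉₊ : ℚ) := Nat.le_ceil _
    rw [div_le_iff₀ (by norm_num)] at h1
    have h2 : μ ≤ ⌈(μ : ℚ) / 2⌉₊ * 2 := by exact_mod_cast h1
    omega

/-- **Girth three.** -/
theorem st_three {Δ μ : ℕ} (hμ : 1 ≤ μ) (hΔ : 2 ≤ Δ) (hμΔ : μ ≤ Δ) :
    IsGreatest (stSet Δ μ 3) (st Δ μ 3) ∧
    (st Δ μ 3 = Δ + ⌈(μ : ℚ) / ((3 / 2 : ℕ) : ℚ)⌉₊ ↔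
      ∃ p, 2 * p * (μ - 1) + 2 ≤ Δ ∧ Δ ≤ 2 * p * μ) := by
  rw [ceil_one]
  obtain ⟨t, rfl⟩ : ∃ t, μ = t + 1 := ⟨μ - 1, by omega⟩
  rw [Nat.add_sub_cancel]
  obtain ⟨hgr, hle⟩ := isGreatest_st le_rfl hμ hΔ hμΔ (vizing_le (Δ := Δ) (g := 3) hμ)
  refine ⟨hgr, ?_⟩
  constructor
  · intro hst
    rcases Nat.eq_zero_or_pos t with ht | ht
    · subst ht
      exact ⟨Δ, by omega, by omega⟩
    · by_contra hcon
      push Not at hcon
      have h1 := (isGreatest_st le_rfl hμ hΔ hμΔ (upper_girth_three ht (fun p _ hp => by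
        have := hcon p hp.1
        omega))).2
      omega
  · rintro ⟨p, hp1, hp2⟩
    have hp : 1 ≤ p := by
      by_contra h
      have h0 : p = 0 := by omega
      subst h0
      omega
    obtain ⟨G, h1, h2, h3, h4⟩ := exists_vizing p (t + 1) Δ hp (by omega)
      (by rw [Nat.add_sub_cancel]; exact hp1) hp2
    obtain ⟨n, hn, hlt⟩ := mem_stSet_of_dense (t := t) le_rfl hμ hΔ hμΔ G h1 h2
      (fun ℓ hℓ _ => hℓ) (by
        rw [h3]
        have e1 : (2 * p + 1) / 2 = p := by omega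
        have e2 : Δ + (t + 1) - 1 = Δ + t := by omega
        rw [e1]
        rw [e2] at h4
        exact h4)
    have := hgr.2 hn
    omega

/-- **Girth four.** -/
theorem st_four {Δ μ : ℕ} (hμ : 3 ≤ μ) (hΔμ : 2 * μ < Δ) :
    IsGreatest (stSet Δ μ 4) (st Δ μ 4) ∧
    (st Δ μ 4 = Δ + ⌈(μ : ℚ) / ((4 / 2 : ℕ) : ℚ)⌉₊ ↔ Att4 μ Δ) := by
  rw [ceil_two]
  obtain ⟨t, ht, ht2⟩ : ∃ t, 1 ≤ t ∧ (μ + 1) / 2 = t + 1 := ⟨(μ + 1) / 2 - 1, by omega, by omega⟩
  have hμt : μ = 2 * t + 1 ∨ μ = 2 * t + 2 := by omega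
  rw [ht2]
  obtain ⟨hgr, hle⟩ := isGreatest_st (Δ := Δ) (by omega : 3 ≤ 4) (by omega) (by omega) (by omega)
    (steffen_le_four (Δ := Δ) (μ := μ) (b := t + 1) (by omega) (by omega))
  refine ⟨hgr, ?_⟩
  constructor
  · intro hst
    by_contra hna
    have h1 := (isGreatest_st (Δ := Δ) (by omega : 3 ≤ 4) (by omega) (by omega) (by omega)
      (upper_girth_four ht hμt hΔμ hna)).2
    omega
  · intro hatt
    obtain ⟨a, e, ha, he1, he2, he3⟩ := blowNum_of_att hμt hΔμ hatt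
    obtain ⟨G, h1, h2, h3, h4, h5⟩ := exists_c5_balanced a e Δ μ ha he1 he2
    obtain ⟨n, hn, hlt⟩ := mem_stSet_of_dense (t := t) (by omega : 3 ≤ 4) (by omega)
      (by omega) (by omega : μ ≤ Δ) G h1 h2 (fun ℓ hℓ hc => by
        by_contra hcon
        have h6 : ℓ = 3 := by omega
        subst h6
        exact h3 hc) (by rw [h4, h5]; exact he3)
    have := hgr.2 hn
    omega

end Pool.Agent.Lib.MP_633d19_co
end
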