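import Pool.Agent.Lib.MP_633d19_co.Bounds
import Pool.Agent.Lib.MP_633d19_co.Defs

section

/-!
Steffen's bound in the case where the multiplicity is at most half of the girth.
-/

namespace Pool.Agent.Lib.MP_633d19_co

open Classical

variable {V E : Type*} {ends : E → Sym2 V}

theorem small_numeric {m p s : ℕ} (hs : 2 ≤ s) (hp : 2 * s ≤ p)
    (hm : m ≤ (p - 1) / (2 * s - 2) + 1) (h : p + 2 ≤ m * s) : False := by
  rcases Nat.lt_or_ge m 3 with h3 | h3
  · have : m * s ≤ 2 * s := Nat.mul_le_mul_right s (by omega)
    omega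
  · have h4 : (m - 1) * (2 * s - 2) ≤ p - 1 := by
      have h5 : m - 1 ≤ (p - 1) / (2 * s - 2) := by omega
      calc (m - 1) * (2 * s - 2) ≤ (p - 1) / (2 * s - 2) * (2 * s - 2) :=
            Nat.mul_le_mul_right _ h5
        _ ≤ p - 1 := Nat.div_mul_le_self _ _
    obtain ⟨m', rfl⟩ : ∃ m', m = m' + 3 := ⟨m - 3, by omega⟩
    obtain ⟨s', rfl⟩ : ∃ s', s = s' + 2 := ⟨s - 2, by omega⟩
    have h6 : m' + 3 - 1 = m' + 2 := by omega
    have h7 : 2 * (s' + 2) - 2 = 2 * s' + 2 := by omega
    rw [h6, h7] at h4
    have h8 : (m' + 2) * (2 * s' + 2) + 1 ≤ p := by omega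
    nlinarith

theorem exists_max_path [Fintype V] {F : Finset E} {e0 : E} {k : ℕ} {q : ℕ}
    (h : ∃ c : E → Fin k, ProperOn ends (F.erase e0) c ∧ ∃ (y : ℕ → V) (ed : ℕ → E),
      KPath ends (F.erase e0) e0 c y ed q) :
    ∃ p, q ≤ p ∧ (∃ c : E → Fin k, ProperOn ends (F.erase e0) c ∧ ∃ (y : ℕ → V) (ed : ℕ → E),
      KPath ends (F.erase e0) e0 c y ed p) ∧
      ¬ (∃ c : E → Fin k, ProperOn ends (F.erase e0) c ∧ ∃ (y : ℕ → V) (ed : ℕ → E),
      KPath ends (F.erase e0) e0 c y ed (p + 1)) := by
  set P : ℕ → Prop := fun p => ∃ c : E → Fin k, ProperOn ends (F.erase e0) c ∧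
    ∃ (y : ℕ → V) (ed : ℕ → E), KPath ends (F.erase e0) e0 c y ed p with hP
  have hbound : ∀ p, P p → p ≤ Fintype.card V := by
    rintro p ⟨c, _, y, ed, hk⟩
    have hinj : Function.Injective (fun i : Fin (p + 1) => y i) := by
      intro i j hij
      exact Fin.ext (hk.inj i j (by omega) (by omega) hij)
    have := Fintype.card_le_of_injective _ hinj
    simp at this
    omega
  have hq : P q := h
  have hqn : q ≤ Fintype.card V := hbound q hq
  refine ⟨Nat.findGreatest P (Fintype.card V), Nat.le_findGreatest hqn hq,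
    Nat.findGreatest_spec hqn hq, ?_⟩
  intro h1
  have h2 := hbound _ h1
  have h3 : Nat.findGreatest P (Fintype.card V) + 1 ≤ Nat.findGreatest P (Fintype.card V) :=
    Nat.le_findGreatest (P := P) h2 h1
  omega

theorem steffen_small [Fintype E] [Fintype V] {Δ s : ℕ} (hs : 1 ≤ s)
    (hloop : ∀ e, ¬ (ends e).IsDiag) (hg : GirthGE ends (2 * s))
    (hΔ : ∀ v, degOn ends Finset.univ v ≤ Δ)
    (hμ : ∀ u v, ((Finset.univ : Finset E).filter (fun e => ends e = s(u, v))).card ≤ s) :
    ∃ c : E → Fin (Δ + 1), ProperOn ends Finset.univ c := by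
  by_contra h
  obtain ⟨F, e0, he0, hF, c0, hc0⟩ := exists_critical (by omega) h
  have hΔ' : ∀ v, degOn ends F v ≤ Δ := fun v =>
    (degOn_mono (Finset.subset_univ F) v).trans (hΔ v)
  have hk' : ∀ v, degOn ends F v < Δ + 1 := fun v => by have := hΔ' v; omega
  obtain ⟨y0, ed0, hP0⟩ := exists_long_path he0 hF hk' hloop hg hc0 (2 * s) (by omega) le_rfl
  obtain ⟨p, hp, ⟨c, hc, y, ed, hP⟩, hmax⟩ := exists_max_path ⟨c0, hc0, y0, ed0, hP0⟩
  have hmiss : ∀ c : E → Fin (Δ + 1), ProperOn ends (F.erase e0) c →
      ∀ v, ∃ γ, Missing ends (F.erase e0) c v γ := by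
    intro c _ v
    have h1 := card_Mis (ends := ends) (F.erase e0) c v
    have h2 := degOn_erase_le (ends := ends) F e0 v
    have h3 := hk' v
    have h4 : 0 < (Mis ends (F.erase e0) c v).card := by omega
    obtain ⟨γ, hγ⟩ := Finset.card_pos.1 h4
    exact ⟨γ, mem_Mis.1 hγ⟩
  have elem : ∀ i j, i < j → j ≤ p → ∀ γ, ¬ (Missing ends (F.erase e0) c (y i) γ ∧
      Missing ends (F.erase e0) c (y j) γ) := by
    intro i j hij hj γ
    exact kierstead he0 hF hmiss y ed j (by omega) c hc (hP.mono hj) i hij γ
  -- the colours missing before `y p`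
  set T := (Finset.range p).biUnion (fun i => Mis ends (F.erase e0) c (y i)) with hT
  have hTcard : p + 2 ≤ T.card := by
    rw [hT, Finset.card_biUnion]
    · have h1 := sum_Mis_ge (k := Δ + 1) he0 (by omega) hΔ' (n := p - 1) (by omega) hP
      have h2 : p - 1 + 1 = p := by omega
      rw [h2] at h1
      have h3 : Δ + 1 - Δ = 1 := by omega
      rw [h3] at h1
      omega
    · intro i hi j hj hij
      rw [Finset.mem_coe, Finset.mem_range] at hi hj
      rw [Function.onFun, Finset.disjoint_left]
      intro γ h1 h2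
      rcases Nat.lt_or_ge i j with h3 | h3
      · exact elem i j h3 hj.le γ ⟨mem_Mis.1 h1, mem_Mis.1 h2⟩
      · exact elem j i (by omega) hi.le γ ⟨mem_Mis.1 h2, mem_Mis.1 h1⟩
  set J := (Finset.range p).filter (fun j => ∃ e, ends e = s(y p, y j)) with hJ
  have hedge : ∀ γ : Fin (Δ + 1), ∃ f j, γ ∈ T → (j ∈ J ∧ ends f = s(y p, y j) ∧ c f = γ) := by
    intro γ
    by_cases hγ : γ ∈ T
    swap
    · exact ⟨e0, 0, fun h => absurd h hγ⟩
    rw [hT, Finset.mem_biUnion] at hγ
    obtain ⟨i, hi, hiγ⟩ := hγ
    rw [Finset.mem_range] at hi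
    have hiγ' := mem_Mis.1 hiγ
    have hnot : ¬ Missing ends (F.erase e0) c (y p) γ := by
      intro h1
      exact elem i p hi le_rfl γ ⟨hiγ', h1⟩
    unfold Missing at hnot
    push Not at hnot
    obtain ⟨f, hf, hyf, hcf⟩ := hnot
    obtain ⟨z, hz⟩ := Sym2.mem_iff_exists.1 hyf
    have hzq : z ≠ y p := by
      intro h
      apply hloop f
      rw [hz, h]
      exact Sym2.mk_isDiag_iff.2 rfl
    have hex : ∃ j ≤ p, y j = z := by
      by_contra hcon
      push Not at hcon
      apply hmax
      refine ⟨c, hc, _, _, hP.extend (by omega) hf hz hcon hi ?_⟩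
      rw [hcf]
      exact hiγ'
    obtain ⟨j, hj, hjz⟩ := hex
    have hjp : j ≠ p := by
      intro h1
      rw [h1] at hjz
      exact hzq hjz.symm
    refine ⟨f, j, fun _ => ⟨?_, ?_, hcf⟩⟩
    · rw [hJ, Finset.mem_filter, Finset.mem_range]
      exact ⟨by omega, f, by rw [hjz]; exact hz⟩
    · rw [hjz]; exact hz
  choose fe fj hfej using hedge
  have hTle : T.card ≤ J.card * s := by
    have h1 : T.card ≤ (J.biUnion (fun j => (Finset.univ : Finset E).filter
        (fun e => ends e = s(y p, y j)))).card := by
      apply Finset.card_le_card_of_injOn fe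
      · intro γ hγ
        rw [Finset.mem_coe, Finset.mem_biUnion]
        exact ⟨fj γ, (hfej γ hγ).1, Finset.mem_filter.2 ⟨Finset.mem_univ _, (hfej γ hγ).2.1⟩⟩
      · intro γ hγ γ' hγ' hh
        rw [← (hfej γ hγ).2.2, ← (hfej γ' hγ').2.2, hh]
    exact h1.trans (Finset.card_biUnion_le_card_mul _ _ _ (fun j _ => hμ _ _))
  rcases Nat.lt_or_ge s 2 with hs2 | hs2
  · have hs1 : s = 1 := by omega
    subst hs1
    have h1 : J.card ≤ p := by
      have := Finset.card_filter_le (Finset.range p) (fun j => ∃ e, ends e = s(y p, y j))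
      rw [Finset.card_range] at this
      exact this
    omega
  · have hgap : ∀ j ∈ J, ∀ j' ∈ J, j < j' → 2 * s - 2 ≤ j' - j := by
      intro j hj j' hj' hjj
      rw [hJ, Finset.mem_filter, Finset.mem_range] at hj hj'
      obtain ⟨hjp, e, he⟩ := hj
      obtain ⟨hjp', e', he'⟩ := hj'
      have h1 : 2 * s ≤ j' - j + 2 := by
        apply hg (j' - j + 2) (by omega) (fun i => if i ≤ j' - j then y (j + i) else y p)
        · intro a ha b hb hab
          by_cases h2 : a ≤ j' - j <;> by_cases h3 : b ≤ j' - j
          · simp only [h2, h3, if_true] at hab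
            have := hP.inj (j + a) (j + b) (by omega) (by omega) hab
            omega
          · simp only [h2, h3, if_true, if_false] at hab
            have := hP.inj (j + a) p (by omega) (by omega) hab
            omega
          · simp only [h2, h3, if_true, if_false] at hab
            have := hP.inj p (j + b) (by omega) (by omega) hab
            omega
          · omega
        · intro a ha
          rcases Nat.lt_or_ge a (j' - j) with h2 | h2
          · have h3 : (a + 1) % (j' - j + 2) = a + 1 := Nat.mod_eq_of_lt (by omega)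
            have h4 : a ≤ j' - j := h2.le
            have h5 : a + 1 ≤ j' - j := h2
            simp only [h3, h4, h5, if_true]
            rcases Nat.lt_or_ge (j + a) 1 with h6 | h6
            · have : j = 0 := by omega
              subst this
              have : a = 0 := by omega
              subst this
              exact ⟨e0, by simpa using hP.start⟩
            · refine ⟨ed (j + a + 1), ?_⟩
              have := hP.ends_eq (j + a + 1) (by omega) (by omega)
              simpa [add_assoc] using this
          · rcases Nat.lt_or_ge a (j' - j + 1) with h3 | h3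
            · have h4 : a = j' - j := by omega
              subst h4
              have h5 : (j' - j + 1) % (j' - j + 2) = j' - j + 1 := Nat.mod_eq_of_lt (by omega)
              have h6 : ¬ (j' - j + 1 ≤ j' - j) := by omega
              have h7 : j + (j' - j) = j' := by omega
              simp only [h5, h6, le_refl, if_true, if_false, h7]
              exact ⟨e', by rw [he', Sym2.eq_swap]⟩
            · have h4 : a = j' - j + 1 := by omega
              subst h4
              have h5 : (j' - j + 1 + 1) % (j' - j + 2) = 0 := by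
                have : j' - j + 1 + 1 = j' - j + 2 := by omega
                rw [this, Nat.mod_self]
              have h6 : ¬ (j' - j + 1 ≤ j' - j) := by omega
              simp only [h5, h6, if_false, Nat.zero_le, if_true, add_zero]
              exact ⟨e, he⟩
      omega
    have hJcard : J.card ≤ (p - 1) / (2 * s - 2) + 1 := by
      have h1 : J.card ≤ (Finset.range ((p - 1) / (2 * s - 2) + 1)).card := by
        apply Finset.card_le_card_of_injOn (fun j => j / (2 * s - 2))
        · intro j hj
          rw [Finset.mem_coe, hJ, Finset.mem_filter, Finset.mem_range] at hj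
          rw [Finset.mem_coe, Finset.mem_range, Nat.lt_succ_iff]
          exact Nat.div_le_div_right (by omega)
        · intro j hj j' hj' hh
          simp only at hh
          by_contra hne
          have hpos : 0 < 2 * s - 2 := by omega
          rcases Nat.lt_or_ge j j' with h3 | h3
          · have h4 := hgap j hj j' hj' h3
            have h5 : j / (2 * s - 2) + 1 ≤ j' / (2 * s - 2) := by
              rw [Nat.le_div_iff_mul_le hpos, add_mul, one_mul]
              have := Nat.div_mul_le_self j (2 * s - 2)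
              omega
            omega
          · have h4 := hgap j' hj' j hj (by omega)
            have h5 : j' / (2 * s - 2) + 1 ≤ j / (2 * s - 2) := by
              rw [Nat.le_div_iff_mul_le hpos, add_mul, one_mul]
              have := Nat.div_mul_le_self j' (2 * s - 2)
              omega
            omega
      rwa [Finset.card_range] at h1
    exact small_numeric hs2 hp hJcard (hTcard.trans hTle)

end Pool.Agent.Lib.MP_633d19_co
end

section

/-!
Disjoint unions, multi-cycles, dipoles.
-/

namespace Pool.Agent.Lib.MP_633d19_co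

open Classical

namespace MGraph

theorem deg_le_maxDeg (G : MGraph) (v : G.V) : G.deg v ≤ G.maxDeg :=
  Finset.le_sup (f := G.deg) (Finset.mem_univ v)

theorem mult_le_maxMult (G : MGraph) (u v : G.V) : G.mult u v ≤ G.maxMult :=
  Finset.le_sup (f := fun p : G.V × G.V => G.mult p.1 p.2) (Finset.mem_univ (u, v))

theorem maxDeg_le {G : MGraph} {n : ℕ} (h : ∀ v, G.deg v ≤ n) : G.maxDeg ≤ n :=
  Finset.sup_le (fun v _ => h v)

theorem maxMult_le {G : MGraph} {n : ℕ} (h : ∀ u v, G.mult u v ≤ n) : G.maxMult ≤ n :=
  Finset.sup_le (fun p _ => h p.1 p.2)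

theorem maxDeg_eq {G : MGraph} {n : ℕ} (h : ∀ v, G.deg v ≤ n) (v : G.V) (hv : G.deg v = n) :
    G.maxDeg = n :=
  le_antisymm (maxDeg_le h) (hv ▸ G.deg_le_maxDeg v)

theorem maxMult_eq {G : MGraph} {n : ℕ} (h : ∀ u v, G.mult u v ≤ n) (u v : G.V)
    (hv : G.mult u v = n) : G.maxMult = n :=
  le_antisymm (maxMult_le h) (hv ▸ G.mult_le_maxMult u v)

/-- Disjoint union. -/
def sum (G H : MGraph) : MGraph where
  V := G.V ⊕ H.V
  E := G.E ⊕ H.E
  ends := Sum.elim (fun e => (G.ends e).map Sum.inl) (fun e => (H.ends e).map Sum.inr)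
  loopless := by
    rintro (e | e)
    · intro h
      apply G.loopless e
      simp only [Sum.elim_inl] at h
      exact (Sym2.isDiag_map Sum.inl_injective).1 h
    · intro h
      apply H.loopless e
      simp only [Sum.elim_inr] at h
      exact (Sym2.isDiag_map Sum.inr_injective).1 h

theorem mem_sum_inl {G H : MGraph} (e : G.E) (v : G.V) :
    (Sum.inl v : (G.sum H).V) ∈ (G.sum H).ends (Sum.inl e) ↔ v ∈ G.ends e := by
  change (Sum.inl v : G.V ⊕ H.V) ∈ (G.ends e).map Sum.inl ↔ _
  rw [Sym2.mem_map]
  constructor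
  · rintro ⟨a, ha, h⟩
    rw [Sum.inl.injEq] at h
    rwa [← h]
  · intro h
    exact ⟨v, h, rfl⟩

theorem mem_sum_inr {G H : MGraph} (e : H.E) (v : H.V) :
    (Sum.inr v : (G.sum H).V) ∈ (G.sum H).ends (Sum.inr e) ↔ v ∈ H.ends e := by
  change (Sum.inr v : G.V ⊕ H.V) ∈ (H.ends e).map Sum.inr ↔ _
  rw [Sym2.mem_map]
  constructor
  · rintro ⟨a, ha, h⟩
    rw [Sum.inr.injEq] at h
    rwa [← h]
  · intro h
    exact ⟨v, h, rfl⟩

theorem not_mem_sum_inl {G H : MGraph} (e : G.E) (v : H.V) :
    ¬ (Sum.inr v : (G.sum H).V) ∈ (G.sum H).ends (Sum.inl e) := by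
  change ¬ (Sum.inr v : G.V ⊕ H.V) ∈ (G.ends e).map Sum.inl
  rw [Sym2.mem_map]
  rintro ⟨a, ha, h⟩
  exact Sum.inl_ne_inr h

theorem not_mem_sum_inr {G H : MGraph} (e : H.E) (v : G.V) :
    ¬ (Sum.inl v : (G.sum H).V) ∈ (G.sum H).ends (Sum.inr e) := by
  change ¬ (Sum.inl v : G.V ⊕ H.V) ∈ (H.ends e).map Sum.inr
  rw [Sym2.mem_map]
  rintro ⟨a, ha, h⟩
  exact Sum.inr_ne_inl h

theorem deg_sum_inl {G H : MGraph} (v : G.V) : (G.sum H).deg (Sum.inl v) = G.deg v := by
  unfold deg
  have key : (Finset.univ.filter (fun e => (Sum.inl v : (G.sum H).V) ∈ (G.sum H).ends e)) =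
      (Finset.univ.filter (fun e => v ∈ G.ends e)).map
        (⟨Sum.inl, Sum.inl_injective⟩ : G.E ↪ (G.sum H).E) := by
    ext e
    rw [Finset.mem_filter, Finset.mem_map]
    constructor
    · rintro ⟨_, h⟩
      rcases e with e | e
      · exact ⟨e, Finset.mem_filter.2 ⟨Finset.mem_univ _, (mem_sum_inl e v).1 h⟩, rfl⟩
      · exact absurd h (not_mem_sum_inr e v)
    · rintro ⟨e', he', rfl⟩
      exact ⟨Finset.mem_univ _, (mem_sum_inl e' v).2 (Finset.mem_filter.1 he').2⟩
  convert (congrArg Finset.card key).trans (Finset.card_map _)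
  all_goals first | rfl | exact Iff.rfl

theorem deg_sum_inr {G H : MGraph} (v : H.V) : (G.sum H).deg (Sum.inr v) = H.deg v := by
  unfold deg
  have key : (Finset.univ.filter (fun e => (Sum.inr v : (G.sum H).V) ∈ (G.sum H).ends e)) =
      (Finset.univ.filter (fun e => v ∈ H.ends e)).map
        (⟨Sum.inr, Sum.inr_injective⟩ : H.E ↪ (G.sum H).E) := by
    ext e
    rw [Finset.mem_filter, Finset.mem_map]
    constructor
    · rintro ⟨_, h⟩
      rcases e with e | e
      · exact absurd h (not_mem_sum_inl e v)
      · exact ⟨e, Finset.mem_filter.2 ⟨Finset.mem_univ _, (mem_sum_inr e v).1 h⟩, rfl⟩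
    · rintro ⟨e', he', rfl⟩
      exact ⟨Finset.mem_univ _, (mem_sum_inr e' v).2 (Finset.mem_filter.1 he').2⟩
  convert (congrArg Finset.card key).trans (Finset.card_map _)
  all_goals first | rfl | exact Iff.rfl

theorem maxDeg_sum (G H : MGraph) : (G.sum H).maxDeg = max G.maxDeg H.maxDeg := by
  apply le_antisymm
  · apply maxDeg_le
    rintro (v | v)
    · rw [deg_sum_inl]
      exact (G.deg_le_maxDeg v).trans (le_max_left _ _)
    · rw [deg_sum_inr]
      exact (H.deg_le_maxDeg v).trans (le_max_right _ _)
  · apply max_le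
    · apply maxDeg_le
      intro v
      rw [← deg_sum_inl (H := H)]
      exact deg_le_maxDeg _ _
    · apply maxDeg_le
      intro v
      rw [← deg_sum_inr (G := G)]
      exact deg_le_maxDeg _ _

theorem ends_sum_inl {G H : MGraph} (e : G.E) (u v : G.V) :
    (G.sum H).ends (Sum.inl e) = s(Sum.inl u, Sum.inl v) ↔ G.ends e = s(u, v) := by
  change (G.ends e).map Sum.inl = s(Sum.inl u, Sum.inl v) ↔ _
  rw [← Sym2.map_mk]
  exact (Sym2.map.injective Sum.inl_injective).eq_iff

theorem ends_sum_inr {G H : MGraph} (e : H.E) (u v : H.V) :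
    (G.sum H).ends (Sum.inr e) = s(Sum.inr u, Sum.inr v) ↔ H.ends e = s(u, v) := by
  change (H.ends e).map Sum.inr = s(Sum.inr u, Sum.inr v) ↔ _
  rw [← Sym2.map_mk]
  exact (Sym2.map.injective Sum.inr_injective).eq_iff

theorem mult_sum_inl {G H : MGraph} (u v : G.V) :
    (G.sum H).mult (Sum.inl u) (Sum.inl v) = G.mult u v := by
  unfold mult
  have key : (Finset.univ.filter (fun e => (G.sum H).ends e =
      s((Sum.inl u : (G.sum H).V), (Sum.inl v : (G.sum H).V)))) =
      (Finset.univ.filter (fun e => G.ends e = s(u, v))).map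
        (⟨Sum.inl, Sum.inl_injective⟩ : G.E ↪ (G.sum H).E) := by
    ext e
    rw [Finset.mem_filter, Finset.mem_map]
    constructor
    · rintro ⟨_, h⟩
      rcases e with e | e
      · exact ⟨e, Finset.mem_filter.2 ⟨Finset.mem_univ _, (ends_sum_inl e u v).1 h⟩, rfl⟩
      · exfalso
        apply not_mem_sum_inr (G := G) e u
        rw [h]
        exact Sym2.mem_mk_left _ _
    · rintro ⟨e', he', rfl⟩
      exact ⟨Finset.mem_univ _, (ends_sum_inl e' u v).2 (Finset.mem_filter.1 he').2⟩
  convert (congrArg Finset.card key).trans (Finset.card_map _)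
  all_goals first | rfl | exact Iff.rfl

theorem mult_sum_inr {G H : MGraph} (u v : H.V) :
    (G.sum H).mult (Sum.inr u) (Sum.inr v) = H.mult u v := by
  unfold mult
  have key : (Finset.univ.filter (fun e => (G.sum H).ends e =
      s((Sum.inr u : (G.sum H).V), (Sum.inr v : (G.sum H).V)))) =
      (Finset.univ.filter (fun e => H.ends e = s(u, v))).map
        (⟨Sum.inr, Sum.inr_injective⟩ : H.E ↪ (G.sum H).E) := by
    ext e
    rw [Finset.mem_filter, Finset.mem_map]
    constructor
    · rintro ⟨_, h⟩
      rcases e with e | e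
      · exfalso
        apply not_mem_sum_inl (H := H) e u
        rw [h]
        exact Sym2.mem_mk_left _ _
      · exact ⟨e, Finset.mem_filter.2 ⟨Finset.mem_univ _, (ends_sum_inr e u v).1 h⟩, rfl⟩
    · rintro ⟨e', he', rfl⟩
      exact ⟨Finset.mem_univ _, (ends_sum_inr e' u v).2 (Finset.mem_filter.1 he').2⟩
  convert (congrArg Finset.card key).trans (Finset.card_map _)
  all_goals first | rfl | exact Iff.rfl

theorem mult_sum_cross {G H : MGraph} (u : G.V) (v : H.V) :
    (G.sum H).mult (Sum.inl u) (Sum.inr v) = 0 := by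
  unfold mult
  rw [Finset.card_eq_zero, Finset.filter_eq_empty_iff]
  rintro (e | e) _ h
  · apply not_mem_sum_inl (G := G) e v
    rw [h]
    exact Sym2.mem_mk_right _ _
  · apply not_mem_sum_inr (H := H) e u
    rw [h]
    exact Sym2.mem_mk_left _ _

theorem mult_comm (G : MGraph) (u v : G.V) : G.mult u v = G.mult v u := by
  unfold mult
  rw [Sym2.eq_swap]

theorem maxMult_sum (G H : MGraph) : (G.sum H).maxMult = max G.maxMult H.maxMult := by
  apply le_antisymm
  · apply maxMult_le
    rintro (u | u) (v | v)
    · rw [mult_sum_inl]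
      exact (G.mult_le_maxMult u v).trans (le_max_left _ _)
    · rw [mult_sum_cross]
      exact Nat.zero_le _
    · have h1 : (G.sum H).mult (Sum.inr u) (Sum.inl v) = 0 :=
        ((G.sum H).mult_comm _ _).trans (mult_sum_cross v u)
      rw [h1]
      exact Nat.zero_le _
    · rw [mult_sum_inr]
      exact (H.mult_le_maxMult u v).trans (le_max_right _ _)
  · apply max_le
    · apply maxMult_le
      intro u v
      rw [← mult_sum_inl (H := H)]
      exact mult_le_maxMult _ _ _
    · apply maxMult_le
      intro u v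
      rw [← mult_sum_inr (G := G)]
      exact mult_le_maxMult _ _ _

theorem hasCycle_sum {G H : MGraph} {ℓ : ℕ} (hℓ : 1 ≤ ℓ) :
    (G.sum H).HasCycle ℓ ↔ G.HasCycle ℓ ∨ H.HasCycle ℓ := by
  constructor
  · rintro ⟨y, hinj, hadj⟩
    have hsucc : ∀ i, i + 1 < ℓ → ∃ e, (G.sum H).ends e = s(y i, y (i + 1)) := by
      intro i hi
      have := hadj i (by omega)
      rwa [Nat.mod_eq_of_lt hi] at this
    rcases h0 : y 0 with a | b
    · left
      have hall : ∀ i, i < ℓ → ∃ a, y i = Sum.inl a := by
        intro i
        induction i with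
        | zero => intro _; exact ⟨a, h0⟩
        | succ i ih =>
          intro hi
          obtain ⟨a', ha'⟩ := ih (by omega)
          obtain ⟨e, he⟩ := hsucc i hi
          rcases e with e | e
          · rcases hy : y (i + 1) with a'' | b''
            · exact ⟨a'', rfl⟩
            · exfalso
              apply not_mem_sum_inl (G := G) e b''
              rw [he, hy]
              exact Sym2.mem_mk_right _ _
          · exfalso
            apply not_mem_sum_inr (H := H) e a'
            rw [he, ha']
            exact Sym2.mem_mk_left _ _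
      have hall' : ∀ i, ∃ a, i < ℓ → y i = Sum.inl a := by
        intro i
        by_cases hi : i < ℓ
        · obtain ⟨a, ha⟩ := hall i hi
          exact ⟨a, fun _ => ha⟩
        · exact ⟨a, fun h => absurd h hi⟩
      choose z hz using hall'
      refine ⟨z, ?_, ?_⟩
      · intro i hi j hj hij
        apply hinj i hi j hj
        rw [hz i hi, hz j hj, hij]
      · intro i hi
        obtain ⟨e, he⟩ := hadj i hi
        have hi' : (i + 1) % ℓ < ℓ := Nat.mod_lt _ (by omega)
        rw [hz i hi, hz _ hi'] at he
        rcases e with e | e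
        · exact ⟨e, (ends_sum_inl e _ _).1 he⟩
        · exfalso
          apply not_mem_sum_inr (H := H) e (z i)
          rw [he]
          exact Sym2.mem_mk_left _ _
    · right
      have hall : ∀ i, i < ℓ → ∃ a, y i = Sum.inr a := by
        intro i
        induction i with
        | zero => intro _; exact ⟨b, h0⟩
        | succ i ih =>
          intro hi
          obtain ⟨a', ha'⟩ := ih (by omega)
          obtain ⟨e, he⟩ := hsucc i hi
          rcases e with e | e
          · exfalso
            apply not_mem_sum_inl (G := G) e a'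
            rw [he, ha']
            exact Sym2.mem_mk_left _ _
          · rcases hy : y (i + 1) with a'' | b''
            · exfalso
              apply not_mem_sum_inr (H := H) e a''
              rw [he, hy]
              exact Sym2.mem_mk_right _ _
            · exact ⟨b'', rfl⟩
      have hall' : ∀ i, ∃ a, i < ℓ → y i = Sum.inr a := by
        intro i
        by_cases hi : i < ℓ
        · obtain ⟨a, ha⟩ := hall i hi
          exact ⟨a, fun _ => ha⟩
        · exact ⟨b, fun h => absurd h hi⟩
      choose z hz using hall'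
      refine ⟨z, ?_, ?_⟩
      · intro i hi j hj hij
        apply hinj i hi j hj
        rw [hz i hi, hz j hj, hij]
      · intro i hi
        obtain ⟨e, he⟩ := hadj i hi
        have hi' : (i + 1) % ℓ < ℓ := Nat.mod_lt _ (by omega)
        rw [hz i hi, hz _ hi'] at he
        rcases e with e | e
        · exfalso
          apply not_mem_sum_inl (G := G) e (z i)
          rw [he]
          exact Sym2.mem_mk_left _ _
        · exact ⟨e, (ends_sum_inr e _ _).1 he⟩
  · rintro (⟨y, hinj, hadj⟩ | ⟨y, hinj, hadj⟩)
    · refine ⟨fun i => Sum.inl (y i), ?_, ?_⟩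
      · intro i hi j hj hij
        exact hinj i hi j hj (Sum.inl_injective hij)
      · intro i hi
        obtain ⟨e, he⟩ := hadj i hi
        exact ⟨Sum.inl e, (ends_sum_inl e _ _).2 he⟩
    · refine ⟨fun i => Sum.inr (y i), ?_, ?_⟩
      · intro i hi j hj hij
        exact hinj i hi j hj (Sum.inr_injective hij)
      · intro i hi
        obtain ⟨e, he⟩ := hadj i hi
        exact ⟨Sum.inr e, (ends_sum_inr e _ _).2 he⟩

theorem colorable_of_sum {G H : MGraph} {k : ℕ} (h : (G.sum H).Colorable k) : G.Colorable k := by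
  obtain ⟨c, hc⟩ := h
  refine ⟨fun e => c (Sum.inl e), ?_⟩
  intro e e' hne v hv hv'
  exact hc (Sum.inl e) (Sum.inl e') (fun h => hne (Sum.inl_injective h)) (Sum.inl v)
    ((mem_sum_inl e v).2 hv) ((mem_sum_inl e' v).2 hv')

/-- A colour class is a matching, so it has at most `|V| / 2` edges. -/
theorem card_E_le {G : MGraph} {k : ℕ} (h : G.Colorable k) :
    Fintype.card G.E ≤ k * (Fintype.card G.V / 2) := by
  obtain ⟨c, hc⟩ := h
  have h1 : ∀ γ : Fin k, ((Finset.univ : Finset G.E).filter (fun e => c e = γ)).card ≤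
      Fintype.card G.V / 2 := by
    intro γ
    rw [Nat.le_div_iff_mul_le (by norm_num)]
    have h2 : (((Finset.univ : Finset G.E).filter (fun e => c e = γ)).biUnion
        (fun e => (G.ends e).toFinset)).card =
        ((Finset.univ : Finset G.E).filter (fun e => c e = γ)).card * 2 := by
      rw [Finset.card_biUnion]
      · rw [Finset.sum_congr rfl (fun e _ => Sym2.card_toFinset_of_not_isDiag _ (G.loopless e))]
        simp
      · intro e he e' he' hne
        rw [Finset.mem_coe, Finset.mem_filter] at he he'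
        rw [Function.onFun, Finset.disjoint_left]
        intro v hv hv'
        rw [Sym2.mem_toFinset] at hv hv'
        exact hc e e' hne v hv hv' (by rw [he.2, he'.2])
    rw [← h2]
    exact Finset.card_le_univ _
  calc Fintype.card G.E = (Finset.univ : Finset G.E).card := rfl
    _ = ∑ γ : Fin k, ((Finset.univ : Finset G.E).filter (fun e => c e = γ)).card :=
        Finset.card_eq_sum_card_fiberwise (fun e _ => Finset.mem_coe.2 (Finset.mem_univ _))
    _ ≤ ∑ _γ : Fin k, Fintype.card G.V / 2 := Finset.sum_le_sum (fun γ _ => h1 γ)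
    _ = k * (Fintype.card G.V / 2) := by simp

theorem colorable_mono {G : MGraph} {k m : ℕ} (h : G.Colorable k) (hkm : k ≤ m) :
    G.Colorable m := by
  obtain ⟨c, hc⟩ := h
  exact ⟨fun e => Fin.castLE hkm (c e), fun e e' hne v hv hv' h =>
    hc e e' hne v hv hv' (Fin.castLE_injective hkm h)⟩

theorem colorable_card (G : MGraph) : G.Colorable (Fintype.card G.E) := by
  refine ⟨Fintype.equivFin G.E, fun e e' hne v _ _ h => hne ((Fintype.equivFin G.E).injective h)⟩

theorem chromIndex_le {G : MGraph} {k : ℕ} (h : G.Colorable k) : G.chromIndex ≤ k :=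
  Nat.sInf_le h

theorem lt_chromIndex {G : MGraph} {k : ℕ} (h : ¬ G.Colorable k) : k < G.chromIndex := by
  by_contra hcon
  have h0 : (Fintype.card G.E) ∈ {k | G.Colorable k} := G.colorable_card
  have h1 : G.chromIndex ∈ {k | G.Colorable k} := Nat.sInf_mem ⟨_, h0⟩
  have h1 : G.Colorable G.chromIndex := h1
  exact h (colorable_mono h1 (by omega))

/-- the dipole with `m` parallel edges -/
def dipole (m : ℕ) : MGraph where
  V := Bool
  E := Fin m
  ends := fun _ => s(false, true)
  loopless := by
    intro e h
    rw [Sym2.mk_isDiag_iff] at h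
    exact Bool.false_ne_true h

theorem deg_dipole (m : ℕ) (v : (dipole m).V) : (dipole m).deg v = m := by
  unfold deg
  have : (Finset.univ.filter (fun e => v ∈ (dipole m).ends e)) = Finset.univ := by
    rw [Finset.filter_eq_self]
    intro e _
    refine Sym2.mem_iff.2 ?_
    cases v
    · exact Or.inl rfl
    · exact Or.inr rfl
  rw [this, Finset.card_univ]
  exact Fintype.card_fin m

theorem maxDeg_dipole (m : ℕ) : (dipole m).maxDeg = m :=
  maxDeg_eq (fun v => (deg_dipole m v).le) (false : Bool) (deg_dipole m _)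

theorem maxMult_dipole (m : ℕ) : (dipole m).maxMult = m := by
  refine maxMult_eq ?_ (false : Bool) (true : Bool) ?_
  · intro u v
    unfold mult
    calc _ ≤ (Finset.univ : Finset (dipole m).E).card := Finset.card_filter_le _ _
      _ = m := Fintype.card_fin m
  · refine (congrArg Finset.card (Finset.filter_eq_self.2 ?_)).trans ?_
    · intro e _
      rfl
    · exact (Finset.card_univ).trans (Fintype.card_fin m)

theorem no_cycle_dipole (m ℓ : ℕ) (hℓ : 3 ≤ ℓ) : ¬ (dipole m).HasCycle ℓ := by
  rintro ⟨y, hinj, _⟩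
  have h1 : Function.Injective (fun i : Fin ℓ => y i) := by
    intro i j hij
    exact Fin.ext (hinj i i.2 j j.2 hij)
  have h2 := Fintype.card_le_of_injective _ h1
  have h3 : Fintype.card (dipole m).V = 2 := Fintype.card_bool
  rw [Fintype.card_fin, h3] at h2
  omega

end MGraph

end Pool.Agent.Lib.MP_633d19_co
end
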