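import Pool.Agent.Lib.MP_633d19_co.WDefs
import Pool.Agent.Lib.MP_633d19_co.Graphs

section

/-!
A Boolean check refuting `Num`, common to the values `3`, `6` and `8` of `μ`.
-/

namespace Pool.Agent.Lib.MP_633d19_co

/-- the inequalities of `CfgNum` are violated -/
def numChk_cfg (μ t Δ n Ω α W : ℕ) : Bool :=
  Nat.blt (μ * (α * n) + W * (Δ - (t * (n - 1) + 2))) (Δ * Ω) ||
  Nat.blt ((Δ % μ) * (α * n) + W * (Δ - (t * (n - 1) + 2))) ((Δ % μ) * ((Δ / μ + 1) * Ω))

theorem numChk_cfg_sound {μ t Δ n Ω α W : ℕ} (hμ : 0 < μ) (h : CfgNum μ t Δ n Ω α W) :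
    numChk_cfg μ t Δ n Ω α W = false := by
  obtain ⟨h1, h2⟩ := h
  have h3 := h2 (Δ / μ + 1) (Δ % μ) (by
    have := Nat.div_add_mod Δ μ
    rw [Nat.mul_add, Nat.mul_one]; omega) (Nat.mod_lt _ hμ).le
  unfold numChk_cfg
  unfold Dn at h1 h3
  rw [Bool.or_eq_false_iff]
  constructor
  · rw [Bool.eq_false_iff]
    intro hc
    rw [Nat.blt_eq] at hc
    omega
  · rw [Bool.eq_false_iff]
    intro hc
    rw [Nat.blt_eq] at hc
    omega

/-- one of the inequalities of `C5Num` (`A i` stands for `2 a i`) is violated -/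
def numChk_b (μ Δ D b0 b1 b2 b3 b4 : ℕ) : Bool :=
  let A0 := b0 + b1 + b4 - (b2 + b3)
  let A1 := b1 + b2 + b0 - (b3 + b4)
  let A2 := b2 + b3 + b1 - (b4 + b0)
  let A3 := b3 + b4 + b2 - (b0 + b1)
  let A4 := b4 + b0 + b3 - (b1 + b2)
  Nat.blt A0 2 || Nat.blt A1 2 || Nat.blt A2 2 || Nat.blt A3 2 || Nat.blt A4 2 ||
  Nat.beq (A0 % 2) 1 || Nat.beq (A1 % 2) 1 || Nat.beq (A2 % 2) 1 || Nat.beq (A3 % 2) 1 ||
  Nat.beq (A4 % 2) 1 ||
  Nat.blt (2 * D) (A0 * (Δ - μ * b0) + A1 * (Δ - μ * b1) + A2 * (Δ - μ * b2) +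
    A3 * (Δ - μ * b3) + A4 * (Δ - μ * b4)) ||
  Nat.blt (4 * Δ * b0 + 2 * μ * (A2 * A3) + 4 * D) (2 * Δ * (A0 + A2 + A3)) ||
  Nat.blt (4 * Δ * b1 + 2 * μ * (A3 * A4) + 4 * D) (2 * Δ * (A1 + A3 + A4)) ||
  Nat.blt (4 * Δ * b2 + 2 * μ * (A4 * A0) + 4 * D) (2 * Δ * (A2 + A4 + A0)) ||
  Nat.blt (4 * Δ * b3 + 2 * μ * (A0 * A1) + 4 * D) (2 * Δ * (A3 + A0 + A1)) ||
  Nat.blt (4 * Δ * b4 + 2 * μ * (A1 * A2) + 4 * D) (2 * Δ * (A4 + A1 + A2))

/-- every candidate for a witness of `C5Num` is refuted; `lo` is a lower bound for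
`b i = a (i - 1) + a (i + 1)` -/
def numChk_c5 (μ t Δ n lo : ℕ) : Bool :=
  Nat.blt (2 * n) (5 * lo) ||
  (List.range (2 * n - 5 * lo + 1)).all fun e0 =>
  (List.range (2 * n - 5 * lo - e0 + 1)).all fun e1 =>
  (List.range (2 * n - 5 * lo - e0 - e1 + 1)).all fun e2 =>
  (List.range (2 * n - 5 * lo - e0 - e1 - e2 + 1)).all fun e3 =>
    numChk_b μ Δ (Δ - (t * (n - 1) + 2)) (lo + e0) (lo + e1) (lo + e2) (lo + e3)
      (lo + (2 * n - 5 * lo - e0 - e1 - e2 - e3))

theorem numChk_aux1 {Δ μ D x y z b : ℕ} (h : Δ * (x + y + z) ≤ Δ * b + 2 * μ * (y * z) + D) :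
    ¬ 4 * Δ * b + 2 * μ * (2 * y * (2 * z)) + 4 * D < 2 * Δ * (2 * x + 2 * y + 2 * z) := by
  have e1 : 4 * Δ * b = 4 * (Δ * b) := by ring
  have e2 : 2 * μ * (2 * y * (2 * z)) = 4 * (2 * μ * (y * z)) := by ring
  have e3 : 2 * Δ * (2 * x + 2 * y + 2 * z) = 4 * (Δ * (x + y + z)) := by ring
  omega

theorem numChk_aux2 {D a b c d e x y z u v : ℕ}
    (h : a * x + b * y + c * z + d * u + e * v ≤ D) :
    ¬ 2 * D < 2 * a * x + 2 * b * y + 2 * c * z + 2 * d * u + 2 * e * v := by
  have e1 : 2 * a * x + 2 * b * y + 2 * c * z + 2 * d * u + 2 * e * v =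
    2 * (a * x + b * y + c * z + d * u + e * v) := by ring
  omega

theorem numChk_c5_sound {μ t Δ n lo : ℕ} (hle : t * (n - 1) + 2 ≤ Δ)
    (hlo : μ * lo < t * (n - 1) + 2 + μ) (h : C5Num μ t Δ n) :
    numChk_c5 μ t Δ n lo = false := by
  obtain ⟨a, ha1, hsum, hineq, hlast⟩ := h
  obtain ⟨a0, ea0⟩ : ∃ x, x = a 0 := ⟨_, rfl⟩
  obtain ⟨a1, ea1⟩ : ∃ x, x = a 1 := ⟨_, rfl⟩
  obtain ⟨a2, ea2⟩ : ∃ x, x = a 2 := ⟨_, rfl⟩
  obtain ⟨a3, ea3⟩ : ∃ x, x = a 3 := ⟨_, rfl⟩
  obtain ⟨a4, ea4⟩ : ∃ x, x = a 4 := ⟨_, rfl⟩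
  have p0 := ha1 0
  have p1 := ha1 1
  have p2 := ha1 2
  have p3 := ha1 3
  have p4 := ha1 4
  rw [← ea0] at p0
  rw [← ea1] at p1
  rw [← ea2] at p2
  rw [← ea3] at p3
  rw [← ea4] at p4
  have hs : a0 + a1 + a2 + a3 + a4 = n := by
    rw [← hsum, ea0, ea1, ea2, ea3, ea4]
    exact (Fin.sum_univ_five a).symm
  have i0 : Δ * (a0 + a2 + a3) ≤ Δ * (a4 + a1) + 2 * μ * (a2 * a3) + Dn t Δ n := by
    have := hineq 0
    rw [ea0, ea1, ea2, ea3, ea4]
    exact this
  have i1 : Δ * (a1 + a3 + a4) ≤ Δ * (a0 + a2) + 2 * μ * (a3 * a4) + Dn t Δ n := by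
    have := hineq 1
    rw [ea0, ea1, ea2, ea3, ea4]
    exact this
  have i2 : Δ * (a2 + a4 + a0) ≤ Δ * (a1 + a3) + 2 * μ * (a4 * a0) + Dn t Δ n := by
    have := hineq 2
    rw [ea0, ea1, ea2, ea3, ea4]
    exact this
  have i3 : Δ * (a3 + a0 + a1) ≤ Δ * (a2 + a4) + 2 * μ * (a0 * a1) + Dn t Δ n := by
    have := hineq 3
    rw [ea0, ea1, ea2, ea3, ea4]
    exact this
  have i4 : Δ * (a4 + a1 + a2) ≤ Δ * (a3 + a0) + 2 * μ * (a1 * a2) + Dn t Δ n := by
    have := hineq 4
    rw [ea0, ea1, ea2, ea3, ea4]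
    exact this
  have il : a0 * (Δ - μ * (a4 + a1)) + a1 * (Δ - μ * (a0 + a2)) + a2 * (Δ - μ * (a1 + a3)) +
      a3 * (Δ - μ * (a2 + a4)) + a4 * (Δ - μ * (a3 + a0)) ≤ Dn t Δ n := by
    have h5 : ∑ i, a i * (Δ - μ * (a (i - 1) + a (i + 1))) =
      a 0 * (Δ - μ * (a (0 - 1) + a (0 + 1))) + a 1 * (Δ - μ * (a (1 - 1) + a (1 + 1))) +
      a 2 * (Δ - μ * (a (2 - 1) + a (2 + 1))) + a 3 * (Δ - μ * (a (3 - 1) + a (3 + 1))) +
      a 4 * (Δ - μ * (a (4 - 1) + a (4 + 1))) :=
      Fin.sum_univ_five (fun i : ZMod 5 => a i * (Δ - μ * (a (i - 1) + a (i + 1))))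
    rw [h5] at hlast
    rw [ea0, ea1, ea2, ea3, ea4]
    exact hlast
  clear hineq hlast hsum ha1 ea0 ea1 ea2 ea3 ea4
  unfold Dn at i0 i1 i2 i3 i4 il
  -- the lower bounds
  have key : ∀ x b : ℕ, 1 ≤ x → x * (Δ - μ * b) ≤ Δ - (t * (n - 1) + 2) → lo ≤ b := by
    intro x b hx hb
    by_contra hlt
    push Not at hlt
    have h1 : Δ - μ * b ≤ x * (Δ - μ * b) := Nat.le_mul_of_pos_left _ hx
    have h2 : μ * (b + 1) ≤ μ * lo := Nat.mul_le_mul_left _ hlt
    rw [Nat.mul_add, Nat.mul_one] at h2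
    omega
  have l0 := key a0 (a4 + a1) p0 (by omega)
  have l1 := key a1 (a0 + a2) p1 (by omega)
  have l2 := key a2 (a1 + a3) p2 (by omega)
  have l3 := key a3 (a2 + a4) p3 (by omega)
  have l4 := key a4 (a3 + a0) p4 (by omega)
  rw [Bool.eq_false_iff]
  intro hc
  unfold numChk_c5 at hc
  rw [Bool.or_eq_true] at hc
  rcases hc with hc | hc
  · rw [Nat.blt_eq] at hc
    omega
  · rw [List.all_eq_true] at hc
    have hc := hc (a4 + a1 - lo) (List.mem_range.2 (by omega))
    rw [List.all_eq_true] at hc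
    have hc := hc (a0 + a2 - lo) (List.mem_range.2 (by omega))
    rw [List.all_eq_true] at hc
    have hc := hc (a1 + a3 - lo) (List.mem_range.2 (by omega))
    rw [List.all_eq_true] at hc
    have hc := hc (a2 + a4 - lo) (List.mem_range.2 (by omega))
    have e4 : lo + (2 * n - 5 * lo - (a4 + a1 - lo) - (a0 + a2 - lo) - (a1 + a3 - lo) -
      (a2 + a4 - lo)) = a3 + a0 := by omega
    have e0 : lo + (a4 + a1 - lo) = a4 + a1 := by omega
    have e1 : lo + (a0 + a2 - lo) = a0 + a2 := by omega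
    have e2 : lo + (a1 + a3 - lo) = a1 + a3 := by omega
    have e3 : lo + (a2 + a4 - lo) = a2 + a4 := by omega
    rw [e4, e0, e1, e2, e3] at hc
    unfold numChk_b at hc
    have f0 : a4 + a1 + (a0 + a2) + (a3 + a0) - (a1 + a3 + (a2 + a4)) = 2 * a0 := by omega
    have f1 : a0 + a2 + (a1 + a3) + (a4 + a1) - (a2 + a4 + (a3 + a0)) = 2 * a1 := by omega
    have f2 : a1 + a3 + (a2 + a4) + (a0 + a2) - (a3 + a0 + (a4 + a1)) = 2 * a2 := by omega
    have f3 : a2 + a4 + (a3 + a0) + (a1 + a3) - (a4 + a1 + (a0 + a2)) = 2 * a3 := by omega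
    have f4 : a3 + a0 + (a4 + a1) + (a2 + a4) - (a0 + a2 + (a1 + a3)) = 2 * a4 := by omega
    simp only [f0, f1, f2, f3, f4, Bool.or_eq_true, Nat.blt_eq, Nat.beq_eq,
      Nat.mul_mod_right] at hc
    rcases hc with ((((((((((((((hc | hc) | hc) | hc) | hc) | hc) | hc) | hc) | hc) | hc) | hc) |
      hc) | hc) | hc) | hc) | hc
    · omega
    · omega
    · omega
    · omega
    · omega
    · omega
    · omega
    · omega
    · omega
    · omega
    · exact numChk_aux2 il hc
    · exact numChk_aux1 i0 hc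
    · exact numChk_aux1 i1 hc
    · exact numChk_aux1 i2 hc
    · exact numChk_aux1 i3 hc
    · exact numChk_aux1 i4 hc

/-- `Num μ t Δ n` is refuted -/
def numChk (μ t Δ n lo : ℕ) : Bool :=
  numChk_cfg μ t Δ n 5 2 1 ||
  (Nat.beq n 9 && Nat.beq μ 6 && Nat.beq t 2 && Nat.beq Δ 18) ||
  (numChk_c5 μ t Δ n lo &&
    ((numChk_cfg μ t Δ n 8 3 1 && numChk_cfg μ t Δ n 11 4 2) ||
    (Nat.beq n 19 && Nat.blt (6 * μ) (t * 18 + 2) &&
      Nat.blt (32 * μ + (Δ - (t * (n - 1) + 2))) (5 * Δ))))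

theorem numChk_sound {μ t Δ n lo : ℕ} (hμ : 0 < μ) (hlo : μ * lo < t * (n - 1) + 2 + μ)
    (h : Num μ t Δ n) : numChk μ t Δ n lo = false := by
  rw [Bool.eq_false_iff]
  intro hc
  unfold numChk at hc
  rw [Bool.or_eq_true, Bool.or_eq_true] at hc
  rcases hc with (hc | hc) | hc
  · rw [numChk_cfg_sound hμ h.count] at hc
    exact Bool.false_ne_true hc
  · simp only [Bool.and_eq_true, Nat.beq_eq] at hc
    exact h.nine ⟨hc.1.1.1, hc.1.1.2, hc.1.2, hc.2⟩
  · rw [Bool.and_eq_true, Bool.or_eq_true] at hc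
    obtain ⟨h5, hc⟩ := hc
    have hn5 : ¬ C5Num μ t Δ n := by
      intro h6
      rw [numChk_c5_sound h.le hlo h6] at h5
      exact Bool.false_ne_true h5
    rcases hc with hc | hc
    · rw [Bool.and_eq_true] at hc
      rcases h.str with h7 | h7 | h7
      · exact hn5 h7
      · rw [numChk_cfg_sound hμ h7] at hc
        exact Bool.false_ne_true hc.1
      · rw [numChk_cfg_sound hμ h7] at hc
        exact Bool.false_ne_true hc.2
    · simp only [Bool.and_eq_true, Nat.beq_eq, Nat.blt_eq] at hc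
      rcases h.nineteen hc.1.1 hc.1.2 with h7 | h7
      · exact hn5 h7
      · unfold Dn at h7
        omega

/-- the check for all `Δ < B` outside the set given by `att`, and all odd `n < N` -/
def numChk_all (μ t lowΔ B N : ℕ) (att : ℕ → Bool) : Bool :=
  (List.range B).all fun Δ => Nat.ble Δ lowΔ || att Δ ||
    (List.range N).all fun n => Nat.blt n 5 || Nat.beq (n % 2) 0 ||
      Nat.blt Δ (t * (n - 1) + 2) || numChk μ t Δ n ((t * (n - 1) + 1) / μ + 1)

theorem numChk_all_sound {μ t lowΔ B N : ℕ} {att : ℕ → Bool} (hμ : 0 < μ)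
    (hN : ∀ Δ n, Δ < B → t * (n - 1) + 2 ≤ Δ → n < N)
    (hall : numChk_all μ t lowΔ B N att = true) {Δ n : ℕ} (hΔ : lowΔ < Δ) (hB : Δ < B)
    (h : Num μ t Δ n) : att Δ = true := by
  unfold numChk_all at hall
  rw [List.all_eq_true] at hall
  have h1 := hall Δ (List.mem_range.2 hB)
  rw [Bool.or_eq_true, Bool.or_eq_true] at h1
  rcases h1 with (h1 | h1) | h1
  · rw [Nat.ble_eq] at h1
    omega
  · exact h1
  · exfalso
    rw [List.all_eq_true] at h1
    have h2 := h1 n (List.mem_range.2 (hN Δ n hB h.le))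
    rw [Bool.or_eq_true, Bool.or_eq_true, Bool.or_eq_true] at h2
    rcases h2 with ((h2 | h2) | h2) | h2
    · rw [Nat.blt_eq] at h2
      have := h.five
      omega
    · rw [Nat.beq_eq] at h2
      have := Nat.odd_iff.1 h.odd
      omega
    · rw [Nat.blt_eq] at h2
      have := h.le
      omega
    · rw [numChk_sound hμ ?_ h] at h2
      · exact Bool.false_ne_true h2
      · have := Nat.div_mul_le_self (t * (n - 1) + 1) μ
        rw [Nat.mul_add, Nat.mul_one, Nat.mul_comm μ]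
        omega

end Pool.Agent.Lib.MP_633d19_co
end

section

section

/-!
Part sizes and numbers of edges for the blow-ups of the pentagon which attain Steffen's bound.
-/

namespace Pool.Agent.Lib.MP_633d19_co

open Classical

/-- part sizes `a i` and numbers `e i` of edges between part `i` and part `i + 1` -/
def BlowNum (μ t Δ : ℕ) : Prop :=
  ∃ a e : Fin 5 → ℕ, (∀ i, 1 ≤ a i) ∧ (∀ i, e i ≤ μ * (a i * a (i + 1))) ∧
    (∀ i, e i + e (i - 1) ≤ a i * Δ) ∧ (Δ + t) * ((∑ i, a i) / 2) < ∑ i, e i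

/-- the five inequalities written out -/
theorem Att4Ex_mk {μ t Δ : ℕ} (a0 a1 a2 a3 a4 e0 e1 e2 e3 e4 : ℕ)
    (ha0 : 1 ≤ a0) (ha1 : 1 ≤ a1) (ha2 : 1 ≤ a2) (ha3 : 1 ≤ a3) (ha4 : 1 ≤ a4)
    (h0 : e0 ≤ μ * (a0 * a1)) (h1 : e1 ≤ μ * (a1 * a2)) (h2 : e2 ≤ μ * (a2 * a3))
    (h3 : e3 ≤ μ * (a3 * a4)) (h4 : e4 ≤ μ * (a4 * a0))
    (d0 : e0 + e4 ≤ a0 * Δ) (d1 : e1 + e0 ≤ a1 * Δ) (d2 : e2 + e1 ≤ a2 * Δ)
    (d3 : e3 + e2 ≤ a3 * Δ) (d4 : e4 + e3 ≤ a4 * Δ)
    (hs : (Δ + t) * ((a0 + a1 + a2 + a3 + a4) / 2) < e0 + e1 + e2 + e3 + e4) :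
    BlowNum μ t Δ := by
  refine ⟨![a0, a1, a2, a3, a4], ![e0, e1, e2, e3, e4], ?_, ?_, ?_, ?_⟩
  · intro i
    fin_cases i
    · exact ha0
    · exact ha1
    · exact ha2
    · exact ha3
    · exact ha4
  · intro i
    fin_cases i
    · exact h0
    · exact h1
    · exact h2
    · exact h3
    · exact h4
  · intro i
    fin_cases i
    · exact d0
    · exact d1
    · exact d2
    · exact d3
    · exact d4
  · rw [Fin.sum_univ_five, Fin.sum_univ_five]
    exact hs

/-- all the parts have `m` vertices -/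
theorem blowNum_odd {μ t Δ m : ℕ} (hm : Odd m) (h1 : Δ ≤ 2 * (μ * m))
    (h2 : t * (5 * m - 1) + 2 + Δ % 2 ≤ Δ) : BlowNum μ t Δ := by
  obtain ⟨p, rfl⟩ := hm
  obtain ⟨D, r, hr, hΔ⟩ : ∃ D r, r < 2 ∧ Δ = 2 * D + r :=
    ⟨Δ / 2, Δ % 2, Nat.mod_lt _ (by norm_num), by omega⟩
  have hr2 : Δ % 2 = r := by omega
  rw [hr2] at h2
  have hD : D + r ≤ μ * (2 * p + 1) := by omega
  have e5 : 5 * (2 * p + 1) - 1 = 10 * p + 4 := by omega
  rw [e5] at h2
  have hmul : (2 * p + 1) * (D + r) ≤ μ * ((2 * p + 1) * (2 * p + 1)) := by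
    have := Nat.mul_le_mul_left (2 * p + 1) hD
    calc (2 * p + 1) * (D + r) ≤ (2 * p + 1) * (μ * (2 * p + 1)) := this
      _ = μ * ((2 * p + 1) * (2 * p + 1)) := by ring
  have hx : (2 * p + 1) * D + p * r + r ≤ (2 * p + 1) * (D + r) := by nlinarith
  have hxx : 2 * ((2 * p + 1) * D + p * r) + r = (2 * p + 1) * Δ := by rw [hΔ]; ring
  have hsum : (2 * p + 1 + (2 * p + 1) + (2 * p + 1) + (2 * p + 1) + (2 * p + 1)) / 2
      = 5 * p + 2 := by omega
  refine Att4Ex_mk (2 * p + 1) (2 * p + 1) (2 * p + 1) (2 * p + 1) (2 * p + 1)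
    ((2 * p + 1) * D + p * r) ((2 * p + 1) * D + p * r + r) ((2 * p + 1) * D + p * r)
    ((2 * p + 1) * D + p * r + r) ((2 * p + 1) * D + p * r)
    (by omega) (by omega) (by omega) (by omega) (by omega) (by omega) (by omega) (by omega)
    (by omega) (by omega) (by omega) (by omega) (by omega) (by omega) (by omega) ?_
  rw [hsum]
  subst hΔ
  nlinarith

/-- parts of sizes `m - 1`, `m`, `m + 1`, `m + 1`, `m` -/
theorem blowNum_even {μ t Δ m : ℕ} (hm : Even m) (hm2 : 2 ≤ m) (h1 : Δ ≤ 2 * (μ * m))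
    (h2 : t * (5 * m) + 2 + Δ % 2 ≤ Δ) : BlowNum μ t Δ := by
  obtain ⟨q, rfl⟩ : ∃ q, m = 2 * q + 2 := by
    obtain ⟨p, hp⟩ := hm
    exact ⟨p - 1, by omega⟩
  obtain ⟨D, r, hr, hΔ⟩ : ∃ D r, r < 2 ∧ Δ = 2 * D + r :=
    ⟨Δ / 2, Δ % 2, Nat.mod_lt _ (by norm_num), by omega⟩
  have hr2 : Δ % 2 = r := by omega
  rw [hr2] at h2
  have hD : D + r ≤ μ * (2 * q + 2) := by omega
  have hA : (2 * q + 1) * (D + r) ≤ μ * ((2 * q + 1) * (2 * q + 2)) := by
    calc (2 * q + 1) * (D + r) ≤ (2 * q + 1) * (μ * (2 * q + 2)) := Nat.mul_le_mul_left _ hD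
      _ = μ * ((2 * q + 1) * (2 * q + 2)) := by ring
  have hB : (2 * q + 3) * (D + r) ≤ μ * ((2 * q + 3) * (2 * q + 2)) := by
    calc (2 * q + 3) * (D + r) ≤ (2 * q + 3) * (μ * (2 * q + 2)) := Nat.mul_le_mul_left _ hD
      _ = μ * ((2 * q + 3) * (2 * q + 2)) := by ring
  have hC : μ * ((2 * q + 3) * (2 * q + 2)) ≤ μ * ((2 * q + 3) * (2 * q + 3)) :=
    Nat.mul_le_mul_left _ (Nat.mul_le_mul_left _ (by omega))
  have hA' : μ * ((2 * q + 2) * (2 * q + 1)) = μ * ((2 * q + 1) * (2 * q + 2)) := by ring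
  have hB' : μ * ((2 * q + 2) * (2 * q + 3)) = μ * ((2 * q + 3) * (2 * q + 2)) := by ring
  have hx : (2 * q + 1) * D + q * r ≤ (2 * q + 1) * (D + r) := by nlinarith
  have hy : (2 * q + 3) * D + (q + 1) * r + r ≤ (2 * q + 3) * (D + r) := by nlinarith
  have hxx : 2 * ((2 * q + 1) * D + q * r) + r = (2 * q + 1) * Δ := by rw [hΔ]; ring
  have hyy : 2 * ((2 * q + 3) * D + (q + 1) * r) + r = (2 * q + 3) * Δ := by rw [hΔ]; ring
  have hxy : ((2 * q + 1) * D + q * r) + ((2 * q + 3) * D + (q + 1) * r) + r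
      = (2 * q + 2) * Δ := by rw [hΔ]; ring
  have hsum : (2 * q + 1 + (2 * q + 2) + (2 * q + 3) + (2 * q + 3) + (2 * q + 2)) / 2
      = 5 * q + 5 := by omega
  refine Att4Ex_mk (2 * q + 1) (2 * q + 2) (2 * q + 3) (2 * q + 3) (2 * q + 2)
    ((2 * q + 1) * D + q * r) ((2 * q + 3) * D + (q + 1) * r + r)
    ((2 * q + 3) * D + (q + 1) * r)
    ((2 * q + 3) * D + (q + 1) * r + r) ((2 * q + 1) * D + q * r)
    (by omega) (by omega) (by omega) (by omega) (by omega) (by omega) (by omega) (by omega)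
    (by omega) (by omega) (by omega) (by omega) (by omega) (by omega) (by omega) ?_
  rw [hsum]
  subst hΔ
  nlinarith

theorem Att4Ex_three {Δ : ℕ} (h : Δ = 12 ∨ (16 ≤ Δ ∧ Δ ≤ 18) ∨ (22 ≤ Δ ∧ Δ ≤ 24) ∨ 26 ≤ Δ) :
    BlowNum 3 1 Δ := by
  rcases h with h | h | h | h
  · exact blowNum_even (m := 2) (by decide) (by omega) (by omega) (by omega)
  · exact blowNum_odd (m := 3) (by decide) (by omega) (by omega)
  · exact blowNum_even (m := 4) (by decide) (by omega) (by omega) (by omega)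
  · rcases Nat.lt_or_ge Δ 31 with h1 | h1
    · exact blowNum_odd (m := 5) (by decide) (by omega) (by omega)
    rcases Nat.lt_or_ge Δ 32 with h2 | h2
    · obtain rfl : Δ = 31 := by omega
      exact Att4Ex_mk 6 5 6 6 6 78 77 108 78 108 (by norm_num) (by norm_num) (by norm_num)
        (by norm_num) (by norm_num) (by norm_num) (by norm_num) (by norm_num) (by norm_num)
        (by norm_num) (by norm_num) (by norm_num) (by norm_num) (by norm_num) (by norm_num)
        (by norm_num)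
    rcases Nat.lt_or_ge Δ 37 with h3 | h3
    · exact blowNum_even (m := 6) (by decide) (by omega) (by omega) (by omega)
    rcases Nat.lt_or_ge Δ 43 with h4 | h4
    · exact blowNum_odd (m := 7) (by decide) (by omega) (by omega)
    rcases Nat.lt_or_ge Δ 49 with h5 | h5
    · exact blowNum_even (m := 8) (by decide) (by omega) (by omega) (by omega)
    rcases Nat.lt_or_ge Δ 55 with h6 | h6
    · exact blowNum_odd (m := 9) (by decide) (by omega) (by omega)
    rcases Nat.lt_or_ge Δ 61 with h7 | h7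
    · exact blowNum_even (m := 10) (by decide) (by omega) (by omega) (by omega)
    rcases Nat.lt_or_ge Δ 67 with h8 | h8
    · exact blowNum_odd (m := 11) (by decide) (by omega) (by omega)
    exact blowNum_odd (m := 2 * ((Δ - 6 - Δ % 2) / 10) + 1) ⟨_, rfl⟩ (by omega) (by omega)

theorem Att4Ex_four {Δ : ℕ} (h : 9 ≤ Δ) : BlowNum 4 1 Δ := by
  rcases Nat.lt_or_ge Δ 12 with h1 | h1
  · have : Δ = 9 ∨ Δ = 10 ∨ Δ = 11 := by omega
    rcases this with rfl | rfl | rfl
    · exact Att4Ex_mk 1 1 2 2 1 4 5 13 5 4 (by norm_num) (by norm_num) (by norm_num)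
        (by norm_num) (by norm_num) (by norm_num) (by norm_num) (by norm_num) (by norm_num)
        (by norm_num) (by norm_num) (by norm_num) (by norm_num) (by norm_num) (by norm_num)
        (by norm_num)
    · exact Att4Ex_mk 1 1 2 2 1 4 6 14 6 4 (by norm_num) (by norm_num) (by norm_num)
        (by norm_num) (by norm_num) (by norm_num) (by norm_num) (by norm_num) (by norm_num)
        (by norm_num) (by norm_num) (by norm_num) (by norm_num) (by norm_num) (by norm_num)
        (by norm_num)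
    · exact Att4Ex_mk 1 1 2 2 1 4 7 15 7 4 (by norm_num) (by norm_num) (by norm_num)
        (by norm_num) (by norm_num) (by norm_num) (by norm_num) (by norm_num) (by norm_num)
        (by norm_num) (by norm_num) (by norm_num) (by norm_num) (by norm_num) (by norm_num)
        (by norm_num)
  rcases Nat.lt_or_ge Δ 17 with h2 | h2
  · exact blowNum_even (m := 2) (by decide) (by omega) (by omega) (by omega)
  rcases Nat.lt_or_ge Δ 25 with h3 | h3
  · exact blowNum_odd (m := 3) (by decide) (by omega) (by omega)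
  rcases Nat.lt_or_ge Δ 33 with h4 | h4
  · exact blowNum_even (m := 4) (by decide) (by omega) (by omega) (by omega)
  exact blowNum_odd (m := 2 * ((Δ - 6 - Δ % 2) / 10) + 1) ⟨_, rfl⟩ (by omega) (by omega)

theorem Att4Ex_six {Δ : ℕ} (h : (22 ≤ Δ ∧ Δ ≤ 24) ∨ (30 ≤ Δ ∧ Δ ≤ 38) ∨ 42 ≤ Δ) :
    BlowNum 6 2 Δ := by
  rcases h with h | h | h
  · exact blowNum_even (m := 2) (by decide) (by omega) (by omega) (by omega)
  · rcases Nat.lt_or_ge Δ 37 with h1 | h1
    · exact blowNum_odd (m := 3) (by decide) (by omega) (by omega)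
    have : Δ = 37 ∨ Δ = 38 := by omega
    rcases this with rfl | rfl
    · exact Att4Ex_mk 3 3 4 4 3 54 57 91 57 54 (by norm_num) (by norm_num) (by norm_num)
        (by norm_num) (by norm_num) (by norm_num) (by norm_num) (by norm_num) (by norm_num)
        (by norm_num) (by norm_num) (by norm_num) (by norm_num) (by norm_num) (by norm_num)
        (by norm_num)
    · exact Att4Ex_mk 4 3 4 4 4 57 57 95 57 95 (by norm_num) (by norm_num) (by norm_num)
        (by norm_num) (by norm_num) (by norm_num) (by norm_num) (by norm_num) (by norm_num)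
        (by norm_num) (by norm_num) (by norm_num) (by norm_num) (by norm_num) (by norm_num)
        (by norm_num)
  · rcases Nat.lt_or_ge Δ 49 with h1 | h1
    · exact blowNum_even (m := 4) (by decide) (by omega) (by omega) (by omega)
    rcases Nat.lt_or_ge Δ 50 with h2 | h2
    · obtain rfl : Δ = 49 := by omega
      exact Att4Ex_mk 3 4 6 6 4 72 124 170 124 72 (by norm_num) (by norm_num) (by norm_num)
        (by norm_num) (by norm_num) (by norm_num) (by norm_num) (by norm_num) (by norm_num)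
        (by norm_num) (by norm_num) (by norm_num) (by norm_num) (by norm_num) (by norm_num)
        (by norm_num)
    rcases Nat.lt_or_ge Δ 61 with h3 | h3
    · exact blowNum_odd (m := 5) (by decide) (by omega) (by omega)
    rcases Nat.lt_or_ge Δ 62 with h4 | h4
    · obtain rfl : Δ = 61 := by omega
      exact Att4Ex_mk 5 5 6 6 5 150 155 211 155 150 (by norm_num) (by norm_num) (by norm_num)
        (by norm_num) (by norm_num) (by norm_num) (by norm_num) (by norm_num) (by norm_num)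
        (by norm_num) (by norm_num) (by norm_num) (by norm_num) (by norm_num) (by norm_num)
        (by norm_num)
    rcases Nat.lt_or_ge Δ 73 with h5 | h5
    · exact blowNum_even (m := 6) (by decide) (by omega) (by omega) (by omega)
    rcases Nat.lt_or_ge Δ 85 with h6 | h6
    · exact blowNum_odd (m := 7) (by decide) (by omega) (by omega)
    rcases Nat.lt_or_ge Δ 97 with h7 | h7
    · exact blowNum_even (m := 8) (by decide) (by omega) (by omega) (by omega)
    rcases Nat.lt_or_ge Δ 109 with h8 | h8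
    · exact blowNum_odd (m := 9) (by decide) (by omega) (by omega)
    rcases Nat.lt_or_ge Δ 121 with h9 | h9
    · exact blowNum_even (m := 10) (by decide) (by omega) (by omega) (by omega)
    exact blowNum_odd (m := 2 * ((Δ - 10 - Δ % 2) / 20) + 1) ⟨_, rfl⟩ (by omega) (by omega)

theorem Att4Ex_eight {Δ : ℕ} (h : Δ = 32 ∨ (44 ≤ Δ ∧ Δ ≤ 48) ∨ (62 ≤ Δ ∧ Δ ≤ 64) ∨
    (74 ≤ Δ ∧ Δ ≤ 80) ∨
    (92 ≤ Δ ∧ Δ ≤ 96) ∨ (104 ≤ Δ ∧ Δ ≤ 112) ∨ (122 ≤ Δ ∧ Δ ≤ 128) ∨ (134 ≤ Δ ∧ Δ ≤ 144) ∨
    (152 ≤ Δ ∧ Δ ≤ 160) ∨ (164 ≤ Δ ∧ Δ ≤ 177) ∨ (182 ≤ Δ ∧ Δ ≤ 192) ∨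
    (194 ≤ Δ ∧ Δ ≤ 209) ∨ 212 ≤ Δ) : BlowNum 8 3 Δ := by
  rcases h with h | h | h | h | h | h | h | h | h | h | h | h | h
  · exact blowNum_even (m := 2) (by decide) (by omega) (by omega) (by omega)
  · exact blowNum_odd (m := 3) (by decide) (by omega) (by omega)
  · exact blowNum_even (m := 4) (by decide) (by omega) (by omega) (by omega)
  · exact blowNum_odd (m := 5) (by decide) (by omega) (by omega)
  · exact blowNum_even (m := 6) (by decide) (by omega) (by omega) (by omega)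
  · exact blowNum_odd (m := 7) (by decide) (by omega) (by omega)
  · exact blowNum_even (m := 8) (by decide) (by omega) (by omega) (by omega)
  · exact blowNum_odd (m := 9) (by decide) (by omega) (by omega)
  · exact blowNum_even (m := 10) (by decide) (by omega) (by omega) (by omega)
  · rcases Nat.lt_or_ge Δ 177 with h1 | h1
    · exact blowNum_odd (m := 11) (by decide) (by omega) (by omega)
    obtain rfl : Δ = 177 := by omega
    exact Att4Ex_mk 12 11 12 12 12 974 973 1151 973 1150 (by norm_num) (by norm_num)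
        (by norm_num) (by norm_num) (by norm_num) (by norm_num) (by norm_num) (by norm_num)
        (by norm_num) (by norm_num) (by norm_num) (by norm_num) (by norm_num) (by norm_num)
        (by norm_num) (by norm_num)
  · exact blowNum_even (m := 12) (by decide) (by omega) (by omega) (by omega)
  · rcases Nat.lt_or_ge Δ 209 with h1 | h1
    · exact blowNum_odd (m := 13) (by decide) (by omega) (by omega)
    obtain rfl : Δ = 209 := by omega
    exact Att4Ex_mk 14 13 14 14 14 1359 1358 1568 1358 1567 (by norm_num) (by norm_num)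
        (by norm_num) (by norm_num) (by norm_num) (by norm_num) (by norm_num) (by norm_num)
        (by norm_num) (by norm_num) (by norm_num) (by norm_num) (by norm_num) (by norm_num)
        (by norm_num) (by norm_num)
  · rcases Nat.lt_or_ge Δ 225 with h1 | h1
    · exact blowNum_even (m := 14) (by decide) (by omega) (by omega) (by omega)
    rcases Nat.lt_or_ge Δ 241 with h2 | h2
    · exact blowNum_odd (m := 15) (by decide) (by omega) (by omega)
    rcases Nat.lt_or_ge Δ 242 with h3 | h3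
    · obtain rfl : Δ = 241 := by omega
      exact Att4Ex_mk 16 15 16 16 16 1808 1807 2048 1808 2048 (by norm_num) (by norm_num)
        (by norm_num) (by norm_num) (by norm_num) (by norm_num) (by norm_num) (by norm_num)
        (by norm_num) (by norm_num) (by norm_num) (by norm_num) (by norm_num) (by norm_num)
        (by norm_num) (by norm_num)
    rcases Nat.even_or_odd ((Δ + 15) / 16) with he | ho
    · obtain ⟨k, hk⟩ := id he
      exact blowNum_even (m := (Δ + 15) / 16) he (by omega) (by omega) (by omega)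
    · obtain ⟨k, hk⟩ := id ho
      exact blowNum_odd (m := (Δ + 15) / 16) ho (by omega) (by omega)

theorem blowNum_of_att {μ t Δ : ℕ} (hμ : μ = 2 * t + 1 ∨ μ = 2 * t + 2) (hΔ : 2 * μ < Δ)
    (h : Att4 μ Δ) : BlowNum μ t Δ := by
  rcases h with ⟨rfl, h⟩ | rfl | ⟨rfl, m, hm, rfl⟩ | ⟨rfl, h⟩ | ⟨rfl, h⟩ | ⟨rfl, m, hm, h3, h4⟩ |
    ⟨rfl, rfl⟩
  · obtain rfl : t = 1 := by omega
    exact Att4Ex_three h
  · obtain rfl : t = 1 := by omega
    exact Att4Ex_four (by omega)
  · obtain rfl : t = 2 := by omega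
    exact blowNum_odd (m := m) hm (by omega) (by omega)
  · obtain rfl : t = 2 := by omega
    exact Att4Ex_six h
  · obtain rfl : t = 3 := by omega
    exact Att4Ex_eight h
  · obtain rfl : t = 4 := by omega
    exact blowNum_odd (m := m) hm (by omega) (by omega)
  · obtain rfl : t = 5 := by omega
    exact blowNum_odd (m := 3) (by decide) (by omega) (by omega)

end Pool.Agent.Lib.MP_633d19_co
end

section

/-!
The numerical consequences for the values of `μ` different from `3`, `4`, `6` and `8`.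
-/

namespace Pool.Agent.Lib.MP_633d19_co

open Classical

theorem att_of_num_five {Δ n : ℕ} (hΔ : 2 * 5 < Δ) (h : Num 5 2 Δ n) : Att4 5 Δ := by
  obtain ⟨c1, c2⟩ := h.count
  have hle := h.le
  have h5 := h.five
  have hodd := h.odd
  unfold Dn at c1 c2
  have e1 : Δ = 2 * n := by omega
  have e2 := c2 ((Δ - 1) / 5 + 1) ((Δ - 1) % 5 + 1) (by omega) (by omega)
  have hD : Δ - (2 * (n - 1) + 2) = 0 := by omega
  rw [hD, mul_zero, add_zero] at e2
  have e3 : ((Δ - 1) / 5 + 1) * 5 ≤ 2 * n := Nat.le_of_mul_le_mul_left e2 (by omega)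
  have e4 : ((Δ - 1) / 5 + 1) * 5 = Δ := by omega
  obtain ⟨k, hk⟩ := hodd
  right; right; left
  refine ⟨rfl, n / 5, ?_, by omega⟩
  rw [Nat.odd_iff]
  omega

theorem att_of_num_ten {Δ n : ℕ} (hΔ : 2 * 10 < Δ) (h : Num 10 4 Δ n) : Att4 10 Δ := by
  obtain ⟨c1, c2⟩ := h.count
  have hle := h.le
  have h5 := h.five
  have hodd := h.odd
  have hten := h.ten
  unfold Dn at c1 c2
  have e1 : Δ ≤ 4 * n := by omega
  obtain ⟨k, hk⟩ := hodd
  obtain ⟨m, hm⟩ : ∃ m, m = n / 5 := ⟨_, rfl⟩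
  have hr : n = 5 * m ∨ n = 5 * m + 1 ∨ n = 5 * m + 2 ∨ n = 5 * m + 3 ∨ n = 5 * m + 4 := by omega
  rcases hr with hr | hr | hr | hr | hr
  · right; right; right; right; right; left
    refine ⟨rfl, m, ?_, by omega, by omega⟩
    rw [Nat.odd_iff]
    omega
  · exfalso
    have e2 := c2 (2 * m + 1) (Δ - 20 * m) (by omega) (by omega)
    obtain ⟨D, hD⟩ : ∃ D, Δ = 20 * m + 2 + D := ⟨Δ - (20 * m + 2), by omega⟩
    subst hD
    subst hr
    have e3 : 20 * m + 2 + D - 20 * m = D + 2 := by omega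
    have e4 : 20 * m + 2 + D - (4 * (5 * m + 1 - 1) + 2) = D := by omega
    rw [e3, e4] at e2
    nlinarith
  · exfalso
    have e2 := c2 (2 * m + 1) (Δ - 20 * m) (by omega) (by omega)
    obtain ⟨D, hD⟩ : ∃ D, Δ = 20 * m + 6 + D := ⟨Δ - (20 * m + 6), by omega⟩
    subst hD
    subst hr
    have e3 : 20 * m + 6 + D - 20 * m = D + 6 := by omega
    have e4 : 20 * m + 6 + D - (4 * (5 * m + 2 - 1) + 2) = D := by omega
    rw [e3, e4] at e2
    nlinarith
  · exfalso
    obtain ⟨D, hD⟩ : ∃ D, Δ = 20 * m + 10 + D := ⟨Δ - (20 * m + 10), by omega⟩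
    subst hD
    subst hr
    have e4 : 20 * m + 10 + D - (4 * (5 * m + 3 - 1) + 2) = D := by omega
    rw [e4] at c2
    rcases Nat.eq_zero_or_pos D with h0 | h0
    · subst h0
      exact hten m ⟨rfl, rfl, rfl, rfl⟩
    · have e2 := c2 (2 * m + 2) D (by omega) (by omega)
      nlinarith
  · exfalso
    obtain ⟨D, hD⟩ : ∃ D, Δ = 20 * m + 14 + D := ⟨Δ - (20 * m + 14), by omega⟩
    subst hD
    subst hr
    have e4 : 20 * m + 14 + D - (4 * (5 * m + 4 - 1) + 2) = D := by omega
    rw [e4] at c2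
    have e2 := c2 (2 * m + 2) (4 + D) (by omega) (by omega)
    nlinarith

theorem num_odd_false {t Δ n : ℕ} (ht : 3 ≤ t) (hΔ : 2 * (2 * t + 1) < Δ)
    (h : Num (2 * t + 1) t Δ n) : False := by
  obtain ⟨c1, -⟩ := h.count
  have hle := h.le
  have h5 := h.five
  obtain ⟨k, hk⟩ := h.odd
  unfold Dn at c1
  obtain ⟨D, hD⟩ : ∃ D, Δ = t * (n - 1) + 2 + D := ⟨Δ - (t * (n - 1) + 2), by omega⟩
  obtain ⟨j, hj⟩ : ∃ j, k = j + 2 := ⟨k - 2, by omega⟩
  subst hj
  subst hk
  have e1 : 2 * (j + 2) + 1 - 1 = 2 * j + 4 := by omega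
  rw [e1] at hD c1
  have e2 : Δ - (t * (2 * j + 4) + 2) = D := by omega
  rw [e2] at c1
  subst hD
  obtain ⟨s, rfl⟩ : ∃ s, t = s + 3 := ⟨t - 3, by omega⟩
  rcases Nat.eq_zero_or_pos j with h0 | h0
  · subst h0
    nlinarith
  · nlinarith [Nat.mul_le_mul_left s h0]

theorem att_of_num_even {t Δ n : ℕ} (ht : 5 ≤ t) (hΔ : 2 * (2 * t + 2) < Δ)
    (h : Num (2 * t + 2) t Δ n) : Att4 (2 * t + 2) Δ := by
  obtain ⟨c1, c2⟩ := h.count
  have hle := h.le
  have h5 := h.five
  obtain ⟨k, hk⟩ := h.odd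
  unfold Dn at c1 c2
  obtain ⟨D, hD⟩ : ∃ D, Δ = t * (n - 1) + 2 + D := ⟨Δ - (t * (n - 1) + 2), by omega⟩
  obtain ⟨j, hj⟩ : ∃ j, k = j + 2 := ⟨k - 2, by omega⟩
  subst hj
  subst hk
  have e1 : 2 * (j + 2) + 1 - 1 = 2 * j + 4 := by omega
  rw [e1] at hD c1 c2
  have e2 : Δ - (t * (2 * j + 4) + 2) = D := by omega
  rw [e2] at c1 c2
  subst hD
  obtain ⟨s, rfl⟩ : ∃ s, t = s + 5 := ⟨t - 5, by omega⟩
  have k1 : 2 * D + (s + 1) * j ≤ 5 := by nlinarith
  have k2 : 1 ≤ j := by
    by_contra hj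
    have hj0 : j = 0 := by omega
    subst hj0
    omega
  have k3 : s ≤ 4 := by nlinarith
  have k4 : j ≤ 5 := by nlinarith
  have k5 : D ≤ 2 := by nlinarith
  have c3 := c2 (((s + 5) * (2 * j + 4) + 2 + D + (2 * (s + 5) + 2) - 1) / (2 * (s + 5) + 2))
    ((s + 5) * (2 * j + 4) + 2 + D + (2 * (s + 5) + 2) - (2 * (s + 5) + 2) *
      (((s + 5) * (2 * j + 4) + 2 + D + (2 * (s + 5) + 2) - 1) / (2 * (s + 5) + 2)))
  clear c1 c2 e2 hle h h5 ht hΔ
  interval_cases s <;> interval_cases j <;> interval_cases D <;>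
    first
    | (exfalso; omega)
    | (exfalso; norm_num at c3; done)
    | (right; right; right; right; right; right; exact ⟨rfl, rfl⟩)

end Pool.Agent.Lib.MP_633d19_co
end

section

/-!
The numerical consequences for `μ = 6`.
-/

namespace Pool.Agent.Lib.MP_633d19_co

open Classical

/-- the attaining values `Δ < 42` for `μ = 6` -/
def num6_att (Δ : ℕ) : Bool :=
  (Nat.ble 22 Δ && Nat.ble Δ 24) || (Nat.ble 30 Δ && Nat.ble Δ 38)

set_option maxRecDepth 100000 in
theorem num6_all : numChk_all 6 2 12 42 21 num6_att = true := by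
  decide +kernel

theorem att_of_num_6 {Δ n : ℕ} (hΔ : 2 * 6 < Δ) (h : Num 6 2 Δ n) : Att4 6 Δ := by
  have hA : (6 = 6 ∧ ((22 ≤ Δ ∧ Δ ≤ 24) ∨ (30 ≤ Δ ∧ Δ ≤ 38) ∨ 42 ≤ Δ)) → Att4 6 Δ :=
    fun h => Or.inr (Or.inr (Or.inr (Or.inl h)))
  apply hA
  refine ⟨rfl, ?_⟩
  by_cases hB : Δ < 42
  · have h1 := numChk_all_sound (by norm_num) (fun Δ n h1 h2 => by omega) num6_all hΔ hB h
    unfold num6_att at h1
    simp only [Bool.or_eq_true, Bool.and_eq_true, Nat.ble_eq] at h1
    omega
  · omega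

end Pool.Agent.Lib.MP_633d19_co
end

section

/-!
Arithmetic consequences of the existence of dense weights: general part.
-/

namespace Pool.Agent.Lib.MP_633d19_co

open Classical

variable {V : Type*} [Fintype V] {w : V → V → ℕ} {μ t Δ : ℕ}

theorem DW.deg_ge (h : DW V w μ t Δ) (v : V) :
    t * (Fintype.card V - 1) + 2 ≤ ∑ u, w v u := by
  have h1 : ∑ x, ∑ u, w x u = ∑ u, w v u + ∑ x ∈ Finset.univ.erase v, ∑ u, w x u :=
    (Finset.add_sum_erase _ _ (Finset.mem_univ v)).symm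
  have h2 : ∑ x ∈ Finset.univ.erase v, ∑ u, w x u ≤ (Fintype.card V - 1) * Δ := by
    calc _ ≤ (Finset.univ.erase v).card • Δ :=
          Finset.sum_le_card_nsmul _ _ _ fun x _ => h.deg_le x
      _ = _ := by rw [Finset.card_erase_of_mem (Finset.mem_univ v), Finset.card_univ, smul_eq_mul]
  have h3 := h.dense
  have h4 : (Δ + t) * (Fintype.card V - 1) = (Fintype.card V - 1) * Δ +
      t * (Fintype.card V - 1) := by ring
  omega

theorem wcount_nonempty (h : DW V w μ t Δ) : Nonempty V := by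
  rw [← Fintype.card_pos_iff]
  exact h.odd.pos

theorem DW.card_le (h : DW V w μ t Δ) : t * (Fintype.card V - 1) + 2 ≤ Δ := by
  obtain ⟨v⟩ := wcount_nonempty h
  exact (h.deg_ge v).trans (h.deg_le v)

theorem wcount_hD (h : DW V w μ t Δ) :
    Fintype.card V * Δ ≤ (∑ v, ∑ u, w v u) + Dn t Δ (Fintype.card V) := by
  have h1 := h.card_le
  have h2 := h.dense
  have h3 := h.odd.pos
  unfold Dn
  generalize (∑ v, ∑ u, w v u) = T at *
  generalize Fintype.card V = n at *
  obtain ⟨k, rfl⟩ : ∃ k, n = k + 1 := ⟨n - 1, by omega⟩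
  rw [Nat.add_sub_cancel] at *
  have h4 : (Δ + t) * k = Δ * k + t * k := by ring
  have h5 : (k + 1) * Δ = Δ * k + Δ := by ring
  omega

/-- a maximal triangle-free graph containing the support; it is not bipartite -/
theorem DW.exists_graph (h : DW V w μ t Δ) :
    ∃ G : SimpleGraph V, (∀ u v, w u v ≠ 0 → G.Adj u v) ∧
      (∀ a b c, G.Adj a b → G.Adj b c → ¬ G.Adj a c) ∧
      (∀ a b, a ≠ b → ¬ G.Adj a b → ∃ x, G.Adj a x ∧ G.Adj x b) ∧
      (¬ ∃ P : V → Prop, ∀ a b, G.Adj a b → (P a ↔ ¬ P b)) ∧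
      ∃ s : ZMod 5 → V, ∀ i, G.Adj (s i) (s (i + 1)) := by
  let G0 : SimpleGraph V :=
    { Adj := fun a b => w a b ≠ 0
      symm := ⟨fun a b hab => by rw [h.symm b a]; exact hab⟩
      loopless := ⟨fun a ha => ha (h.loop a)⟩ }
  obtain ⟨G, hle, htri, hmax⟩ := exists_maximal_tri G0 (fun a b c hab hbc hac =>
    hac (h.tri a b c hab hbc))
  have hG : ∀ u v, w u v ≠ 0 → G.Adj u v := fun u v huv => hle huv
  have hnb : ¬ ∃ P : V → Prop, ∀ a b, G.Adj a b → (P a ↔ ¬ P b) := by
    rintro ⟨P, hP⟩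
    have e1 : ∑ a ∈ Finset.univ.filter P, ∑ b, w a b =
        ∑ a ∈ Finset.univ.filter (fun a => ¬ P a), ∑ b, w a b := by
      have e2 : ∑ a ∈ Finset.univ.filter P, ∑ b, w a b =
          ∑ a ∈ Finset.univ.filter P, ∑ b ∈ Finset.univ.filter (fun a => ¬ P a), w a b := by
        refine Finset.sum_congr rfl fun a ha => ?_
        symm
        apply Finset.sum_subset (Finset.subset_univ _)
        intro b _ hb
        by_contra hne
        apply hb
        rw [Finset.mem_filter] at ha ⊢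
        exact ⟨Finset.mem_univ _, (hP a b (hG a b hne)).1 ha.2⟩
      have e3 : ∑ b ∈ Finset.univ.filter (fun a => ¬ P a), ∑ a, w b a =
          ∑ b ∈ Finset.univ.filter (fun a => ¬ P a), ∑ a ∈ Finset.univ.filter P, w b a := by
        refine Finset.sum_congr rfl fun b hb => ?_
        symm
        apply Finset.sum_subset (Finset.subset_univ _)
        intro a _ ha
        by_contra hne
        apply ha
        rw [Finset.mem_filter] at hb ⊢
        refine ⟨Finset.mem_univ _, ?_⟩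
        by_contra hPa
        exact hb.2 ((hP b a (hG b a hne)).2 hPa)
      rw [e2, e3, Finset.sum_comm]
      exact Finset.sum_congr rfl fun a _ => Finset.sum_congr rfl fun b _ => h.symm _ _
    have e4 : ∑ a, ∑ b, w a b = ∑ a ∈ Finset.univ.filter P, ∑ b, w a b +
        ∑ a ∈ Finset.univ.filter (fun a => ¬ P a), ∑ b, w a b :=
      (Finset.sum_filter_add_sum_filter_not _ _ _).symm
    have e5 : (Finset.univ.filter P).card + (Finset.univ.filter (fun a => ¬ P a)).card =
        Fintype.card V := by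
      rw [Finset.card_filter_add_card_filter_not]
      rfl
    have e6 : ∑ a ∈ Finset.univ.filter P, ∑ b, w a b ≤ (Finset.univ.filter P).card * Δ :=
      Finset.sum_le_card_nsmul _ _ _ fun x _ => h.deg_le x
    have e7 : ∑ a ∈ Finset.univ.filter (fun a => ¬ P a), ∑ b, w a b ≤
        (Finset.univ.filter (fun a => ¬ P a)).card * Δ :=
      Finset.sum_le_card_nsmul _ _ _ fun x _ => h.deg_le x
    have e8 := h.dense
    obtain ⟨k, hk⟩ := h.odd
    rw [hk] at e5 e8
    have e9 : 2 * k + 1 - 1 = 2 * k := by omega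
    rw [e9] at e8
    have e10 : (Δ + t) * (2 * k) = 2 * (k * Δ) + t * (2 * k) := by ring
    rcases Nat.lt_or_ge k (Finset.univ.filter P).card with hlt | hge
    · have h5 : (Finset.univ.filter (fun a => ¬ P a)).card ≤ k := by omega
      have h6 : (Finset.univ.filter (fun a => ¬ P a)).card * Δ ≤ k * Δ :=
        Nat.mul_le_mul_right _ h5
      omega
    · have h6 : (Finset.univ.filter P).card * Δ ≤ k * Δ :=
        Nat.mul_le_mul_right _ hge
      omega
  refine ⟨G, hG, htri, hmax, hnb, ?_⟩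
  obtain ⟨v⟩ := wcount_nonempty h
  have hv := h.deg_ge v
  have hex : ∃ u, w v u ≠ 0 := by
    by_contra hcon
    push Not at hcon
    rw [Finset.sum_eq_zero (fun u _ => hcon u)] at hv
    omega
  obtain ⟨u, hu⟩ := hex
  obtain ⟨s, hs, -, -⟩ := edge_in_pentagon G htri hmax hnb (hG v u hu)
  exact ⟨s, hs⟩

omit [Fintype V] in
theorem wcount_inj (G : SimpleGraph V) (htri : ∀ a b c, G.Adj a b → G.Adj b c → ¬ G.Adj a c)
    (s : ZMod 5 → V) (hs : ∀ i, G.Adj (s i) (s (i + 1))) : Function.Injective s := by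
  intro i j hij
  -- `s (i + 1)` is adjacent to `s i = s j`
  have h1 : G.Adj (s (i + 1)) (s i) := (hs i).symm
  have h2 : G.Adj (s (i + 1)) (s (i + 1 + 1)) := hs (i + 1)
  have h3 : G.Adj (s (i - 1)) (s i) := by
    have := hs (i - 1)
    rwa [sub_add_cancel] at this
  have h4 : G.Adj (s (i - 1)) (s (i - 1 - 1)) := by
    have := hs (i - 1 - 1)
    rw [sub_add_cancel] at this
    exact this.symm
  rw [hij] at h1 h3
  have a1 := c5_adj G htri s hs h1 h2
  have a2 := c5_adj G htri s hs h3 h4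
  clear h1 h2 h3 h4 hij
  revert i j
  decide

theorem DW.count (h : DW V w μ t Δ) :
    5 ≤ Fintype.card V ∧ CfgNum μ t Δ (Fintype.card V) 5 2 1 := by
  obtain ⟨G, hG, htri, hmax, hnb, s, hs⟩ := h.exists_graph
  have hinj := wcount_inj G htri s hs
  constructor
  · have h1 := Fintype.card_le_of_injective s hinj
    rwa [ZMod.card] at h1
  · have h2 := config_ineq w h.symm h.le G hG h.deg_le (wcount_hD h) (m := 5)
      (fun j : Fin 5 => s j) hinj (fun _ => 1) (W := 1) (α := 2) (fun _ => le_rfl) (by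
        intro z
        have hb : ∀ b : Fin 5 → Bool, (∀ i, ¬ (b i = true ∧ b (i + 1) = true)) →
            ∑ j, (if b j = true then 1 else 0) ≤ 2 := by
          decide +kernel
        have := hb (fun j => decide (G.Adj z (s j))) (by
          intro i hi
          rw [decide_eq_true_eq, decide_eq_true_eq] at hi
          exact htri _ _ _ hi.1 (hs i) hi.2)
        simpa using this)
    simpa [CfgNum] using h2

/-- from a homomorphism to the pentagon (all vertices attached to the pentagon `s`) to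
`C5Num` -/
theorem DW.c5num (h : DW V w μ t Δ) (G : SimpleGraph V) (hG : ∀ u v, w u v ≠ 0 → G.Adj u v)
    (htri : ∀ a b c, G.Adj a b → G.Adj b c → ¬ G.Adj a c)
    (s : ZMod 5 → V) (hs : ∀ i, G.Adj (s i) (s (i + 1)))
    (hatt : ∀ v, ∃ i, G.Adj v (s (i - 1)) ∧ G.Adj v (s (i + 1))) :
    C5Num μ t Δ (Fintype.card V) := by
  obtain ⟨A, hA, hsurj⟩ := exists_hom_of_attached G htri s hs hatt
  refine ⟨fun i => (Finset.univ.filter (fun v => A v = i)).card, fun i => ?_, ?_, ?_⟩
  · obtain ⟨v, hv⟩ := hsurj i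
    exact Finset.card_pos.2 ⟨v, Finset.mem_filter.2 ⟨Finset.mem_univ _, hv⟩⟩
  · have := Finset.card_eq_sum_card_fiberwise (f := A) (s := (Finset.univ : Finset V))
      (t := Finset.univ) (fun _ _ => Finset.mem_coe.2 (Finset.mem_univ _))
    rw [← this, Finset.card_univ]
  · exact c5_hom_ineq w h.symm h.le A (fun u v huv => hA u v (hG u v huv)) h.deg_le
      (wcount_hD h) _ (fun _ => rfl)

theorem DW.str (h : DW V w μ t Δ) :
    C5Num μ t Δ (Fintype.card V) ∨ CfgNum μ t Δ (Fintype.card V) 8 3 1 ∨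
      CfgNum μ t Δ (Fintype.card V) 11 4 2 := by
  obtain ⟨G, hG, htri, hmax, hnb, s, hs⟩ := h.exists_graph
  rcases c5_structure G htri hmax s hs with h1 | ⟨f, hf, hα⟩ | ⟨f, ω, hf, hω, hsum, hα⟩
  · exact Or.inl (h.c5num G hG htri s hs h1)
  · right
    left
    have h2 := config_ineq w h.symm h.le G hG h.deg_le (wcount_hD h) f hf (fun _ => 1) (W := 1)
      (α := 3) (fun _ => le_rfl) hα
    simpa [CfgNum] using h2
  · right
    right
    have h2 := config_ineq w h.symm h.le G hG h.deg_le (wcount_hD h) f hf ω (W := 2)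
      (α := 4) hω hα
    rw [hsum] at h2
    exact h2

end Pool.Agent.Lib.MP_633d19_co
end

section

/-!
Multigraphs on blow-ups of the pentagon with prescribed row degrees.
-/

namespace Pool.Agent.Lib.MP_633d19_co

open Classical

namespace BlowUp

theorem deg_le_of (G : MGraph) (v : G.V) (n : ℕ)
    (h : ∀ T : Finset G.E, (∀ e ∈ T, v ∈ G.ends e) → T.card ≤ n) : G.deg v ≤ n :=
  h _ (fun _ he => (Finset.mem_filter.1 he).2)

theorem mult_le_of (G : MGraph) (u v : G.V) (n : ℕ)
    (h : ∀ T : Finset G.E, (∀ e ∈ T, G.ends e = s(u, v)) → T.card ≤ n) : G.mult u v ≤ n :=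
  h _ (fun _ he => (Finset.mem_filter.1 he).2)

theorem card_le_add {E : Type*} (T : Finset E) (p : E → Prop) (m n : ℕ)
    (h1 : ∀ S : Finset E, (∀ e ∈ S, e ∈ T ∧ p e) → S.card ≤ m)
    (h2 : ∀ S : Finset E, (∀ e ∈ S, e ∈ T ∧ ¬ p e) → S.card ≤ n) : T.card ≤ m + n := by
  rw [← Finset.card_filter_add_card_filter_not (p := p)]
  exact Nat.add_le_add (h1 _ (fun e he => Finset.mem_filter.1 he))
    (h2 _ (fun e he => Finset.mem_filter.1 he))

variable (a : Fin 5 → ℕ) (r : (i : Fin 5) → Fin (a i) → ℕ)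

/-- the position of an edge of part `i` in the linear order -/
def pos (i : Fin 5) (p : Σ u : Fin (a i), Fin (r i u)) : ℕ :=
  (finSigmaFinEquiv (m := a i) (n := r i) p : Fin (∑ u, r i u)).1

theorem pos_lt (i : Fin 5) (p : Σ u : Fin (a i), Fin (r i u)) : pos a r i p < ∑ u, r i u :=
  (finSigmaFinEquiv (m := a i) (n := r i) p).2

theorem pos_inj (i : Fin 5) : Function.Injective (pos a r i) := by
  intro p q h
  exact finSigmaFinEquiv.injective (Fin.ext h)

theorem pos_apply (i : Fin 5) (u : Fin (a i)) (x : Fin (r i u)) :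
    pos a r i ⟨u, x⟩ = (∑ k : Fin u.1, r i (Fin.castLE u.2.le k)) + x.1 := by
  unfold pos
  rw [finSigmaFinEquiv_apply]

variable {μ : ℕ} (hr1 : ∀ i u, r i u ≤ μ * a (i + 1))

include hr1 in
theorem a_pos (i : Fin 5) (p : Σ u : Fin (a i), Fin (r i u)) : 0 < a (i + 1) := by
  rcases Nat.eq_zero_or_pos (a (i + 1)) with h | h
  · exfalso
    have h1 := hr1 i p.1
    rw [h, Nat.mul_zero] at h1
    have h2 := p.2.2
    omega
  · exact h

/-- the head of an edge -/
def head (e : Σ i : Fin 5, Σ u : Fin (a i), Fin (r i u)) : Σ i : Fin 5, Fin (a i) :=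
  ⟨e.1 + 1, ⟨pos a r e.1 e.2 % a (e.1 + 1), Nat.mod_lt _ (a_pos a r hr1 e.1 e.2)⟩⟩

/-- the tail of an edge -/
def tail (e : Σ i : Fin 5, Σ u : Fin (a i), Fin (r i u)) : Σ i : Fin 5, Fin (a i) :=
  ⟨e.1, e.2.1⟩

theorem card_tail (v : Σ i : Fin 5, Fin (a i))
    (T : Finset (Σ i : Fin 5, Σ u : Fin (a i), Fin (r i u)))
    (hT : ∀ e ∈ T, tail a r e = v) : T.card ≤ r v.1 v.2 := by
  obtain ⟨i, u⟩ := v
  have h : T ⊆ (Finset.univ : Finset (Fin (r i u))).image (fun x => ⟨i, ⟨u, x⟩⟩) := by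
    rintro ⟨j, w, x⟩ he
    have he' : (⟨j, w⟩ : Σ i : Fin 5, Fin (a i)) = ⟨i, u⟩ := hT _ he
    cases he'
    exact Finset.mem_image.2 ⟨x, Finset.mem_univ _, rfl⟩
  calc _ ≤ _ := Finset.card_le_card h
    _ ≤ (Finset.univ : Finset (Fin (r i u))).card := Finset.card_image_le
    _ = r i u := by simp

theorem card_range_mod (n S w : ℕ) (hw : w < n) :
    ((Finset.range S).filter (fun x => x % n = w)).card ≤ (S + (n - 1 - w)) / n := by
  have hn : 0 < n := by omega
  have h : ((Finset.range S).filter (fun x => x % n = w)).card ≤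
      (Finset.range ((S + (n - 1 - w)) / n)).card := by
    apply Finset.card_le_card_of_injOn (fun x => x / n)
    · intro x hx
      rw [Finset.mem_coe, Finset.mem_filter, Finset.mem_range] at hx
      rw [Finset.mem_coe, Finset.mem_range]
      obtain ⟨h1, h2⟩ := hx
      change x / n < _
      rw [Nat.lt_div_iff_mul_lt hn]
      have h3 := Nat.div_add_mod x n
      have h4 : x / n * n = n * (x / n) := Nat.mul_comm _ _
      omega
    · intro x hx y hy hxy
      rw [Finset.mem_coe, Finset.mem_filter] at hx hy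
      have h3 := Nat.div_add_mod x n
      have h4 := Nat.div_add_mod y n
      simp only at hxy
      rw [← h3, ← h4, hxy, hx.2, hy.2]
  rwa [Finset.card_range] at h

theorem card_head (j : Fin 5) (w : Fin (a (j + 1)))
    (T : Finset (Σ i : Fin 5, Σ u : Fin (a i), Fin (r i u)))
    (hT : ∀ e ∈ T, head a r hr1 e = ⟨j + 1, w⟩) : T.card ≤
      ((∑ v, r j v) + (a (j + 1) - 1 - w.1)) / a (j + 1) := by
  refine le_trans ?_ (card_range_mod (a (j + 1)) (∑ v, r j v) w.1 w.2)
  have key : ∀ e : (Σ i : Fin 5, Σ u : Fin (a i), Fin (r i u)), head a r hr1 e = ⟨j + 1, w⟩ →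
      ∃ p : (Σ u : Fin (a j), Fin (r j u)), e = ⟨j, p⟩ ∧ pos a r j p % a (j + 1) = w.1 := by
    rintro ⟨i, p⟩ h
    have h1 : i + 1 = j + 1 := congrArg Sigma.fst h
    have h2 : i = j := by simpa using h1
    subst h2
    refine ⟨p, rfl, ?_⟩
    have h3 := eq_of_heq (Sigma.mk.inj h).2
    exact congrArg Fin.val h3
  apply Finset.card_le_card_of_injOn (fun e => pos a r e.1 e.2)
  · intro e he
    obtain ⟨p, rfl, hp⟩ := key e (hT e he)
    rw [Finset.mem_coe, Finset.mem_filter, Finset.mem_range]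
    exact ⟨pos_lt a r j p, hp⟩
  · intro e he e' he' hee
    obtain ⟨p, rfl, hp⟩ := key e (hT e he)
    obtain ⟨p', rfl, hp'⟩ := key e' (hT e' he')
    have : p = p' := pos_inj a r j hee
    rw [this]

theorem card_tail_head (v w : Σ i : Fin 5, Fin (a i))
    (T : Finset (Σ i : Fin 5, Σ u : Fin (a i), Fin (r i u)))
    (hT : ∀ e ∈ T, tail a r e = v ∧ head a r hr1 e = w) : T.card ≤ μ := by
  obtain ⟨i, u⟩ := v
  have key : ∀ e : (Σ i : Fin 5, Σ u : Fin (a i), Fin (r i u)), tail a r e = ⟨i, u⟩ →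
      ∃ x : Fin (r i u), e = ⟨i, ⟨u, x⟩⟩ := by
    rintro ⟨j, w, x⟩ h
    have he' : (⟨j, w⟩ : Σ i : Fin 5, Fin (a i)) = ⟨i, u⟩ := h
    cases he'
    exact ⟨x, rfl⟩
  have h : T.card ≤ (Finset.range μ).card := by
    apply Finset.card_le_card_of_injOn (fun e => e.2.2.1 / a (e.1 + 1))
    · intro e he
      obtain ⟨x, rfl⟩ := key e (hT e he).1
      rw [Finset.mem_coe, Finset.mem_range]
      have h1 := a_pos a r hr1 i ⟨u, x⟩
      change x.1 / a (i + 1) < μ
      rw [Nat.div_lt_iff_lt_mul h1]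
      exact lt_of_lt_of_le x.2 (hr1 i u)
    · intro e he e' he' hee
      have h1 := (hT e he).2.trans (hT e' he').2.symm
      obtain ⟨x, rfl⟩ := key e (hT e he).1
      obtain ⟨x', rfl⟩ := key e' (hT e' he').1
      have hee : x.1 / a (i + 1) = x'.1 / a (i + 1) := hee
      have h2 := congrArg Fin.val (eq_of_heq (Sigma.mk.inj h1).2)
      have h2 : pos a r i ⟨u, x⟩ % a (i + 1) = pos a r i ⟨u, x'⟩ % a (i + 1) := h2
      rw [pos_apply, pos_apply] at h2
      have h3 : x.1 ≡ x'.1 [MOD a (i + 1)] := Nat.ModEq.add_left_cancel' _ h2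
      have h4 := Nat.div_add_mod x.1 (a (i + 1))
      have h5 := Nat.div_add_mod x'.1 (a (i + 1))
      have h6 : x.1 % a (i + 1) = x'.1 % a (i + 1) := h3
      have h7 : x = x' := by
        apply Fin.ext
        rw [← h4, ← h5, hee, h6]
      rw [h7]
  rwa [Finset.card_range] at h

/-- the blow-up -/
def graph : MGraph where
  V := Σ i : Fin 5, Fin (a i)
  E := Σ i : Fin 5, Σ u : Fin (a i), Fin (r i u)
  ends := fun e => s(tail a r e, head a r hr1 e)
  loopless := by
    intro e h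
    rw [Sym2.mk_isDiag_iff] at h
    have h1 : e.1 = e.1 + 1 := congrArg Sigma.fst h
    revert h1
    generalize e.1 = i
    revert i
    decide

end BlowUp

/-- The parts have sizes `a 0, …, a 4`; the vertex `u` of part `i` sends `r i u` edges to part
`i + 1`, which are distributed cyclically over the vertices of part `i + 1`. -/
theorem exists_c5_blowup (a : Fin 5 → ℕ) (r : (i : Fin 5) → Fin (a i) → ℕ) (Δ μ : ℕ)
    (hr1 : ∀ i u, r i u ≤ μ * a (i + 1))
    (hr2 : ∀ i (u : Fin (a i)), r i u + ((∑ v, r (i - 1) v) + (a i - 1 - u.1)) / a i ≤ Δ) :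
    ∃ G : MGraph, G.maxDeg ≤ Δ ∧ G.maxMult ≤ μ ∧ ¬ G.HasCycle 3 ∧
      Fintype.card G.V = ∑ i, a i ∧ Fintype.card G.E = ∑ i, ∑ u, r i u := by
  refine ⟨BlowUp.graph a r hr1, ?_, ?_, ?_, ?_, ?_⟩
  · apply MGraph.maxDeg_le
    intro v
    obtain ⟨i, u⟩ : Σ i : Fin 5, Fin (a i) := v
    obtain ⟨j, rfl⟩ : ∃ j, i = j + 1 := ⟨i - 1, by simp⟩
    have h1 := hr2 (j + 1) u
    have h2 : j + 1 - 1 = j := by simp
    have h3 : (∑ v, r (j + 1 - 1) v) = ∑ v, r j v := by rw [h2]
    rw [h3] at h1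
    refine le_trans ?_ h1
    apply BlowUp.deg_le_of
    intro T hT
    apply BlowUp.card_le_add T (fun e : (Σ i : Fin 5, Σ u : Fin (a i), Fin (r i u)) =>
        BlowUp.tail a r e = ⟨j + 1, u⟩)
    · intro S hS
      exact BlowUp.card_tail a r ⟨j + 1, u⟩ S (fun e he => (hS e he).2)
    · intro S hS
      apply BlowUp.card_head a r hr1 j u S
      intro e he
      have he1 := (hS e he).2
      have he' : (⟨j + 1, u⟩ : Σ i : Fin 5, Fin (a i)) ∈
        s(BlowUp.tail a r e, BlowUp.head a r hr1 e) := hT e (hS e he).1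
      rcases Sym2.mem_iff.1 he' with h | h
      · exact absurd h.symm he1
      · exact h.symm
  · apply MGraph.maxMult_le
    intro u v
    apply BlowUp.mult_le_of
    intro T hT
    have key : ∀ e : (Σ i : Fin 5, Σ u : Fin (a i), Fin (r i u)),
        (BlowUp.graph a r hr1).ends e = s(u, v) →
        (BlowUp.tail a r e = u ∧ BlowUp.head a r hr1 e = v) ∨
        (BlowUp.tail a r e = v ∧ BlowUp.head a r hr1 e = u) := by
      intro e he
      exact Sym2.eq_iff.1 he
    by_cases hc : ∃ e : (Σ i : Fin 5, Σ u : Fin (a i), Fin (r i u)),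
        BlowUp.tail a r e = v ∧ BlowUp.head a r hr1 e = u
    · obtain ⟨e0, h1, h2⟩ := hc
      apply BlowUp.card_tail_head a r hr1 v u T
      intro e he
      rcases key e (hT e he) with h | h
      · exfalso
        have h3 : e0.1 = v.1 := congrArg Sigma.fst h1
        have h4 : e0.1 + 1 = u.1 := congrArg Sigma.fst h2
        have h5 : e.1 = u.1 := congrArg Sigma.fst h.1
        have h6 : e.1 + 1 = v.1 := congrArg Sigma.fst h.2
        rw [h5, ← h4, ← h3] at h6
        revert h6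
        generalize e0.1 = i
        revert i
        decide
      · exact h
    · apply BlowUp.card_tail_head a r hr1 u v T
      intro e he
      rcases key e (hT e he) with h | h
      · exact h
      · exact absurd ⟨e, h⟩ hc
  · rintro ⟨y, _, hy⟩
    have step : ∀ p q : Σ i : Fin 5, Fin (a i), (∃ e, (BlowUp.graph a r hr1).ends e = s(p, q)) →
        (q.1 = p.1 + 1 ∨ p.1 = q.1 + 1) := by
      rintro p q ⟨e, he⟩
      rcases Sym2.eq_iff.1 he with ⟨h1, h2⟩ | ⟨h1, h2⟩
      · left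
        rw [← h1, ← h2]
        rfl
      · right
        rw [← h1, ← h2]
        rfl
    have h0 := step _ _ (hy 0 (by norm_num))
    have h1 := step _ _ (hy 1 (by norm_num))
    have h2 := step _ _ (hy 2 (by norm_num))
    norm_num at h0 h1 h2
    have fin : ∀ x y z : Fin 5, (y = x + 1 ∨ x = y + 1) → (z = y + 1 ∨ y = z + 1) →
        (x = z + 1 ∨ z = x + 1) → False := by decide
    exact fin _ _ _ h0 h1 h2
  · have h1 : Fintype.card (Σ i : Fin 5, Fin (a i)) = ∑ i, a i := by
      rw [Fintype.card_sigma]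
      simp
    rw [← h1]
    exact Fintype.card_congr (Equiv.refl _)
  · have h1 : Fintype.card (Σ i : Fin 5, Σ u : Fin (a i), Fin (r i u)) = ∑ i, ∑ u, r i u := by
      rw [Fintype.card_sigma]
      simp
    rw [← h1]
    exact Fintype.card_congr (Equiv.refl _)

end Pool.Agent.Lib.MP_633d19_co
end

section

/-!
Multigraphs attaining Vizing's bound.
-/

namespace Pool.Agent.Lib.MP_633d19_co

open Classical

namespace MGraph

/-- The multigraph on the vertices `V` with `w z` parallel edges for every pair `z`. -/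
noncomputable def ofPairs {V : Type} [Fintype V] (w : Sym2 V → ℕ) : MGraph where
  V := V
  E := Σ z : {z : Sym2 V // ¬ z.IsDiag}, Fin (w z.1)
  ends := fun e => e.1.1
  loopless := fun e => e.1.2

theorem mult_ofPairs {V : Type} [Fintype V] (w : Sym2 V → ℕ) (u v : V) :
    (ofPairs w).mult u v ≤ w s(u, v) := by
  unfold mult
  by_cases h : s(u, v).IsDiag
  · have : ((Finset.univ : Finset (ofPairs w).E).filter
        (fun e => (ofPairs w).ends e = s(u, v))) = ∅ := by
      rw [Finset.filter_eq_empty_iff]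
      intro e _ he
      apply (ofPairs w).loopless e
      rw [he]
      exact h
    calc _ = ((Finset.univ : Finset (ofPairs w).E).filter
        (fun e => (ofPairs w).ends e = s(u, v))).card := by congr!
      _ ≤ _ := by rw [this]; simp
  · have hsub : ((Finset.univ : Finset (ofPairs w).E).filter
        (fun e => (ofPairs w).ends e = s(u, v))) ⊆
        Finset.univ.image (fun i : Fin (w s(u, v)) => (⟨⟨s(u, v), h⟩, i⟩ : (ofPairs w).E)) := by
      rintro ⟨⟨z, hz⟩, i⟩ he
      have he' : z = s(u, v) := (Finset.mem_filter.1 he).2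
      subst he'
      exact Finset.mem_image.2 ⟨i, Finset.mem_univ _, rfl⟩
    calc _ = ((Finset.univ : Finset (ofPairs w).E).filter
        (fun e => (ofPairs w).ends e = s(u, v))).card := by congr!
      _ ≤ _ := Finset.card_le_card hsub
      _ ≤ (Finset.univ : Finset (Fin (w s(u, v)))).card := Finset.card_image_le
      _ = w s(u, v) := by simp

/-- The edges of `ofPairs w`. -/
abbrev PairEdge {V : Type} (w : Sym2 V → ℕ) : Type :=
  Σ z : {z : Sym2 V // ¬ z.IsDiag}, Fin (w z.1)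

theorem card_pairEdge {V : Type} [Fintype V] (w : Sym2 V → ℕ) (v : V) :
    ((Finset.univ : Finset (PairEdge w)).filter (fun e => v ∈ e.1.1)).card =
      ∑ u ∈ Finset.univ.erase v, w s(v, u) := by
  have hd : ∀ u ∈ Finset.univ.erase v, ¬ s(v, u).IsDiag := by
    intro u hu h
    rw [Sym2.mk_isDiag_iff] at h
    exact (Finset.mem_erase.1 hu).1 h.symm
  have e1 : ∑ u ∈ Finset.univ.erase v, w s(v, u) =
      ((Finset.univ.erase v).attach.sigma
        (fun u => (Finset.univ : Finset (Fin (w s(v, u.1)))))).card := by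
    rw [Finset.card_sigma]
    simp only [Finset.card_univ, Fintype.card_fin]
    exact (Finset.sum_attach _ (fun u => w s(v, u))).symm
  rw [e1]
  symm
  apply Finset.card_bij (fun p _ => (⟨⟨s(v, p.1.1), hd p.1.1 p.1.2⟩, p.2⟩ : PairEdge w))
  · intro p _
    rw [Finset.mem_filter]
    exact ⟨Finset.mem_univ _, Sym2.mem_mk_left _ _⟩
  · rintro ⟨⟨a, ha⟩, i⟩ _ ⟨⟨b, hb⟩, j⟩ _ hab
    have h1 : s(v, a) = s(v, b) := congrArg (fun e : PairEdge w => e.1.1) hab
    have h1 : a = b := Sym2.congr_right.1 h1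
    subst h1
    have h2 : i = j := by simpa using hab
    rw [h2]
  · rintro ⟨⟨z, hz⟩, i⟩ h
    have h : v ∈ z := (Finset.mem_filter.1 h).2
    obtain ⟨u, rfl⟩ := Sym2.mem_iff_exists.1 h
    have hu : u ∈ Finset.univ.erase v := by
      rw [Sym2.mk_isDiag_iff] at hz
      exact Finset.mem_erase.2 ⟨fun h => hz h.symm, Finset.mem_univ _⟩
    exact ⟨⟨⟨u, hu⟩, i⟩, by simp, rfl⟩

theorem deg_ofPairs {V : Type} [Fintype V] (w : Sym2 V → ℕ) (v : V) :
    (ofPairs w).deg v + w s(v, v) = ∑ u, w s(v, u) := by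
  rw [← Finset.sum_erase_add _ _ (Finset.mem_univ v), ← card_pairEdge]
  congr 1

theorem sum_deg (G : MGraph) : ∑ v, G.deg v = 2 * Fintype.card G.E := by
  unfold deg
  simp only [Finset.card_filter]
  rw [Finset.sum_comm]
  have : ∀ e : G.E, (∑ v : G.V, if v ∈ G.ends e then 1 else 0) = 2 := by
    intro e
    rw [← Finset.card_filter, ← Sym2.card_toFinset_of_not_isDiag _ (G.loopless e)]
    congr 1
    ext v
    simp
  rw [Finset.sum_congr rfl (fun e _ => this e)]
  simp [mul_comm]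

end MGraph

/-- On `2 p + 1` vertices: a multigraph of maximum degree at most `Δ` and multiplicity at most
`μ` with more than `(Δ + μ - 1) p` edges. -/
theorem exists_vizing (p μ Δ : ℕ) (hp : 1 ≤ p) (hμ : 1 ≤ μ) (h1 : 2 * p * (μ - 1) + 2 ≤ Δ)
    (h2 : Δ ≤ 2 * p * μ) :
    ∃ G : MGraph, G.maxDeg ≤ Δ ∧ G.maxMult ≤ μ ∧ Fintype.card G.V = 2 * p + 1 ∧
      (Δ + μ - 1) * p < Fintype.card G.E := by
  obtain ⟨m, rfl⟩ : ∃ m, μ = m + 1 := ⟨μ - 1, by omega⟩
  obtain ⟨k, rfl⟩ : ∃ k, Δ = 2 * p * m + k := ⟨Δ - 2 * p * m, by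
    simp only [Nat.add_sub_cancel] at h1; omega⟩
  simp only [Nat.add_sub_cancel] at h1
  have hk2 : 2 ≤ k := by omega
  have hkp : k ≤ 2 * p := by
    have : 2 * p * (m + 1) = 2 * p * m + 2 * p := by ring
    omega
  have : NeZero (2 * p + 1) := ⟨by omega⟩
  have : Fact (1 < 2 * p + 1) := ⟨by omega⟩
  set n := 2 * p + 1 with hn
  -- facts about `ZMod n`
  have hnn : ((2 : ZMod n) * (p : ZMod n) + 1) = 0 := by
    have : ((2 * p + 1 : ℕ) : ZMod n) = 0 := by rw [← hn]; exact ZMod.natCast_self n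
    push_cast at this
    exact this
  have h2p : (2 : ZMod n) * (-(p : ZMod n)) = 1 := by linear_combination -hnn
  have hhalf : ∀ a b : ZMod n, a + a = b + b → a = b := by
    intro a b hab
    have : (2 : ZMod n) * a = 2 * b := by linear_combination hab
    calc a = (2 * (-(p : ZMod n))) * a := by rw [h2p, one_mul]
      _ = (-(p : ZMod n)) * (2 * a) := by ring
      _ = (-(p : ZMod n)) * (2 * b) := by rw [this]
      _ = (2 * (-(p : ZMod n))) * b := by ring
      _ = b := by rw [h2p, one_mul]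
  have h10 : (1 : ZMod n) ≠ 0 := one_ne_zero
  have hm1 : (1 : ZMod n) ≠ -1 := by
    intro h
    have : (1 : ZMod n) + 1 = 0 + 0 := by linear_combination h
    exact h10 (by
      have h3 := hhalf (1 : ZMod n) 0 (by linear_combination this)
      exact h3)
  obtain ⟨S, hS1, hS2, hSc⟩ := Finset.exists_subsuperset_card_eq
    (s := ({1, -1} : Finset (ZMod n))) (t := Finset.univ.erase 0) (n := k)
    (by
      intro x hx
      rw [Finset.mem_insert, Finset.mem_singleton] at hx
      refine Finset.mem_erase.2 ⟨?_, Finset.mem_univ _⟩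
      rcases hx with rfl | rfl
      · exact h10
      · exact neg_ne_zero.2 h10)
    (by rw [Finset.card_pair hm1]; exact hk2)
    (by rw [Finset.card_erase_of_mem (Finset.mem_univ _), Finset.card_univ, ZMod.card]; omega)
  have h1S : (1 : ZMod n) ∈ S := hS1 (by simp)
  have hm1S : (-1 : ZMod n) ∈ S := hS1 (by simp)
  have h0S : (0 : ZMod n) ∉ S := fun h => by simpa using hS2 h
  set P : ZMod n := (p : ZMod n) with hP
  have hPne : P ≠ P + 1 := fun h => h10 (by linear_combination -h)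
  obtain ⟨f, hf1, hf0⟩ : ∃ f : Sym2 (ZMod n) → ℕ, (∀ z, z = s(P, P + 1) → f z = 1) ∧
      (∀ z, z ≠ s(P, P + 1) → f z = 0) :=
    ⟨fun z => if z = s(P, P + 1) then 1 else 0, fun z hz => if_pos hz, fun z hz => if_neg hz⟩
  let w : Sym2 (ZMod n) → ℕ := fun z => m +
    (if Sym2.lift ⟨fun a b => a + b, fun a b => add_comm a b⟩ z ∈ S then 1 else 0) + f z
  have hw : ∀ a b, w s(a, b) = m + (if a + b ∈ S then 1 else 0) + f s(a, b) := fun a b => rfl
  -- the degree of a vertex
  have hdeg : ∀ v : ZMod n, (MGraph.ofPairs w).deg v + (if v + v ∈ S then 1 else 0) =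
      2 * p * m + k + (if v = P ∨ v = P + 1 then 1 else 0) := by
    intro v
    have e0 := MGraph.deg_ofPairs w v
    simp only [hw, Finset.sum_add_distrib] at e0
    have e1 : ∑ _u : ZMod n, m = 2 * p * m + m := by
      rw [Finset.sum_const, Finset.card_univ, ZMod.card, hn, smul_eq_mul]
      ring
    have e4 : f s(v, v) = 0 := by
      apply hf0
      intro h
      rw [Sym2.eq_iff] at h
      rcases h with h | h
      · exact hPne (h.1.symm.trans h.2)
      · exact hPne (h.2.symm.trans h.1)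
    have e2 : (∑ u : ZMod n, if v + u ∈ S then 1 else 0) = k := by
      rw [← Finset.card_filter, ← hSc]
      apply Finset.card_bij (fun u _ => v + u)
      · intro u hu
        exact (Finset.mem_filter.1 hu).2
      · intro a _ b _ h
        exact add_left_cancel h
      · intro b hb
        exact ⟨b - v, by simp [hb], by ring⟩
    have e3 : (∑ u : ZMod n, f s(v, u)) =
        (if v = P ∨ v = P + 1 then 1 else 0) := by
      by_cases h1 : v = P
      · rw [if_pos (Or.inl h1), Finset.sum_eq_single_of_mem (P + 1)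
          (Finset.mem_univ _)]
        · exact hf1 _ (by rw [h1])
        · intro b _ hb
          apply hf0
          intro h
          rw [h1] at h
          exact hb (Sym2.congr_right.1 h)
      · by_cases h2 : v = P + 1
        · rw [if_pos (Or.inr h2), Finset.sum_eq_single_of_mem P
            (Finset.mem_univ _)]
          · exact hf1 _ (by rw [h2, Sym2.eq_swap])
          · intro b _ hb
            apply hf0
            intro h
            rw [h2, Sym2.eq_swap] at h
            exact hb (Sym2.congr_left.1 h)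
        · rw [if_neg (by rintro (h | h); exacts [h1 h, h2 h])]
          apply Finset.sum_eq_zero
          intro u _
          apply hf0
          intro h
          rw [Sym2.eq_iff] at h
          rcases h with h | h
          · exact h1 h.1
          · exact h2 h.1
    rw [e1, e2, e3, e4] at e0
    omega
  refine ⟨MGraph.ofPairs w, ?_, ?_, ?_, ?_⟩
  · apply MGraph.maxDeg_le
    intro (v : ZMod n)
    have h := hdeg v
    by_cases hv : v = P ∨ v = P + 1
    · have hvS : v + v ∈ S := by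
        rcases hv with rfl | rfl
        · have : P + P = -1 := by linear_combination hnn
          rw [this]
          exact hm1S
        · have : P + 1 + (P + 1) = 1 := by linear_combination hnn
          rw [this]
          exact h1S
      rw [if_pos hv, if_pos hvS] at h
      omega
    · rw [if_neg hv] at h
      omega
  · apply MGraph.maxMult_le
    intro (u : ZMod n) (v : ZMod n)
    refine (MGraph.mult_ofPairs w u v).trans ?_
    rw [hw]
    by_cases h : s(u, v) = s(P, P + 1)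
    · have huv : u + v ∉ S := by
        have : u + v = 0 := by
          rw [Sym2.eq_iff] at h
          rcases h with ⟨rfl, rfl⟩ | ⟨rfl, rfl⟩
          · linear_combination hnn
          · linear_combination hnn
        rw [this]
        exact h0S
      rw [hf1 _ h, if_neg huv]
    · rw [hf0 _ h]
      split_ifs <;> omega
  · exact (ZMod.card n)
  · have hsum : ∑ v : ZMod n, (MGraph.ofPairs w).deg v + k = n * (2 * p * m + k) + 2 := by
      have e1 : ∑ v : ZMod n, (if v + v ∈ S then 1 else 0) = k := by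
        rw [← Finset.card_filter, ← hSc]
        apply Finset.card_bij (fun u _ => u + u)
        · intro u hu
          exact (Finset.mem_filter.1 hu).2
        · intro a _ b _ h
          exact hhalf a b h
        · intro b hb
          refine ⟨-P * b, ?_, ?_⟩
          · rw [Finset.mem_filter]
            refine ⟨Finset.mem_univ _, ?_⟩
            have : -P * b + -P * b = b := by linear_combination b * h2p
            rw [this]
            exact hb
          · linear_combination b * h2p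
      have e2 : ∑ v : ZMod n, (if v = P ∨ v = P + 1 then 1 else 0) = 2 := by
        rw [← Finset.card_filter, Finset.card_eq_two]
        refine ⟨P, P + 1, hPne, ?_⟩
        ext v
        simp
      calc ∑ v : ZMod n, (MGraph.ofPairs w).deg v + k
          = ∑ v : ZMod n, ((MGraph.ofPairs w).deg v + (if v + v ∈ S then 1 else 0)) :=
            (Finset.sum_add_distrib.trans (by rw [e1])).symm
        _ = ∑ v : ZMod n, (2 * p * m + k + (if v = P ∨ v = P + 1 then 1 else 0)) :=
            Finset.sum_congr rfl (fun v _ => hdeg v)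
        _ = n * (2 * p * m + k) + 2 := by
            rw [Finset.sum_add_distrib, e2, Finset.sum_const, Finset.card_univ, ZMod.card,
              smul_eq_mul]
    have h3 : ∑ v : ZMod n, (MGraph.ofPairs w).deg v =
        2 * Fintype.card (MGraph.ofPairs w).E := (MGraph.ofPairs w).sum_deg
    rw [h3] at hsum
    have h4 : 2 * ((2 * p * m + k + (m + 1) - 1) * p) + k + 2 = n * (2 * p * m + k) + 2 := by
      have : 2 * p * m + k + (m + 1) - 1 = 2 * p * m + k + m := by omega
      rw [this, hn]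
      ring
    omega

end Pool.Agent.Lib.MP_633d19_co
end

section

/-!
The numerical consequences for `μ = 3`.
-/

namespace Pool.Agent.Lib.MP_633d19_co

open Classical

/-- the attaining values `Δ < 26` for `μ = 3` -/
def num3_att (Δ : ℕ) : Bool :=
  Nat.beq Δ 12 || (Nat.ble 16 Δ && Nat.ble Δ 18) || (Nat.ble 22 Δ && Nat.ble Δ 24)

set_option maxRecDepth 100000 in
theorem num3_all : numChk_all 3 1 6 26 25 num3_att = true := by
  decide +kernel

theorem att_of_num_3 {Δ n : ℕ} (hΔ : 2 * 3 < Δ) (h : Num 3 1 Δ n) : Att4 3 Δ := by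
  by_cases hB : Δ < 26
  · have h1 := numChk_all_sound (by norm_num) (fun Δ n h1 h2 => by omega) num3_all hΔ hB h
    unfold num3_att at h1
    simp only [Bool.or_eq_true, Bool.and_eq_true, Nat.beq_eq, Nat.ble_eq] at h1
    left
    omega
  · left
    omega

end Pool.Agent.Lib.MP_633d19_co
end
end
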