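import Pool.Agent.Lib.MP_633d19_co.Bounds

section

/-!
Tashkinov trees and Tashkinov's theorem: the vertex set of a Tashkinov tree is elementary.
-/

namespace Pool.Agent.Lib.MP_633d19_co

open Classical

section defs

variable {V E C : Type*} {ends : E → Sym2 V}

/-- A Tashkinov tree `y 0, …, y n` with edges `ed 2, …, ed n` and uncoloured edge `e0`, which
is a path from the vertex number `p` on. -/
structure TTree (ends : E → Sym2 V) (D : Finset E) (e0 : E) (c : E → C) (y : ℕ → V)
    (ed : ℕ → E) (p n : ℕ) : Prop where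
  inj : ∀ i j, i ≤ n → j ≤ n → y i = y j → i = j
  start : ends e0 = s(y 0, y 1)
  mem : ∀ i, 2 ≤ i → i ≤ n → ed i ∈ D
  att : ∀ i, 2 ≤ i → i ≤ n → ∃ j, j < i ∧ ends (ed i) = s(y j, y i)
  miss : ∀ i, 2 ≤ i → i ≤ n → ∃ j, j < i ∧ Missing ends D c (y j) (c (ed i))
  path : ∀ i, 2 ≤ i → i ≤ n → p < i → ends (ed i) = s(y (i - 1), y i)

variable {D : Finset E} {e0 : E} {c : E → C} {y : ℕ → V} {ed : ℕ → E} {p n : ℕ}

theorem TTree.mono (h : TTree ends D e0 c y ed p n) {m q : ℕ} (hm : m ≤ n)
    (hq : m ≤ q ∨ p ≤ q) : TTree ends D e0 c y ed q m where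
  inj := fun i j hi hj => h.inj i j (hi.trans hm) (hj.trans hm)
  start := h.start
  mem := fun i h2 hi => h.mem i h2 (hi.trans hm)
  att := fun i h2 hi => h.att i h2 (hi.trans hm)
  miss := fun i h2 hi => h.miss i h2 (hi.trans hm)
  path := fun i h2 hi hpi => h.path i h2 (hi.trans hm) (by omega)

theorem missing_swapc_ne {α δ : C} {K : V → Prop} (hcl : ClosedK ends D c α δ K) {v : V}
    {γ : C} (h1 : γ ≠ α) (h2 : γ ≠ δ) :
    Missing ends D (swapc ends c α δ K) v γ ↔ Missing ends D c v γ := by
  by_cases hK : K v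
  · have := missing_swapc_mem (D := D) (c := c) (α := α) (δ := δ) (K := K) (ends := ends) hK γ
    rwa [Equiv.swap_apply_of_ne_of_ne h1 h2] at this
  · exact missing_swapc_not hcl hK γ

theorem missing_swapc_left {α δ : C} {K : V → Prop} {v : V}
    (hK : K v) (h : Missing ends D c v α) : Missing ends D (swapc ends c α δ K) v δ := by
  have := (missing_swapc_mem (D := D) (c := c) (α := α) (δ := δ) (K := K) (ends := ends)
    hK α).2 h
  rwa [Equiv.swap_apply_left] at this

theorem missing_swapc_right {α δ : C} {K : V → Prop} {v : V}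
    (hK : K v) (h : Missing ends D c v δ) : Missing ends D (swapc ends c α δ K) v α := by
  have := (missing_swapc_mem (D := D) (c := c) (α := α) (δ := δ) (K := K) (ends := ends)
    hK δ).2 h
  rwa [Equiv.swap_apply_right] at this

theorem swapc_eq_left {α δ : C} {K : V → Prop} {e : E} {v : V} (hv : v ∈ ends e) (hK : K v)
    (h : c e = δ) : swapc ends c α δ K e = α := by
  rw [swapc_of_mem hv hK, h, Equiv.swap_apply_right]

theorem swapc_eq_right {α δ : C} {K : V → Prop} {e : E} {v : V} (hv : v ∈ ends e) (hK : K v)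
    (h : c e = α) : swapc ends c α δ K e = δ := by
  rw [swapc_of_mem hv hK, h, Equiv.swap_apply_left]

theorem swapc_or {α δ : C} {K : V → Prop} {e : E} (h : c e = α ∨ c e = δ) :
    swapc ends c α δ K e = α ∨ swapc ends c α δ K e = δ := by
  unfold swapc
  split_ifs with h1
  · rcases h with h | h
    · right; rw [h, Equiv.swap_apply_left]
    · left; rw [h, Equiv.swap_apply_right]
  · exact h

theorem TTree.swap (h : TTree ends D e0 c y ed p n) {α δ : C} {K : V → Prop}
    (hcl : ClosedK ends D c α δ K)
    (H : ∀ a, 2 ≤ a → a ≤ n → (c (ed a) = α ∨ c (ed a) = δ) →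
      ∃ b, b < a ∧ Missing ends D (swapc ends c α δ K) (y b) (swapc ends c α δ K (ed a))) :
    TTree ends D e0 (swapc ends c α δ K) y ed p n where
  inj := h.inj
  start := h.start
  mem := h.mem
  att := h.att
  path := h.path
  miss := by
    intro a h2 ha
    by_cases h3 : c (ed a) = α ∨ c (ed a) = δ
    · exact H a h2 ha h3
    · push Not at h3
      obtain ⟨b, hb, hbm⟩ := h.miss a h2 ha
      refine ⟨b, hb, ?_⟩
      rw [swapc_of_ne h3.1 h3.2]
      exact (missing_swapc_ne hcl h3.1 h3.2).2 hbm

/-- Elementary: no common missing colours among `y 0, …, y n`. -/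
def Elem (ends : E → Sym2 V) (D : Finset E) (c : E → C) (y : ℕ → V) (n : ℕ) : Prop :=
  ∀ i j, i < j → j ≤ n → ∀ γ, ¬ (Missing ends D c (y i) γ ∧ Missing ends D c (y j) γ)

theorem Elem.eq {n : ℕ} (h : Elem ends D c y n) {i j : ℕ} (hi : i ≤ n) (hj : j ≤ n) {γ : C}
    (h1 : Missing ends D c (y i) γ) (h2 : Missing ends D c (y j) γ) : i = j := by
  rcases Nat.lt_trichotomy i j with h3 | h3 | h3
  · exact absurd ⟨h1, h2⟩ (h i j h3 hj γ)
  · exact h3
  · exact absurd ⟨h2, h1⟩ (h j i h3 hi γ)

theorem TTree.reach (hc : ProperOn ends D c) (h : TTree ends D e0 c y ed p n)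
    (hall : ∀ c' : E → C, ProperOn ends D c' → TTree ends D e0 c' y ed p n →
      Elem ends D c' y n) {α δ : C}
    (hun : ∀ a, 2 ≤ a → a ≤ n → c (ed a) ≠ α ∧ c (ed a) ≠ δ) {a b : ℕ} (ha : a ≤ n)
    (hb : b ≤ n) (hab : a ≠ b) (hma : Missing ends D c (y a) α)
    (hmb : Missing ends D c (y b) δ) : (abGraph ends D c α δ).Reachable (y a) (y b) := by
  by_contra hcon
  set K : V → Prop := fun v => (abGraph ends D c α δ).Reachable (y a) v with hK
  have hcl : ClosedK ends D c α δ K := closedK_comp ends D c α δ (y a)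
  have hKa : K (y a) := SimpleGraph.Reachable.refl _
  have ht := h.swap hcl (by
    intro q h2 hq h3
    rcases h3 with h3 | h3
    · exact absurd h3 (hun q h2 hq).1
    · exact absurd h3 (hun q h2 hq).2)
  have hel := hall _ (properOn_swapc hc hcl) ht
  exact hab (hel.eq ha hb (missing_swapc_left hKa hma) ((missing_swapc_not hcl hcon _).2 hmb))

theorem TTree.extend (h : TTree ends D e0 c y ed p n) (hn : 1 ≤ n) {f : E} {z : V} {a b : ℕ}
    (hf : f ∈ D) (ha : a ≤ n) (hfe : ends f = s(y a, z)) (hz : ∀ i ≤ n, y i ≠ z)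
    (hb : b ≤ n) (hm : Missing ends D c (y b) (c f)) {q : ℕ} (hq : n ≤ q ∨ p ≤ q)
    (hpath : a = n ∨ n + 1 ≤ q) :
    TTree ends D e0 c (Function.update y (n + 1) z) (Function.update ed (n + 1) f) q (n + 1) := by
  have hy : ∀ i, i ≤ n → Function.update y (n + 1) z i = y i := by
    intro i hi
    rw [Function.update_of_ne]
    omega
  have hed : ∀ i, i ≤ n → Function.update ed (n + 1) f i = ed i := by
    intro i hi
    rw [Function.update_of_ne]
    omega
  refine ⟨?_, ?_, ?_, ?_, ?_, ?_⟩
  · intro i j hi hj hij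
    rcases Nat.lt_or_ge n i with h1 | h1
    · have h1' : i = n + 1 := by omega
      rcases Nat.lt_or_ge n j with h2 | h2
      · omega
      · exfalso
        subst h1'
        rw [Function.update_self, hy j h2] at hij
        exact hz j h2 hij.symm
    · rcases Nat.lt_or_ge n j with h2 | h2
      · exfalso
        have h2' : j = n + 1 := by omega
        subst h2'
        rw [Function.update_self, hy i h1] at hij
        exact hz i h1 hij
      · rw [hy i h1, hy j h2] at hij
        exact h.inj i j h1 h2 hij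
  · rw [hy 0 (by omega), hy 1 hn]
    exact h.start
  · intro i h2 hi
    rcases Nat.lt_or_ge n i with h1 | h1
    · have h1' : i = n + 1 := by omega
      subst h1'
      rw [Function.update_self]
      exact hf
    · rw [hed i h1]
      exact h.mem i h2 h1
  · intro i h2 hi
    rcases Nat.lt_or_ge n i with h1 | h1
    · have h1' : i = n + 1 := by omega
      subst h1'
      refine ⟨a, by omega, ?_⟩
      rw [Function.update_self, Function.update_self, hy _ ha]
      exact hfe
    · obtain ⟨j, hj, hje⟩ := h.att i h2 h1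
      refine ⟨j, hj, ?_⟩
      rw [hed i h1, hy i h1, hy j (by omega)]
      exact hje
  · intro i h2 hi
    rcases Nat.lt_or_ge n i with h1 | h1
    · have h1' : i = n + 1 := by omega
      subst h1'
      refine ⟨b, by omega, ?_⟩
      rw [Function.update_self, hy b hb]
      exact hm
    · obtain ⟨j', hj', hm'⟩ := h.miss i h2 h1
      refine ⟨j', hj', ?_⟩
      rw [hed i h1, hy j' (by omega)]
      exact hm'
  · intro i h2 hi hqi
    rcases Nat.lt_or_ge n i with h1 | h1
    · have h1' : i = n + 1 := by omega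
      subst h1'
      have han : a = n := by omega
      subst han
      rw [Function.update_self, Function.update_self, Nat.add_sub_cancel, hy _ le_rfl]
      exact hfe
    · rw [hed i h1, hy i h1, hy (i - 1) (by omega)]
      exact h.path i h2 h1 (by omega)

/-- Extending a Tashkinov tree from its last vertex along an alternating path. -/
theorem TTree.extend_walk {α δ : C} : ∀ {u x : V} (w : (abGraph ends D c α δ).Walk u x),
    w.IsPath → ∀ (y : ℕ → V) (ed : ℕ → E) (n : ℕ), 1 ≤ n → TTree ends D e0 c y ed p n →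
    y n = u → (∃ b ≤ n, Missing ends D c (y b) α) → (∃ b ≤ n, Missing ends D c (y b) δ) →
    (∀ z ∈ w.support, ∀ i < n, y i ≠ z) →
    ∃ y' ed' n', n ≤ n' ∧ TTree ends D e0 c y' ed' p n' ∧ y' n' = x ∧ ∀ i ≤ n, y' i = y i := by
  intro u x w
  induction w with
  | nil =>
    intro _ y ed n hn h hy _ _ _
    exact ⟨y, ed, n, le_rfl, h, hy, fun _ _ => rfl⟩
  | cons hadj w' ih =>
    rename_i u v x
    intro hw y ed n hn h hy hα hδ hsup
    have hw1 := (SimpleGraph.Walk.cons_isPath_iff hadj w').1 hw
    have huv : u ≠ v := hadj.ne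
    have hsupv : ∀ i < n, y i ≠ v := by
      intro i hi
      refine hsup v ?_ i hi
      rw [SimpleGraph.Walk.support_cons]
      exact List.mem_cons_of_mem _ (SimpleGraph.Walk.start_mem_support w')
    have hsupw : ∀ z ∈ w'.support, ∀ i < n, y i ≠ z := by
      intro z hzs i hi
      refine hsup z ?_ i hi
      rw [SimpleGraph.Walk.support_cons]
      exact List.mem_cons_of_mem _ hzs
    have hadj' : ∃ e ∈ D, (c e = α ∨ c e = δ) ∧ ends e = s(u, v) := hadj.2
    clear hsup hw
    obtain ⟨f, hf, hcf, hfe⟩ := hadj'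
    have hz : ∀ i ≤ n, y i ≠ v := by
      intro i hi
      rcases Nat.lt_or_ge i n with h1 | h1
      · exact hsupv i h1
      · have h2 : i = n := by omega
        rw [h2, hy]
        exact huv
    have hm : ∃ b ≤ n, Missing ends D c (y b) (c f) := by
      rcases hcf with h1 | h1
      · rw [h1]; exact hα
      · rw [h1]; exact hδ
    obtain ⟨b, hb, hbm⟩ := hm
    have h1 := h.extend hn (a := n) hf le_rfl (by rw [hy]; exact hfe) hz hb hbm
      (q := p) (Or.inr le_rfl) (Or.inl rfl)
    have hyy : ∀ i, i ≤ n → Function.update y (n + 1) v i = y i := by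
      intro i hi
      rw [Function.update_of_ne]
      omega
    obtain ⟨y', ed', n', hn', ht', hy', hag⟩ := ih hw1.1 _ _ (n + 1) (by omega) h1
      (by rw [Function.update_self])
      (by obtain ⟨b, hb, hbm⟩ := hα
          exact ⟨b, by omega, by rw [hyy b hb]; exact hbm⟩)
      (by obtain ⟨b, hb, hbm⟩ := hδ
          exact ⟨b, by omega, by rw [hyy b hb]; exact hbm⟩)
      (by
        intro z hzs i hi
        rw [hyy i (by omega)]
        rcases Nat.lt_or_ge i n with h2 | h2
        · exact hsupw z hzs i h2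
        · have h3 : i = n := by omega
          rw [h3, hy]
          intro h4
          rw [← h4] at hzs
          exact hw1.2 hzs)
    refine ⟨y', ed', n', by omega, ht', hy', ?_⟩
    intro i hi
    rw [hag i (by omega), hyy i hi]

theorem last_exit {G : SimpleGraph V} (S : V → Prop) : ∀ {u v : V} (w : G.Walk u v),
    w.IsPath → ¬ S v → (∀ x ∈ w.support, ¬ S x) ∨
      ∃ z z', S z ∧ G.Adj z z' ∧ ∃ q : G.Walk z' v, q.IsPath ∧ ∀ x ∈ q.support, ¬ S x := by
  intro u v w
  induction w with
  | nil =>
    intro _ hS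
    left
    intro x hx
    simp at hx
    rw [hx]; exact hS
  | cons hadj w' ih =>
    rename_i u v x
    intro hw hS
    have hw1 := (SimpleGraph.Walk.cons_isPath_iff hadj w').1 hw
    rcases ih hw1.1 hS with h1 | h1
    · by_cases hu : S u
      · right
        exact ⟨u, v, hu, hadj, w', hw1.1, h1⟩
      · left
        intro z hz
        rw [SimpleGraph.Walk.support_cons] at hz
        rcases List.mem_cons.1 hz with h2 | h2
        · rw [h2]; exact hu
        · exact h1 z h2
    · right; exact h1

end defs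

end Pool.Agent.Lib.MP_633d19_co
end

section

/-!
Tashkinov's theorem.
-/

namespace Pool.Agent.Lib.MP_633d19_co

open Classical

section thm

variable {V E : Type*} {ends : E → Sym2 V} {F : Finset E} {e0 : E} {k : ℕ}

/-- Tashkinov's theorem for trees with path number `p` and last vertex `n`. -/
def TP (ends : E → Sym2 V) (F : Finset E) (e0 : E) (k p n : ℕ) : Prop :=
  ∀ (c : E → Fin k) (y : ℕ → V) (ed : ℕ → E), ProperOn ends (F.erase e0) c →
    TTree ends (F.erase e0) e0 c y ed p n → ∀ i < n, ∀ γ,
      ¬ (Missing ends (F.erase e0) c (y i) γ ∧ Missing ends (F.erase e0) c (y n) γ)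

theorem elem_of_TP {p m : ℕ} (h : ∀ n', 1 ≤ n' → n' ≤ m → TP ends F e0 k p n')
    {c : E → Fin k} {y : ℕ → V} {ed : ℕ → E} (hc : ProperOn ends (F.erase e0) c)
    (ht : TTree ends (F.erase e0) e0 c y ed p m) : Elem ends (F.erase e0) c y m := by
  intro i j hij hj γ
  exact h j (by omega) hj c y ed hc (ht.mono hj (Or.inr le_rfl)) i hij γ

theorem exists_missing (hk : ∀ v, degOn ends F v < k) (c : E → Fin k) (v : V) :
    ∃ γ, Missing ends (F.erase e0) c v γ := by
  have h1 := card_Mis (ends := ends) (F.erase e0) c v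
  have h2 := degOn_erase_le (ends := ends) F e0 v
  have h3 := hk v
  have h4 : 0 < (Mis ends (F.erase e0) c v).card := by omega
  obtain ⟨γ, hγ⟩ := Finset.card_pos.1 h4
  exact ⟨γ, mem_Mis.1 hγ⟩

theorem exists_unused (he0 : e0 ∈ F) (hk : ∀ v, degOn ends F v < k) {c : E → Fin k}
    {y : ℕ → V} {s : ℕ} (hs : 1 ≤ s) (hstart : ends e0 = s(y 0, y 1))
    (hel : Elem ends (F.erase e0) c y s) (U : Finset (Fin k)) (hU : U.card ≤ s + 2) :
    ∃ l ≤ s, ∃ γ, Missing ends (F.erase e0) c (y l) γ ∧ γ ∉ U := by
  by_contra hcon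
  push Not at hcon
  have hsub : (Finset.range (s + 1)).biUnion (fun i => Mis ends (F.erase e0) c (y i)) ⊆ U := by
    intro γ hγ
    rw [Finset.mem_biUnion] at hγ
    obtain ⟨i, hi, hm⟩ := hγ
    exact hcon i (by have := Finset.mem_range.1 hi; omega) γ (mem_Mis.1 hm)
  have h1 := Finset.card_le_card hsub
  rw [Finset.card_biUnion] at h1
  · have h2 : ∀ n, 1 ≤ n → n ≤ s → n + 3 ≤
        ∑ i ∈ Finset.range (n + 1), (Mis ends (F.erase e0) c (y i)).card := by
      intro n hn
      induction n, hn using Nat.le_induction with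
      | base =>
        intro _
        rw [Finset.sum_range_succ, Finset.sum_range_one]
        have h0 := card_Mis (ends := ends) (F.erase e0) c (y 0)
        have h0' := degOn_erase_lt (ends := ends) he0 (v := y 0)
          (by rw [hstart]; exact Sym2.mem_mk_left _ _)
        have h0'' := hk (y 0)
        have h1 := card_Mis (ends := ends) (F.erase e0) c (y 1)
        have h1' := degOn_erase_lt (ends := ends) he0 (v := y 1)
          (by rw [hstart]; exact Sym2.mem_mk_right _ _)
        have h1'' := hk (y 1)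
        omega
      | succ n hn ih =>
        intro hns
        rw [Finset.sum_range_succ]
        have h0 := card_Mis (ends := ends) (F.erase e0) c (y (n + 1))
        have h0' := degOn_erase_le (ends := ends) F e0 (y (n + 1))
        have h0'' := hk (y (n + 1))
        have := ih (by omega)
        omega
    have h3 := h2 s hs le_rfl
    omega
  · intro i hi j hj hij
    rw [Finset.mem_coe, Finset.mem_range] at hi hj
    rw [Function.onFun, Finset.disjoint_left]
    intro γ h1 h2
    exact hij (hel.eq (by omega) (by omega) (mem_Mis.1 h1) (mem_Mis.1 h2))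

/-- base case: Kierstead's theorem -/
theorem tash_base (he0 : e0 ∈ F) (hF : ¬ ∃ c : E → Fin k, ProperOn ends F c)
    (hk : ∀ v, degOn ends F v < k) {n : ℕ} (hn : 1 ≤ n) : TP ends F e0 k 1 n := by
  intro c y ed hc ht i hi γ
  refine kierstead he0 hF (fun c _ v => exists_missing hk c v) y ed n hn c hc ?_ i hi γ
  refine ⟨ht.inj, ht.start, ht.mem, fun i h2 hi => ht.path i h2 hi (by omega), ?_⟩
  intro i h2 hi
  obtain ⟨j, hj, hm⟩ := ht.miss i h2 hi
  refine ⟨j, ?_, hm⟩
  have h3 := ht.path i h2 hi (by omega)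
  have h4 : j ≠ i - 1 := by
    intro h4
    subst h4
    exact hm (ed i) (ht.mem i h2 hi) (by rw [h3]; exact Sym2.mem_mk_left _ _) rfl
  omega

theorem tash_two (he0 : e0 ∈ F) (hF : ¬ ∃ c : E → Fin k, ProperOn ends F c)
    (hk : ∀ v, degOn ends F v < k) {n : ℕ} (hn : 1 ≤ n) : TP ends F e0 k 2 n := by
  intro c y ed hc ht i hi γ
  rcases Nat.lt_or_ge n 2 with hn2 | hn2
  · exact tash_base he0 hF hk hn c y ed hc (ht.mono le_rfl (Or.inl (by omega))) i hi γ
  obtain ⟨j, hj, hje⟩ := ht.att 2 le_rfl hn2
  rcases Nat.lt_or_ge j 1 with hj1 | hj1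
  · have hj0 : j = 0 := by omega
    subst hj0
    set y' : ℕ → V := fun i => if i = 0 then y 1 else if i = 1 then y 0 else y i with hy'
    have hy0 : y' 0 = y 1 := by simp [hy']
    have hy1 : y' 1 = y 0 := by simp [hy']
    have hyy : ∀ i, 2 ≤ i → y' i = y i := by
      intro i hi
      have h1 : i ≠ 0 := by omega
      have h2 : i ≠ 1 := by omega
      simp [hy', h1, h2]
    -- the transposition on indices
    have hex : ∀ i, ∃ j, y' j = y i ∧ (2 ≤ i → j = i) ∧ (i < 2 → j < 2) := by
      intro i
      rcases Nat.lt_or_ge i 2 with h1 | h1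
      · rcases Nat.lt_or_ge i 1 with h2 | h2
        · have : i = 0 := by omega
          subst this
          exact ⟨1, hy1, by omega, by omega⟩
        · have : i = 1 := by omega
          subst this
          exact ⟨0, hy0, by omega, by omega⟩
      · exact ⟨i, hyy i h1, fun _ => rfl, by omega⟩
    have ht' : TTree ends (F.erase e0) e0 c y' ed 1 n := by
      refine ⟨?_, ?_, ht.mem, ?_, ?_, ?_⟩
      · have hidx : ∀ i, i ≤ n → ∃ i', i' ≤ n ∧ y' i = y i' ∧
            (i = 0 → i' = 1) ∧ (i = 1 → i' = 0) ∧ (2 ≤ i → i' = i) := by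
          intro i hi
          rcases Nat.lt_or_ge i 2 with h1 | h1
          · rcases Nat.lt_or_ge i 1 with h2 | h2
            · have : i = 0 := by omega
              subst this
              exact ⟨1, by omega, hy0, by omega, by omega, by omega⟩
            · have : i = 1 := by omega
              subst this
              exact ⟨0, by omega, hy1, by omega, by omega, by omega⟩
          · exact ⟨i, hi, hyy i h1, by omega, by omega, by omega⟩
        intro a b ha hb hab
        obtain ⟨a', ha', hya, q1, q2, q3⟩ := hidx a ha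
        obtain ⟨b', hb', hyb, r1, r2, r3⟩ := hidx b hb
        rw [hya, hyb] at hab
        have := ht.inj a' b' ha' hb' hab
        rcases Nat.lt_or_ge a 2 with h1 | h1
        · rcases Nat.lt_or_ge b 2 with h2 | h2
          · interval_cases a <;> interval_cases b <;> simp at * <;> omega
          · have := r3 h2
            interval_cases a
            · have := q1 rfl
              omega
            · have := q2 rfl
              omega
        · have := q3 h1
          rcases Nat.lt_or_ge b 2 with h2 | h2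
          · interval_cases b
            · have := r1 rfl
              omega
            · have := r2 rfl
              omega
          · have := r3 h2
            omega
      · rw [hy0, hy1, ht.start, Sym2.eq_swap]
      · intro a h2 ha
        obtain ⟨b, hb, hbe⟩ := ht.att a h2 ha
        obtain ⟨b', hb', h3, h4⟩ := hex b
        refine ⟨b', ?_, ?_⟩
        · rcases Nat.lt_or_ge b 2 with h5 | h5
          · have := h4 h5
            omega
          · have := h3 h5
            omega
        · rw [hb', hyy a h2]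
          exact hbe
      · intro a h2 ha
        obtain ⟨b, hb, hbe⟩ := ht.miss a h2 ha
        obtain ⟨b', hb', h3, h4⟩ := hex b
        refine ⟨b', ?_, ?_⟩
        · rcases Nat.lt_or_ge b 2 with h5 | h5
          · have := h4 h5
            omega
          · have := h3 h5
            omega
        · rw [hb']
          exact hbe
      · intro a h2 ha _
        rcases Nat.lt_or_ge 2 a with h3 | h3
        · rw [hyy a h2, hyy (a - 1) (by omega)]
          exact ht.path a h2 ha h3
        · have : a = 2 := by omega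
          subst this
          rw [hyy 2 le_rfl]
          show ends (ed 2) = s(y' 1, y 2)
          rw [hy1]
          exact hje
    rintro ⟨h1, h2⟩
    obtain ⟨i', hi', h3, h4⟩ := hex i
    refine tash_base he0 hF hk hn c y' ed hc ht' i' ?_ γ ⟨?_, ?_⟩
    · rcases Nat.lt_or_ge i 2 with h5 | h5
      · have := h4 h5
        omega
      · have := h3 h5
        omega
    · rw [hi']; exact h1
    · rw [hyy n hn2]; exact h2
  · have hj0 : j = 1 := by omega
    subst hj0
    refine tash_base he0 hF hk hn c y ed hc ?_ i hi γ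
    refine ⟨ht.inj, ht.start, ht.mem, ht.att, ht.miss, ?_⟩
    intro a h2 ha _
    rcases Nat.lt_or_ge 2 a with h3 | h3
    · exact ht.path a h2 ha h3
    · have : a = 2 := by omega
      subst this
      exact hje

/-- Recolouring the last edge. -/
theorem tash_recolor {p n : ℕ} (IHn : ∀ n', 1 ≤ n' → n' < n → TP ends F e0 k p n')
    (hn : 2 ≤ n) (hpn : p < n) {c : E → Fin k} {y : ℕ → V} {ed : ℕ → E}
    (hc : ProperOn ends (F.erase e0) c) (hk : TTree ends (F.erase e0) e0 c y ed p n)
    {γ : Fin k} (h1 : Missing ends (F.erase e0) c (y (n - 1)) γ)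
    (h2 : Missing ends (F.erase e0) c (y n) γ) : False := by
  obtain ⟨j, hj, hjm⟩ := hk.miss n hn le_rfl
  have hpe := hk.path n hn le_rfl hpn
  have hpD := hk.mem n hn le_rfl
  have hβγ : γ ≠ c (ed n) := by
    intro h
    exact h2 (ed n) hpD (by rw [hpe]; exact Sym2.mem_mk_right _ _) h.symm
  have hjn : j ≠ n - 1 := by
    intro h
    subst h
    exact hjm (ed n) hpD (by rw [hpe]; exact Sym2.mem_mk_left _ _) rfl
  set c' : E → Fin k := Function.update c (ed n) γ with hc'
  have hmem : ∀ x, x ∈ ends (ed n) → x = y (n - 1) ∨ x = y n := by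
    intro x hx
    rw [hpe] at hx
    exact Sym2.mem_iff.1 hx
  have hproper : ProperOn ends (F.erase e0) c' := by
    intro e he e' he' hne v hv hv'
    by_cases h3 : e = ed n
    · subst h3
      have h4 : e' ≠ ed n := fun h => hne h.symm
      rw [hc', Function.update_self, Function.update_of_ne h4]
      rcases hmem v hv with h6 | h6
      · subst h6
        exact fun h => h1 e' he' hv' h.symm
      · subst h6
        exact fun h => h2 e' he' hv' h.symm
    · rw [hc', Function.update_of_ne h3]
      by_cases h4 : e' = ed n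
      · subst h4
        rw [Function.update_self]
        rcases hmem v hv' with h6 | h6
        · subst h6
          exact h1 e he hv
        · subst h6
          exact h2 e he hv
      · rw [Function.update_of_ne h4]
        exact hc e he e' he' hne v hv hv'
  have hmiss' : ∀ x, x ≠ y (n - 1) → x ≠ y n → ∀ η, Missing ends (F.erase e0) c x η →
      Missing ends (F.erase e0) c' x η := by
    intro x hx1 hx2 η h e he hv
    have h3 : e ≠ ed n := by
      intro h3
      subst h3
      rcases hmem x hv with h4 | h4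
      · exact hx1 h4
      · exact hx2 h4
    rw [hc', Function.update_of_ne h3]
    exact h e he hv
  have hne1 : ∀ t, t < n - 1 → y t ≠ y (n - 1) := by
    intro t ht h
    have := hk.inj t (n - 1) (by omega) (by omega) h
    omega
  have hne2 : ∀ t, t < n → y t ≠ y n := by
    intro t ht h
    have := hk.inj t n (by omega) le_rfl h
    omega
  have hedne : ∀ a, 2 ≤ a → a < n → ed a ≠ ed n := by
    intro a h2a ha h3
    obtain ⟨b, hb, h4⟩ := hk.att a h2a (by omega)
    rw [h3, hpe] at h4
    have h5 : y n ∈ s(y b, y a) := by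
      rw [← h4]; exact Sym2.mem_mk_right _ _
    rcases Sym2.mem_iff.1 h5 with h6 | h6
    · exact hne2 b (by omega) h6.symm
    · exact hne2 a (by omega) h6.symm
  have hk' : TTree ends (F.erase e0) e0 c' y ed p (n - 1) := by
    refine ⟨fun a b ha hb => hk.inj a b (by omega) (by omega), hk.start,
      fun a h2a ha => hk.mem a h2a (by omega), fun a h2a ha => hk.att a h2a (by omega),
      ?_, fun a h2a ha hpa => hk.path a h2a (by omega) hpa⟩
    intro a h2a ha
    obtain ⟨b, hb, hbm⟩ := hk.miss a h2a (by omega)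
    refine ⟨b, hb, ?_⟩
    rw [hc', Function.update_of_ne (hedne a h2a (by omega))]
    exact hmiss' (y b) (hne1 b (by omega)) (hne2 b (by omega)) _ hbm
  refine IHn (n - 1) (by omega) (by omega) c' y ed hproper hk' j (by omega) (c (ed n)) ⟨?_, ?_⟩
  · exact hmiss' (y j) (hne1 j (by omega)) (hne2 j (by omega)) _ hjm
  · intro e he hv
    by_cases h3 : e = ed n
    · subst h3
      rw [hc', Function.update_self]
      exact hβγ
    · rw [hc', Function.update_of_ne h3]
      exact hc e he (ed n) hpD h3 (y (n - 1)) hv (by rw [hpe]; exact Sym2.mem_mk_left _ _)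

/-- moving the common colour along the path part -/
theorem tash_high (hkd : ∀ v, degOn ends F v < k) {p n : ℕ} (hp : 1 ≤ p)
    (IHn : ∀ n', 1 ≤ n' → n' < n → TP ends F e0 k p n') :
    ∀ m i, p ≤ i → i + 1 + m = n → ∀ (c : E → Fin k) (y : ℕ → V) (ed : ℕ → E),
      ProperOn ends (F.erase e0) c → TTree ends (F.erase e0) e0 c y ed p n → ∀ γ,
      ¬ (Missing ends (F.erase e0) c (y i) γ ∧ Missing ends (F.erase e0) c (y n) γ) := by
  intro m
  induction m with
  | zero =>
    rintro i hpi hi c y ed hc hk γ ⟨h1, h2⟩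
    have hip : i = n - 1 := by omega
    subst hip
    exact tash_recolor IHn (by omega) (by omega) hc hk h1 h2
  | succ m ihm =>
    rintro i hpi hi c y ed hc hk α ⟨hα1, hα2⟩
    have elem : Elem ends (F.erase e0) c y (n - 1) :=
      elem_of_TP (fun n' h1 h2 => IHn n' h1 (by omega)) hc (hk.mono (by omega) (Or.inr le_rfl))
    obtain ⟨δ, hδ⟩ := exists_missing (e0 := e0) hkd c (y (i + 1))
    have hun : ∀ a, 2 ≤ a → a ≤ i + 1 → c (ed a) ≠ α ∧ c (ed a) ≠ δ := by
      intro a h2a ha
      obtain ⟨b, hb, hbm⟩ := hk.miss a h2a (by omega)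
      constructor
      · intro h
        rw [h] at hbm
        have hbi := elem.eq (i := b) (j := i) (by omega) (by omega) hbm hα1
        have hai : a = i + 1 := by omega
        subst hai
        have h3 := hk.path (i + 1) h2a (by omega) (by omega)
        exact hα1 (ed (i + 1)) (hk.mem _ h2a (by omega))
          (by rw [h3]; exact Sym2.mem_mk_left _ _) h
      · intro h
        rw [h] at hbm
        have hbi := elem.eq (i := b) (j := i + 1) (by omega) (by omega) hbm hδ
        omega
    have hreach : (abGraph ends (F.erase e0) c α δ).Reachable (y i) (y (i + 1)) := by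
      refine TTree.reach hc (hk.mono (m := i + 1) (q := p) (by omega) (Or.inr le_rfl)) ?_ hun
        (by omega) le_rfl (by omega) hα1 hδ
      intro c' hc' ht'
      exact elem_of_TP (fun n' h1 h2 => IHn n' h1 (by omega)) hc' ht'
    have yne : ∀ a b, a ≤ n → b ≤ n → a ≠ b → y a ≠ y b := by
      intro a b ha hb hab h
      exact hab (hk.inj a b ha hb h)
    set K : V → Prop := fun v => (abGraph ends (F.erase e0) c α δ).Reachable (y n) v with hKdef
    have hcl : ClosedK ends (F.erase e0) c α δ K := closedK_comp ends _ c α δ (y n)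
    have hKp : K (y n) := SimpleGraph.Reachable.refl _
    have hKi : ¬ K (y i) := by
      intro h
      exact kempe_three hc (yne i (i + 1) (by omega) (by omega) (by omega))
        (yne i n (by omega) (by omega) (by omega))
        (yne (i + 1) n (by omega) (by omega) (by omega)) (Or.inl hα1) (Or.inr hδ) (Or.inl hα2)
        hreach h.symm
    have hKi1 : ¬ K (y (i + 1)) := by
      intro h
      exact hKi (SimpleGraph.Reachable.trans h hreach.symm)
    have hk' : TTree ends (F.erase e0) e0 (swapc ends c α δ K) y ed p n := by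
      refine hk.swap hcl ?_
      intro a h2a ha h3
      have hai : i + 1 < a := by
        by_contra hcon
        push Not at hcon
        have := hun a h2a hcon
        tauto
      rcases swapc_or (ends := ends) (K := K) h3 with h4 | h4
      · rw [h4]
        exact ⟨i, by omega, (missing_swapc_not hcl hKi _).2 hα1⟩
      · rw [h4]
        exact ⟨i + 1, by omega, (missing_swapc_not hcl hKi1 _).2 hδ⟩
    exact ihm (i + 1) (by omega) (by omega) _ y ed (properOn_swapc hc hcl) hk' δ
      ⟨(missing_swapc_not hcl hKi1 _).2 hδ, missing_swapc_left hKp hα2⟩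

/-- the common colour is not used up to `p` -/
theorem tash_mid (hkd : ∀ v, degOn ends F v < k) {p n : ℕ} (hp : 1 ≤ p) (hpn : p < n)
    (IHn : ∀ n', 1 ≤ n' → n' < n → TP ends F e0 k p n') {c : E → Fin k} {y : ℕ → V}
    {ed : ℕ → E} (hc : ProperOn ends (F.erase e0) c)
    (hk : TTree ends (F.erase e0) e0 c y ed p n) {i : ℕ} (hi : i < p) {α : Fin k}
    (hun1 : ∀ a, 2 ≤ a → a ≤ p → c (ed a) ≠ α)
    (hα1 : Missing ends (F.erase e0) c (y i) α) (hα2 : Missing ends (F.erase e0) c (y n) α) :
    False := by
  have elem : Elem ends (F.erase e0) c y (n - 1) :=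
    elem_of_TP (fun n' h1 h2 => IHn n' h1 (by omega)) hc (hk.mono (by omega) (Or.inr le_rfl))
  obtain ⟨δ, hδ⟩ := exists_missing (e0 := e0) hkd c (y p)
  have hun : ∀ a, 2 ≤ a → a ≤ p → c (ed a) ≠ α ∧ c (ed a) ≠ δ := by
    intro a h2a ha
    refine ⟨hun1 a h2a ha, ?_⟩
    obtain ⟨b, hb, hbm⟩ := hk.miss a h2a (by omega)
    intro h
    rw [h] at hbm
    have hbi := elem.eq (i := b) (j := p) (by omega) (by omega) hbm hδ
    omega
  have hreach : (abGraph ends (F.erase e0) c α δ).Reachable (y i) (y p) := by
    refine TTree.reach hc (hk.mono (m := p) (q := p) (by omega) (Or.inr le_rfl)) ?_ hun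
      (by omega) le_rfl (by omega) hα1 hδ
    intro c' hc' ht'
    exact elem_of_TP (fun n' h1 h2 => IHn n' h1 (by omega)) hc' ht'
  have yne : ∀ a b, a ≤ n → b ≤ n → a ≠ b → y a ≠ y b := by
    intro a b ha hb hab h
    exact hab (hk.inj a b ha hb h)
  set K : V → Prop := fun v => (abGraph ends (F.erase e0) c α δ).Reachable (y n) v with hKdef
  have hcl : ClosedK ends (F.erase e0) c α δ K := closedK_comp ends _ c α δ (y n)
  have hKp : K (y n) := SimpleGraph.Reachable.refl _
  have hKi : ¬ K (y i) := by
    intro h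
    exact kempe_three hc (yne i p (by omega) (by omega) (by omega))
      (yne i n (by omega) (by omega) (by omega))
      (yne p n (by omega) (by omega) (by omega)) (Or.inl hα1) (Or.inr hδ) (Or.inl hα2)
      hreach h.symm
  have hKi1 : ¬ K (y p) := by
    intro h
    exact hKi (SimpleGraph.Reachable.trans h hreach.symm)
  have hk' : TTree ends (F.erase e0) e0 (swapc ends c α δ K) y ed p n := by
    refine hk.swap hcl ?_
    intro a h2a ha h3
    have hai : p < a := by
      by_contra hcon
      push Not at hcon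
      have := hun a h2a hcon
      tauto
    rcases swapc_or (ends := ends) (K := K) h3 with h4 | h4
    · rw [h4]
      exact ⟨i, by omega, (missing_swapc_not hcl hKi _).2 hα1⟩
    · rw [h4]
      exact ⟨p, by omega, (missing_swapc_not hcl hKi1 _).2 hδ⟩
  exact tash_high hkd hp IHn (n - p - 1) p le_rfl (by omega) _ y ed (properOn_swapc hc hcl) hk' δ
    ⟨(missing_swapc_not hcl hKi1 _).2 hδ, missing_swapc_left hKp hα2⟩

/-- the colours used on the edges `ed 2, …, ed p` -/
noncomputable def usedCol (c : E → Fin k) (ed : ℕ → E) (p : ℕ) : Finset (Fin k) :=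
  (Finset.Icc 2 p).image (fun a => c (ed a))

theorem usedCol_card (c : E → Fin k) (ed : ℕ → E) (p : ℕ) :
    (usedCol c ed p).card ≤ p - 1 := by
  unfold usedCol
  refine Finset.card_image_le.trans ?_
  rw [Nat.card_Icc]
  omega

theorem not_mem_usedCol {c : E → Fin k} {ed : ℕ → E} {p : ℕ} {γ : Fin k}
    (h : γ ∉ usedCol c ed p) : ∀ a, 2 ≤ a → a ≤ p → c (ed a) ≠ γ := by
  intro a h2 ha h3
  exact h (Finset.mem_image.2 ⟨a, Finset.mem_Icc.2 ⟨h2, ha⟩, h3⟩)

/-- case `n = p`, the colour of the last edge is missing before `p - 1` -/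
theorem tash_b1a (he0 : e0 ∈ F) (hkd : ∀ v, degOn ends F v < k) {p : ℕ} (hp : 3 ≤ p)
    (IHp : ∀ n', 1 ≤ n' → TP ends F e0 k (p - 1) n') {c : E → Fin k} {y : ℕ → V}
    {ed : ℕ → E} (hc : ProperOn ends (F.erase e0) c)
    (hk : TTree ends (F.erase e0) e0 c y ed p p) {i : ℕ} (hi : i < p) {α : Fin k}
    (hun1 : ∀ a, 2 ≤ a → a ≤ p → c (ed a) ≠ α)
    (hα1 : Missing ends (F.erase e0) c (y i) α) (hα2 : Missing ends (F.erase e0) c (y p) α)
    {j : ℕ} (hj : j + 2 ≤ p) (hjm : Missing ends (F.erase e0) c (y j) (c (ed p))) : False := by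
  obtain ⟨q, hq, hqe⟩ := hk.att p (by omega) le_rfl
  -- `e_p` is not attached to `y (p-1)`
  rcases Nat.lt_or_ge q (p - 1) with hq1 | hq1
  swap
  · have hq2 : q = p - 1 := by omega
    subst hq2
    refine IHp p (by omega) c y ed hc ?_ i hi α ⟨hα1, hα2⟩
    refine ⟨hk.inj, hk.start, hk.mem, hk.att, hk.miss, ?_⟩
    intro a h2 ha hpa
    have : a = p := by omega
    subst this
    exact hqe
  have yne : ∀ a b, a ≤ p → b ≤ p → a ≠ b → y a ≠ y b := by
    intro a b ha hb hab h
    exact hab (hk.inj a b ha hb h)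
  have hT1 : TTree ends (F.erase e0) e0 c y ed (p - 1) (p - 1) :=
    hk.mono (by omega) (Or.inl le_rfl)
  have hT2 : TTree ends (F.erase e0) e0 c y ed (p - 1) (p - 2) :=
    hk.mono (by omega) (Or.inl (by omega))
  have hT' := hT2.extend (by omega) (f := ed p) (z := y p) (a := q) (b := j) (q := p - 1)
    (hk.mem p (by omega) le_rfl) (by omega) hqe
    (fun a ha => yne a p (by omega) le_rfl (by omega)) (by omega) hjm (Or.inl (by omega))
    (Or.inr (by omega))
  have hp2 : p - 2 + 1 = p - 1 := by omega
  rw [hp2] at hT'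
  set y' := Function.update y (p - 1) (y p) with hy'
  set ed' := Function.update ed (p - 1) (ed p) with hed'
  have hyl : ∀ a, a < p - 1 → y' a = y a := by
    intro a ha
    rw [hy', Function.update_of_ne (by omega)]
  have hyp : y' (p - 1) = y p := by rw [hy', Function.update_self]
  have hed1 : ∀ a, a < p - 1 → ed' a = ed a := by
    intro a ha
    rw [hed', Function.update_of_ne (by omega)]
  have hedp : ed' (p - 1) = ed p := by rw [hed', Function.update_self]
  -- so `i = p - 1`
  have hi1 : i = p - 1 := by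
    by_contra hcon
    refine IHp (p - 1) (by omega) c y' ed' hc hT' i (by omega) α ⟨?_, ?_⟩
    · rw [hyl i (by omega)]; exact hα1
    · rw [hyp]; exact hα2
  subst hi1
  have hel1 : Elem ends (F.erase e0) c y (p - 1) :=
    elem_of_TP (fun n' h1 _ => IHp n' h1) hc hT1
  obtain ⟨l, hl, β, hβ, hβU⟩ := exists_unused he0 hkd (s := p - 2) (by omega) hk.start
    (fun a b hab hb => hel1 a b hab (by omega)) (usedCol c ed p)
    ((usedCol_card c ed p).trans (by omega))
  have hβ' := not_mem_usedCol hβU
  have hr1 : (abGraph ends (F.erase e0) c α β).Reachable (y (p - 1)) (y l) := by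
    refine TTree.reach hc hT1 ?_ (fun a h2 ha => ⟨hun1 a h2 (by omega), hβ' a h2 (by omega)⟩)
      le_rfl (by omega) (by omega) hα1 hβ
    intro c' hc' ht'
    exact elem_of_TP (fun n' h1 _ => IHp n' h1) hc' ht'
  have hr2 : (abGraph ends (F.erase e0) c α β).Reachable (y' (p - 1)) (y' l) := by
    refine TTree.reach hc hT' ?_ ?_ le_rfl (by omega) (by omega) (by rw [hyp]; exact hα2)
      (by rw [hyl l (by omega)]; exact hβ)
    · intro c' hc' ht'
      exact elem_of_TP (fun n' h1 _ => IHp n' h1) hc' ht'
    · intro a h2 ha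
      rcases Nat.lt_or_ge a (p - 1) with h3 | h3
      · rw [hed1 a h3]
        exact ⟨hun1 a h2 (by omega), hβ' a h2 (by omega)⟩
      · have h4 : a = p - 1 := by omega
        subst h4
        rw [hedp]
        exact ⟨hun1 p (by omega) le_rfl, hβ' p (by omega) le_rfl⟩
  rw [hyp, hyl l (by omega)] at hr2
  exact kempe_three hc (yne l (p - 1) (by omega) (by omega) (by omega))
    (yne l p (by omega) (by omega) (by omega)) (yne (p - 1) p (by omega) (by omega) (by omega))
    (Or.inr hβ) (Or.inl hα1) (Or.inl hα2) hr1.symm hr2.symm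

/-- case `n = p`, `α` unused, `i ≤ p - 2` -/
theorem tash_b1b (he0 : e0 ∈ F) (hkd : ∀ v, degOn ends F v < k) {p : ℕ} (hp : 3 ≤ p)
    (IHp : ∀ n', 1 ≤ n' → TP ends F e0 k (p - 1) n') {c : E → Fin k} {y : ℕ → V}
    {ed : ℕ → E} (hc : ProperOn ends (F.erase e0) c)
    (hk : TTree ends (F.erase e0) e0 c y ed p p) {i : ℕ} (hi : i + 2 ≤ p) {α : Fin k}
    (hun1 : ∀ a, 2 ≤ a → a ≤ p → c (ed a) ≠ α)
    (hα1 : Missing ends (F.erase e0) c (y i) α) (hα2 : Missing ends (F.erase e0) c (y p) α) :
    False := by
  obtain ⟨j, hj, hjm⟩ := hk.miss p (by omega) le_rfl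
  rcases Nat.lt_or_ge j (p - 1) with hj1 | hj1
  · exact tash_b1a he0 hkd hp IHp hc hk (by omega) hun1 hα1 hα2 (j := j) (by omega) hjm
  have hj2 : j = p - 1 := by omega
  subst hj2
  have yne : ∀ a b, a ≤ p → b ≤ p → a ≠ b → y a ≠ y b := by
    intro a b ha hb hab h
    exact hab (hk.inj a b ha hb h)
  have hT1 : TTree ends (F.erase e0) e0 c y ed (p - 1) (p - 1) :=
    hk.mono (by omega) (Or.inl le_rfl)
  have hel1 : Elem ends (F.erase e0) c y (p - 1) :=
    elem_of_TP (fun n' h1 _ => IHp n' h1) hc hT1
  set δ := c (ed p) with hδ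
  have hunδ : ∀ a, 2 ≤ a → a ≤ p - 1 → c (ed a) ≠ δ := by
    intro a h2 ha h
    obtain ⟨b, hb, hbm⟩ := hk.miss a h2 (by omega)
    rw [h] at hbm
    have := hel1.eq (i := b) (j := p - 1) (by omega) le_rfl hbm hjm
    omega
  have hr1 : (abGraph ends (F.erase e0) c α δ).Reachable (y i) (y (p - 1)) := by
    refine TTree.reach hc hT1 ?_ (fun a h2 ha => ⟨hun1 a h2 (by omega), hunδ a h2 ha⟩)
      (by omega) le_rfl (by omega) hα1 hjm
    intro c' hc' ht'
    exact elem_of_TP (fun n' h1 _ => IHp n' h1) hc' ht'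
  set K : V → Prop := fun v => (abGraph ends (F.erase e0) c α δ).Reachable (y p) v with hKdef
  have hcl : ClosedK ends (F.erase e0) c α δ K := closedK_comp ends _ c α δ (y p)
  have hKp : K (y p) := SimpleGraph.Reachable.refl _
  have hKi : ¬ K (y i) := by
    intro h
    exact kempe_three hc (yne i (p - 1) (by omega) (by omega) (by omega))
      (yne i p (by omega) (by omega) (by omega))
      (yne (p - 1) p (by omega) (by omega) (by omega)) (Or.inl hα1) (Or.inr hjm) (Or.inl hα2)
      hr1 h.symm
  have hKi1 : ¬ K (y (p - 1)) := by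
    intro h
    exact hKi (SimpleGraph.Reachable.trans h hr1.symm)
  obtain ⟨q, hq, hqe⟩ := hk.att p (by omega) le_rfl
  have hpm : y p ∈ ends (ed p) := by rw [hqe]; exact Sym2.mem_mk_right _ _
  have hnew : swapc ends c α δ K (ed p) = α := swapc_eq_left hpm hKp rfl
  have hk' : TTree ends (F.erase e0) e0 (swapc ends c α δ K) y ed p p := by
    refine hk.swap hcl ?_
    intro a h2a ha h3
    have hai : a = p := by
      by_contra hcon
      rcases h3 with h3 | h3
      · exact hun1 a h2a ha h3
      · exact hunδ a h2a (by omega) h3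
    subst hai
    rw [hnew]
    exact ⟨i, by omega, (missing_swapc_not hcl hKi _).2 hα1⟩
  have hαδ : α ≠ δ := fun h => hun1 p (by omega) le_rfl h.symm
  refine tash_b1a he0 hkd hp IHp (properOn_swapc hc hcl) hk' (i := p - 1) (by omega) (α := δ)
    ?_ ((missing_swapc_not hcl hKi1 _).2 hjm) (missing_swapc_left hKp hα2) (j := i) hi ?_
  · intro a h2 ha
    rcases Nat.lt_or_ge a p with h3 | h3
    · rw [swapc_of_ne (hun1 a h2 ha) (hunδ a h2 (by omega))]
      exact hunδ a h2 (by omega)
    · have : a = p := by omega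
      subst this
      rw [hnew]
      exact hαδ
  · rw [hnew]
    exact (missing_swapc_not hcl hKi _).2 hα1

/-- the case `i ≤ p - 2`, `α` not used up to `p` -/
theorem tash_low_unused (he0 : e0 ∈ F) (hkd : ∀ v, degOn ends F v < k) {p n : ℕ} (hp : 3 ≤ p)
    (hpn : p ≤ n) (IHp : ∀ n', 1 ≤ n' → TP ends F e0 k (p - 1) n')
    (IHn : ∀ n', 1 ≤ n' → n' < n → TP ends F e0 k p n') {c : E → Fin k} {y : ℕ → V}
    {ed : ℕ → E} (hc : ProperOn ends (F.erase e0) c)
    (hk : TTree ends (F.erase e0) e0 c y ed p n) {i : ℕ} (hi : i + 2 ≤ p) {α : Fin k}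
    (hun1 : ∀ a, 2 ≤ a → a ≤ p → c (ed a) ≠ α)
    (hα1 : Missing ends (F.erase e0) c (y i) α) (hα2 : Missing ends (F.erase e0) c (y n) α) :
    False := by
  rcases Nat.lt_or_ge p n with h1 | h1
  · exact tash_mid hkd (by omega) h1 IHn hc hk (by omega) hun1 hα1 hα2
  · have : p = n := by omega
    subst this
    exact tash_b1b he0 hkd hp IHp hc hk hi hun1 hα1 hα2

/-- the case `i ≤ p - 2` -/
theorem tash_low (he0 : e0 ∈ F) (hkd : ∀ v, degOn ends F v < k) {p n : ℕ} (hp : 3 ≤ p)
    (hpn : p ≤ n) (IHp : ∀ n', 1 ≤ n' → TP ends F e0 k (p - 1) n')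
    (IHn : ∀ n', 1 ≤ n' → n' < n → TP ends F e0 k p n') {c : E → Fin k} {y : ℕ → V}
    {ed : ℕ → E} (hc : ProperOn ends (F.erase e0) c)
    (hk : TTree ends (F.erase e0) e0 c y ed p n) {i : ℕ} (hi : i + 2 ≤ p) {α : Fin k}
    (hα1 : Missing ends (F.erase e0) c (y i) α) (hα2 : Missing ends (F.erase e0) c (y n) α) :
    False := by
  have hT1 : TTree ends (F.erase e0) e0 c y ed (p - 1) (p - 1) :=
    hk.mono (by omega) (Or.inl le_rfl)
  have hT2 : TTree ends (F.erase e0) e0 c y ed (p - 1) (p - 2) :=
    hk.mono (by omega) (Or.inl (by omega))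
  have hel1 : Elem ends (F.erase e0) c y (p - 1) :=
    elem_of_TP (fun n' h1 _ => IHp n' h1) hc hT1
  obtain ⟨l, hl, γ, hγ, hγU⟩ := exists_unused he0 hkd (s := p - 2) (by omega) hk.start
    (fun a b hab hb => hel1 a b hab (by omega)) (usedCol c ed p)
    ((usedCol_card c ed p).trans (by omega))
  have hγ' := not_mem_usedCol hγU
  have yne : ∀ a b, a ≤ n → b ≤ n → a ≠ b → y a ≠ y b := by
    intro a b ha hb hab h
    exact hab (hk.inj a b ha hb h)
  set K : V → Prop := fun v => (abGraph ends (F.erase e0) c α γ).Reachable (y n) v with hKdef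
  have hcl : ClosedK ends (F.erase e0) c α γ K := closedK_comp ends _ c α γ (y n)
  have hKn : K (y n) := SimpleGraph.Reachable.refl _
  -- the component of `y n` avoids `y 0, …, y (p-1)`
  have hK : ∀ t, t ≤ p - 1 → ¬ K (y t) := by
    intro t ht hKt
    obtain ⟨w, hw⟩ := (SimpleGraph.Reachable.symm hKt).exists_isPath
    have hSn : ¬ (∃ a, a ≤ p - 2 ∧ y a = y n) := by
      rintro ⟨a, ha, h⟩
      exact yne a n (by omega) le_rfl (by omega) h
    rcases last_exit (fun v => ∃ a, a ≤ p - 2 ∧ y a = v) w hw hSn with h1 | h1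
    · -- the walk avoids `y 0, …, y (p-2)`
      have ht1 : t = p - 1 := by
        by_contra hcon
        exact h1 (y t) (SimpleGraph.Walk.start_mem_support w) ⟨t, by omega, rfl⟩
      subst ht1
      obtain ⟨y', ed', n', hn', ht', hy', hag⟩ := TTree.extend_walk w hw y ed (p - 1) (by omega)
        hT1 rfl ⟨i, by omega, hα1⟩ ⟨l, by omega, hγ⟩
        (by
          intro z hz a ha h
          exact h1 z hz ⟨a, by omega, h⟩)
      refine IHp n' (by omega) c y' ed' hc ht' i (by omega) α ⟨?_, ?_⟩
      · rw [hag i (by omega)]; exact hα1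
      · rw [hy']; exact hα2
    · obtain ⟨z, z', ⟨a, ha, haz⟩, hadj, q, hq, hqS⟩ := h1
      obtain ⟨_, f, hf, hcf, hfe⟩ := hadj
      have hm : ∃ b ≤ p - 2, Missing ends (F.erase e0) c (y b) (c f) := by
        rcases hcf with h1 | h1
        · rw [h1]; exact ⟨i, by omega, hα1⟩
        · rw [h1]; exact ⟨l, hl, hγ⟩
      obtain ⟨b, hb, hbm⟩ := hm
      have hT3 := hT2.extend (by omega) (f := f) (z := z') (a := a) (b := b) (q := p - 1)
        hf ha (by rw [haz]; exact hfe)
        (fun j hj h => hqS z' (SimpleGraph.Walk.start_mem_support q) ⟨j, hj, h⟩) hb hbm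
        (Or.inl (by omega)) (Or.inr (by omega))
      have hyl : ∀ j, j ≤ p - 2 → Function.update y (p - 2 + 1) z' j = y j := by
        intro j hj
        rw [Function.update_of_ne (by omega)]
      obtain ⟨y', ed', n', hn', ht', hy', hag⟩ := TTree.extend_walk q hq _ _ (p - 2 + 1) (by omega)
        hT3 (Function.update_self _ _ _)
        ⟨i, by omega, by rw [hyl i (by omega)]; exact hα1⟩
        ⟨l, by omega, by rw [hyl l (by omega)]; exact hγ⟩
        (by
          intro x hx j hj h
          rw [hyl j (by omega)] at h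
          exact hqS x hx ⟨j, by omega, h⟩)
      refine IHp n' (by omega) c y' ed' hc ht' i (by omega) α ⟨?_, ?_⟩
      · rw [hag i (by omega), hyl i (by omega)]; exact hα1
      · rw [hy']; exact hα2
  have hKi : ¬ K (y i) := hK i (by omega)
  have hKl : ¬ K (y l) := hK l (by omega)
  have hsame : ∀ a, 2 ≤ a → a ≤ p → swapc ends c α γ K (ed a) = c (ed a) := by
    intro a h2 ha
    obtain ⟨b, hb, hbe⟩ := hk.att a h2 (by omega)
    exact swapc_of_not hcl (hk.mem a h2 (by omega)) (v := y b)
      (by rw [hbe]; exact Sym2.mem_mk_left _ _) (hK b (by omega))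
  have hk' : TTree ends (F.erase e0) e0 (swapc ends c α γ K) y ed p n := by
    refine hk.swap hcl ?_
    intro a h2a ha h3
    rcases Nat.lt_or_ge p a with h4 | h4
    · rcases swapc_or (ends := ends) (K := K) h3 with h5 | h5
      · rw [h5]
        exact ⟨i, by omega, (missing_swapc_not hcl hKi _).2 hα1⟩
      · rw [h5]
        exact ⟨l, by omega, (missing_swapc_not hcl hKl _).2 hγ⟩
    · rw [hsame a h2a h4]
      obtain ⟨b, hb, hbm⟩ := hk.miss a h2a ha
      exact ⟨b, hb, (missing_swapc_not hcl (hK b (by omega)) _).2 hbm⟩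
  refine tash_low_unused he0 hkd hp hpn IHp IHn (properOn_swapc hc hcl) hk' (i := l) (by omega)
    (α := γ) ?_ ((missing_swapc_not hcl hKl _).2 hγ) (missing_swapc_left hKn hα2)
  intro a h2 ha
  rw [hsame a h2 ha]
  exact hγ' a h2 ha

/-- the case `i = p - 1` -/
theorem tash_pred (he0 : e0 ∈ F) (hkd : ∀ v, degOn ends F v < k) {p n : ℕ} (hp : 3 ≤ p)
    (hpn : p ≤ n) (IHp : ∀ n', 1 ≤ n' → TP ends F e0 k (p - 1) n')
    (IHn : ∀ n', 1 ≤ n' → n' < n → TP ends F e0 k p n') {c : E → Fin k} {y : ℕ → V}
    {ed : ℕ → E} (hc : ProperOn ends (F.erase e0) c)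
    (hk : TTree ends (F.erase e0) e0 c y ed p n) {α : Fin k}
    (hα1 : Missing ends (F.erase e0) c (y (p - 1)) α)
    (hα2 : Missing ends (F.erase e0) c (y n) α) : False := by
  have hT1 : TTree ends (F.erase e0) e0 c y ed (p - 1) (p - 1) :=
    hk.mono (by omega) (Or.inl le_rfl)
  have hel1 : Elem ends (F.erase e0) c y (p - 1) :=
    elem_of_TP (fun n' h1 _ => IHp n' h1) hc hT1
  obtain ⟨l, hl, γ, hγ, hγU⟩ := exists_unused he0 hkd (s := p - 2) (by omega) hk.start
    (fun a b hab hb => hel1 a b hab (by omega)) (usedCol c ed p)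
    ((usedCol_card c ed p).trans (by omega))
  have hγ' := not_mem_usedCol hγU
  have yne : ∀ a b, a ≤ n → b ≤ n → a ≠ b → y a ≠ y b := by
    intro a b ha hb hab h
    exact hab (hk.inj a b ha hb h)
  have hunα : ∀ a, 2 ≤ a → a ≤ p - 1 → c (ed a) ≠ α := by
    intro a h2 ha h
    obtain ⟨b, hb, hbm⟩ := hk.miss a h2 (by omega)
    rw [h] at hbm
    have := hel1.eq (i := b) (j := p - 1) (by omega) le_rfl hbm hα1
    omega
  have hr1 : (abGraph ends (F.erase e0) c α γ).Reachable (y (p - 1)) (y l) := by
    refine TTree.reach hc hT1 ?_ (fun a h2 ha => ⟨hunα a h2 ha, hγ' a h2 (by omega)⟩)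
      le_rfl (by omega) (by omega) hα1 hγ
    intro c' hc' ht'
    exact elem_of_TP (fun n' h1 _ => IHp n' h1) hc' ht'
  set K : V → Prop := fun v => (abGraph ends (F.erase e0) c α γ).Reachable (y n) v with hKdef
  have hcl : ClosedK ends (F.erase e0) c α γ K := closedK_comp ends _ c α γ (y n)
  have hKn : K (y n) := SimpleGraph.Reachable.refl _
  have hKl : ¬ K (y l) := by
    intro h
    exact kempe_three hc (yne l (p - 1) (by omega) (by omega) (by omega))
      (yne l n (by omega) (by omega) (by omega))
      (yne (p - 1) n (by omega) (by omega) (by omega)) (Or.inr hγ) (Or.inl hα1) (Or.inl hα2)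
      hr1.symm h.symm
  have hKp : ¬ K (y (p - 1)) := by
    intro h
    exact hKl (SimpleGraph.Reachable.trans h hr1)
  have hk' : TTree ends (F.erase e0) e0 (swapc ends c α γ K) y ed p n := by
    refine hk.swap hcl ?_
    intro a h2a ha h3
    have hpa : p ≤ a := by
      by_contra hcon
      push Not at hcon
      rcases h3 with h3 | h3
      · exact hunα a h2a (by omega) h3
      · exact hγ' a h2a (by omega) h3
    rcases swapc_or (ends := ends) (K := K) h3 with h5 | h5
    · rw [h5]
      exact ⟨p - 1, by omega, (missing_swapc_not hcl hKp _).2 hα1⟩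
    · rw [h5]
      exact ⟨l, by omega, (missing_swapc_not hcl hKl _).2 hγ⟩
  exact tash_low he0 hkd hp hpn IHp IHn (properOn_swapc hc hcl) hk' (i := l) (by omega)
    (α := γ) ((missing_swapc_not hcl hKl _).2 hγ) (missing_swapc_left hKn hα2)

/-- **Tashkinov's theorem.** -/
theorem tashkinov (he0 : e0 ∈ F) (hF : ¬ ∃ c : E → Fin k, ProperOn ends F c)
    (hkd : ∀ v, degOn ends F v < k) : ∀ p, 1 ≤ p → ∀ n, 1 ≤ n → TP ends F e0 k p n := by
  intro p hp
  induction p, hp using Nat.le_induction with
  | base => intro n hn; exact tash_base he0 hF hkd hn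
  | succ p hp IHp =>
    rcases Nat.lt_or_ge p 2 with h2 | h2
    · have : p = 1 := by omega
      subst this
      intro n hn
      exact tash_two he0 hF hkd hn
    · intro n
      induction n using Nat.strong_induction_on with
      | _ n IHn =>
        intro hn
        rcases Nat.lt_or_ge n (p + 1) with h3 | h3
        · intro c y ed hc ht
          exact IHp n hn c y ed hc (ht.mono le_rfl (Or.inl (by omega)))
        · intro c y ed hc ht i hi γ
          rintro ⟨h4, h5⟩
          have IHn' : ∀ n', 1 ≤ n' → n' < n → TP ends F e0 k (p + 1) n' :=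
            fun n' h1 h2 => IHn n' h2 h1
          have IHp' : ∀ n', 1 ≤ n' → TP ends F e0 k (p + 1 - 1) n' := by
            rw [Nat.add_sub_cancel]; exact IHp
          rcases Nat.lt_or_ge i (p + 1) with h6 | h6
          · rcases Nat.lt_or_ge i p with h7 | h7
            · exact tash_low he0 hkd (by omega) h3 IHp' IHn' hc ht (i := i) (by omega) h4 h5
            · have h8 : i = p + 1 - 1 := by omega
              subst h8
              exact tash_pred he0 hkd (by omega) h3 IHp' IHn' hc ht h4 h5
          · exact tash_high hkd (by omega) IHn' (n - i - 1) i h6 (by omega) c y ed hc ht γ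
              ⟨h4, h5⟩

/-- The vertices of a Tashkinov tree have pairwise disjoint sets of missing colours. -/
theorem tashkinov_elem (he0 : e0 ∈ F) (hF : ¬ ∃ c : E → Fin k, ProperOn ends F c)
    (hkd : ∀ v, degOn ends F v < k) {c : E → Fin k} {y : ℕ → V} {ed : ℕ → E} {p n : ℕ}
    (hc : ProperOn ends (F.erase e0) c) (ht : TTree ends (F.erase e0) e0 c y ed p n) :
    Elem ends (F.erase e0) c y n :=
  elem_of_TP (p := p + n + 1) (fun n' h1 _ => tashkinov he0 hF hkd (p + n + 1) (by omega) n' h1)
    hc (ht.mono le_rfl (Or.inl (by omega)))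

end thm

end Pool.Agent.Lib.MP_633d19_co
end
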